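import Pool.Agent.SEC.Defs

/-!
SEC-A1 (MP_d19687_ag, project SEC).
-/

open Filter Topology

namespace Pool.Agent.SEC

variable {E F : Type*} [NormedAddCommGroup E] [NormedSpace ℂ E] [FiniteDimensional ℂ E]
  [NormedAddCommGroup F] [NormedSpace ℂ F] [FiniteDimensional ℂ F]

/-- Local form of an analytic submersion `g` at `x`: coordinates `(g, κ)` with analytic inverse `Ψ`.

Proof. `L := fderiv ℂ g x` is surjective.  Let `d := finrank (ker L)`, choose a linear projection
`p : E →L ker L` (`Submodule.ClosedComplemented.exists...` or `LinearMap.exists_leftInverse_of_injective`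
applied to `(ker L).subtype`) and a linear equivalence `e : ker L ≃L (Fin d → ℂ)`; `k := e ∘ p`.  Put
`κ y := k (y - x)` and `H y := (g y, κ y)`.  `H` is analytic at `x`, with derivative
`v ↦ (L v, k v)`, injective (if `L v = 0` then `k v = e v`), hence bijective by dimension count
(`finrank E = finrank F + d` by rank-nullity `LinearMap.finrank_range_add_finrank_ker`); make it a
continuous linear equivalence (`LinearEquiv.ofInjective...`/`ContinuousLinearEquiv.ofBijective` or
`LinearEquiv.toContinuousLinearEquiv`).  Now the inverse function theorem: `HasStrictFDerivAt.to_localInverse`,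
`ContDiffAt.to_localInverse` with smoothness `ω` (`AnalyticAt.contDiffAt`, `ContDiffAt.analyticAt`), or
`OpenPartialHomeomorph.analyticAt_symm`, gives the analytic local inverse `Ψ` of `H` at
`H x = (g x, 0)`. -/
theorem straighten (g : E → F) (x : E) (hg : AnalyticAt ℂ g x)
    (hs : Function.Surjective (fderiv ℂ g x)) :
    ∃ (d : ℕ) (Ψ : F × (Fin d → ℂ) → E) (κ : E → (Fin d → ℂ)),
      Module.finrank ℂ E = Module.finrank ℂ F + d ∧
      AnalyticAt ℂ Ψ (g x, 0) ∧ Ψ (g x, 0) = x ∧
      AnalyticAt ℂ κ x ∧ κ x = 0 ∧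
      (∀ᶠ y in 𝓝 x, Ψ (g y, κ y) = y) ∧
      (∀ᶠ q in 𝓝 (g x, (0 : Fin d → ℂ)), g (Ψ q) = q.1 ∧ κ (Ψ q) = q.2) := by
  have : CompleteSpace E := FiniteDimensional.complete ℂ E
  have : CompleteSpace F := FiniteDimensional.complete ℂ F
  set L : E →L[ℂ] F := fderiv ℂ g x with hL
  let K : Submodule ℂ E := LinearMap.ker (L : E →ₗ[ℂ] F)
  have hdim : Module.finrank ℂ E = Module.finrank ℂ F + Module.finrank ℂ K := by
    have h1 := LinearMap.finrank_range_add_finrank_ker (L : E →ₗ[ℂ] F)
    have h2 : LinearMap.range (L : E →ₗ[ℂ] F) = ⊤ := by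
      rw [LinearMap.range_eq_top]
      exact hs
    rw [h2, finrank_top] at h1
    exact h1.symm
  obtain ⟨p, hp⟩ := LinearMap.exists_leftInverse_of_injective K.subtype
    (LinearMap.ker_eq_bot.2 K.injective_subtype)
  let e : K ≃ₗ[ℂ] (Fin (Module.finrank ℂ K) → ℂ) := (Module.finBasis ℂ K).equivFun
  let k : E →L[ℂ] (Fin (Module.finrank ℂ K) → ℂ) :=
    LinearMap.toContinuousLinearMap ((e : K →ₗ[ℂ] _).comp p)
  have hk : ∀ v, k v = e (p v) := fun v => rfl
  let H : E → F × (Fin (Module.finrank ℂ K) → ℂ) := fun y => (g y, k (y - x))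
  let H' : E →L[ℂ] F × (Fin (Module.finrank ℂ K) → ℂ) := L.prod k
  have hinj : Function.Injective (H' : E →ₗ[ℂ] F × (Fin (Module.finrank ℂ K) → ℂ)) := by
    rw [← LinearMap.ker_eq_bot, LinearMap.ker_eq_bot']
    intro v hv
    have h1 : L v = 0 := congrArg Prod.fst hv
    have h2 : k v = 0 := congrArg Prod.snd hv
    rw [hk] at h2
    have h3 : p v = 0 := by
      have := congrArg e.symm h2
      simpa using this
    have h4 : v ∈ K := h1
    have h5 := LinearMap.congr_fun hp ⟨v, h4⟩
    simp only [LinearMap.comp_apply, Submodule.subtype_apply, LinearMap.id_apply] at h5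
    rw [h3] at h5
    exact (congrArg Subtype.val h5).symm
  let Φ : E ≃L[ℂ] F × (Fin (Module.finrank ℂ K) → ℂ) :=
    (LinearEquiv.ofInjectiveOfFinrankEq (H' : E →ₗ[ℂ] F × (Fin (Module.finrank ℂ K) → ℂ)) hinj
      (by rw [Module.finrank_prod, Module.finrank_fin_fun]; exact hdim)).toContinuousLinearEquiv
  have hΦ : (Φ : E →L[ℂ] F × (Fin (Module.finrank ℂ K) → ℂ)) = H' := by
    ext v <;> rfl
  have hκ : HasStrictFDerivAt (fun y => k (y - x)) k x := by
    have h0 : HasStrictFDerivAt (fun y : E => y - x) (ContinuousLinearMap.id ℂ E) x :=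
      (hasStrictFDerivAt_id x).sub_const x
    have h1 := HasStrictFDerivAt.comp (f := fun y : E => y - x) (g := k) x k.hasStrictFDerivAt h0
    rw [ContinuousLinearMap.comp_id] at h1
    exact h1
  have hH : HasStrictFDerivAt H (Φ : E →L[ℂ] F × (Fin (Module.finrank ℂ K) → ℂ)) x := by
    rw [hΦ]
    exact hg.hasStrictFDerivAt.prodMk hκ
  have hHx : H x = (g x, 0) := by
    simp [H]
  have hκa : ∀ y, AnalyticAt ℂ (fun y => k (y - x)) y := fun y =>
    (k.analyticAt (y - x)).comp_of_eq (analyticAt_id.sub analyticAt_const) rfl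
  have hHa : AnalyticAt ℂ H x := hg.prod (hκa x)
  have hleft := hH.eventually_left_inverse
  have hright := hH.eventually_right_inverse
  have hval := hH.localInverse_apply_image
  have hana : AnalyticAt ℂ (hH.localInverse H Φ x) (H x) :=
    (hH.toOpenPartialHomeomorph H).analyticAt_symm' (i := Φ)
      hH.mem_toOpenPartialHomeomorph_source hHa hH.hasFDerivAt.fderiv
  rw [hHx] at hright hval hana
  refine ⟨Module.finrank ℂ K, hH.localInverse H Φ x, fun y => k (y - x), hdim, hana, hval, hκa x,
    by simp, hleft, ?_⟩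
  filter_upwards [hright] with q hq
  exact ⟨congrArg Prod.fst hq, congrArg Prod.snd hq⟩

end Pool.Agent.SEC
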