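import Pool.Agent.SEC.Defs

/-!
SEC-A2a (MP_d19687_ag, project SEC).
-/

open Filter Topology

namespace Pool.Agent.SEC

variable {E W : Type*} [NormedAddCommGroup E] [NormedSpace ℂ E]
  [NormedAddCommGroup W] [NormedSpace ℂ W] [CompleteSpace W]

/-- The map `(y, ε) ↦ (y, t ε)`. -/
private noncomputable def scl (E : Type*) [NormedAddCommGroup E] [NormedSpace ℂ E] (t : ℝ) :
    E × ℂ →L[ℂ] E × ℂ :=
  (ContinuousLinearMap.fst ℂ E ℂ).prod ((t : ℂ) • ContinuousLinearMap.snd ℂ E ℂ)

private theorem scl_apply (t : ℝ) (v : E × ℂ) : scl E t v = (v.1, (t : ℂ) * v.2) := rfl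

private theorem scl_norm {t : ℝ} (h0 : 0 ≤ t) (h1 : t ≤ 1) (v : E × ℂ) : ‖scl E t v‖ ≤ ‖v‖ := by
  rw [scl_apply, Prod.norm_def, Prod.norm_def]
  have h2 : ‖(t : ℂ)‖ ≤ 1 := by
    rw [Complex.norm_real, Real.norm_eq_abs, abs_of_nonneg h0]
    exact h1
  apply max_le_max le_rfl
  simp only [norm_mul]
  calc ‖(t : ℂ)‖ * ‖v.2‖ ≤ 1 * ‖v.2‖ := mul_le_mul_of_nonneg_right h2 (norm_nonneg _)
    _ = ‖v.2‖ := one_mul _

private theorem scl_opNorm {t : ℝ} (h0 : 0 ≤ t) (h1 : t ≤ 1) : ‖scl E t‖ ≤ 1 :=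
  ContinuousLinearMap.opNorm_le_bound _ zero_le_one fun v => by
    rw [one_mul]
    exact scl_norm h0 h1 v

private theorem scl_continuous : Continuous fun t : ℝ => scl E t := by
  have h1 : (fun t : ℝ => scl E t) = fun t : ℝ =>
      (ContinuousLinearMap.fst ℂ E ℂ).prod (0 : E × ℂ →L[ℂ] ℂ) +
        (t : ℂ) • (0 : E × ℂ →L[ℂ] E).prod (ContinuousLinearMap.snd ℂ E ℂ) := by
    funext t
    ext v <;> simp [scl]
  rw [h1]
  exact continuous_const.add ((Complex.continuous_ofReal).smul continuous_const)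

private theorem comp_continuous {n : ℕ} (q : ContinuousMultilinearMap ℂ (fun _ : Fin n => E × ℂ) W) :
    Continuous fun t : ℝ => q.compContinuousLinearMap fun _ => scl E t := by
  have h1 : Continuous fun t : ℝ =>
      ContinuousMultilinearMap.compContinuousLinearMapLRight
        (E := fun _ : Fin n => E × ℂ) q fun _ => scl E t :=
    (ContinuousMultilinearMap.compContinuousLinearMapLRight
      (E := fun _ : Fin n => E × ℂ) q).cont.comp (continuous_pi fun _ => scl_continuous)
  exact h1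

/-- Average of an analytic function over `t ∈ [0,1]` along `(e, ε) ↦ (e, t ε)`.

Proof. Let `p` be the power series of `F` at `(e₀, 0)` on a ball of radius `r`.  For `t ∈ [0,1]` let
`L_t : E × ℂ →L E × ℂ`, `L_t (y, ε) = (y, t ε)`, `‖L_t‖ ≤ 1`, so that
`F (e₀ + y, t ε) = ∑ p_n (L_t (y, ε), …)` for `‖(y, ε)‖ < r`.  Put
`q_n := ∫ t in 0..1, (p n).compContinuousLinearMap (fun _ => L_t)` (Bochner integral in the Banach space
of multilinear maps, continuous integrand), `‖q_n‖ ≤ ‖p_n‖`.  Then `q` has radius at least that of `p`,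
and `∑ q_n (y, ε)^n = ∑ ∫ p_n (L_t (y, ε))^n = ∫ ∑ … = ∫ F (e₀ + y, t ε)`
(`intervalIntegral.hasSum_integral_of_dominated_convergence`, the bound `‖p_n‖ ‖(y, ε)‖^n` is
summable).  Any other proof is fine. -/
theorem analyticAt_mean (F : E × ℂ → W) (e₀ : E) (hF : AnalyticAt ℂ F (e₀, 0)) :
    AnalyticAt ℂ (fun q : E × ℂ => ∫ t in (0 : ℝ)..1, F (q.1, (t : ℂ) * q.2)) (e₀, 0) := by
  obtain ⟨p, r, hp⟩ := hF
  obtain ⟨r', hr0, hr1⟩ := ENNReal.lt_iff_exists_nnreal_btwn.1 hp.r_pos
  have hr0' : (0 : ENNReal) < r' := hr0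
  have hrad : (r' : ENNReal) < p.radius := hr1.trans_le hp.r_le
  let q : FormalMultilinearSeries ℂ (E × ℂ) W := fun n =>
    ∫ t in (0 : ℝ)..1, (p n).compContinuousLinearMap fun _ => scl E t
  have hle : ∀ n, ‖q n‖ ≤ ‖p n‖ := by
    intro n
    have h1 : ‖∫ t in (0 : ℝ)..1, (p n).compContinuousLinearMap fun _ => scl E t‖ ≤
        ‖p n‖ * |(1 : ℝ) - 0| := by
      apply intervalIntegral.norm_integral_le_of_norm_le_const
      intro t ht
      rw [Set.uIoc_of_le zero_le_one] at ht
      refine (ContinuousMultilinearMap.norm_compContinuousLinearMap_le _ _).trans ?_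
      have h2 : ∏ i : Fin n, ‖scl E t‖ ≤ 1 :=
        Finset.prod_le_one (fun _ _ => norm_nonneg _) fun _ _ => scl_opNorm ht.1.le ht.2
      calc ‖p n‖ * ∏ i : Fin n, ‖scl E t‖ ≤ ‖p n‖ * 1 :=
            mul_le_mul_of_nonneg_left h2 (norm_nonneg _)
        _ = ‖p n‖ := mul_one _
    simpa using h1
  have happ : ∀ (n : ℕ) (y : E × ℂ),
      q n (fun _ => y) = ∫ t in (0 : ℝ)..1, p n fun _ => scl E t y := by
    intro n y
    have h1 := ContinuousLinearMap.intervalIntegral_comp_comm (μ := MeasureTheory.volume)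
      (a := (0 : ℝ)) (b := 1)
      (ContinuousMultilinearMap.apply ℂ (fun _ : Fin n => E × ℂ) W fun _ => y)
      ((comp_continuous (p n)).intervalIntegrable 0 1)
    exact h1.symm
  refine ⟨q, r', ?_, hr0', ?_⟩
  · obtain ⟨C, -, hC⟩ := p.norm_mul_pow_le_of_lt_radius hrad
    refine q.le_radius_of_bound C fun n => (mul_le_mul_of_nonneg_right (hle n) ?_).trans (hC n)
    positivity
  · intro y hy
    have hy' : ‖y‖ < r' := by
      simpa [Metric.mem_eball, edist_zero_right, enorm_lt_coe] using hy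
    simp only [happ]
    have hsum : Summable fun n => ‖p n‖ * ‖y‖ ^ n := by
      refine Summable.of_nonneg_of_le (fun n => by positivity) (fun n => ?_)
        (p.summable_norm_mul_pow hrad)
      gcongr
    apply intervalIntegral.hasSum_integral_of_dominated_convergence fun n _ => ‖p n‖ * ‖y‖ ^ n
    · intro n
      apply Continuous.aestronglyMeasurable
      exact (p n).cont.comp (continuous_pi fun _ => by
        simp only [scl_apply]
        fun_prop)
    · intro n
      refine Filter.Eventually.of_forall fun t ht => ?_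
      rw [Set.uIoc_of_le zero_le_one] at ht
      refine ((p n).le_opNorm _).trans ?_
      rw [Finset.prod_const, Finset.card_univ, Fintype.card_fin]
      have := scl_norm ht.1.le ht.2 y
      gcongr
    · exact Filter.Eventually.of_forall fun t _ => hsum
    · exact intervalIntegrable_const
    · refine Filter.Eventually.of_forall fun t ht => ?_
      rw [Set.uIoc_of_le zero_le_one] at ht
      have h1 : scl E t y ∈ Metric.eball (0 : E × ℂ) r := by
        have h2 := scl_norm ht.1.le ht.2 y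
        have h3 : ‖scl E t y‖ < r' := h2.trans_lt hy'
        have h4 : scl E t y ∈ Metric.eball (0 : E × ℂ) r' := by
          simpa [Metric.mem_eball, edist_zero_right, enorm_lt_coe] using h3
        exact Metric.eball_subset_eball hr1.le h4
      have h5 := hp.hasSum h1
      have h6 : (e₀, (0 : ℂ)) + scl E t y =
          (((e₀, (0 : ℂ)) + y).1, (t : ℂ) * ((e₀, (0 : ℂ)) + y).2) := by
        rw [scl_apply]
        ext <;> simp
      rw [h6] at h5
      exact h5

end Pool.Agent.SEC
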