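import Pool.Agent.SEC.A2a

/-!
SEC-A2b (MP_d19687_ag, project SEC).
-/

open Filter Topology

namespace Pool.Agent.SEC

variable {E W : Type*} [NormedAddCommGroup E] [NormedSpace ℂ E]
  [NormedAddCommGroup W] [NormedSpace ℂ W] [CompleteSpace W]

/-- Division by `ε`: an analytic function vanishing for `ε = 0` is `ε` times an analytic function.

Proof. `Ψ (e, ε) := ∫ t in 0..1, (∂_ε F) (e, t ε)` with `∂_ε F (q) = fderiv ℂ F q (0, 1)` analytic
(`analyticAt_mean`).  For `(e, ε)` near `(e₀, 0)` (in a ball on which `F` is analytic),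
`d/dt F (e, t ε) = ε • ∂_ε F (e, t ε)`, so by the fundamental theorem of calculus
(`intervalIntegral.integral_eq_sub_of_hasDerivAt`) `F (e, ε) = F (e, ε) - F (e, 0) = ε • Ψ (e, ε)`.
And `Ψ (e, 0) = ∂_ε F (e, 0)`. -/
theorem exists_div (F : E × ℂ → W) (e₀ : E) (hF : AnalyticAt ℂ F (e₀, 0))
    (h0 : ∀ᶠ e in 𝓝 e₀, F (e, 0) = 0) :
    ∃ Ψ : E × ℂ → W, AnalyticAt ℂ Ψ (e₀, 0) ∧ (∀ᶠ q in 𝓝 (e₀, (0 : ℂ)), F q = q.2 • Ψ q) ∧
      ∀ᶠ e in 𝓝 e₀, Ψ (e, 0) = fderiv ℂ F (e, 0) (0, 1) := by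
  let G : E × ℂ → W := fun q => fderiv ℂ F q (0, 1)
  have hG : AnalyticAt ℂ G (e₀, 0) :=
    ((ContinuousLinearMap.apply ℂ W ((0 : E), (1 : ℂ))).analyticAt _).comp hF.fderiv
  have hGa : ∀ᶠ q in 𝓝 (e₀, (0 : ℂ)), AnalyticAt ℂ G q := hG.eventually_analyticAt
  have hFa : ∀ᶠ q in 𝓝 (e₀, (0 : ℂ)), AnalyticAt ℂ F q := hF.eventually_analyticAt
  refine ⟨fun q => ∫ t in (0 : ℝ)..1, G (q.1, (t : ℂ) * q.2), analyticAt_mean G e₀ hG, ?_, ?_⟩
  · obtain ⟨δ, hδ, hball⟩ := Metric.eventually_nhds_iff.1 (hFa.and hGa)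
    obtain ⟨δ', hδ', hball'⟩ := Metric.eventually_nhds_iff.1 h0
    have hmem : ∀ᶠ q in 𝓝 (e₀, (0 : ℂ)), dist q (e₀, (0 : ℂ)) < min δ δ' :=
      Metric.ball_mem_nhds _ (lt_min hδ hδ')
    filter_upwards [hmem] with q hq
    have hq1 : dist q.1 e₀ < min δ δ' := (le_max_left _ _).trans_lt hq
    have hq2 : dist q.2 (0 : ℂ) < min δ δ' := (le_max_right _ _).trans_lt hq
    have hin : ∀ t : ℝ, t ∈ Set.uIcc (0 : ℝ) 1 →
        AnalyticAt ℂ F (q.1, (t : ℂ) * q.2) ∧ AnalyticAt ℂ G (q.1, (t : ℂ) * q.2) := by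
      intro t ht
      rw [Set.uIcc_of_le zero_le_one] at ht
      apply hball
      rw [Prod.dist_eq]
      apply max_lt (hq1.trans_le (min_le_left _ _))
      rw [dist_zero_right] at hq2 ⊢
      simp only [norm_mul, Complex.norm_real, Real.norm_eq_abs, abs_of_nonneg ht.1]
      calc t * ‖q.2‖ ≤ 1 * ‖q.2‖ := mul_le_mul_of_nonneg_right ht.2 (norm_nonneg _)
        _ = ‖q.2‖ := one_mul _
        _ < δ := hq2.trans_le (min_le_left _ _)
    have hcurve : ∀ t : ℝ, HasDerivAt (fun t : ℝ => (q.1, (t : ℂ) * q.2)) ((0 : E), q.2) t := by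
      intro t
      have h1 : HasDerivAt (fun t : ℝ => (t : ℂ) * q.2) (1 * q.2) t :=
        (Complex.ofRealCLM.hasDerivAt (x := t)).mul_const q.2
      rw [one_mul] at h1
      exact (hasDerivAt_const t q.1).prodMk h1
    have hderiv : ∀ t ∈ Set.uIcc (0 : ℝ) 1,
        HasDerivAt (fun t : ℝ => F (q.1, (t : ℂ) * q.2)) (q.2 • G (q.1, (t : ℂ) * q.2)) t := by
      intro t ht
      have h1 : HasFDerivAt F (fderiv ℂ F (q.1, (t : ℂ) * q.2)) (q.1, (t : ℂ) * q.2) :=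
        (hin t ht).1.differentiableAt.hasFDerivAt
      have h2 := (h1.restrictScalars ℝ).comp_hasDerivAt t (hcurve t)
      have h3 : (fderiv ℂ F (q.1, (t : ℂ) * q.2)) ((0 : E), q.2) =
          q.2 • G (q.1, (t : ℂ) * q.2) := by
        have h4 : ((0 : E), q.2) = q.2 • ((0 : E), (1 : ℂ)) := by
          ext <;> simp
        rw [h4, map_smul]
      rw [← h3]
      exact h2
    have hcont : ContinuousOn (fun t : ℝ => q.2 • G (q.1, (t : ℂ) * q.2)) (Set.uIcc (0 : ℝ) 1) := by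
      intro t ht
      have h1 : ContinuousAt (fun t : ℝ => G (q.1, (t : ℂ) * q.2)) t :=
        ContinuousAt.comp (f := fun t : ℝ => (q.1, (t : ℂ) * q.2)) (g := G)
          (hin t ht).2.continuousAt (hcurve t).continuousAt
      exact (h1.const_smul q.2).continuousWithinAt
    have hint := intervalIntegral.integral_eq_sub_of_hasDerivAt hderiv hcont.intervalIntegrable
    rw [intervalIntegral.integral_smul] at hint
    have h5 : F (q.1, 0) = 0 := hball' (hq1.trans_le (min_le_right _ _))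
    simp only [Complex.ofReal_one, one_mul, Complex.ofReal_zero, zero_mul, h5, sub_zero] at hint
    exact hint.symm
  · refine Filter.Eventually.of_forall fun e => ?_
    simp [G]

/-- The divided difference `(φ (s + ε ω) - φ s) / ε` (equal to `dφ_s (ω)` for `ε = 0`). -/
noncomputable def divDiff {d : ℕ} (φ : (Fin d → ℂ) → W) (q : ((Fin d → ℂ) × (Fin d → ℂ)) × ℂ) : W :=
  if q.2 = 0 then fderiv ℂ φ q.1.1 q.1.2 else q.2⁻¹ • (φ (q.1.1 + q.2 • q.1.2) - φ q.1.1)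

/-- Proof. At a point with `ε ≠ 0` clear (locally `divDiff` is the second formula).  At a point
`((s, ω), 0)`: apply `exists_div` to `F ((s, ω), ε) = φ (s + ε • ω) - φ s`, which gives `Ψ` analytic
at `((s, ω), 0)` and equal to `divDiff φ` near this point (for `ε = 0`:
`fderiv ℂ F ((s, ω), 0) (0, 1) = fderiv ℂ φ s ω` by the chain rule). -/
theorem analyticAt_divDiff {d : ℕ} (φ : (Fin d → ℂ) → W)
    (q : ((Fin d → ℂ) × (Fin d → ℂ)) × ℂ) (h1 : AnalyticAt ℂ φ q.1.1)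
    (h2 : AnalyticAt ℂ φ (q.1.1 + q.2 • q.1.2)) : AnalyticAt ℂ (divDiff φ) q := by
  obtain ⟨⟨s, ω⟩, ε⟩ := q
  have hm : ∀ q : ((Fin d → ℂ) × (Fin d → ℂ)) × ℂ,
      AnalyticAt ℂ (fun q : ((Fin d → ℂ) × (Fin d → ℂ)) × ℂ => q.1.1 + q.2 • q.1.2) q := by
    intro q
    exact (((ContinuousLinearMap.fst ℂ (Fin d → ℂ) (Fin d → ℂ)).comp
      (ContinuousLinearMap.fst ℂ ((Fin d → ℂ) × (Fin d → ℂ)) ℂ)).analyticAt q).add
      (((ContinuousLinearMap.snd ℂ ((Fin d → ℂ) × (Fin d → ℂ)) ℂ).analyticAt q).smul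
        (((ContinuousLinearMap.snd ℂ (Fin d → ℂ) (Fin d → ℂ)).comp
          (ContinuousLinearMap.fst ℂ ((Fin d → ℂ) × (Fin d → ℂ)) ℂ)).analyticAt q))
  have hm1 : ∀ q : ((Fin d → ℂ) × (Fin d → ℂ)) × ℂ,
      AnalyticAt ℂ (fun q : ((Fin d → ℂ) × (Fin d → ℂ)) × ℂ => q.1.1) q := fun q =>
    ((ContinuousLinearMap.fst ℂ (Fin d → ℂ) (Fin d → ℂ)).comp
      (ContinuousLinearMap.fst ℂ ((Fin d → ℂ) × (Fin d → ℂ)) ℂ)).analyticAt q
  have hφ2 : AnalyticAt ℂ (fun q : ((Fin d → ℂ) × (Fin d → ℂ)) × ℂ => φ (q.1.1 + q.2 • q.1.2))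
      ((s, ω), ε) :=
    AnalyticAt.comp (g := φ) (f := fun q : ((Fin d → ℂ) × (Fin d → ℂ)) × ℂ => q.1.1 + q.2 • q.1.2)
      h2 (hm _)
  have hφ1 : AnalyticAt ℂ (fun q : ((Fin d → ℂ) × (Fin d → ℂ)) × ℂ => φ q.1.1) ((s, ω), ε) :=
    AnalyticAt.comp (g := φ) (f := fun q : ((Fin d → ℂ) × (Fin d → ℂ)) × ℂ => q.1.1)
      h1 (hm1 _)
  have hF : AnalyticAt ℂ
      (fun q : ((Fin d → ℂ) × (Fin d → ℂ)) × ℂ => φ (q.1.1 + q.2 • q.1.2) - φ q.1.1)
      ((s, ω), ε) := hφ2.sub hφ1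
  by_cases hε : ε = 0
  · subst hε
    obtain ⟨Ψ, hΨ, hdiv, hzero⟩ := exists_div
      (fun q : ((Fin d → ℂ) × (Fin d → ℂ)) × ℂ => φ (q.1.1 + q.2 • q.1.2) - φ q.1.1) (s, ω) hF
      (Filter.Eventually.of_forall fun e => by simp)
    refine hΨ.congr ?_
    have hz : ∀ᶠ q in 𝓝 (((s, ω), (0 : ℂ)) : ((Fin d → ℂ) × (Fin d → ℂ)) × ℂ),
        Ψ (q.1, 0) = fderiv ℂ (fun q : ((Fin d → ℂ) × (Fin d → ℂ)) × ℂ =>
          φ (q.1.1 + q.2 • q.1.2) - φ q.1.1) (q.1, 0) (0, 1) :=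
      (continuousAt_fst (p := (((s, ω), (0 : ℂ)) :
        ((Fin d → ℂ) × (Fin d → ℂ)) × ℂ))).eventually hzero
    have ha : ∀ᶠ q in 𝓝 (((s, ω), (0 : ℂ)) : ((Fin d → ℂ) × (Fin d → ℂ)) × ℂ),
        AnalyticAt ℂ φ q.1.1 :=
      (hm1 ((s, ω), (0 : ℂ))).continuousAt.tendsto.eventually h1.eventually_analyticAt
    filter_upwards [hdiv, hz, ha] with q hq1 hq2 hq3
    obtain ⟨⟨a, w⟩, t⟩ := q
    simp only at hq1 hq2 hq3
    unfold divDiff
    by_cases ht : t = 0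
    · subst ht
      rw [if_pos rfl, hq2]
      have hda : HasFDerivAt φ (fderiv ℂ φ a) a := hq3.differentiableAt.hasFDerivAt
      have hFd : DifferentiableAt ℂ (fun q : ((Fin d → ℂ) × (Fin d → ℂ)) × ℂ =>
          φ (q.1.1 + q.2 • q.1.2) - φ q.1.1) ((a, w), 0) := by
        have h5 : AnalyticAt ℂ φ (a + (0 : ℂ) • w) := by
          rw [zero_smul, add_zero]
          exact hq3
        have h6 : AnalyticAt ℂ (fun q : ((Fin d → ℂ) × (Fin d → ℂ)) × ℂ =>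
            φ (q.1.1 + q.2 • q.1.2)) ((a, w), 0) :=
          AnalyticAt.comp (g := φ)
            (f := fun q : ((Fin d → ℂ) × (Fin d → ℂ)) × ℂ => q.1.1 + q.2 • q.1.2) h5 (hm _)
        have h7 : AnalyticAt ℂ (fun q : ((Fin d → ℂ) × (Fin d → ℂ)) × ℂ => φ q.1.1)
            ((a, w), 0) :=
          AnalyticAt.comp (g := φ)
            (f := fun q : ((Fin d → ℂ) × (Fin d → ℂ)) × ℂ => q.1.1) hq3 (hm1 _)
        exact (h6.sub h7).differentiableAt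
      have hc : HasDerivAt (fun t : ℂ => ((a, w), t))
          ((0 : (Fin d → ℂ) × (Fin d → ℂ)), (1 : ℂ)) 0 :=
        (hasDerivAt_const (0 : ℂ) (a, w)).prodMk (hasDerivAt_id 0)
      have hA := hFd.hasFDerivAt.comp_hasDerivAt (0 : ℂ) hc
      have hc2 : HasDerivAt (fun t : ℂ => a + t • w) w 0 := by
        have h8 := ((hasDerivAt_id (0 : ℂ)).smul_const w).const_add a
        rw [one_smul] at h8
        exact h8
      have hda' : HasFDerivAt φ (fderiv ℂ φ a) (a + (0 : ℂ) • w) := by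
        rw [zero_smul, add_zero]
        exact hda
      have hB := (hda'.comp_hasDerivAt (0 : ℂ) hc2).sub_const (φ a)
      exact hA.unique hB
    · rw [if_neg ht]
      have h9 : Ψ ((a, w), t) = t⁻¹ • (t • Ψ ((a, w), t)) := by
        rw [smul_smul, inv_mul_cancel₀ ht, one_smul]
      rw [h9, ← hq1]
  · have hne : ∀ᶠ q in 𝓝 (((s, ω), ε) : ((Fin d → ℂ) × (Fin d → ℂ)) × ℂ), q.2 ≠ 0 :=
      (continuousAt_snd (p := (((s, ω), ε) :
        ((Fin d → ℂ) × (Fin d → ℂ)) × ℂ))).eventually_ne hε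
    have hinv : AnalyticAt ℂ (fun q : ((Fin d → ℂ) × (Fin d → ℂ)) × ℂ => q.2⁻¹) ((s, ω), ε) :=
      analyticAt_snd.inv hε
    refine (hinv.smul hF).congr ?_
    filter_upwards [hne] with q hq
    unfold divDiff
    rw [if_neg hq]
    rfl

end Pool.Agent.SEC
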