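import Pool.Agent.SEC.Defs

/-!
SEC-A3 (MP_d19687_ag, project SEC).
-/

open Filter Topology

namespace Pool.Agent.SEC

/-- Iterated directional derivatives `∂_{i₁} … ∂_{i_m} h`. -/
noncomputable def wordD {N : ℕ} (h : (Fin N → ℂ) → ℂ) : List (Fin N) → (Fin N → ℂ) → ℂ
  | [] => h
  | i :: w => fun x => fderiv ℂ (wordD h w) x (Pi.single i 1)

theorem analyticAt_wordD {N : ℕ} {h : (Fin N → ℂ) → ℂ} {y : Fin N → ℂ} (hh : AnalyticAt ℂ h y)
    (w : List (Fin N)) : AnalyticAt ℂ (wordD h w) y := by
  induction w with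
  | nil => exact hh
  | cons i w ih =>
    have h1 : AnalyticAt ℂ (fderiv ℂ (wordD h w)) y := AnalyticAt.fderiv ih
    have h2 := (ContinuousLinearMap.apply ℂ ℂ (Pi.single i 1 : Fin N → ℂ)).analyticAt
      (fderiv ℂ (wordD h w) y)
    exact h2.comp h1

/-- The values of the iterated derivative on the basis vectors. -/
private theorem iteratedFDeriv_wordD {N : ℕ} {h : (Fin N → ℂ) → ℂ} (n : ℕ) :
    ∀ x : Fin N → ℂ, AnalyticAt ℂ h x → ∀ idx : Fin n → Fin N,
      iteratedFDeriv ℂ n h x (fun k => Pi.single (idx k) 1) = wordD h (List.ofFn idx) x := by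
  induction n with
  | zero =>
    intro x _ idx
    rw [iteratedFDeriv_zero_apply, List.ofFn_zero]
    rfl
  | succ n ih =>
    intro x hx idx
    rw [iteratedFDeriv_succ_apply_left, List.ofFn_succ]
    have h1 : ∀ᶠ x' in 𝓝 x, iteratedFDeriv ℂ n h x'
        (fun k => Pi.single (idx k.succ) 1) = wordD h (List.ofFn fun k => idx k.succ) x' := by
      filter_upwards [hx.eventually_analyticAt] with x' hx'
      exact ih x' hx' fun k => idx k.succ
    have h5 : ContDiffAt ℂ 1 (iteratedFDeriv ℂ n h) x := by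
      have h6 : ContDiffAt ℂ ((1 + n : ℕ) : WithTop ℕ∞) h x := hx.contDiffAt
      refine h6.iteratedFDeriv_right ?_
      norm_cast
    have h2 : DifferentiableAt ℂ (iteratedFDeriv ℂ n h) x := h5.differentiableAt one_ne_zero
    have h3 : HasFDerivAt (fun x' => iteratedFDeriv ℂ n h x' (fun k => Pi.single (idx k.succ) 1))
        ((ContinuousMultilinearMap.apply ℂ (fun _ : Fin n => (Fin N → ℂ)) ℂ
          (fun k => Pi.single (idx k.succ) 1)).comp (fderiv ℂ (iteratedFDeriv ℂ n h) x)) x :=
      (ContinuousMultilinearMap.apply ℂ (fun _ : Fin n => (Fin N → ℂ)) ℂ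
          (fun k => Pi.single (idx k.succ) 1)).hasFDerivAt.comp x h2.hasFDerivAt
    have h4 : fderiv ℂ (wordD h (List.ofFn fun k => idx k.succ)) x =
        (ContinuousMultilinearMap.apply ℂ (fun _ : Fin n => (Fin N → ℂ)) ℂ
          (fun k => Pi.single (idx k.succ) 1)).comp (fderiv ℂ (iteratedFDeriv ℂ n h) x) := by
      rw [← h3.fderiv]
      exact (Filter.EventuallyEq.fderiv_eq h1).symm
    show _ = fderiv ℂ (wordD h (List.ofFn fun k => idx k.succ)) x (Pi.single (idx 0) 1)
    rw [h4]
    rfl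

/-- If all iterated directional derivatives of `h` vanish at `y` then `h = 0` near `y`.

Proof. `iteratedFDeriv ℂ n h y` is multilinear and its values on the basis vectors are the
`wordD h w y` (the order of the list may have to be reversed; `iteratedFDeriv_succ_apply_left`), so it
is zero; the Taylor series (`HasFPowerSeriesOnBall.hasSum_iteratedFDeriv`) is zero.  (An alternative:
`Pool.Agent.RIG.eq_zero_of_stable` with the ideal of the germs all of whose iterated constant
derivatives vanish at `y`.) -/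
theorem eventually_zero_of_wordD {N : ℕ} {h : (Fin N → ℂ) → ℂ} {y : Fin N → ℂ}
    (hh : AnalyticAt ℂ h y) (h0 : ∀ w, wordD h w y = 0) : ∀ᶠ x in 𝓝 y, h x = 0 := by
  have hz : ∀ n, iteratedFDeriv ℂ n h y = 0 := by
    intro n
    apply ContinuousMultilinearMap.toMultilinearMap_injective
    refine Module.Basis.ext_multilinear (fun _ => Pi.basisFun ℂ (Fin N)) fun v => ?_
    have h1 := iteratedFDeriv_wordD n y hh v
    rw [h0] at h1
    have h2 : (fun k => (Pi.basisFun ℂ (Fin N)) (v k)) =
        fun k => (Pi.single (v k) 1 : Fin N → ℂ) := by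
      funext k
      rw [Pi.basisFun_apply]
    show iteratedFDeriv ℂ n h y (fun k => (Pi.basisFun ℂ (Fin N)) (v k)) = 0
    rw [h2]
    exact h1
  obtain ⟨p, r, hp⟩ := hh
  have hball : Metric.eball y r ∈ 𝓝 y := Metric.eball_mem_nhds y hp.r_pos
  filter_upwards [hball] with x hx
  have hx' : x - y ∈ Metric.eball (0 : Fin N → ℂ) r := by
    rw [Metric.mem_eball, edist_eq_enorm_sub, sub_zero]
    rwa [Metric.mem_eball, edist_eq_enorm_sub] at hx
  have h1 := hp.hasSum_iteratedFDeriv hx'
  have h2 : (fun n : ℕ => (n.factorial : ℂ)⁻¹ • iteratedFDeriv ℂ n h y fun _ => x - y) =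
      fun _ => (0 : ℂ) := by
    funext n
    rw [hz n]
    simp
  rw [h2, add_sub_cancel] at h1
  exact h1.unique hasSum_zero

/-- The zero set of a nonzero analytic function on a connected open set is contained in a countable
union of smooth hypersurfaces.

Proof. `H` enumerates the countable family `wordD h w` (`List (Fin N)` is countable).  If `y ∈ B`,
`h y = 0` and for all `w` with `wordD h w y = 0` also `fderiv ℂ (wordD h w) y = 0`, then by induction
`wordD h w y = 0` for all `w`, so `h = 0` near `y` (`eventually_zero_of_wordD`) and `h = 0` on `B` by the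
identity theorem (`AnalyticOnNhd.eqOn_zero_of_preconnected_of_eventuallyEq_zero`). -/
theorem zero_set_cover {N : ℕ} (h : (Fin N → ℂ) → ℂ) (B : Set (Fin N → ℂ)) (hB : IsOpen B)
    (hBc : IsPreconnected B) (hh : AnalyticOnNhd ℂ h B) (hne : ∃ x ∈ B, h x ≠ 0) :
    ∃ H : ℕ → (Fin N → ℂ) → ℂ, (∀ n, ∀ y ∈ B, AnalyticAt ℂ (H n) y) ∧
      ∀ y ∈ B, h y = 0 → ∃ n, H n y = 0 ∧ fderiv ℂ (H n) y ≠ 0 := by
  obtain ⟨e, he⟩ := exists_surjective_nat (List (Fin N))
  refine ⟨fun n => wordD h (e n), fun n y hy => analyticAt_wordD (hh y hy) (e n), ?_⟩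
  intro y hy hy0
  by_contra hcon
  have h1 : ∀ w : List (Fin N), wordD h w y = 0 → fderiv ℂ (wordD h w) y = 0 := by
    intro w hw
    by_contra h2
    obtain ⟨n, hn⟩ := he w
    refine hcon ⟨n, ?_, ?_⟩
    · show wordD h (e n) y = 0
      rw [hn]
      exact hw
    · show fderiv ℂ (wordD h (e n)) y ≠ 0
      rw [hn]
      exact h2
  have h2 : ∀ w : List (Fin N), wordD h w y = 0 := by
    intro w
    induction w with
    | nil => exact hy0
    | cons i w ih =>
      show fderiv ℂ (wordD h w) y (Pi.single i 1) = 0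
      rw [h1 w ih]
      rfl
  have h3 := eventually_zero_of_wordD (hh y hy) h2
  obtain ⟨x, hx, hx0⟩ := hne
  exact hx0 (hh.eqOn_zero_of_preconnected_of_eventuallyEq_zero hBc hy h3 hx)

end Pool.Agent.SEC
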