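import Pool.Agent.SEC.Defs

/-!
SEC-A4a (MP_d19687_ag, project SEC).
-/

open Filter Topology MeasureTheory

namespace Pool.Agent.SEC

variable {E F : Type*} [NormedAddCommGroup E] [NormedSpace ℂ E] [FiniteDimensional ℂ E]
  [NormedAddCommGroup F] [NormedSpace ℂ F] [FiniteDimensional ℂ F]

/-- For a linear map `L` of rank `r` there are `P`, `Q` with `P L Q = id` on `ℂ ^ r`.
(A basis of the range, lifted by `Q`; `P` extends the coordinates.) -/
theorem exists_minor (L : E →L[ℂ] F) {r : ℕ}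
    (hr : Module.finrank ℂ (LinearMap.range (L : E →ₗ[ℂ] F)) = r) :
    ∃ (P : F →L[ℂ] (Fin r → ℂ)) (Q : (Fin r → ℂ) →L[ℂ] E), ∀ c, P (L (Q c)) = c := by
  have e : LinearMap.range (L : E →ₗ[ℂ] F) ≃ₗ[ℂ] (Fin r → ℂ) :=
    LinearEquiv.ofFinrankEq _ _ (by rw [hr, Module.finrank_fin_fun])
  obtain ⟨s, hs⟩ := LinearMap.exists_rightInverse_of_surjective
    (L : E →ₗ[ℂ] F).rangeRestrict (LinearMap.range_rangeRestrict _)
  obtain ⟨p, hp⟩ := LinearMap.exists_extend (e : LinearMap.range (L : E →ₗ[ℂ] F) →ₗ[ℂ] (Fin r → ℂ))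
  refine ⟨LinearMap.toContinuousLinearMap p,
    LinearMap.toContinuousLinearMap (s.comp (e.symm : (Fin r → ℂ) →ₗ[ℂ] _)), ?_⟩
  intro c
  have h1 : L (s (e.symm c)) = ((e.symm c : LinearMap.range (L : E →ₗ[ℂ] F)) : F) := by
    have h2 := LinearMap.congr_fun hs (e.symm c)
    have h3 := congrArg Subtype.val h2
    simpa using h3
  have h4 : p ((e.symm c : LinearMap.range (L : E →ₗ[ℂ] F)) : F) = e (e.symm c) := by
    have h5 := LinearMap.congr_fun hp (e.symm c)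
    simpa using h5
  show p (L (s (e.symm c))) = c
  rw [h1, h4, LinearEquiv.apply_symm_apply]

/-- If `det (P L Q) ≠ 0` then `L` has rank at least `r`. -/
theorem rank_ge_of_det {r : ℕ} (L : E →L[ℂ] F) (P : F →L[ℂ] (Fin r → ℂ))
    (Q : (Fin r → ℂ) →L[ℂ] E) (h : ((P.comp L).comp Q).det ≠ 0) :
    r ≤ Module.finrank ℂ (LinearMap.range (L : E →ₗ[ℂ] F)) := by
  have hu : IsUnit (LinearMap.det (((P.comp L).comp Q : (Fin r → ℂ) →L[ℂ] (Fin r → ℂ)) :
      (Fin r → ℂ) →ₗ[ℂ] (Fin r → ℂ))) := isUnit_iff_ne_zero.2 h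
  have hinj : Function.Injective ((P.comp L).comp Q) := by
    have h1 := (LinearMap.isUnit_iff_isUnit_det (((P.comp L).comp Q :
      (Fin r → ℂ) →L[ℂ] (Fin r → ℂ)) : (Fin r → ℂ) →ₗ[ℂ] (Fin r → ℂ))).2 hu
    have h2 := (Module.End.isUnit_iff _).1 h1
    exact h2.1
  have hLQ : Function.Injective ((L : E →ₗ[ℂ] F).comp (Q : (Fin r → ℂ) →ₗ[ℂ] E)) := by
    intro a b hab
    apply hinj
    have h3 : L (Q a) = L (Q b) := hab
    show P (L (Q a)) = P (L (Q b))
    rw [h3]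
  have h4 : Module.finrank ℂ (LinearMap.range ((L : E →ₗ[ℂ] F).comp (Q : (Fin r → ℂ) →ₗ[ℂ] E)))
      = r := by
    rw [LinearMap.finrank_range_of_inj hLQ, Module.finrank_fin_fun]
  rw [← h4]
  exact Submodule.finrank_mono (LinearMap.range_comp_le_range _ _)

/-- `x ↦ det (P (dg_x) Q)` is analytic where `g` is.  (`ContinuousLinearMap.det` in coordinates is a
polynomial: `Matrix.det_apply`, the entries `(P (dg_x (Q e_j))) i` are analytic.) -/
theorem analyticAt_minor {r : ℕ} (g : E → F) (P : F →L[ℂ] (Fin r → ℂ)) (Q : (Fin r → ℂ) →L[ℂ] E)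
    {x : E} (hg : AnalyticAt ℂ g x) :
    AnalyticAt ℂ (fun y => ((P.comp (fderiv ℂ g y)).comp Q).det) x := by
  have : CompleteSpace F := FiniteDimensional.complete ℂ F
  have hfd : AnalyticAt ℂ (fderiv ℂ g) x := hg.fderiv
  have hentry : ∀ i j : Fin r, AnalyticAt ℂ
      (fun y => P (fderiv ℂ g y (Q (Pi.single j 1))) i) x := by
    intro i j
    have h1 : AnalyticAt ℂ (fun A : E →L[ℂ] F =>
        (((ContinuousLinearMap.proj i : (Fin r → ℂ) →L[ℂ] ℂ).comp P).comp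
          (ContinuousLinearMap.apply ℂ F (Q (Pi.single j 1)))) A) (fderiv ℂ g x) :=
      ContinuousLinearMap.analyticAt _ _
    exact h1.comp hfd
  have heq : (fun y => ((P.comp (fderiv ℂ g y)).comp Q).det) =
      fun y => ∑ σ : Equiv.Perm (Fin r), (Equiv.Perm.sign σ : ℤ) •
        ∏ i : Fin r, P (fderiv ℂ g y (Q (Pi.single i 1))) (σ i) := by
    funext y
    have h1 : ((P.comp (fderiv ℂ g y)).comp Q).det =
        (LinearMap.toMatrix' (((P.comp (fderiv ℂ g y)).comp Q :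
          (Fin r → ℂ) →L[ℂ] (Fin r → ℂ)) : (Fin r → ℂ) →ₗ[ℂ] (Fin r → ℂ))).det := by
      rw [LinearMap.det_toMatrix']
    rw [h1, Matrix.det_apply]
    refine Finset.sum_congr rfl fun σ _ => ?_
    rw [Units.smul_def]
    congr 1
  rw [heq]
  refine Finset.analyticAt_fun_sum _ fun σ _ => ?_
  have h3 : AnalyticAt ℂ (fun y => ∏ i : Fin r, P (fderiv ℂ g y (Q (Pi.single i 1))) (σ i)) x :=
    Finset.analyticAt_fun_prod _ fun i _ => hentry (σ i) i
  simp only [zsmul_eq_mul]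
  exact analyticAt_const.mul h3

end Pool.Agent.SEC
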