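import Pool.Agent.SEC.A1
import Pool.Agent.SEC.A4a

/-!
SEC-A4b (MP_d19687_ag, project SEC).
-/

section

open Set Filter Topology Module MeasureTheory
open scoped ENNReal NNReal ContDiff

namespace Pool.Agent.SEC.RankR

variable {E : Type*} [NormedAddCommGroup E] [NormedSpace ℝ E] [FiniteDimensional ℝ E]
  {F : Type*} [NormedAddCommGroup F] [NormedSpace ℝ F] [FiniteDimensional ℝ F]
  {G : Type*} [NormedAddCommGroup G] [NormedSpace ℝ G] [FiniteDimensional ℝ G]

theorem eventually_surjective {X : Type*} [TopologicalSpace X] {A : X → E →L[ℝ] G} {p : X}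
    (hA : ContinuousAt A p) (hs : Function.Surjective (A p)) :
    ∀ᶠ x in 𝓝 p, Function.Surjective (A x) := by
  have : CompleteSpace G := FiniteDimensional.complete ℝ G
  obtain ⟨S, hS⟩ := LinearMap.exists_rightInverse_of_surjective (A p : E →ₗ[ℝ] G)
    (LinearMap.range_eq_top.2 hs)
  let S' : G →L[ℝ] E := LinearMap.toContinuousLinearMap S
  have h1 : ContinuousAt (fun x => (A x).comp S') p := hA.clm_comp continuousAt_const
  have h2 : (A p).comp S' = 1 := by
    ext y
    have := LinearMap.congr_fun hS y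
    exact this
  have h3 : ∀ᶠ x in 𝓝 p, IsUnit ((A x).comp S') := by
    refine h1.eventually_mem (Units.isOpen.mem_nhds ?_)
    rw [h2]
    exact isUnit_one
  filter_upwards [h3] with x hx
  obtain ⟨u, hu⟩ := hx
  intro y
  refine ⟨S' ((↑u⁻¹ : G →L[ℝ] G) y), ?_⟩
  have h4 : (u : G →L[ℝ] G) * (↑u⁻¹ : G →L[ℝ] G) = 1 := u.mul_inv
  have h5 := congrArg (fun B : G →L[ℝ] G => B y) h4
  rw [hu] at h5
  exact h5

theorem chart {g : E → G} {p : E} (hg : AnalyticAt ℝ g p)
    (hs : Function.Surjective (fderiv ℝ g p)) :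
    ∃ (θ : G × (fderiv ℝ g p).ker → E) (ρ : E → (fderiv ℝ g p).ker),
      AnalyticAt ℝ θ (g p, 0) ∧ ContinuousAt ρ p ∧ ρ p = 0 ∧
      (∀ᶠ x in 𝓝 p, θ (g x, ρ x) = x) ∧
      (∀ᶠ q in 𝓝 (g p, (0 : (fderiv ℝ g p).ker)), g (θ q) = q.1) := by
  have : CompleteSpace E := FiniteDimensional.complete ℝ E
  have : CompleteSpace G := FiniteDimensional.complete ℝ G
  have hst : HasStrictFDerivAt g (fderiv ℝ g p) p := hg.hasStrictFDerivAt
  have hr : (fderiv ℝ g p).range = ⊤ := LinearMap.range_eq_top.2 hs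
  have hk : (fderiv ℝ g p).ker.ClosedComplemented :=
    Submodule.ClosedComplemented.of_finiteDimensional _
  have : CompleteSpace (fderiv ℝ g p).ker := FiniteDimensional.complete ℝ _
  set φ := HasStrictFDerivAt.implicitFunctionDataOfComplemented g (fderiv ℝ g p) hst hr hk with hφ
  have hpt : φ.pt = p := rfl
  have hleft : φ.leftFun = g := rfl
  have hright : φ.rightFun = fun x => Classical.choose hk (x - p) := rfl
  have hr0 : φ.rightFun p = 0 := by rw [hright]; simp
  have hprod : φ.prodFun φ.pt = (g p, 0) := by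
    rw [hpt, ImplicitFunctionData.prodFun_apply, hr0]; rfl
  refine ⟨φ.implicitFunction.uncurry, φ.rightFun, ?_, ?_, hr0, ?_, ?_⟩
  · have h1 : ContDiffAt ℝ ω φ.implicitFunction.uncurry (φ.prodFun φ.pt) := by
      refine ImplicitFunctionData.contDiffAt_implicitFunction ?_ ?_ (by simp)
      · rw [hpt, hleft]; exact hg.contDiffAt
      · rw [hpt, hright]
        exact ((Classical.choose hk).contDiff.comp (contDiff_id.sub contDiff_const)).contDiffAt
    rw [hprod] at h1
    exact h1.analyticAt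
  · rw [hright]
    exact ((Classical.choose hk).continuous.comp (continuous_id.sub continuous_const)).continuousAt
  · have := φ.implicitFunction_apply_image
    rw [hpt] at this
    exact this
  · have := φ.leftFun_implicitFunction
    rw [hprod] at this
    exact this

/-- points near which the rank does not increase -/
theorem constant_rank {f : E → F} {U : Set E} (hU : IsOpen U) (hf : AnalyticOnNhd ℝ f U)
    {p : E} (hp : p ∈ U)
    (hrk : ∀ᶠ x in 𝓝 p, finrank ℝ (fderiv ℝ f x).range ≤ finrank ℝ (fderiv ℝ f p).range) :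
    ∃ V ∈ 𝓝 p, dimH (f '' V) ≤ (finrank ℝ (fderiv ℝ f p).range : ℕ) := by
  set R := (fderiv ℝ f p).range with hR
  obtain ⟨π, hπ⟩ : R.ClosedComplemented := Submodule.ClosedComplemented.of_finiteDimensional _
  let g : E → R := fun x => π (f x)
  have hg : ∀ x ∈ U, AnalyticAt ℝ g x := fun x hx => (π.analyticAt _).comp (hf x hx)
  have hdg : ∀ x ∈ U, fderiv ℝ g x = π.comp (fderiv ℝ f x) := fun x hx =>
    (π.hasFDerivAt.comp x (hf x hx).differentiableAt.hasFDerivAt).fderiv
  have hs : Function.Surjective (fderiv ℝ g p) := by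
    rw [hdg p hp]
    intro y
    obtain ⟨v, hv⟩ := y.2
    refine ⟨v, ?_⟩
    have : fderiv ℝ f p v = (y : F) := hv
    show π (fderiv ℝ f p v) = y
    rw [this]
    exact hπ y
  obtain ⟨θ, ρ, hθ, hρc, hρ0, hθρ, hgθ⟩ := chart (hg p hp) hs
  have hθ0 : θ (g p, 0) = p := by
    have := hθρ.self_of_nhds
    rwa [hρ0] at this
  -- surjectivity nearby
  have hsur : ∀ᶠ x in 𝓝 p, Function.Surjective (fderiv ℝ g x) :=
    eventually_surjective (hg p hp).fderiv.continuousAt hs
  -- the kernels agree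
  have hker : ∀ᶠ x in 𝓝 p, x ∈ U ∧ ∀ v, fderiv ℝ g x v = 0 → fderiv ℝ f x v = 0 := by
    filter_upwards [hsur, hrk, hU.mem_nhds hp] with x hx1 hx2 hxU
    refine ⟨hxU, fun v hv => ?_⟩
    have hle : (fderiv ℝ f x).ker ≤ (fderiv ℝ g x).ker := by
      intro w hw
      have hw' : fderiv ℝ f x w = 0 := hw
      show fderiv ℝ g x w = 0
      rw [hdg x hxU]
      show π (fderiv ℝ f x w) = 0
      rw [hw', map_zero]
    have e1 := LinearMap.finrank_range_add_finrank_ker (fderiv ℝ f x : E →ₗ[ℝ] F)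
    have e2 := LinearMap.finrank_range_add_finrank_ker (fderiv ℝ g x : E →ₗ[ℝ] R)
    have e3 : finrank ℝ (LinearMap.range (fderiv ℝ g x : E →ₗ[ℝ] R)) = finrank ℝ R := by
      rw [LinearMap.range_eq_top.2 hx1]
      exact finrank_top ℝ R
    have heq : (fderiv ℝ f x).ker = (fderiv ℝ g x).ker := by
      refine Submodule.eq_of_le_of_finrank_le hle ?_
      have e4 : finrank ℝ (LinearMap.range (fderiv ℝ f x : E →ₗ[ℝ] F)) ≤ finrank ℝ R := hx2
      have e5 : finrank ℝ (LinearMap.ker (fderiv ℝ g x : E →ₗ[ℝ] R)) ≤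
        finrank ℝ (LinearMap.ker (fderiv ℝ f x : E →ₗ[ℝ] F)) := by omega
      exact e5
    have hv' : v ∈ (fderiv ℝ g x).ker := hv
    rw [← heq] at hv'
    exact hv'
  -- transfer to the chart
  have hθc : ContinuousAt θ (g p, 0) := hθ.continuousAt
  have hq : ∀ᶠ q in 𝓝 (g p, (0 : (fderiv ℝ g p).ker)), AnalyticAt ℝ θ q ∧ θ q ∈ U ∧
      ∀ κ : (fderiv ℝ g p).ker, fderiv ℝ f (θ q) (fderiv ℝ θ q (0, κ)) = 0 := by
    have h1 : ∀ᶠ q in 𝓝 (g p, (0 : (fderiv ℝ g p).ker)),
        θ q ∈ U ∧ ∀ v, fderiv ℝ g (θ q) v = 0 → fderiv ℝ f (θ q) v = 0 := by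
      have h2 : Tendsto θ (𝓝 (g p, (0 : (fderiv ℝ g p).ker))) (𝓝 p) := by
        have := hθc.tendsto
        rwa [hθ0] at this
      exact h2.eventually hker
    filter_upwards [h1, hθ.eventually_analyticAt, hgθ.eventually_nhds] with q hq1 hq2 hq3
    refine ⟨hq2, hq1.1, fun κ => hq1.2 _ ?_⟩
    have h3 : (g ∘ θ) =ᶠ[𝓝 q] Prod.fst := hq3
    have h4 : fderiv ℝ (g ∘ θ) q = fderiv ℝ (Prod.fst : R × (fderiv ℝ g p).ker → R) q :=
      h3.fderiv_eq
    have h5 : fderiv ℝ (g ∘ θ) q = (fderiv ℝ g (θ q)).comp (fderiv ℝ θ q) :=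
      fderiv_comp _ (hg _ hq1.1).differentiableAt hq2.differentiableAt
    have h6 : fderiv ℝ (Prod.fst : R × (fderiv ℝ g p).ker → R) q (0, κ) = 0 := by
      rw [fderiv_fst]; rfl
    rw [← h4, h5] at h6
    exact h6
  obtain ⟨ε, hε, hball⟩ := Metric.eventually_nhds_iff_ball.1 hq
  have hmem : ∀ u ∈ Metric.ball (g p) ε, ∀ k ∈ Metric.ball (0 : (fderiv ℝ g p).ker) ε,
      (u, k) ∈ Metric.ball (g p, (0 : (fderiv ℝ g p).ker)) ε := by
    intro u hu k hk
    rw [Metric.mem_ball, Prod.dist_eq]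
    exact max_lt hu hk
  have h0b : (0 : (fderiv ℝ g p).ker) ∈ Metric.ball (0 : (fderiv ℝ g p).ker) ε :=
    Metric.mem_ball_self hε
  have hconst : ∀ u ∈ Metric.ball (g p) ε, ∀ k ∈ Metric.ball (0 : (fderiv ℝ g p).ker) ε,
      f (θ (u, k)) = f (θ (u, 0)) := by
    intro u hu k hk
    have hd : ∀ k' ∈ Metric.ball (0 : (fderiv ℝ g p).ker) ε,
        HasFDerivAt (fun k'' => f (θ (u, k'')))
          (((fderiv ℝ f (θ (u, k'))).comp (fderiv ℝ θ (u, k'))).comp
            (ContinuousLinearMap.inr ℝ R (fderiv ℝ g p).ker)) k' := by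
      intro k' hk'
      obtain ⟨hb1, hb2, -⟩ := hball _ (hmem u hu k' hk')
      have h1 : HasFDerivAt (fun k'' : (fderiv ℝ g p).ker => (u, k''))
          (ContinuousLinearMap.inr ℝ R (fderiv ℝ g p).ker) k' := hasFDerivAt_prodMk_right u k'
      have h2 : HasFDerivAt (fun q => f (θ q))
          ((fderiv ℝ f (θ (u, k'))).comp (fderiv ℝ θ (u, k'))) (u, k') :=
        (hf _ hb2).differentiableAt.hasFDerivAt.comp (u, k') hb1.differentiableAt.hasFDerivAt
      exact h2.comp k' h1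
    refine IsOpen.is_const_of_fderiv_eq_zero (𝕜 := ℝ) Metric.isOpen_ball
      (convex_ball _ _).isPreconnected
      (f := fun k'' => f (θ (u, k''))) (fun k' hk' => (hd k' hk').differentiableAt.differentiableWithinAt)
      ?_ hk h0b
    intro k' hk'
    rw [(hd k' hk').fderiv]
    obtain ⟨-, -, hb3⟩ := hball _ (hmem u hu k' hk')
    refine ContinuousLinearMap.ext fun κ => ?_
    exact hb3 κ
  refine ⟨{x | θ (g x, ρ x) = x ∧ (g x, ρ x) ∈ Metric.ball (g p, (0 : (fderiv ℝ g p).ker)) ε},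
    ?_, ?_⟩
  · have hc : ContinuousAt (fun x => (g x, ρ x)) p := (hg p hp).continuousAt.prodMk hρc
    refine hθρ.and (hc.eventually_mem ?_)
    show Metric.ball (g p, (0 : (fderiv ℝ g p).ker)) ε ∈ 𝓝 (g p, ρ p)
    rw [hρ0]
    exact Metric.ball_mem_nhds _ hε
  · have hsub : f '' {x | θ (g x, ρ x) = x ∧
        (g x, ρ x) ∈ Metric.ball (g p, (0 : (fderiv ℝ g p).ker)) ε} ⊆
        (fun u => f (θ (u, 0))) '' Metric.ball (g p) ε := by
      rintro _ ⟨x, ⟨hx1, hx2⟩, rfl⟩
      rw [Metric.mem_ball, Prod.dist_eq, max_lt_iff] at hx2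
      refine ⟨g x, hx2.1, ?_⟩
      have := hconst (g x) hx2.1 (ρ x) hx2.2
      rw [hx1] at this
      exact this.symm
    have hC : ContDiffOn ℝ 1 (fun u => f (θ (u, 0))) (Metric.ball (g p) ε) := by
      intro u hu
      obtain ⟨hb1, hb2, -⟩ := hball _ (hmem u hu 0 h0b)
      have h1 : AnalyticAt ℝ (fun u : R => (u, (0 : (fderiv ℝ g p).ker))) u :=
        analyticAt_id.prod analyticAt_const
      have h2 : AnalyticAt ℝ (fun q => f (θ q)) (u, 0) := (hf _ hb2).comp hb1
      have h3 : AnalyticAt ℝ (fun u : R => f (θ (u, 0))) u :=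
        AnalyticAt.comp (g := fun q => f (θ q)) (f := fun u : R => (u, (0 : (fderiv ℝ g p).ker)))
          h2 h1
      exact h3.contDiffAt.contDiffWithinAt
    calc dimH (f '' _) ≤ dimH ((fun u => f (θ (u, 0))) '' Metric.ball (g p) ε) := dimH_mono hsub
      _ ≤ dimH (Metric.ball (g p) ε) := hC.dimH_image_le (convex_ball _ _) Subset.rfl
      _ ≤ dimH (univ : Set R) := dimH_mono (subset_univ _)
      _ = finrank ℝ R := Real.dimH_univ_eq_finrank R

end Pool.Agent.SEC.RankR

end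

open Filter Topology MeasureTheory

namespace Pool.Agent.SEC

variable {E F : Type*} [NormedAddCommGroup E] [NormedSpace ℂ E] [FiniteDimensional ℂ E]
  [NormedAddCommGroup F] [NormedSpace ℂ F] [FiniteDimensional ℂ F]
  [MeasurableSpace F] [BorelSpace F] (μ : Measure F) [μ.IsAddHaarMeasure]

omit [FiniteDimensional ℂ F] [MeasurableSpace F] [BorelSpace F] in
/-- The real rank is twice the complex rank. -/
private theorem finrank_range_real (L : E →L[ℂ] F) :
    Module.finrank ℝ (LinearMap.range (L.restrictScalars ℝ : E →ₗ[ℝ] F)) =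
      2 * Module.finrank ℂ (LinearMap.range (L : E →ₗ[ℂ] F)) := by
  have h1 : LinearMap.range (L.restrictScalars ℝ : E →ₗ[ℝ] F) =
      (LinearMap.range (L : E →ₗ[ℂ] F)).restrictScalars ℝ := by
    ext y
    simp
  rw [h1]
  have h2 := Module.finrank_mul_finrank ℝ ℂ (LinearMap.range (L : E →ₗ[ℂ] F))
  rw [Complex.finrank_real_complex] at h2
  exact h2.symm

/-- An analytic map of constant rank `r < dim F` has locally null image. -/
theorem null_of_rank (g : E → F) (x : E) (hg : AnalyticAt ℂ g x) {r : ℕ}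
    (hr : r < Module.finrank ℂ F)
    (hx : Module.finrank ℂ (LinearMap.range (fderiv ℂ g x : E →ₗ[ℂ] F)) = r)
    (hle : ∀ᶠ y in 𝓝 x, Module.finrank ℂ (LinearMap.range (fderiv ℂ g y : E →ₗ[ℂ] F)) ≤ r) :
    ∃ W ∈ 𝓝 x, μ (g '' W) = 0 := by
  have hfE : FiniteDimensional ℝ E := FiniteDimensional.complexToReal E
  have hfF : FiniteDimensional ℝ F := FiniteDimensional.complexToReal F
  obtain ⟨U, hU, hUo, hxU⟩ := eventually_nhds_iff.1 hg.eventually_analyticAt
  have hgR : AnalyticOnNhd ℝ g U := fun y hy => (hU y hy).restrictScalars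
  have hfd : ∀ y ∈ U, fderiv ℝ g y = (fderiv ℂ g y).restrictScalars ℝ := fun y hy =>
    ((hU y hy).differentiableAt.hasFDerivAt.restrictScalars ℝ).fderiv
  have hrk : ∀ y ∈ U, Module.finrank ℝ (fderiv ℝ g y).range =
      2 * Module.finrank ℂ (LinearMap.range (fderiv ℂ g y : E →ₗ[ℂ] F)) := by
    intro y hy
    rw [hfd y hy]
    exact finrank_range_real _
  obtain ⟨W, hW, hdim⟩ := RankR.constant_rank (f := g) (U := U) hUo hgR hxU (by
    filter_upwards [hle, hUo.mem_nhds hxU] with y hy hyU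
    rw [hrk y hyU, hrk x hxU, hx]
    omega)
  refine ⟨W, hW, ?_⟩
  have hac : μ ≪ (Measure.hausdorffMeasure ((Module.finrank ℝ F : NNReal) : ℝ) : Measure F) := by
    have h1 : ((Module.finrank ℝ F : NNReal) : ℝ) = (Module.finrank ℝ F : ℝ) := by simp
    rw [h1]
    exact Measure.absolutelyContinuous_isAddHaarMeasure _ _
  refine measure_zero_of_dimH_lt hac (lt_of_le_of_lt hdim ?_)
  rw [hrk x hxU, hx]
  have h2 : Module.finrank ℝ F = 2 * Module.finrank ℂ F := by
    have h2 := Module.finrank_mul_finrank ℝ ℂ F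
    rw [Complex.finrank_real_complex] at h2
    exact h2.symm
  rw [h2]
  have h3 : 2 * r < 2 * Module.finrank ℂ F := by omega
  exact_mod_cast h3

end Pool.Agent.SEC
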