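import Pool.Agent.SEC.Defs

/-!
SEC-A4c (MP_d19687_ag, project SEC).
-/

open Filter Topology MeasureTheory

namespace Pool.Agent.SEC

variable {E F : Type*} [NormedAddCommGroup E] [NormedSpace ℂ E] [FiniteDimensional ℂ E]
  [NormedAddCommGroup F] [NormedSpace ℂ F] [FiniteDimensional ℂ F]
  [MeasurableSpace F] [BorelSpace F] (μ : Measure F) [μ.IsAddHaarMeasure]

omit [FiniteDimensional ℂ E] [FiniteDimensional ℂ F] [NormedSpace ℂ E] [NormedSpace ℂ F]
  [BorelSpace F] [μ.IsAddHaarMeasure] in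
/-- Lindelöf.  (`TopologicalSpace.countable_cover_nhdsWithin`, `measure_biUnion_null_iff`.) -/
theorem null_image_of_locally [SecondCountableTopology E] (A : Set E) (g : E → F)
    (h : ∀ x ∈ A, ∃ W ∈ 𝓝 x, μ (g '' (W ∩ A)) = 0) : μ (g '' A) = 0 := by
  choose! W hW hμ using h
  obtain ⟨t, htA, htc, hcov⟩ := TopologicalSpace.countable_cover_nhdsWithin (s := A)
    (f := fun x => W x ∩ A) (fun x hx => by
      rw [Set.inter_comm]
      exact inter_mem_nhdsWithin A (hW x hx))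
  refine measure_mono_null (t := ⋃ x ∈ t, g '' (W x ∩ A)) ?_
    ((measure_biUnion_null_iff htc).2 fun x hx => hμ x (htA hx))
  rintro _ ⟨a, ha, rfl⟩
  obtain ⟨x, hx, hax⟩ := Set.mem_iUnion₂.1 (hcov ha)
  exact Set.mem_iUnion₂.2 ⟨x, hx, a, hax, rfl⟩

end Pool.Agent.SEC
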