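import Pool.Agent.SEC.A1

/-!
SEC-A5a (MP_d19687_ag, project SEC).
-/

open Filter Topology MeasureTheory

namespace Pool.Agent.SEC

variable {F : Type*} [NormedAddCommGroup F] [NormedSpace ℂ F] [FiniteDimensional ℂ F]
  [MeasurableSpace F] [BorelSpace F] (μ : Measure F) [μ.IsAddHaarMeasure]

/-- The statement of Sard's theorem for germs of maps on `ℂ ^ N`. -/
def SardAt (μ : Measure F) (N : ℕ) : Prop :=
  ∀ (g : (Fin N → ℂ) → F) (x : Fin N → ℂ), AnalyticAt ℂ g x →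
    ∃ W ∈ 𝓝 x, μ (g '' (W ∩ {y | ¬ Function.Surjective (fderiv ℂ g y)})) = 0

/-- `N = 0`: the image is a point; if there is a critical point then `F ≠ 0`, and points are null. -/
theorem sardAt_zero : SardAt μ 0 := by
  intro g x _
  refine ⟨Set.univ, univ_mem, ?_⟩
  by_cases h : ∃ y, ¬ Function.Surjective (fderiv ℂ g y)
  · obtain ⟨y, hy⟩ := h
    have hnt : Nontrivial F := by
      by_contra hcon
      rw [not_nontrivial_iff_subsingleton] at hcon
      exact hy (fun z => ⟨0, Subsingleton.elim _ _⟩)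
    have hsub : g '' (Set.univ ∩ {y | ¬ Function.Surjective (fderiv ℂ g y)}) ⊆ {g x} := by
      rintro _ ⟨z, -, rfl⟩
      rw [Subsingleton.elim z x]
      rfl
    refine measure_mono_null hsub ?_
    have : (𝓝[≠] (0 : F)).NeBot := Module.punctured_nhds_neBot ℂ F 0
    exact measure_singleton _
  · push Not at h
    have h1 : (Set.univ ∩ {y | ¬ Function.Surjective (fderiv ℂ g y)} : Set (Fin 0 → ℂ)) = ∅ := by
      ext z
      simp [h z]
    rw [h1, Set.image_empty, measure_empty]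

/-- Critical values coming from a smooth hypersurface. -/
theorem sard_hypersurface {N : ℕ} (hN : SardAt μ N) (g : (Fin (N + 1) → ℂ) → F)
    (H : (Fin (N + 1) → ℂ) → ℂ) (y : Fin (N + 1) → ℂ) (hg : AnalyticAt ℂ g y)
    (hH : AnalyticAt ℂ H y) (hy : H y = 0) (hd : fderiv ℂ H y ≠ 0) :
    ∃ W ∈ 𝓝 y, μ (g '' (W ∩ {y' | ¬ Function.Surjective (fderiv ℂ g y') ∧ H y' = 0})) = 0 := by
  have hs : Function.Surjective (fderiv ℂ H y) := by
    obtain ⟨v, hv⟩ : ∃ v, fderiv ℂ H y v ≠ 0 := by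
      by_contra hcon
      push Not at hcon
      exact hd (ContinuousLinearMap.ext hcon)
    intro z
    exact ⟨(z / fderiv ℂ H y v) • v, by simp [hv]⟩
  obtain ⟨d, Ψ, κ, hdim, hΨ, hΨ0, hκ, hκ0, hleft, -⟩ := straighten H y hH hs
  have hdN : d = N := by
    rw [Module.finrank_fin_fun, Module.finrank_self] at hdim
    omega
  subst hdN
  rw [hy] at hΨ hΨ0
  let ψ : (Fin d → ℂ) → (Fin (d + 1) → ℂ) := fun s => Ψ (0, s)
  have hψ : AnalyticAt ℂ ψ 0 := by
    have h2 : AnalyticAt ℂ (fun s : Fin d → ℂ => ((0 : ℂ), s)) 0 :=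
      analyticAt_const.prod analyticAt_id
    exact AnalyticAt.comp (g := Ψ) (f := fun s : Fin d → ℂ => ((0 : ℂ), s)) hΨ h2
  have hψ0 : ψ 0 = y := hΨ0
  have hgψ : AnalyticAt ℂ (g ∘ ψ) 0 := AnalyticAt.comp (by rwa [hψ0]) hψ
  obtain ⟨S, hS, hSμ⟩ := hN (g ∘ ψ) 0 hgψ
  have hev : ∀ᶠ s in 𝓝 (0 : Fin d → ℂ), s ∈ S ∧ AnalyticAt ℂ ψ s ∧ AnalyticAt ℂ g (ψ s) := by
    refine (show ∀ᶠ s in 𝓝 (0 : Fin d → ℂ), s ∈ S from hS).and
      (hψ.eventually_analyticAt.and ?_)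
    have hψt : Tendsto ψ (𝓝 0) (𝓝 y) := by
      have := hψ.continuousAt.tendsto
      rwa [hψ0] at this
    exact hψt.eventually hg.eventually_analyticAt
  refine ⟨{y' | Ψ (H y', κ y') = y' ∧ (κ y' ∈ S ∧ AnalyticAt ℂ ψ (κ y') ∧
    AnalyticAt ℂ g (ψ (κ y')))}, ?_, ?_⟩
  · have hκt : Tendsto κ (𝓝 y) (𝓝 0) := by
      have := hκ.continuousAt.tendsto
      rwa [hκ0] at this
    exact hleft.and (hκt.eventually hev)
  · refine measure_mono_null ?_ hSμ
    rintro _ ⟨y', ⟨⟨h1, h2, h3, h4⟩, h5, h6⟩, rfl⟩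
    have h7 : ψ (κ y') = y' := by
      rw [h6] at h1
      exact h1
    refine ⟨κ y', ⟨h2, fun hsur => h5 fun z => ?_⟩, by rw [Function.comp_apply, h7]⟩
    have h8 : fderiv ℂ (g ∘ ψ) (κ y') = (fderiv ℂ g y').comp (fderiv ℂ ψ (κ y')) := by
      rw [fderiv_comp _ h4.differentiableAt h3.differentiableAt, h7]
    rw [h8] at hsur
    obtain ⟨k, hk⟩ := hsur z
    exact ⟨_, hk⟩

end Pool.Agent.SEC
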