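import Pool.Agent.SEC.A3
import Pool.Agent.SEC.A4b
import Pool.Agent.SEC.A4c
import Pool.Agent.SEC.A5a

/-!
SEC-A5b (MP_d19687_ag, project SEC).
-/

open Filter Topology MeasureTheory

namespace Pool.Agent.SEC

variable {F : Type*} [NormedAddCommGroup F] [NormedSpace ℂ F] [FiniteDimensional ℂ F]
  [MeasurableSpace F] [BorelSpace F] (μ : Measure F) [μ.IsAddHaarMeasure]

/-- Induction step.

Proof. Let `B` be a ball around `x` on which `g` is analytic, `r` the maximum of the ranks of `dg_y`,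
`y ∈ B`, attained at `x₁ ∈ B`; `P, Q` from `exists_minor` at `x₁`; `h y := det (P dg_y Q)` is analytic
on `B` (`analyticAt_minor`) and `h x₁ ≠ 0`.  By `rank_ge_of_det`, the rank is `r` on `B ∩ {h ≠ 0}`.
If `r = dim F` there are no critical points in `B ∩ {h ≠ 0}`; if `r < dim F`, the image of
`B ∩ {h ≠ 0}` is null by `null_of_rank` and `null_image_of_locally`.  For `B ∩ {h = 0}` take the
countable family `H n` of `zero_set_cover`; for each `n` the set
`A_n = {y ∈ B | ¬ Surjective (dg_y) ∧ H n y = 0 ∧ d(H n)_y ≠ 0}` has null image by `sard_hypersurface` and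
`null_image_of_locally`.  Take `W = B`. -/
theorem sardAt_succ {N : ℕ} (hN : SardAt μ N) : SardAt μ (N + 1) := by
  intro g x hg
  obtain ⟨ε, hε, hball⟩ := Metric.eventually_nhds_iff_ball.1 hg.eventually_analyticAt
  set B := Metric.ball x ε with hBdef
  have hBo : IsOpen B := Metric.isOpen_ball
  have hBc : IsPreconnected B := (convex_ball _ _).isPreconnected
  -- the rank
  let rk : (Fin (N + 1) → ℂ) → ℕ := fun y =>
    Module.finrank ℂ (LinearMap.range (fderiv ℂ g y : (Fin (N + 1) → ℂ) →ₗ[ℂ] F))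
  have hrkle : ∀ y, rk y ≤ Module.finrank ℂ F := fun y => Submodule.finrank_le _
  obtain ⟨x₁, hx₁, hmax⟩ : ∃ x₁ ∈ B, ∀ y ∈ B, rk y ≤ rk x₁ := by
    have hne : (rk '' B).Nonempty := ⟨_, x, Metric.mem_ball_self hε, rfl⟩
    have hbdd : BddAbove (rk '' B) := ⟨Module.finrank ℂ F, by rintro _ ⟨y, -, rfl⟩; exact hrkle y⟩
    obtain ⟨x₁, h1, h2⟩ := Nat.sSup_mem hne hbdd
    exact ⟨x₁, h1, fun y hy => by rw [h2]; exact le_csSup hbdd ⟨y, hy, rfl⟩⟩
  obtain ⟨P, Q, hPQ⟩ := exists_minor (fderiv ℂ g x₁) (r := rk x₁) rfl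
  let h : (Fin (N + 1) → ℂ) → ℂ := fun y => ((P.comp (fderiv ℂ g y)).comp Q).det
  have hh : AnalyticOnNhd ℂ h B := fun y hy => analyticAt_minor g P Q (hball y hy)
  have hne : h x₁ ≠ 0 := by
    have h1 : (P.comp (fderiv ℂ g x₁)).comp Q = ContinuousLinearMap.id ℂ (Fin (rk x₁) → ℂ) :=
      ContinuousLinearMap.ext hPQ
    have h2 : h x₁ = (ContinuousLinearMap.id ℂ (Fin (rk x₁) → ℂ)).det := by
      rw [← h1]
    rw [h2, ContinuousLinearMap.det]
    simp
  obtain ⟨H, hH, hcov⟩ := zero_set_cover h B hBo hBc hh ⟨x₁, hx₁, hne⟩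
  refine ⟨B, Metric.ball_mem_nhds x hε, ?_⟩
  have hsub : g '' (B ∩ {y | ¬ Function.Surjective (fderiv ℂ g y)}) ⊆
      g '' (B ∩ {y | h y ≠ 0 ∧ ¬ Function.Surjective (fderiv ℂ g y)}) ∪
      ⋃ n, g '' {y | y ∈ B ∧ ¬ Function.Surjective (fderiv ℂ g y) ∧ H n y = 0 ∧
        fderiv ℂ (H n) y ≠ 0} := by
    rintro _ ⟨y, ⟨hyB, hyc⟩, rfl⟩
    by_cases hy0 : h y = 0
    · obtain ⟨n, hn1, hn2⟩ := hcov y hyB hy0
      exact Or.inr (Set.mem_iUnion.2 ⟨n, y, ⟨hyB, hyc, hn1, hn2⟩, rfl⟩)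
    · exact Or.inl ⟨y, ⟨hyB, hy0, hyc⟩, rfl⟩
  refine measure_mono_null hsub (measure_union_null ?_ (measure_iUnion_null fun n => ?_))
  · by_cases hr : rk x₁ = Module.finrank ℂ F
    · have hemp : (B ∩ {y | h y ≠ 0 ∧ ¬ Function.Surjective (fderiv ℂ g y)}) = ∅ := by
        ext y
        simp only [Set.mem_inter_iff, Set.mem_ofPred_eq, Set.mem_empty_iff_false, iff_false, not_and,
          not_not]
        intro hyB hyh
        have h1 : rk x₁ ≤ rk y := rank_ge_of_det _ P Q hyh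
        have h2 : rk y = Module.finrank ℂ F := le_antisymm (hrkle y) (hr ▸ h1)
        exact LinearMap.range_eq_top.1 (Submodule.eq_top_of_finrank_eq h2)
      rw [hemp, Set.image_empty, measure_empty]
    · refine null_image_of_locally μ _ g ?_
      rintro y ⟨hyB, hyh, -⟩
      obtain ⟨W, hW, hWμ⟩ := null_of_rank μ g y (hball y hyB) (r := rk x₁)
        (lt_of_le_of_ne (hrkle _) hr) (le_antisymm (hmax y hyB) (rank_ge_of_det _ P Q hyh)) (by
          filter_upwards [hBo.mem_nhds hyB] with z hz using hmax z hz)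
      exact ⟨W, hW, measure_mono_null (Set.image_mono Set.inter_subset_left) hWμ⟩
  · refine null_image_of_locally μ _ g ?_
    rintro y ⟨hyB, -, hH0, hHd⟩
    obtain ⟨W, hW, hWμ⟩ := sard_hypersurface μ hN g (H n) y (hball y hyB) (hH n y hyB) hH0 hHd
    refine ⟨W, hW, measure_mono_null (Set.image_mono ?_) hWμ⟩
    rintro z ⟨hz1, -, hz2, hz3, -⟩
    exact ⟨hz1, hz2, hz3⟩

end Pool.Agent.SEC
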