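import Pool.Agent.SEC.A5b

/-!
SEC-A5c (MP_d19687_ag, project SEC).
-/

open Filter Topology MeasureTheory

namespace Pool.Agent.SEC

variable {F : Type*} [NormedAddCommGroup F] [NormedSpace ℂ F] [FiniteDimensional ℂ F]

section

variable
  [MeasurableSpace F] [BorelSpace F] (μ : Measure F) [μ.IsAddHaarMeasure]

/-- Sard's theorem for analytic maps (`Nat.rec`, then `null_image_of_locally`). -/
theorem sard {N : ℕ} (g : (Fin N → ℂ) → F) (Ω : Set (Fin N → ℂ))
    (hg : ∀ x ∈ Ω, AnalyticAt ℂ g x) :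
    μ (g '' (Ω ∩ {x | ¬ Function.Surjective (fderiv ℂ g x)})) = 0 := by
  have hall : ∀ M, SardAt μ M := fun M => by
    induction M with
    | zero => exact sardAt_zero μ
    | succ n ih => exact sardAt_succ μ ih
  refine null_image_of_locally μ _ g ?_
  rintro x ⟨hx, -⟩
  obtain ⟨W, hW, hWμ⟩ := hall N g x (hg x hx)
  refine ⟨W, hW, measure_mono_null (Set.image_mono ?_) hWμ⟩
  rintro z ⟨hz1, -, hz2⟩
  exact ⟨hz1, hz2⟩

end

/-- Common regular values of finitely many analytic maps, in a given nonempty open set.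

Proof. Give `F` its Borel σ-algebra (`letI := borel F; haveI : BorelSpace F := ⟨rfl⟩`) and take
`μ := Measure.addHaar`.  The union of the null sets of `sard` does not contain the nonempty open set
`O`, of positive measure. -/
theorem exists_regular {m : ℕ} (N : Fin m → ℕ) (g : ∀ i, (Fin (N i) → ℂ) → F)
    (Ω : ∀ i, Set (Fin (N i) → ℂ)) (hg : ∀ i, ∀ x ∈ Ω i, AnalyticAt ℂ (g i) x)
    (O : Set F) (hO : IsOpen O) (hne : O.Nonempty) :
    ∃ v ∈ O, ∀ i, ∀ x ∈ Ω i, g i x = v → Function.Surjective (fderiv ℂ (g i) x) := by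
  let _ : MeasurableSpace F := borel F
  have : BorelSpace F := ⟨rfl⟩
  let μ : Measure F := Measure.addHaar
  have h0 : μ (⋃ i, g i '' (Ω i ∩ {x | ¬ Function.Surjective (fderiv ℂ (g i) x)})) = 0 :=
    measure_iUnion_null fun i => sard μ (g i) (Ω i) (hg i)
  have hpos : 0 < μ O := hO.measure_pos μ hne
  obtain ⟨v, hvO, hv⟩ :
      ∃ v ∈ O, v ∉ ⋃ i, g i '' (Ω i ∩ {x | ¬ Function.Surjective (fderiv ℂ (g i) x)}) := by
    by_contra hcon
    push Not at hcon
    exact hpos.ne' (measure_mono_null hcon h0)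
  refine ⟨v, hvO, fun i x hx hgx => ?_⟩
  by_contra hcon
  exact hv (Set.mem_iUnion.2 ⟨i, x, ⟨hx, hcon⟩, hgx⟩)

end Pool.Agent.SEC
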