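import Pool.Agent.SEC.Defs

/-!
SEC-B1a (MP_d19687_ag, project SEC).
-/

open Filter Topology Pool.Agent.MP_d19687_ag Pool.Agent.RIG

namespace Pool.Agent.SEC

variable {V : Type*} [NormedAddCommGroup V] [NormedSpace ℂ V]

theorem exists_chartZ {Z : Set V} (hZ : IsSmoothCone Z) {v : V} (hv : v ∈ Z) :
    ∃ (d : ℕ) (φ : (Fin d → ℂ) → V), IsChartZ Z v d φ := by
  obtain ⟨d, φ, h1, h2, h3, h4, h5⟩ := hZ.chart v hv
  exact ⟨d, φ, h1, h2, h3, h4, h5⟩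

/-- Uniform immersion bound near the centre of a chart (compare `Pool.Agent.RIG.IsChart.immersion_bound`,
file RIG/G1: strict differentiability at `0` and `LinearMap.exists_antilipschitzWith`). -/
theorem chart_bound [FiniteDimensional ℂ V] {Z : Set V} {v : V} {d : ℕ} {φ : (Fin d → ℂ) → V}
    (h : IsChartZ Z v d φ) : ∃ c > 0, ∃ S ∈ 𝓝 (0 : Fin d → ℂ), ∀ s ∈ S, ∀ s' ∈ S,
      c * ‖s - s'‖ ≤ ‖φ s - φ s'‖ := by
  have : CompleteSpace V := FiniteDimensional.complete ℂ V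
  have hs : HasStrictFDerivAt φ (fderiv ℂ φ 0) (0 : Fin d → ℂ) := h.an.hasStrictFDerivAt
  obtain ⟨K, hK, hanti⟩ := LinearMap.exists_antilipschitzWith
    ((fderiv ℂ φ (0 : Fin d → ℂ) : (Fin d → ℂ) →L[ℂ] V) : (Fin d → ℂ) →ₗ[ℂ] V)
    (LinearMap.ker_eq_bot.mpr h.inj)
  have hKr : (0 : ℝ) < K := by exact_mod_cast hK
  have hlow : ∀ u : Fin d → ℂ, (K : ℝ)⁻¹ * ‖u‖ ≤ ‖fderiv ℂ φ (0 : Fin d → ℂ) u‖ := by
    intro u
    have h1 : ‖u‖ ≤ K * ‖fderiv ℂ φ (0 : Fin d → ℂ) u‖ := by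
      have := hanti.le_mul_dist u 0
      simpa [dist_eq_norm] using this
    rw [inv_mul_le_iff₀ hKr]
    exact h1
  have hc : (0 : ℝ) < (K : ℝ)⁻¹ / 2 := by positivity
  obtain ⟨S, hS, hap⟩ := hs.approximates_deriv_on_nhds
    (c := K⁻¹ / 2) (Or.inr (by positivity))
  refine ⟨(K : ℝ)⁻¹ / 2, hc, S, hS, ?_⟩
  intro s h1 s' h2
  have h3 := hap _ h1 _ h2
  have h6 := hlow (s - s')
  have h7 : ‖fderiv ℂ φ (0 : Fin d → ℂ) (s - s')‖ ≤
      ‖φ s - φ s' - fderiv ℂ φ (0 : Fin d → ℂ) (s - s')‖ + ‖φ s - φ s'‖ := by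
    have := norm_sub_le (φ s - φ s')
      (φ s - φ s' - fderiv ℂ φ (0 : Fin d → ℂ) (s - s'))
    have h8 : φ s - φ s' - (φ s - φ s' - fderiv ℂ φ (0 : Fin d → ℂ) (s - s')) =
        fderiv ℂ φ (0 : Fin d → ℂ) (s - s') := by abel
    rw [h8] at this
    linarith
  have h9 : ((K⁻¹ / 2 : NNReal) : ℝ) = (K : ℝ)⁻¹ / 2 := by push_cast; rfl
  rw [h9] at h3
  linarith

private theorem inj_of_bound {d : ℕ} {φ : (Fin d → ℂ) → V} {c : ℝ} (hc : 0 < c)
    {S : Set (Fin d → ℂ)} {s : Fin d → ℂ} (hS : ∀ᶠ s' in 𝓝 s, s' ∈ S)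
    (hb : ∀ s ∈ S, ∀ s' ∈ S, c * ‖s - s'‖ ≤ ‖φ s - φ s'‖) (hd : DifferentiableAt ℂ φ s) :
    Function.Injective (fderiv ℂ φ s) := by
  have key : ∀ a : Fin d → ℂ, c * ‖a‖ ≤ ‖fderiv ℂ φ s a‖ := by
    intro a
    have h1 : HasDerivAt (fun t : ℂ => φ (s + t • a)) (fderiv ℂ φ s a) 0 := by
      have h2 : HasDerivAt (fun t : ℂ => s + t • a) a 0 := by
        have := (hasDerivAt_id (0 : ℂ)).smul_const a
        simpa using this.const_add s
      have h3 : HasFDerivAt φ (fderiv ℂ φ s) ((fun t : ℂ => s + t • a) 0) := by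
        simpa using hd.hasFDerivAt
      exact h3.comp_hasDerivAt 0 h2
    have h4 := (hasDerivAt_iff_tendsto_slope_zero.mp h1).norm
    refine ge_of_tendsto h4 ?_
    have h5 : Tendsto (fun t : ℂ => s + t • a) (𝓝 0) (𝓝 s) := by
      have : Continuous (fun t : ℂ => s + t • a) := by fun_prop
      simpa using this.tendsto 0
    have h6 : ∀ᶠ t : ℂ in 𝓝[≠] 0, s + t • a ∈ S := (h5.eventually hS).filter_mono nhdsWithin_le_nhds
    filter_upwards [h6, self_mem_nhdsWithin] with t ht ht0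
    have ht0' : t ≠ 0 := ht0
    have h7 := hb _ ht s hS.self_of_nhds
    have h8 : s + t • a - s = t • a := by abel
    rw [h8, norm_smul] at h7
    have h9 : (0 : ℂ) + t = t := zero_add t
    rw [h9, norm_smul, norm_inv, zero_smul, add_zero]
    have h10 : 0 < ‖t‖ := norm_pos_iff.mpr ht0'
    rw [inv_mul_eq_div, le_div_iff₀ h10]
    linarith [h7, mul_comm ‖t‖ (c * ‖a‖)]
  intro a b hab
  have h1 := key (a - b)
  rw [map_sub, hab, sub_self, norm_zero] at h1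
  have h2 : ‖a - b‖ ≤ 0 := by
    by_contra hcon
    push Not at hcon
    have := mul_pos hc hcon
    linarith
  exact sub_eq_zero.mp (norm_le_zero_iff.mp h2)

/-- A chart is a chart at each nearby point.

Proof. Let `c, S` be as in `chart_bound`, `S` open (shrink).  For `s` near `0`: `φ` is analytic at `s`
(`AnalyticAt.eventually_analyticAt`), `fderiv ℂ φ s` is injective (from `c ‖s - s'‖ ≤ ‖φ s - φ s'‖`:
divide by `t` along `s' = s + t a`, `t → 0`: `c ‖a‖ ≤ ‖fderiv ℂ φ s a‖`), `φ s' ∈ Z` for `s'` near `s`.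
For `onto`: there is a neighbourhood `O` of `v` in `V` with `∀ w ∈ O ∩ Z, w ∈ φ '' S`
(`h.onto S`); for `s` near `0`, `φ s` is in the interior of `O`; for `w ∈ Z` near `φ s`, `w = φ s'`
with `s' ∈ S`, and `c ‖s' - s‖ ≤ ‖w - φ s‖`, so `s'` is in any prescribed neighbourhood of `s`. -/
theorem chart_shift [FiniteDimensional ℂ V] {Z : Set V} {v : V} {d : ℕ} {φ : (Fin d → ℂ) → V}
    (h : IsChartZ Z v d φ) :
    ∀ᶠ s in 𝓝 (0 : Fin d → ℂ), IsChartZ Z (φ s) d (fun s' => φ (s + s')) := by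
  obtain ⟨c, hc, S, hS, hb⟩ := chart_bound h
  have e1 : ∀ᶠ s in 𝓝 (0 : Fin d → ℂ), AnalyticAt ℂ φ s := h.an.eventually_analyticAt
  have e2 : ∀ᶠ s in 𝓝 (0 : Fin d → ℂ), ∀ᶠ s' in 𝓝 s, s' ∈ S :=
    eventually_eventually_nhds.mpr hS
  have e3 : ∀ᶠ s in 𝓝 (0 : Fin d → ℂ), ∀ᶠ s' in 𝓝 s, φ s' ∈ Z :=
    eventually_eventually_nhds.mpr h.mem
  have e4 : ∀ᶠ w in 𝓝 v, ∀ᶠ w' in 𝓝 w, w' ∈ Z → w' ∈ φ '' S :=
    eventually_eventually_nhds.mpr (eventually_nhdsWithin_iff.mp (h.onto S hS))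
  have hcont : Tendsto φ (𝓝 0) (𝓝 v) := by
    have := h.an.continuousAt.tendsto
    rwa [h.map0] at this
  have e5 : ∀ᶠ s in 𝓝 (0 : Fin d → ℂ), ∀ᶠ w' in 𝓝 (φ s), w' ∈ Z → w' ∈ φ '' S :=
    hcont.eventually e4
  filter_upwards [e1, e2, e3, e5] with s s1 s2 s3 s5
  have hshift : Tendsto (fun s' : Fin d → ℂ => s + s') (𝓝 0) (𝓝 s) := by
    have : Continuous (fun s' : Fin d → ℂ => s + s') := by fun_prop
    simpa using this.tendsto 0
  refine ⟨?_, ?_, ?_, hshift.eventually s3, ?_⟩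
  · have h1 : AnalyticAt ℂ (fun s' : Fin d → ℂ => s + s') 0 :=
      analyticAt_const.add analyticAt_id
    have h2 : AnalyticAt ℂ φ ((fun s' : Fin d → ℂ => s + s') 0) := by simpa using s1
    exact h2.comp h1
  · simp
  · rw [fderiv_comp_add_left, add_zero]
    exact inj_of_bound hc s2 hb s1.differentiableAt
  · intro S' hS'
    obtain ⟨r, hr, hrS⟩ := Metric.mem_nhds_iff.mp hS'
    rw [eventually_nhdsWithin_iff]
    have e6 : ∀ᶠ w in 𝓝 (φ s), ‖w - φ s‖ < c * r := by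
      have := Metric.ball_mem_nhds (φ s) (mul_pos hc hr)
      filter_upwards [this] with w hw
      rwa [Metric.mem_ball, dist_eq_norm] at hw
    filter_upwards [s5, e6] with w w1 w2 hwZ
    obtain ⟨s'', hs'', rfl⟩ := w1 hwZ
    refine ⟨s'' - s, hrS ?_, by simp⟩
    rw [Metric.mem_ball, dist_zero_right]
    have h3 := hb _ hs'' s s2.self_of_nhds
    exact lt_of_mul_lt_mul_left (lt_of_le_of_lt h3 w2) hc.le

end Pool.Agent.SEC
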