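import Pool.Agent.SEC.B1a

/-!
SEC-B1b (MP_d19687_ag, project SEC).
-/

open Filter Topology Pool.Agent.MP_d19687_ag Pool.Agent.RIG

namespace Pool.Agent.SEC

variable {V : Type*} [NormedAddCommGroup V] [NormedSpace ℂ V]

/-- A curve in `Z` has its velocity in the range of the derivative of a chart. -/
private theorem tangent_range [FiniteDimensional ℂ V] {Z : Set V} {v : V} {d : ℕ}
    {φ : (Fin d → ℂ) → V} (h : IsChartZ Z v d φ) {w : V} (hw : IsTangent Z v w) :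
    ∃ a, fderiv ℂ φ 0 a = w := by
  obtain ⟨γ, hγan, hγ0, hγd, hγZ⟩ := hw
  obtain ⟨c, hc⟩ := h.bound.bound
  have hγ : HasDerivAt γ w 0 := by
    rw [← hγd]
    exact hγan.differentiableAt.hasDerivAt
  have hex : ∀ᶠ t in 𝓝 (0 : ℂ), ∃ s : Fin d → ℂ, ‖s‖ ≤ c * ‖φ s - φ 0‖ ∧ φ s = γ t := by
    have hcont : Tendsto γ (𝓝 0) (𝓝 v) := by
      rw [← hγ0]
      exact hγan.continuousAt.tendsto
    have h2 := hcont.eventually (eventually_nhdsWithin_iff.1 (h.onto _ hc))
    filter_upwards [h2, hγZ] with t ht htZ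
    obtain ⟨s, hs1, hs2⟩ := ht htZ
    exact ⟨s, hs1, hs2⟩
  obtain ⟨s, hs⟩ := hex.choice
  have hγO : (fun t => γ t - φ 0) =O[𝓝 (0 : ℂ)] fun t => t := by
    have h4 := hγ.hasFDerivAt.isBigO_sub
    rw [hγ0, ← h.map0] at h4
    simpa only [sub_zero] using h4
  have hsO : s =O[𝓝 (0 : ℂ)] fun t => t := by
    refine Asymptotics.IsBigO.trans ?_ hγO
    refine Asymptotics.IsBigO.of_bound c ?_
    filter_upwards [hs] with t ht
    rw [← ht.2]
    exact ht.1
  have hs0 : Tendsto s (𝓝 0) (𝓝 0) := by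
    have h7 : Tendsto (fun t : ℂ => t) (𝓝 0) (𝓝 0) := tendsto_id
    exact hsO.trans_tendsto h7
  have hφd : HasFDerivAt φ (fderiv ℂ φ 0) 0 := h.an.differentiableAt.hasFDerivAt
  have b1 : (fun t => φ (s t) - φ 0 - fderiv ℂ φ 0 (s t - 0)) =o[𝓝 (0 : ℂ)] fun t => t := by
    refine ((hasFDerivAt_iff_isLittleO.1 hφd).comp_tendsto hs0).trans_isBigO ?_
    simpa only [Function.comp_def, sub_zero] using hsO
  have b2 : (fun t => γ t - φ 0 - t • w) =o[𝓝 (0 : ℂ)] fun t => t := by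
    have h9 := hasDerivAt_iff_isLittleO.1 hγ
    rw [hγ0, ← h.map0] at h9
    simpa only [sub_zero] using h9
  have hE : (fun t => fderiv ℂ φ 0 (s t) - t • w) =o[𝓝 (0 : ℂ)] fun t => t := by
    refine (b2.sub b1).congr' ?_ EventuallyEq.rfl
    filter_upwards [hs] with t ht
    rw [← ht.2, sub_zero]
    abel
  have hlim : Tendsto (fun t : ℂ => t⁻¹ • fderiv ℂ φ 0 (s t)) (𝓝[≠] 0) (𝓝 w) := by
    have h12 : Tendsto (fun t : ℂ => t⁻¹ • (fderiv ℂ φ 0 (s t) - t • w)) (𝓝[≠] 0) (𝓝 0) := by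
      have h13 := (Asymptotics.isLittleO_iff_tendsto' (f := fun t : ℂ =>
        ‖fderiv ℂ φ 0 (s t) - t • w‖) (g := fun t : ℂ => ‖t‖) (l := 𝓝[≠] (0 : ℂ))
        (by
          filter_upwards [self_mem_nhdsWithin] with t ht h0
          exact absurd (norm_eq_zero.1 h0) ht)).1
        ((hE.mono nhdsWithin_le_nhds).norm_norm)
      rw [tendsto_zero_iff_norm_tendsto_zero]
      refine h13.congr fun t => ?_
      rw [norm_smul, norm_inv, inv_mul_eq_div]
    have h14 := h12.add_const w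
    rw [zero_add] at h14
    refine h14.congr' ?_
    filter_upwards [self_mem_nhdsWithin] with t ht
    have ht0 : t ≠ 0 := ht
    rw [smul_sub, smul_smul, inv_mul_cancel₀ ht0, one_smul, sub_add_cancel]
  have hcl : IsClosed ((LinearMap.range ((fderiv ℂ φ 0 : (Fin d → ℂ) →L[ℂ] V) :
      (Fin d → ℂ) →ₗ[ℂ] V) : Submodule ℂ V) : Set V) :=
    Submodule.closed_of_finiteDimensional _
  have hmem : w ∈ LinearMap.range ((fderiv ℂ φ 0 : (Fin d → ℂ) →L[ℂ] V) :
      (Fin d → ℂ) →ₗ[ℂ] V) := by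
    refine hcl.mem_of_tendsto hlim (Eventually.of_forall fun t => ?_)
    refine ⟨t⁻¹ • s t, ?_⟩
    simp
  obtain ⟨a, ha⟩ := hmem
  exact ⟨a, ha⟩

/-- The tangent vectors at the centre of a chart are the values of the derivative.

Proof. `←`: the curve `t ↦ φ (t • a)`.  `→`: let `γ` be a curve as in `IsTangent`; for `t` near `0`,
`γ t = φ (s_t)` with `s_t ∈ S` (`h.onto S` and continuity of `γ`), `c ‖s_t‖ ≤ ‖γ t - v‖ = O(t)`, so
`t⁻¹ • s_t` is bounded; for a sequence `t_n → 0`, `t_n ≠ 0`, `t_n⁻¹ • s_{t_n} → a`, and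
`t_n⁻¹ • (γ t_n - v) = t_n⁻¹ • (φ s_{t_n} - φ 0) → fderiv ℂ φ 0 a`.  (Compare
`Pool.Agent.RIG.IsChart.tangent`, file RIG/G2.) -/
theorem isTangent_iff [FiniteDimensional ℂ V] {Z : Set V} {v : V} {d : ℕ} {φ : (Fin d → ℂ) → V}
    (h : IsChartZ Z v d φ) (w : V) : IsTangent Z v w ↔ ∃ a, fderiv ℂ φ 0 a = w := by
  refine ⟨fun hw => tangent_range h hw, ?_⟩
  rintro ⟨a, rfl⟩
  have hlin : HasDerivAt (fun t : ℂ => t • a) a 0 := by
    simpa using (hasDerivAt_id (0 : ℂ)).smul_const a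
  have han : AnalyticAt ℂ (fun t : ℂ => t • a) 0 := analyticAt_id.smul analyticAt_const
  refine ⟨fun t => φ (t • a), ?_, ?_, ?_, ?_⟩
  · have h1 : AnalyticAt ℂ φ ((fun t : ℂ => t • a) 0) := by
      simpa using h.an
    exact AnalyticAt.comp' (g := φ) (f := fun t : ℂ => t • a) h1 han
  · show φ ((0 : ℂ) • a) = v
    rw [zero_smul, h.map0]
  · have h1 : HasFDerivAt φ (fderiv ℂ φ 0) ((fun t : ℂ => t • a) 0) := by
      simpa using h.an.differentiableAt.hasFDerivAt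
    exact (h1.comp_hasDerivAt (0 : ℂ) hlin).deriv
  · have h1 : Tendsto (fun t : ℂ => t • a) (𝓝 0) (𝓝 0) := by
      have h2 := han.continuousAt.tendsto
      simpa using h2
    exact h1.eventually h.mem

/-- The tangent space of a smooth cone at a point of it, as a subspace.  (Carrier:
`{w | IsTangent Z v w}`; closed under addition by `isTangent_iff`.) -/
theorem exists_tanSp [FiniteDimensional ℂ V] {Z : Set V} (hZ : IsSmoothCone Z) {v : V}
    (hv : v ∈ Z) : ∃ E : Submodule ℂ V, ∀ w, w ∈ E ↔ IsTangent Z v w := by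
  obtain ⟨d, φ, h⟩ := exists_chartZ hZ hv
  refine ⟨LinearMap.range ((fderiv ℂ φ 0 : (Fin d → ℂ) →L[ℂ] V) : (Fin d → ℂ) →ₗ[ℂ] V), ?_⟩
  intro w
  rw [isTangent_iff h w]
  exact LinearMap.mem_range

theorem isTangent_add [FiniteDimensional ℂ V] {Z : Set V} (hZ : IsSmoothCone Z) {v : V}
    (hv : v ∈ Z) {w w' : V} (h : IsTangent Z v w) (h' : IsTangent Z v w') :
    IsTangent Z v (w + w') := by
  obtain ⟨E, hE⟩ := exists_tanSp hZ hv
  exact (hE _).1 (E.add_mem ((hE _).2 h) ((hE _).2 h'))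

/-- Tangent spaces are invariant under scaling of the point.  (If `γ` is a curve in `Z` at `v` with
velocity `c⁻¹ • w` then `c • γ` is a curve in `Z` at `c • v` with velocity `w`; use
`isTangent_smul`-type lemma of `MP_d19687_ag/Embed.lean` for the vector.) -/
theorem isTangent_smul_point {Z : Set V} (hZ : IsSmoothCone Z) {v w : V}
    (h : IsTangent Z v w) {c : ℂ} (hc : c ≠ 0) : IsTangent Z (c • v) w := by
  obtain ⟨γ, hγ, h0, hd, hS⟩ := isTangent_smul h c⁻¹
  refine ⟨fun t => c • γ t, analyticAt_const.smul hγ, ?_, ?_, ?_⟩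
  · show c • γ 0 = c • v
    rw [h0]
  · have h1 : HasDerivAt γ (c⁻¹ • w) 0 := by
      rw [← hd]
      exact hγ.differentiableAt.hasDerivAt
    have h2 := h1.const_smul c
    rw [smul_smul, mul_inv_cancel₀ hc, one_smul] at h2
    exact h2.deriv
  · filter_upwards [hS] with t ht
    exact hZ.smul_mem _ ht c hc

/-- `Ter` implies that `Z` spans.  (`isTangent_mem_span`, file MP_d19687_ag/Embed.) -/
theorem span_eq_top_of_ter [FiniteDimensional ℂ V] {Z : Set V} (h : Ter Z) :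
    Submodule.span ℂ Z = ⊤ := by
  obtain ⟨α, hα, γ, hγ, H⟩ := h
  rw [eq_top_iff]
  intro v _
  obtain ⟨w₁, w₂, h1, h2, rfl⟩ := H v
  exact Submodule.add_mem _ (isTangent_mem_span h1 hα) (isTangent_mem_span h2 hγ)

end Pool.Agent.SEC
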