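import Pool.Agent.SEC.B1b

/-!
SEC-B1c (MP_d19687_ag, project SEC).
-/

open Filter Topology Pool.Agent.MP_d19687_ag Pool.Agent.RIG

namespace Pool.Agent.SEC

variable {V : Type*} [NormedAddCommGroup V] [NormedSpace ℂ V]

/-- Limits of tangent vectors are tangent.

Proof. Chart `φ` at `v`; `u k = φ (s_k)` with `s_k → 0` (for `k` large: `onto` and `chart_bound`), by
`chart_shift` and `isTangent_iff` (at `φ s_k`), `w k = fderiv ℂ φ s_k (a_k)` (note
`fderiv ℂ (fun s' => φ (s_k + s')) 0 = fderiv ℂ φ s_k`), `c ‖a_k‖ ≤ ‖w k‖` bounded, take a convergent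
subsequence `a_k → a`; `fderiv ℂ φ` is continuous at `0`, so `w₀ = fderiv ℂ φ 0 a`. -/
theorem isTangent_of_tendsto [FiniteDimensional ℂ V] {Z : Set V} (hZ : IsSmoothCone Z)
    {u w : ℕ → V} {v w₀ : V} (hu : ∀ k, u k ∈ Z) (hv : v ∈ Z)
    (hut : Tendsto u atTop (𝓝 v)) (hwt : Tendsto w atTop (𝓝 w₀))
    (h : ∀ k, IsTangent Z (u k) (w k)) : IsTangent Z v w₀ := by
  classical
  obtain ⟨d, φ, hφ⟩ := exists_chartZ hZ hv
  obtain ⟨c, hc, S, hS, hcS⟩ := chart_bound hφ
  have huZ : Tendsto u atTop (𝓝[Z] v) :=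
    tendsto_nhdsWithin_iff.mpr ⟨hut, Eventually.of_forall hu⟩
  have hex : ∀ᶠ k in atTop, ∃ s ∈ S, φ s = u k := by
    filter_upwards [huZ.eventually (hφ.onto S hS)] with k hk
    obtain ⟨s, hs, e⟩ := hk
    exact ⟨s, hs, e⟩
  let s : ℕ → (Fin d → ℂ) := fun k => if hk : ∃ s ∈ S, φ s = u k then hk.choose else 0
  have hsp : ∀ᶠ k in atTop, s k ∈ S ∧ φ (s k) = u k := by
    filter_upwards [hex] with k hk
    have e : s k = hk.choose := dif_pos hk
    rw [e]
    exact hk.choose_spec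
  have h0S : (0 : Fin d → ℂ) ∈ S := mem_of_mem_nhds hS
  have hs0 : Tendsto s atTop (𝓝 0) := by
    rw [tendsto_zero_iff_norm_tendsto_zero]
    have h1 : Tendsto (fun k => c⁻¹ * ‖u k - v‖) atTop (𝓝 (c⁻¹ * 0)) := by
      refine Tendsto.const_mul _ ?_
      rw [← tendsto_iff_norm_sub_tendsto_zero]
      exact hut
    rw [mul_zero] at h1
    refine squeeze_zero' (Eventually.of_forall fun k => norm_nonneg _) ?_ h1
    filter_upwards [hsp] with k hk
    have h2 := hcS (s k) hk.1 0 h0S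
    rw [hk.2, hφ.map0, sub_zero] at h2
    rw [inv_mul_eq_div, le_div_iff₀ hc]
    linarith [h2, mul_comm c ‖s k‖]
  -- derivative at the shifted points
  have hder : ∀ᶠ k in atTop, ∃ a, fderiv ℂ φ (s k) a = w k := by
    filter_upwards [hsp, hs0.eventually (chart_shift hφ)] with k hk hk2
    have h3 := h k
    rw [← hk.2] at h3
    obtain ⟨a, ha⟩ := (isTangent_iff hk2 (w k)).1 h3
    refine ⟨a, ?_⟩
    rw [← ha, fderiv_comp_add_left, add_zero]
  let a : ℕ → (Fin d → ℂ) := fun k => if hk : ∃ a, fderiv ℂ φ (s k) a = w k then hk.choose else 0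
  have hap : ∀ᶠ k in atTop, fderiv ℂ φ (s k) (a k) = w k := by
    filter_upwards [hder] with k hk
    have e : a k = hk.choose := dif_pos hk
    rw [e]
    exact hk.choose_spec
  -- continuity of the derivative
  have hcont : ContinuousAt (fderiv ℂ φ) 0 := hφ.an.fderiv.continuousAt
  have hcd : Tendsto (fun k => ‖fderiv ℂ φ (s k) - fderiv ℂ φ 0‖) atTop (𝓝 0) := by
    rw [← tendsto_iff_norm_sub_tendsto_zero]
    exact hcont.tendsto.comp hs0
  obtain ⟨K, hK, hKA⟩ := LinearMap.exists_antilipschitzWith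
    ((fderiv ℂ φ 0 : (Fin d → ℂ) →L[ℂ] V) : (Fin d → ℂ) →ₗ[ℂ] V)
    (LinearMap.ker_eq_bot.mpr hφ.inj)
  have hA : ∀ x : Fin d → ℂ, ‖x‖ ≤ K * ‖fderiv ℂ φ 0 x‖ := by
    intro x
    have := hKA.le_mul_dist x 0
    simpa [dist_eq_norm] using this
  have hKpos : (0 : ℝ) < K := by exact_mod_cast hK
  have hwb : ∀ᶠ k in atTop, ‖w k‖ ≤ ‖w₀‖ + 1 := by
    have := hwt.norm
    filter_upwards [this.eventually (gt_mem_nhds (lt_add_one ‖w₀‖))] with k hk
    exact le_of_lt hk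
  have hsmall : ∀ᶠ k in atTop, ‖fderiv ℂ φ (s k) - fderiv ℂ φ 0‖ < 1 / (2 * K) :=
    hcd.eventually (gt_mem_nhds (by positivity))
  have hdiff : ∀ᶠ k in atTop, ‖w k - fderiv ℂ φ 0 (a k)‖ ≤
      ‖fderiv ℂ φ (s k) - fderiv ℂ φ 0‖ * (2 * K * (‖w₀‖ + 1)) := by
    filter_upwards [hap, hwb, hsmall] with k h1 h2 h3
    have h4 : w k - fderiv ℂ φ 0 (a k) = (fderiv ℂ φ (s k) - fderiv ℂ φ 0) (a k) := by
      rw [← h1]; rfl
    have h5 : ‖w k - fderiv ℂ φ 0 (a k)‖ ≤ ‖fderiv ℂ φ (s k) - fderiv ℂ φ 0‖ * ‖a k‖ := by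
      rw [h4]; exact ContinuousLinearMap.le_opNorm _ _
    have h6 : ‖a k‖ ≤ 2 * K * (‖w₀‖ + 1) := by
      have h7 : ‖fderiv ℂ φ 0 (a k)‖ ≤ ‖w k‖ + ‖w k - fderiv ℂ φ 0 (a k)‖ := by
        have := norm_sub_norm_le (fderiv ℂ φ 0 (a k)) (w k)
        rw [norm_sub_rev] at this
        linarith
      have h8 : ‖w k - fderiv ℂ φ 0 (a k)‖ ≤ 1 / (2 * K) * ‖a k‖ :=
        h5.trans (mul_le_mul_of_nonneg_right h3.le (norm_nonneg _))
      have h9 := hA (a k)
      have h10 : K * (1 / (2 * K) * ‖a k‖) = ‖a k‖ / 2 := by field_simp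
      have h11 : (K : ℝ) * ‖fderiv ℂ φ 0 (a k)‖ ≤ K * (‖w₀‖ + 1) + ‖a k‖ / 2 := by
        calc (K : ℝ) * ‖fderiv ℂ φ 0 (a k)‖
            ≤ K * ((‖w₀‖ + 1) + 1 / (2 * K) * ‖a k‖) := by
              apply mul_le_mul_of_nonneg_left _ hKpos.le
              linarith
          _ = K * (‖w₀‖ + 1) + K * (1 / (2 * K) * ‖a k‖) := by ring
          _ = K * (‖w₀‖ + 1) + ‖a k‖ / 2 := by rw [h10]
      linarith
    exact h5.trans (mul_le_mul_of_nonneg_left h6 (norm_nonneg _))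
  have hlim : Tendsto (fun k => fderiv ℂ φ 0 (a k)) atTop (𝓝 w₀) := by
    have h1 : Tendsto (fun k => ‖fderiv ℂ φ (s k) - fderiv ℂ φ 0‖ * (2 * K * (‖w₀‖ + 1)))
        atTop (𝓝 (0 * (2 * K * (‖w₀‖ + 1)))) := hcd.mul_const _
    rw [zero_mul] at h1
    have h2 : Tendsto (fun k => w k - fderiv ℂ φ 0 (a k)) atTop (𝓝 0) := by
      rw [tendsto_zero_iff_norm_tendsto_zero]
      exact squeeze_zero' (Eventually.of_forall fun k => norm_nonneg _) hdiff h1
    have h3 := hwt.sub h2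
    simp only [sub_sub_cancel, sub_zero] at h3
    exact h3
  have hcl : IsClosed ((LinearMap.range ((fderiv ℂ φ 0 : (Fin d → ℂ) →L[ℂ] V) :
      (Fin d → ℂ) →ₗ[ℂ] V) : Submodule ℂ V) : Set V) :=
    Submodule.closed_of_finiteDimensional _
  have hmem := hcl.mem_of_tendsto hlim (Eventually.of_forall fun k => ⟨a k, rfl⟩)
  obtain ⟨b, hb⟩ := hmem
  exact (isTangent_iff hφ w₀).2 ⟨b, hb⟩

/-- Identity theorem: if `Z` is near one of its points contained in a subspace, it is contained in it.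

Proof. The set `{z ∈ Z | ∀ᶠ z' in 𝓝[Z] z, z' ∈ E}` is relatively open in `Z`.  It is relatively closed:
let `z ∈ Z` be in its closure, `φ` a chart at `z`, analytic on a ball `B` around `0` with `φ B ⊆ Z`; there is
`s₁ ∈ B` and a neighbourhood of `s₁` mapped by `φ` into `E` (points of the set near `z` are `φ s₁`,
`φ` continuous at `s₁`); for each linear form `ξ` vanishing on `E` (or with `Submodule.mkQ E`),
`ξ ∘ φ` is analytic on the connected `B` and vanishes near `s₁`, so it vanishes on `B`; so `φ B ⊆ E`, and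
`φ B` is a neighbourhood of `z` in `Z` (`onto`).  `Z` is connected
(`IsPreconnected.subset_of_closure_inter_subset` or similar). -/
theorem mem_of_locally [FiniteDimensional ℂ V] {Z : Set V} (hZ : IsSmoothCone Z)
    (E : Submodule ℂ V) {α : V} (hα : α ∈ Z) (h : ∀ᶠ z in 𝓝[Z] α, z ∈ E) : ∀ z ∈ Z, z ∈ E := by
  classical
  let G : Set Z := interior {z : Z | (z : V) ∈ E}
  have hmemG : ∀ z : Z, z ∈ G ↔ ∀ᶠ z' in 𝓝[Z] (z : V), z' ∈ E := by
    intro z
    rw [mem_interior_iff_mem_nhds, nhdsWithin_eq_map_subtype_coe z.2]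
    rfl
  have hcl : IsClosed G := by
    rw [← closure_subset_iff_isClosed]
    intro z hz
    rw [hmemG]
    obtain ⟨d, φ, hφ⟩ := exists_chartZ hZ z.2
    obtain ⟨r, hr, hball⟩ := Metric.eventually_nhds_iff_ball.1
      (hφ.an.eventually_analyticAt.and hφ.mem)
    have hon := hφ.onto (Metric.ball 0 r) (Metric.ball_mem_nhds 0 hr)
    -- a point of `G` near `z`
    have hon' : ∀ᶠ z' : Z in 𝓝 z, (z' : V) ∈ φ '' Metric.ball 0 r := by
      have : 𝓝[Z] (z : V) = map ((↑) : Z → V) (𝓝 z) := nhdsWithin_eq_map_subtype_coe z.2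
      rw [this] at hon
      exact hon
    obtain ⟨z₁, hz₁, s₁, hs₁, e₁⟩ := (mem_closure_iff_frequently.1 hz).and_eventually hon' |>.exists
    have hnear : ∀ᶠ s in 𝓝 s₁, φ s ∈ E := by
      have h1 : Tendsto φ (𝓝 s₁) (𝓝[Z] (z₁ : V)) := by
        rw [← e₁]
        refine tendsto_nhdsWithin_iff.mpr ⟨(hball s₁ hs₁).1.continuousAt, ?_⟩
        filter_upwards [Metric.isOpen_ball.mem_nhds hs₁] with s hs
        exact (hball s hs).2
      exact h1.eventually ((hmemG z₁).1 hz₁)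
    have hall : ∀ s ∈ Metric.ball (0 : Fin d → ℂ) r, φ s ∈ E := by
      intro s hs
      by_contra hne
      obtain ⟨ξ, hξ1, hξ2⟩ := Submodule.exists_dual_map_eq_bot_of_notMem hne inferInstance
      have hξE : ∀ x ∈ E, ξ x = 0 := by
        intro x hx
        have : ξ x ∈ E.map ξ := Submodule.mem_map_of_mem hx
        rw [hξ2] at this
        simpa using this
      have han : AnalyticOnNhd ℂ (fun s => (LinearMap.toContinuousLinearMap ξ) (φ s))
          (Metric.ball 0 r) := by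
        intro t ht
        exact (ContinuousLinearMap.analyticAt _ _).comp (hball t ht).1
      have hz0 : (fun s => (LinearMap.toContinuousLinearMap ξ) (φ s)) =ᶠ[𝓝 s₁] 0 := by
        filter_upwards [hnear] with t ht
        exact hξE _ ht
      have := han.eqOn_zero_of_preconnected_of_eventuallyEq_zero
        (convex_ball (0 : Fin d → ℂ) r).isPreconnected hs₁ hz0 hs
      exact hξ1 this
    filter_upwards [hon] with x hx
    obtain ⟨s, hs, rfl⟩ := hx
    exact hall s hs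
  have hGo : IsOpen G := isOpen_interior
  have : PreconnectedSpace Z := isPreconnected_iff_preconnectedSpace.1 hZ.isConnected.isPreconnected
  have huniv : G = Set.univ :=
    IsClopen.eq_univ ⟨hcl, hGo⟩ ⟨⟨α, hα⟩, (hmemG ⟨α, hα⟩).2 h⟩
  intro z hz
  have h1 : (⟨z, hz⟩ : Z) ∈ G := by rw [huniv]; trivial
  have h2 : (⟨z, hz⟩ : Z) ∈ {z : Z | (z : V) ∈ E} := interior_subset h1
  exact h2

end Pool.Agent.SEC
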