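import Pool.Agent.SEC.B1c

/-!
SEC-B1d (MP_d19687_ag, project SEC).
-/

open Filter Topology Pool.Agent.MP_d19687_ag Pool.Agent.RIG

namespace Pool.Agent.SEC

variable {V : Type*} [NormedAddCommGroup V] [NormedSpace ℂ V]

/-- If one tangent space is everything then `Z` is everything.

Proof. The set `{z ∈ Z | ∀ w, IsTangent Z z w}` is relatively open in `Z` (chart `φ` at `z` with
`fderiv ℂ φ 0` bijective, so `d = dim V`, and `fderiv ℂ φ s` is injective (`chart_shift`), hence
bijective for `s` near `0`) and relatively closed (chart of dimension `d` at the limit `z`; there are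
`s` near `0` with `fderiv ℂ φ s` bijective, so `d = dim V`, so the injective `fderiv ℂ φ 0` is bijective); so
it is `Z`.  So `Z` is open in `V`: `HasStrictFDerivAt.map_nhds_eq_of_surj` at each point.  `Z ∪ {0}` is
closed, so `Z` is relatively closed in the connected set `{v | v ≠ 0}`
(`isConnected_compl_singleton_of_one_lt_rank` for the real vector space; `dim V ≥ 1` as `Z ≠ ∅` does not
contain `0`); `Z` is nonempty. -/
theorem eq_of_tangent_top [FiniteDimensional ℂ V] {Z : Set V} (hZ : IsSmoothCone Z) {α : V}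
    (hα : α ∈ Z) (h : ∀ w, IsTangent Z α w) : Z = {v | v ≠ 0} := by
  haveI : CompleteSpace V := FiniteDimensional.complete ℂ V
  have key : ∀ {z : V} {d : ℕ} {φ : (Fin d → ℂ) → V}, IsChartZ Z z d φ →
      Function.Surjective (fderiv ℂ φ 0) → z ∈ interior Z := by
    intro z d φ hc hs
    have h1 : HasStrictFDerivAt φ (fderiv ℂ φ 0) 0 := hc.an.hasStrictFDerivAt
    have h2 := h1.map_nhds_eq_of_surj (LinearMap.range_eq_top.2 hs)
    rw [mem_interior_iff_mem_nhds, ← hc.map0, ← h2]
    exact hc.mem
  have hαi : α ∈ interior Z := by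
    obtain ⟨d, φ, hc⟩ := exists_chartZ hZ hα
    exact key hc fun w => (isTangent_iff hc w).1 (h w)
  have hsub : Z ⊆ interior Z := by
    refine hZ.isConnected.isPreconnected.subset_of_closure_inter_subset isOpen_interior
      ⟨α, hα, hαi⟩ ?_
    rintro z ⟨hz1, hz⟩
    obtain ⟨d, φ, hc⟩ := exists_chartZ hZ hz
    -- a point of the interior which is `φ s` with a chart there
    have hS := hc.onto _ (chart_shift hc)
    rw [eventually_nhdsWithin_iff] at hS
    obtain ⟨w, hwS, hwi⟩ := (mem_closure_iff_nhds.1 hz1) _ hS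
    obtain ⟨s, hs, hsw⟩ := hwS (interior_subset hwi)
    have hs' : IsChartZ Z (φ s) d (fun s' => φ (s + s')) := hs
    have hsurj : Function.Surjective (fderiv ℂ (fun s' => φ (s + s')) 0) := by
      intro u
      refine (isTangent_iff hs' u).1 ?_
      rw [hsw]
      refine ⟨fun t => w + t • u, ?_, by simp, ?_, ?_⟩
      · exact analyticAt_const.add (analyticAt_id.smul analyticAt_const)
      · have h3 : HasDerivAt (fun t : ℂ => w + t • u) ((1 : ℂ) • u) 0 := by
          exact ((hasDerivAt_id (0 : ℂ)).smul_const u).const_add w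
        simpa using h3.deriv
      · have h4 : Tendsto (fun t : ℂ => w + t • u) (𝓝 0) (𝓝 w) := by
          have : ContinuousAt (fun t : ℂ => w + t • u) 0 := by fun_prop
          simpa [ContinuousAt] using this
        exact h4 (mem_interior_iff_mem_nhds.1 hwi)
    have hdim : Module.finrank ℂ (Fin d → ℂ) = Module.finrank ℂ V := by
      refine le_antisymm ?_ ?_
      · exact LinearMap.finrank_le_finrank_of_injective
          (f := ((fderiv ℂ φ 0 : (Fin d → ℂ) →L[ℂ] V) : (Fin d → ℂ) →ₗ[ℂ] V)) hc.inj
      · exact LinearMap.finrank_le_finrank_of_surjective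
          (f := ((fderiv ℂ (fun s' => φ (s + s')) 0 : (Fin d → ℂ) →L[ℂ] V) :
            (Fin d → ℂ) →ₗ[ℂ] V)) hsurj
    refine key hc ?_
    exact (LinearMap.injective_iff_surjective_of_finrank_eq_finrank
      (f := ((fderiv ℂ φ 0 : (Fin d → ℂ) →L[ℂ] V) : (Fin d → ℂ) →ₗ[ℂ] V)) hdim).1 hc.inj
  have hopen : IsOpen Z := by
    have : interior Z = Z := Set.Subset.antisymm interior_subset hsub
    rw [← this]
    exact isOpen_interior
  refine Set.Subset.antisymm (fun v hv => hZ.ne_zero v hv) ?_
  have hα0 : α ≠ 0 := hZ.ne_zero α hα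
  haveI : Nontrivial V := ⟨α, 0, hα0⟩
  have hrk : 1 < Module.rank ℝ V := by
    rw [rank_real_of_complex]
    have h1 : (1 : Cardinal) ≤ Module.rank ℂ V := Cardinal.one_le_iff_pos.2 rank_pos
    calc (1 : Cardinal) < 2 := by exact_mod_cast Nat.one_lt_two
      _ = 2 * 1 := (mul_one 2).symm
      _ ≤ 2 * Module.rank ℂ V := by gcongr
  have hconn : IsConnected ({(0 : V)}ᶜ : Set V) :=
    isConnected_compl_singleton_of_one_lt_rank hrk 0
  have hsub2 : ({(0 : V)}ᶜ : Set V) ⊆ Z := by
    refine hconn.isPreconnected.subset_of_closure_inter_subset hopen ⟨α, hα0, hα⟩ ?_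
    rintro z ⟨hz1, hz0⟩
    have h2 : closure Z ⊆ Z ∪ {0} := closure_minimal Set.subset_union_left hZ.isClosed
    rcases h2 hz1 with h3 | h3
    · exact h3
    · exact absurd h3 hz0
  exact fun v hv => hsub2 hv

end Pool.Agent.SEC
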