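import Pool.Agent.SEC.B1b
import Pool.Agent.SEC.A2b

/-!
SEC-B2a (MP_d19687_ag, project SEC).
-/

open Filter Topology Pool.Agent.MP_d19687_ag Pool.Agent.RIG

namespace Pool.Agent.SEC

variable {V : Type*} [NormedAddCommGroup V] [NormedSpace ℂ V] [FiniteDimensional ℂ V]

/-- A chart of `Z` parametrised by a ball, with uniform immersion bound. -/
structure BallChart (Z : Set V) where
  d : ℕ
  φ : (Fin d → ℂ) → V
  r : ℝ
  c : ℝ
  r_pos : 0 < r
  c_pos : 0 < c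
  chart : ∀ s ∈ Metric.ball (0 : Fin d → ℂ) r, IsChartZ Z (φ s) d (fun s' => φ (s + s'))
  bound : ∀ s ∈ Metric.ball (0 : Fin d → ℂ) r, ∀ s' ∈ Metric.ball (0 : Fin d → ℂ) r,
    c * ‖s - s'‖ ≤ ‖φ s - φ s'‖

/-- `φ` is analytic on the ball and maps it into `Z`. -/
theorem BallChart.an {Z : Set V} (b : BallChart Z) {s : Fin b.d → ℂ}
    (hs : s ∈ Metric.ball (0 : Fin b.d → ℂ) b.r) : AnalyticAt ℂ b.φ s := by
  have h := (b.chart s hs).an
  have h1 : AnalyticAt ℂ (fun u : Fin b.d → ℂ => u - s) s := analyticAt_id.sub analyticAt_const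
  have h2 : AnalyticAt ℂ ((fun s' => b.φ (s + s')) ∘ fun u : Fin b.d → ℂ => u - s) s :=
    AnalyticAt.comp_of_eq h h1 (sub_self s)
  have h3 : ((fun s' => b.φ (s + s')) ∘ fun u : Fin b.d → ℂ => u - s) = b.φ := by
    funext u
    simp
  rwa [h3] at h2

theorem BallChart.mem {Z : Set V} (b : BallChart Z) {s : Fin b.d → ℂ}
    (hs : s ∈ Metric.ball (0 : Fin b.d → ℂ) b.r) : b.φ s ∈ Z := by
  have h := (b.chart s hs).mem.self_of_nhds
  simpa using h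

/-- The tangent vectors at `φ s`. -/
theorem BallChart.isTangent_iff {Z : Set V} (b : BallChart Z) {s : Fin b.d → ℂ}
    (hs : s ∈ Metric.ball (0 : Fin b.d → ℂ) b.r) (w : V) :
    IsTangent Z (b.φ s) w ↔ ∃ a, fderiv ℂ b.φ s a = w := by
  have h := Pool.Agent.SEC.isTangent_iff (b.chart s hs) w
  rw [fderiv_comp_add_left, add_zero] at h
  exact h

/-- `c ‖a‖ ≤ ‖dφ_s a‖`. -/
theorem BallChart.fderiv_bound {Z : Set V} (b : BallChart Z) {s : Fin b.d → ℂ}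
    (hs : s ∈ Metric.ball (0 : Fin b.d → ℂ) b.r) (a : Fin b.d → ℂ) :
    b.c * ‖a‖ ≤ ‖fderiv ℂ b.φ s a‖ := by
  have hd : HasFDerivAt b.φ (fderiv ℂ b.φ s) s := (b.an hs).differentiableAt.hasFDerivAt
  have hg : HasDerivAt (fun t : ℂ => b.φ (s + t • a)) (fderiv ℂ b.φ s a) 0 := by
    have h1 : HasDerivAt (fun t : ℂ => s + t • a) a 0 := by
      have := ((hasDerivAt_id (0 : ℂ)).smul_const a).const_add s
      simpa using this
    have h2 : HasFDerivAt b.φ (fderiv ℂ b.φ s) (s + (0 : ℂ) • a) := by simpa using hd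
    exact h2.comp_hasDerivAt (0 : ℂ) h1
  have h3 := (hasDerivAt_iff_tendsto_slope_zero.1 hg).norm
  have hc : ContinuousAt (fun t : ℂ => s + t • a) 0 := by fun_prop
  have h4 : ∀ᶠ t : ℂ in 𝓝 0, s + t • a ∈ Metric.ball (0 : Fin b.d → ℂ) b.r := by
    have : Tendsto (fun t : ℂ => s + t • a) (𝓝 0) (𝓝 s) := by
      simpa [ContinuousAt] using hc
    exact this (Metric.isOpen_ball.mem_nhds hs)
  refine ge_of_tendsto h3 ?_
  filter_upwards [h4.filter_mono nhdsWithin_le_nhds, self_mem_nhdsWithin] with t ht ht0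
  have ht0' : 0 < ‖t‖ := norm_pos_iff.2 ht0
  have h5 := b.bound _ ht s hs
  rw [add_sub_cancel_left, norm_smul] at h5
  rw [norm_smul, norm_inv, zero_add, zero_smul, add_zero]
  rw [inv_mul_eq_div, le_div_iff₀ ht0']
  calc b.c * ‖a‖ * ‖t‖ = b.c * (‖t‖ * ‖a‖) := by ring
    _ ≤ _ := h5

/-- Points of `Z` converging to `φ s` are `φ s_k` with `s_k → s`. -/
theorem BallChart.lift {Z : Set V} (b : BallChart Z) {s : Fin b.d → ℂ}
    (hs : s ∈ Metric.ball (0 : Fin b.d → ℂ) b.r) {z : ℕ → V} (hz : ∀ k, z k ∈ Z)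
    (hzt : Tendsto z atTop (𝓝 (b.φ s))) :
    ∃ u : ℕ → (Fin b.d → ℂ), Tendsto u atTop (𝓝 s) ∧
      ∀ᶠ k in atTop, u k ∈ Metric.ball (0 : Fin b.d → ℂ) b.r ∧ b.φ (u k) = z k := by
  classical
  have hS : {s' : Fin b.d → ℂ | s + s' ∈ Metric.ball (0 : Fin b.d → ℂ) b.r} ∈ 𝓝 0 := by
    have hc : ContinuousAt (fun s' : Fin b.d → ℂ => s + s') 0 := by fun_prop
    have h1 : Tendsto (fun s' : Fin b.d → ℂ => s + s') (𝓝 0) (𝓝 s) := by
      simpa [ContinuousAt] using hc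
    exact h1 (Metric.isOpen_ball.mem_nhds hs)
  have h2 := (b.chart s hs).onto _ hS
  have h3 : Tendsto z atTop (𝓝[Z] (b.φ s)) :=
    tendsto_nhdsWithin_iff.2 ⟨hzt, Eventually.of_forall hz⟩
  have h4 : ∀ᶠ k in atTop, ∃ v ∈ Metric.ball (0 : Fin b.d → ℂ) b.r, b.φ v = z k := by
    filter_upwards [h3.eventually h2] with k hk
    obtain ⟨s', hs', hk⟩ := hk
    exact ⟨s + s', hs', hk⟩
  let u : ℕ → (Fin b.d → ℂ) := fun k =>
    if h : ∃ v ∈ Metric.ball (0 : Fin b.d → ℂ) b.r, b.φ v = z k then h.choose else s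
  have hu : ∀ k, b.c * ‖u k - s‖ ≤ ‖z k - b.φ s‖ := by
    intro k
    by_cases h : ∃ v ∈ Metric.ball (0 : Fin b.d → ℂ) b.r, b.φ v = z k
    · have h5 : u k = h.choose := dif_pos h
      obtain ⟨h6, h7⟩ := h.choose_spec
      rw [h5]
      have h8 := b.bound _ h6 s hs
      rwa [h7] at h8
    · have h5 : u k = s := dif_neg h
      rw [h5, sub_self, norm_zero, mul_zero]
      exact norm_nonneg _
  refine ⟨u, ?_, ?_⟩
  · rw [tendsto_iff_norm_sub_tendsto_zero]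
    have h5 : Tendsto (fun k => b.c⁻¹ * ‖z k - b.φ s‖) atTop (𝓝 0) := by
      have := (tendsto_iff_norm_sub_tendsto_zero.1 hzt).const_mul b.c⁻¹
      simpa using this
    refine squeeze_zero (fun k => norm_nonneg _) (fun k => ?_) h5
    rw [inv_mul_eq_div, le_div_iff₀ b.c_pos, mul_comm]
    exact hu k
  · filter_upwards [h4] with k h
    have h5 : u k = h.choose := dif_pos h
    rw [h5]
    exact h.choose_spec

/-- A chart at each point, by `chart_shift` and `chart_bound`. -/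
theorem exists_ballChart {Z : Set V} (hZ : IsSmoothCone Z) {v : V} (hv : v ∈ Z) :
    ∃ b : BallChart Z, b.φ 0 = v := by
  obtain ⟨d, φ, h⟩ := exists_chartZ hZ hv
  obtain ⟨c, hc, S, hS, hb⟩ := chart_bound h
  obtain ⟨r, hr, hrS⟩ := Metric.mem_nhds_iff.1 (inter_mem hS (chart_shift h))
  exact ⟨⟨d, φ, r, c, hr, hc, fun s hs => (hrS hs).2, fun s hs s' hs' =>
    hb s (hrS hs).1 s' (hrS hs').1⟩, h.map0⟩

/-- Finite atlas of the unit sphere.

Proof. `K = {z ∈ Z | ‖z‖ = 1}` is compact (`Z ∪ {0}` is closed, `V` finite-dimensional).  For `a ∈ K` let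
`b_a` be a ball chart with `b_a.φ 0 = a`; by `IsChartZ.onto` (at `s = 0`, `S` = the ball) there is a
neighbourhood `O_a` of `a` with `O_a ∩ Z ⊆ b_a.φ '' ball`.  Take a finite subcover
(`IsCompact.elim_nhds_subcover`). -/
theorem exists_atlas {Z : Set V} (hZ : IsSmoothCone Z) :
    ∃ (m : ℕ) (b : Fin m → BallChart Z), ∀ z ∈ Z, ‖z‖ = 1 →
      ∃ i, ∃ s ∈ Metric.ball (0 : Fin (b i).d → ℂ) (b i).r, (b i).φ s = z := by
  classical
  have hK : IsCompact (Metric.sphere (0 : V) 1 ∩ (Z ∪ {0})) :=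
    haveI : ProperSpace V := FiniteDimensional.proper ℂ V
    (isCompact_sphere (0 : V) 1).inter_right hZ.isClosed
  have hKZ : ∀ w ∈ Metric.sphere (0 : V) 1 ∩ (Z ∪ {0}), w ∈ Z := by
    rintro w ⟨hw1, hw2⟩
    rcases hw2 with hw2 | hw2
    · exact hw2
    · rw [Set.mem_singleton_iff] at hw2
      rw [hw2, mem_sphere_zero_iff_norm, norm_zero] at hw1
      exact absurd hw1 zero_ne_one
  choose b hb using fun a : {w // w ∈ Metric.sphere (0 : V) 1 ∩ (Z ∪ {0})} =>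
    exists_ballChart hZ (hKZ a.1 a.2)
  obtain ⟨t, ht⟩ := hK.elim_nhds_subcover' (fun a ha =>
    {w | w ∈ Z → ∃ s ∈ Metric.ball (0 : Fin (b ⟨a, ha⟩).d → ℂ) (b ⟨a, ha⟩).r,
      (b ⟨a, ha⟩).φ s = w}) (fun a ha => by
    have h0 : (0 : Fin (b ⟨a, ha⟩).d → ℂ) ∈
        Metric.ball (0 : Fin (b ⟨a, ha⟩).d → ℂ) (b ⟨a, ha⟩).r :=
      Metric.mem_ball_self (b ⟨a, ha⟩).r_pos
    have h1 := ((b ⟨a, ha⟩).chart 0 h0).onto _
      (Metric.isOpen_ball.mem_nhds h0)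
    rw [hb ⟨a, ha⟩] at h1
    have h2 := eventually_nhdsWithin_iff.1 h1
    filter_upwards [h2] with w hw hwZ
    obtain ⟨s, hs, hsw⟩ := hw hwZ
    refine ⟨s, hs, ?_⟩
    simpa using hsw)
  refine ⟨t.card, fun i => b (t.equivFin.symm i).1, fun z hz hz1 => ?_⟩
  have hzK : z ∈ Metric.sphere (0 : V) 1 ∩ (Z ∪ {0}) :=
    ⟨mem_sphere_zero_iff_norm.2 hz1, Or.inl hz⟩
  obtain ⟨a, ha, hza⟩ := Set.mem_iUnion₂.1 (ht hzK)
  obtain ⟨s, hs, hsz⟩ := hza hz
  refine ⟨t.equivFin ⟨a, ha⟩, ?_⟩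
  have he : b (t.equivFin.symm (t.equivFin ⟨a, ha⟩)).1 = b a := by
    rw [Equiv.symm_apply_apply]
  show ∃ s ∈ Metric.ball 0 (b (t.equivFin.symm (t.equivFin ⟨a, ha⟩)).1).r,
    (b (t.equivFin.symm (t.equivFin ⟨a, ha⟩)).1).φ s = z
  rw [he]
  exact ⟨s, hs, hsz⟩

end Pool.Agent.SEC
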