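import Pool.Agent.SEC.B2a

/-!
SEC-B2b (MP_d19687_ag, project SEC).
-/

open Filter Topology Pool.Agent.MP_d19687_ag Pool.Agent.RIG

namespace Pool.Agent.SEC

variable {V : Type*} [NormedAddCommGroup V] [NormedSpace ℂ V] [FiniteDimensional ℂ V]

/-- A `Par` from an analytic map on an open subset of any finite-dimensional space (coordinates). -/
theorem exists_par_of {Z : Set V} {E : Type*} [NormedAddCommGroup E] [NormedSpace ℂ E]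
    [FiniteDimensional ℂ E] (Ω : Set E) (Φ : E → V) (hΩ : IsOpen Ω)
    (hΦ : ∀ x ∈ Ω, AnalyticAt ℂ Φ x) (hmem : ∀ x ∈ Ω, Φ x ∈ SecSet Z)
    (hter : ∀ x ∈ Ω, Function.Surjective (fderiv ℂ Φ x) → Ter Z) :
    ∃ (P : Par Z) (e : E ≃L[ℂ] (Fin P.N → ℂ)), (∀ x, x ∈ Ω ↔ e x ∈ P.Ω) ∧ ∀ x, P.Φ (e x) = Φ x := by
  let e : E ≃L[ℂ] (Fin (Module.finrank ℂ E) → ℂ) :=
    ContinuousLinearEquiv.ofFinrankEq (by simp)
  have hsm : ∀ x, AnalyticAt ℂ (e.symm : (Fin (Module.finrank ℂ E) → ℂ) → E) x := fun x =>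
    (e.symm : (Fin (Module.finrank ℂ E) → ℂ) →L[ℂ] E).analyticAt x
  refine ⟨⟨Module.finrank ℂ E, e.symm ⁻¹' Ω, Φ ∘ e.symm, hΩ.preimage e.symm.continuous,
    fun x hx => ?_, fun x hx => hmem _ hx, fun x hx hs => ?_⟩, e, fun x => ?_, fun x => ?_⟩
  · exact AnalyticAt.comp (hΦ _ hx) (hsm x)
  · refine hter _ hx ?_
    rw [ContinuousLinearEquiv.comp_right_fderiv] at hs
    exact Function.Surjective.of_comp (g := e.symm) hs
  · show x ∈ Ω ↔ e.symm (e x) ∈ Ω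
    rw [ContinuousLinearEquiv.symm_apply_apply]
  · show Φ (e.symm (e x)) = Φ x
    rw [ContinuousLinearEquiv.symm_apply_apply]

/-- Differences: `(x, y, s, s') ↦ x φ_b(s) - y φ_b'(s')` (`x`, `y` may be zero).

`mem`: if `x, y ≠ 0` it is a difference of two points of `Z`; if exactly one is `≠ 0` it is a point of
`Z`, tangent to `Z` at itself (`isTangent_self`); if both are zero it is `z - z`.
`ter`: `fderiv` in the direction `(dx, dy, ds, ds')` is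
`(dx φ_b(s) + x dφ_b(ds)) - (dy φ_b'(s') + y dφ_b'(ds'))`, a sum of a vector tangent at `φ_b s` and one
tangent at `φ_b' s'`. -/
theorem exists_parA {Z : Set V} (hZ : IsSmoothCone Z) (b b' : BallChart Z) :
    ∃ (P : Par Z) (e : ((ℂ × ℂ) × ((Fin b.d → ℂ) × (Fin b'.d → ℂ))) ≃L[ℂ] (Fin P.N → ℂ)),
      (∀ x y s s', s ∈ Metric.ball (0 : Fin b.d → ℂ) b.r → s' ∈ Metric.ball (0 : Fin b'.d → ℂ) b'.r →
        e ((x, y), (s, s')) ∈ P.Ω) ∧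
      ∀ x y s s', P.Φ (e ((x, y), (s, s'))) = x • b.φ s - y • b'.φ s' := by
  let Ω : Set ((ℂ × ℂ) × ((Fin b.d → ℂ) × (Fin b'.d → ℂ))) :=
    {p | p.2.1 ∈ Metric.ball (0 : Fin b.d → ℂ) b.r ∧ p.2.2 ∈ Metric.ball (0 : Fin b'.d → ℂ) b'.r}
  let Φ : ((ℂ × ℂ) × ((Fin b.d → ℂ) × (Fin b'.d → ℂ))) → V := fun p =>
    p.1.1 • b.φ p.2.1 - p.1.2 • b'.φ p.2.2
  have hΩ : IsOpen Ω := by
    have h1 : Continuous fun p : ((ℂ × ℂ) × ((Fin b.d → ℂ) × (Fin b'.d → ℂ))) => p.2.1 := by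
      fun_prop
    have h2 : Continuous fun p : ((ℂ × ℂ) × ((Fin b.d → ℂ) × (Fin b'.d → ℂ))) => p.2.2 := by
      fun_prop
    exact (Metric.isOpen_ball.preimage h1).inter (Metric.isOpen_ball.preimage h2)
  have hΦ : ∀ x ∈ Ω, AnalyticAt ℂ Φ x := by
    rintro x ⟨hx1, hx2⟩
    have a1 : AnalyticAt ℂ (fun p : ((ℂ × ℂ) × ((Fin b.d → ℂ) × (Fin b'.d → ℂ))) => p.1.1) x :=
      analyticAt_fst.comp analyticAt_fst
    have a2 : AnalyticAt ℂ (fun p : ((ℂ × ℂ) × ((Fin b.d → ℂ) × (Fin b'.d → ℂ))) => p.1.2) x :=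
      analyticAt_snd.comp analyticAt_fst
    have a3 : AnalyticAt ℂ (fun p : ((ℂ × ℂ) × ((Fin b.d → ℂ) × (Fin b'.d → ℂ))) => p.2.1) x :=
      analyticAt_fst.comp analyticAt_snd
    have a4 : AnalyticAt ℂ (fun p : ((ℂ × ℂ) × ((Fin b.d → ℂ) × (Fin b'.d → ℂ))) => p.2.2) x :=
      analyticAt_snd.comp analyticAt_snd
    have c1 := AnalyticAt.comp (g := b.φ)
      (f := fun p : ((ℂ × ℂ) × ((Fin b.d → ℂ) × (Fin b'.d → ℂ))) => p.2.1) (b.an hx1) a3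
    have c2 := AnalyticAt.comp (g := b'.φ)
      (f := fun p : ((ℂ × ℂ) × ((Fin b.d → ℂ) × (Fin b'.d → ℂ))) => p.2.2) (b'.an hx2) a4
    exact (a1.smul c1).sub (a2.smul c2)
  have hmem : ∀ x ∈ Ω, Φ x ∈ SecSet Z := by
    rintro ⟨⟨x, y⟩, ⟨s, s'⟩⟩ ⟨hs, hs'⟩
    show x • b.φ s - y • b'.φ s' ∈ SecSet Z
    have m1 := b.mem hs
    have m2 := b'.mem hs'
    by_cases hx : x = 0
    · by_cases hy : y = 0
      · left
        refine ⟨b.φ s, m1, b.φ s, m1, ?_⟩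
        simp [hx, hy]
      · right
        have m3 : (-y) • b'.φ s' ∈ Z := hZ.smul_mem _ m2 _ (neg_ne_zero.2 hy)
        refine ⟨(-y) • b'.φ s', m3, ?_⟩
        have h := isTangent_self hZ m3
        have e1 : x • b.φ s - y • b'.φ s' = (-y) • b'.φ s' := by simp [hx]
        rw [e1]
        exact h
    · by_cases hy : y = 0
      · right
        have m3 : x • b.φ s ∈ Z := hZ.smul_mem _ m1 _ hx
        refine ⟨x • b.φ s, m3, ?_⟩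
        have e1 : x • b.φ s - y • b'.φ s' = x • b.φ s := by simp [hy]
        rw [e1]
        exact isTangent_self hZ m3
      · left
        exact ⟨x • b.φ s, hZ.smul_mem _ m1 _ hx, y • b'.φ s', hZ.smul_mem _ m2 _ hy, rfl⟩
  have hter : ∀ x ∈ Ω, Function.Surjective (fderiv ℂ Φ x) → Ter Z := by
    rintro x ⟨hx1, hx2⟩ hsurj
    have m1 := b.mem hx1
    have m2 := b'.mem hx2
    refine ⟨b.φ x.2.1, m1, b'.φ x.2.2, m2, fun v => ?_⟩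
    obtain ⟨q, hq⟩ := hsurj v
    have d1 : HasFDerivAt b.φ (fderiv ℂ b.φ x.2.1) x.2.1 := (b.an hx1).differentiableAt.hasFDerivAt
    have d2 : HasFDerivAt b'.φ (fderiv ℂ b'.φ x.2.2) x.2.2 :=
      (b'.an hx2).differentiableAt.hasFDerivAt
    have l1 : HasFDerivAt (fun p : ((ℂ × ℂ) × ((Fin b.d → ℂ) × (Fin b'.d → ℂ))) => p.1.1)
        ((ContinuousLinearMap.fst ℂ ℂ ℂ).comp (ContinuousLinearMap.fst ℂ (ℂ × ℂ) _)) x :=
      ((ContinuousLinearMap.fst ℂ ℂ ℂ).comp (ContinuousLinearMap.fst ℂ (ℂ × ℂ)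
        ((Fin b.d → ℂ) × (Fin b'.d → ℂ)))).hasFDerivAt
    have l2 : HasFDerivAt (fun p : ((ℂ × ℂ) × ((Fin b.d → ℂ) × (Fin b'.d → ℂ))) => p.1.2)
        ((ContinuousLinearMap.snd ℂ ℂ ℂ).comp (ContinuousLinearMap.fst ℂ (ℂ × ℂ) _)) x :=
      ((ContinuousLinearMap.snd ℂ ℂ ℂ).comp (ContinuousLinearMap.fst ℂ (ℂ × ℂ)
        ((Fin b.d → ℂ) × (Fin b'.d → ℂ)))).hasFDerivAt
    have l3 : HasFDerivAt (fun p : ((ℂ × ℂ) × ((Fin b.d → ℂ) × (Fin b'.d → ℂ))) => p.2.1)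
        ((ContinuousLinearMap.fst ℂ (Fin b.d → ℂ) (Fin b'.d → ℂ)).comp
          (ContinuousLinearMap.snd ℂ (ℂ × ℂ) _)) x :=
      ((ContinuousLinearMap.fst ℂ (Fin b.d → ℂ) (Fin b'.d → ℂ)).comp
        (ContinuousLinearMap.snd ℂ (ℂ × ℂ) ((Fin b.d → ℂ) × (Fin b'.d → ℂ)))).hasFDerivAt
    have l4 : HasFDerivAt (fun p : ((ℂ × ℂ) × ((Fin b.d → ℂ) × (Fin b'.d → ℂ))) => p.2.2)
        ((ContinuousLinearMap.snd ℂ (Fin b.d → ℂ) (Fin b'.d → ℂ)).comp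
          (ContinuousLinearMap.snd ℂ (ℂ × ℂ) _)) x :=
      ((ContinuousLinearMap.snd ℂ (Fin b.d → ℂ) (Fin b'.d → ℂ)).comp
        (ContinuousLinearMap.snd ℂ (ℂ × ℂ) ((Fin b.d → ℂ) × (Fin b'.d → ℂ)))).hasFDerivAt
    have g1 := l1.smul (d1.comp x l3)
    have g2 := l2.smul (d2.comp x l4)
    have g3 := (g1.sub g2).fderiv
    have hq' : (q.1.1 • b.φ x.2.1 + x.1.1 • fderiv ℂ b.φ x.2.1 q.2.1) -
        (q.1.2 • b'.φ x.2.2 + x.1.2 • fderiv ℂ b'.φ x.2.2 q.2.2) = v := by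
      rw [← hq]
      show _ = (fderiv ℂ Φ x) q
      have g4 : fderiv ℂ Φ x = _ := g3
      rw [g4]
      simp [add_comm]
    refine ⟨q.1.1 • b.φ x.2.1 + x.1.1 • fderiv ℂ b.φ x.2.1 q.2.1,
      (-1 : ℂ) • (q.1.2 • b'.φ x.2.2 + x.1.2 • fderiv ℂ b'.φ x.2.2 q.2.2), ?_, ?_, ?_⟩
    · exact isTangent_add hZ m1 (isTangent_smul (isTangent_self hZ m1) _)
        (isTangent_smul ((b.isTangent_iff hx1 _).2 ⟨_, rfl⟩) _)
    · exact isTangent_smul (isTangent_add hZ m2 (isTangent_smul (isTangent_self hZ m2) _)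
        (isTangent_smul ((b'.isTangent_iff hx2 _).2 ⟨_, rfl⟩) _)) _
    · rw [← hq', neg_one_smul, sub_eq_add_neg]
  obtain ⟨P, e, h1, h2⟩ := exists_par_of Ω Φ hΩ hΦ hmem hter
  exact ⟨P, e, fun x y s s' hs hs' => (h1 _).1 ⟨hs, hs'⟩, fun x y s s' => h2 _⟩

end Pool.Agent.SEC
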