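import Pool.Agent.SEC.B2b

/-!
SEC-B2c (MP_d19687_ag, project SEC).
-/

open Filter Topology Pool.Agent.MP_d19687_ag Pool.Agent.RIG

namespace Pool.Agent.SEC

variable {V : Type*} [NormedAddCommGroup V] [NormedSpace ℂ V] [FiniteDimensional ℂ V]

/-- Surjectivity of the derivative is an open condition (finite-dimensional target). -/
private theorem eventually_surjective {E : Type*} [NormedAddCommGroup E] [NormedSpace ℂ E]
    {Φ : E → V} {x : E} (hΦ : AnalyticAt ℂ Φ x) (hs : Function.Surjective (fderiv ℂ Φ x)) :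
    ∀ᶠ x' in 𝓝 x, Function.Surjective (fderiv ℂ Φ x') := by
  have : CompleteSpace V := FiniteDimensional.complete ℂ V
  obtain ⟨R, hR⟩ : ∃ R : V →L[ℂ] E, (fderiv ℂ Φ x).comp R = ContinuousLinearMap.id ℂ V := by
    obtain ⟨g, hg⟩ := ((fderiv ℂ Φ x : E →L[ℂ] V) : E →ₗ[ℂ] V).exists_rightInverse_of_surjective
      (LinearMap.range_eq_top.2 hs)
    refine ⟨LinearMap.toContinuousLinearMap g, ?_⟩
    ext v
    have := LinearMap.congr_fun hg v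
    simpa using this
  have hc : ContinuousAt (fun x' => (fderiv ℂ Φ x').comp R) x :=
    (hΦ.fderiv.continuousAt).clm_comp continuousAt_const
  have hu : IsUnit ((fderiv ℂ Φ x).comp R) := by
    rw [hR]; exact isUnit_one
  have h1 : {A : V →L[ℂ] V | IsUnit A} ∈ 𝓝 ((fderiv ℂ Φ x).comp R) :=
    Units.isOpen.mem_nhds hu
  filter_upwards [hc.preimage_mem_nhds h1] with x' hx'
  obtain ⟨u, hu'⟩ : IsUnit ((fderiv ℂ Φ x').comp R) := hx'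
  intro v
  refine ⟨R ((↑u⁻¹ : V →L[ℂ] V) v), ?_⟩
  have h2 : ((fderiv ℂ Φ x').comp R) ((↑u⁻¹ : V →L[ℂ] V) v) = v := by
    rw [← hu']
    have h3 : (u : V →L[ℂ] V) * (↑u⁻¹ : V →L[ℂ] V) = 1 := Units.mul_inv u
    exact DFunLike.congr_fun h3 v
  simpa using h2

/-- The derivative of the divided difference at a point with `ε ≠ 0`. -/
private theorem fderiv_divDiff {d : ℕ} {φ : (Fin d → ℂ) → V} (s ω : Fin d → ℂ) (ε : ℂ)
    (hε : ε ≠ 0) (h1 : AnalyticAt ℂ φ s) (h2 : AnalyticAt ℂ φ (s + ε • ω))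
    (ds dω : Fin d → ℂ) (dε : ℂ) :
    fderiv ℂ (divDiff φ) ((s, ω), ε) ((ds, dω), dε) =
      (-(dε * (ε⁻¹ * ε⁻¹))) • (φ (s + ε • ω) - φ s) +
        ε⁻¹ • (fderiv ℂ φ (s + ε • ω) (ds + (ε • dω + dε • ω)) - fderiv ℂ φ s ds) := by
  have hq1 : HasFDerivAt (fun q : ((Fin d → ℂ) × (Fin d → ℂ)) × ℂ => q.1.1)
      ((ContinuousLinearMap.fst ℂ (Fin d → ℂ) (Fin d → ℂ)).comp
        (ContinuousLinearMap.fst ℂ ((Fin d → ℂ) × (Fin d → ℂ)) ℂ)) ((s, ω), ε) :=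
    ((ContinuousLinearMap.fst ℂ (Fin d → ℂ) (Fin d → ℂ)).comp
        (ContinuousLinearMap.fst ℂ ((Fin d → ℂ) × (Fin d → ℂ)) ℂ)).hasFDerivAt
  have hq2 : HasFDerivAt (fun q : ((Fin d → ℂ) × (Fin d → ℂ)) × ℂ => q.1.2)
      ((ContinuousLinearMap.snd ℂ (Fin d → ℂ) (Fin d → ℂ)).comp
        (ContinuousLinearMap.fst ℂ ((Fin d → ℂ) × (Fin d → ℂ)) ℂ)) ((s, ω), ε) :=
    ((ContinuousLinearMap.snd ℂ (Fin d → ℂ) (Fin d → ℂ)).comp
        (ContinuousLinearMap.fst ℂ ((Fin d → ℂ) × (Fin d → ℂ)) ℂ)).hasFDerivAt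
  have hq3 : HasFDerivAt (fun q : ((Fin d → ℂ) × (Fin d → ℂ)) × ℂ => q.2)
      (ContinuousLinearMap.snd ℂ ((Fin d → ℂ) × (Fin d → ℂ)) ℂ) ((s, ω), ε) :=
    (ContinuousLinearMap.snd ℂ ((Fin d → ℂ) × (Fin d → ℂ)) ℂ).hasFDerivAt
  have hadd := hq1.add (hq3.smul hq2)
  have hA : HasFDerivAt (fun q : ((Fin d → ℂ) × (Fin d → ℂ)) × ℂ => φ (q.1.1 + q.2 • q.1.2)) _
      ((s, ω), ε) :=
    HasFDerivAt.comp ((s, ω), ε)
      (f := fun q : ((Fin d → ℂ) × (Fin d → ℂ)) × ℂ => q.1.1 + q.2 • q.1.2)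
      (h2.differentiableAt.hasFDerivAt) hadd
  have hB : HasFDerivAt (fun q : ((Fin d → ℂ) × (Fin d → ℂ)) × ℂ => φ q.1.1) _ ((s, ω), ε) :=
    HasFDerivAt.comp ((s, ω), ε)
      (f := fun q : ((Fin d → ℂ) × (Fin d → ℂ)) × ℂ => q.1.1)
      (h1.differentiableAt.hasFDerivAt) hq1
  have hI : HasFDerivAt (fun q : ((Fin d → ℂ) × (Fin d → ℂ)) × ℂ => (q.2)⁻¹) _ ((s, ω), ε) :=
    HasFDerivAt.comp ((s, ω), ε) (f := fun q : ((Fin d → ℂ) × (Fin d → ℂ)) × ℂ => q.2)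
      (hasFDerivAt_inv hε) hq3
  have hT := hI.smul (hA.sub hB)
  have heq : divDiff φ =ᶠ[𝓝 ((s, ω), ε)]
      fun q => (q.2)⁻¹ • (φ (q.1.1 + q.2 • q.1.2) - φ q.1.1) := by
    have hne : ∀ᶠ q : ((Fin d → ℂ) × (Fin d → ℂ)) × ℂ in 𝓝 ((s, ω), ε), q.2 ≠ 0 :=
      continuous_snd.continuousAt.eventually_ne hε
    filter_upwards [hne] with q hq
    simp [divDiff, hq]
  have hF : HasFDerivAt (divDiff φ) _ ((s, ω), ε) := hT.congr_of_eventuallyEq heq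
  rw [hF.fderiv]
  simp
  rw [add_comm, show (ε ^ 2)⁻¹ = ε⁻¹ * ε⁻¹ by rw [pow_two, mul_inv]]

/-- Near the diagonal: `((s, ω), ε) ↦ (φ (s + ε ω) - φ s) / ε`, `= dφ_s ω` for `ε = 0` (`divDiff`),
on `Ω = {s ∈ ball, s + ε ω ∈ ball}`.

`mem`: for `ε ≠ 0` it is `ε⁻¹ φ (s + ε ω) - ε⁻¹ φ s`; for `ε = 0` it is tangent at `φ s`.
`ter`: the set of the points of `Ω` with surjective `fderiv` is open (analyticity, surjectivity is an open
condition), so there is one with `ε ≠ 0`; there the derivative in the direction `((ds, dω), dε)` is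
`- dε ε⁻² (φ (s + ε ω) - φ s) + ε⁻¹ (dφ_{s + ε ω} (ds + ε dω + dε ω) - dφ_s ds)`, a sum of a vector
tangent at `φ (s + ε ω)` and one tangent at `φ s`. -/
theorem exists_parB {Z : Set V} (hZ : IsSmoothCone Z) (b : BallChart Z) :
    ∃ (P : Par Z) (e : (((Fin b.d → ℂ) × (Fin b.d → ℂ)) × ℂ) ≃L[ℂ] (Fin P.N → ℂ)),
      (∀ s ω ε, s ∈ Metric.ball (0 : Fin b.d → ℂ) b.r →
        s + ε • ω ∈ Metric.ball (0 : Fin b.d → ℂ) b.r → e ((s, ω), ε) ∈ P.Ω) ∧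
      ∀ q, P.Φ (e q) = divDiff b.φ q := by
  have : CompleteSpace V := FiniteDimensional.complete ℂ V
  have hcont : Continuous
      (fun q : ((Fin b.d → ℂ) × (Fin b.d → ℂ)) × ℂ => q.1.1 + q.2 • q.1.2) := by fun_prop
  have hΩ : IsOpen {q : ((Fin b.d → ℂ) × (Fin b.d → ℂ)) × ℂ |
      q.1.1 ∈ Metric.ball (0 : Fin b.d → ℂ) b.r ∧
        q.1.1 + q.2 • q.1.2 ∈ Metric.ball (0 : Fin b.d → ℂ) b.r} :=
    (Metric.isOpen_ball.preimage (continuous_fst.comp continuous_fst)).inter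
      (Metric.isOpen_ball.preimage hcont)
  have han : ∀ q ∈ {q : ((Fin b.d → ℂ) × (Fin b.d → ℂ)) × ℂ |
      q.1.1 ∈ Metric.ball (0 : Fin b.d → ℂ) b.r ∧
        q.1.1 + q.2 • q.1.2 ∈ Metric.ball (0 : Fin b.d → ℂ) b.r},
      AnalyticAt ℂ (divDiff b.φ) q := fun q hq =>
    analyticAt_divDiff b.φ q (b.an hq.1) (b.an hq.2)
  obtain ⟨P, e, h1, h2⟩ := exists_par_of (Z := Z)
    {q : ((Fin b.d → ℂ) × (Fin b.d → ℂ)) × ℂ |
      q.1.1 ∈ Metric.ball (0 : Fin b.d → ℂ) b.r ∧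
        q.1.1 + q.2 • q.1.2 ∈ Metric.ball (0 : Fin b.d → ℂ) b.r} (divDiff b.φ) hΩ han
    (by
      rintro ⟨⟨s, ω⟩, ε⟩ ⟨hs, hs'⟩
      simp only at hs hs'
      by_cases hε : ε = 0
      · refine Or.inr ⟨b.φ s, b.mem hs, ?_⟩
        rw [b.isTangent_iff hs]
        exact ⟨ω, by simp [divDiff, hε]⟩
      · refine Or.inl ⟨ε⁻¹ • b.φ (s + ε • ω), hZ.smul_mem _ (b.mem hs') _ (inv_ne_zero hε),
          ε⁻¹ • b.φ s, hZ.smul_mem _ (b.mem hs) _ (inv_ne_zero hε), ?_⟩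
        simp [divDiff, hε, smul_sub])
    (by
      rintro ⟨⟨s₀, ω₀⟩, ε₀⟩ hx hsurj
      -- a nearby point with `ε ≠ 0`
      have hev : ∀ᶠ x' in 𝓝 ((s₀, ω₀), ε₀), Function.Surjective (fderiv ℂ (divDiff b.φ) x') ∧
          (x'.1.1 ∈ Metric.ball (0 : Fin b.d → ℂ) b.r ∧
            x'.1.1 + x'.2 • x'.1.2 ∈ Metric.ball (0 : Fin b.d → ℂ) b.r) :=
        (eventually_surjective (han _ hx) hsurj).and (hΩ.mem_nhds hx)
      have hcurve : Tendsto (fun t : ℂ => (((s₀, ω₀), t) : ((Fin b.d → ℂ) × (Fin b.d → ℂ)) × ℂ))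
          (𝓝[≠] ε₀) (𝓝 ((s₀, ω₀), ε₀)) :=
        ((Continuous.prodMk_right (s₀, ω₀)).tendsto ε₀).mono_left nhdsWithin_le_nhds
      have hne : ∀ᶠ t : ℂ in 𝓝[≠] ε₀, t ≠ 0 := by
        by_cases h0 : ε₀ = 0
        · subst h0
          exact self_mem_nhdsWithin
        · exact (continuousAt_id.eventually_ne h0).filter_mono nhdsWithin_le_nhds
      obtain ⟨ε, ⟨hsur, hs, hs'⟩, hε⟩ := ((hcurve.eventually hev).and hne).exists
      simp only at hs hs'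
      refine ⟨b.φ (s₀ + ε • ω₀), b.mem hs', b.φ s₀, b.mem hs, fun v => ?_⟩
      obtain ⟨⟨⟨ds, dω⟩, dε⟩, hv⟩ := hsur v
      rw [fderiv_divDiff s₀ ω₀ ε hε (b.an hs) (b.an hs') ds dω dε] at hv
      obtain ⟨E₁, hE₁⟩ := exists_tanSp hZ (b.mem hs')
      obtain ⟨E₂, hE₂⟩ := exists_tanSp hZ (b.mem hs)
      refine ⟨(-(dε * (ε⁻¹ * ε⁻¹))) • b.φ (s₀ + ε • ω₀) +
          ε⁻¹ • fderiv ℂ b.φ (s₀ + ε • ω₀) (ds + (ε • dω + dε • ω₀)),
        -((-(dε * (ε⁻¹ * ε⁻¹))) • b.φ s₀ + ε⁻¹ • fderiv ℂ b.φ s₀ ds), ?_, ?_, ?_⟩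
      · rw [← hE₁]
        refine E₁.add_mem (E₁.smul_mem _ ?_) (E₁.smul_mem _ ?_)
        · rw [hE₁]; exact isTangent_self hZ (b.mem hs')
        · rw [hE₁, b.isTangent_iff hs']; exact ⟨_, rfl⟩
      · rw [← hE₂]
        refine E₂.neg_mem (E₂.add_mem (E₂.smul_mem _ ?_) (E₂.smul_mem _ ?_))
        · rw [hE₂]; exact isTangent_self hZ (b.mem hs)
        · rw [hE₂, b.isTangent_iff hs]; exact ⟨_, rfl⟩
      · rw [← hv]
        simp only [smul_sub]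
        abel)
  exact ⟨P, e, fun s ω ε hs hs' => (h1 _).1 ⟨hs, hs'⟩, h2⟩

end Pool.Agent.SEC
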