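import Pool.Agent.SEC.B2a

/-!
SEC-B3a (MP_d19687_ag, project SEC).
-/

open Filter Topology Pool.Agent.MP_d19687_ag Pool.Agent.RIG

namespace Pool.Agent.SEC

variable {V : Type*} [NormedAddCommGroup V] [NormedSpace ℂ V] [FiniteDimensional ℂ V]

/-- The sequence `w` has a subsequence which lifts to a convergent sequence of parameters of `P`. -/
def Lifts {Z : Set V} (P : Par Z) (w : ℕ → V) : Prop :=
  ∃ x₀ ∈ P.Ω, ∃ κ : ℕ → ℕ, StrictMono κ ∧ ∃ x : ℕ → (Fin P.N → ℂ), Tendsto x atTop (𝓝 x₀) ∧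
    ∀ k, P.Φ (x k) = w (κ k)

/-- A subsequence that lifts. (Composition of strictly monotone maps.) -/
theorem Lifts.of_subseq {Z : Set V} {P : Par Z} {w : ℕ → V} {κ : ℕ → ℕ} (hκ : StrictMono κ)
    (h : Lifts P (w ∘ κ)) : Lifts P w := by
  obtain ⟨x₀, hx₀, κ', hκ', x, hx, hk⟩ := h
  exact ⟨x₀, hx₀, κ ∘ κ', hκ.comp hκ', x, hx, hk⟩

/-- It is enough to lift eventually (shift the sequence). -/
theorem Lifts.of_eventually {Z : Set V} {P : Par Z} {w : ℕ → V} (x₀ : Fin P.N → ℂ) (hx₀ : x₀ ∈ P.Ω)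
    (κ : ℕ → ℕ) (hκ : StrictMono κ) (x : ℕ → (Fin P.N → ℂ)) (hx : Tendsto x atTop (𝓝 x₀))
    (h : ∀ᶠ k in atTop, P.Φ (x k) = w (κ k)) : Lifts P w := by
  obtain ⟨n, hn⟩ := eventually_atTop.1 h
  exact ⟨x₀, hx₀, fun k => κ (k + n), fun a b hab => hκ (by omega), fun k => x (k + n),
    (tendsto_add_atTop_iff_nat n).2 hx, fun k => hn _ (by omega)⟩

/-- The limit of a sequence that lifts is in the image. (Continuity of `P.Φ` at `x₀`.) -/
theorem Lifts.limit {Z : Set V} {P : Par Z} {w : ℕ → V} {w₀ : V} (hw : Tendsto w atTop (𝓝 w₀))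
    (h : Lifts P w) : ∃ x₀ ∈ P.Ω, P.Φ x₀ = w₀ := by
  obtain ⟨x₀, hx₀, κ, hκ, x, hx, hk⟩ := h
  refine ⟨x₀, hx₀, ?_⟩
  have h1 : Tendsto (fun k => P.Φ (x k)) atTop (𝓝 (P.Φ x₀)) :=
    ((P.an x₀ hx₀).continuousAt.tendsto).comp hx
  have h2 : Tendsto (fun k => w (κ k)) atTop (𝓝 w₀) := hw.comp hκ.tendsto_atTop
  have h3 : (fun k => P.Φ (x k)) = fun k => w (κ k) := funext hk
  rw [h3] at h1
  exact tendsto_nhds_unique h1 h2

/-- Unit vectors of `Z`: after passing to a subsequence they converge in the domain of one chart. -/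
theorem unit_subseq {Z : Set V} (hZ : IsSmoothCone Z) {m : ℕ} (b : Fin m → BallChart Z)
    (hb : ∀ z ∈ Z, ‖z‖ = 1 → ∃ i, ∃ s ∈ Metric.ball (0 : Fin (b i).d → ℂ) (b i).r, (b i).φ s = z)
    (a : ℕ → V) (ha : ∀ k, a k ∈ Z) (ha1 : ∀ k, ‖a k‖ = 1) :
    ∃ κ : ℕ → ℕ, StrictMono κ ∧ ∃ i, ∃ s ∈ Metric.ball (0 : Fin (b i).d → ℂ) (b i).r,
      Tendsto (a ∘ κ) atTop (𝓝 ((b i).φ s)) := by
  have : ProperSpace V := FiniteDimensional.proper ℂ V
  obtain ⟨a₀, ha₀, κ, hκ, hlim⟩ := (isCompact_sphere (0 : V) 1).tendsto_subseq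
    (x := a) (fun k => by simp [ha1 k])
  have hnorm : ‖a₀‖ = 1 := by simpa using ha₀
  have hmem : a₀ ∈ Z ∪ {0} :=
    hZ.isClosed.mem_of_tendsto hlim (Eventually.of_forall fun k => Or.inl (ha _))
  have hmem' : a₀ ∈ Z := by
    rcases hmem with h | h
    · exact h
    · have h0 : a₀ = 0 := h
      rw [h0, norm_zero] at hnorm
      exact absurd hnorm zero_ne_one
  obtain ⟨i, s, hs, hφ⟩ := hb a₀ hmem' hnorm
  exact ⟨κ, hκ, i, s, hs, by rw [hφ]; exact hlim⟩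

end Pool.Agent.SEC
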