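import Pool.Agent.SEC.B3a

/-!
SEC-B3b (MP_d19687_ag, project SEC).
-/

open Filter Topology Pool.Agent.MP_d19687_ag Pool.Agent.RIG

namespace Pool.Agent.SEC

variable {V : Type*} [NormedAddCommGroup V] [NormedSpace ℂ V] [FiniteDimensional ℂ V]

/-- Case 1: tangent vectors.

Proof. Scale `z k` to norm `1` (`isTangent_smul_point`), pass to a subsequence with `z k → φ_i (s)`
(`unit_subseq`), lift: `z k = φ_i (s_k)`, `s_k → s` (`BallChart.lift`), `w k = dφ_i (s_k) (ω_k)`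
(`BallChart.isTangent_iff`), `c ‖ω_k‖ ≤ ‖w k‖` (`fderiv_bound`) is bounded, so pass to a subsequence
`ω_k → ω`; then `w k = divDiff φ_i ((s_k, ω_k), 0)`; use `hB i`. -/
theorem lifts_tangent {Z : Set V} (hZ : IsSmoothCone Z) {m : ℕ} (b : Fin m → BallChart Z)
    (hb : ∀ z ∈ Z, ‖z‖ = 1 → ∃ i, ∃ s ∈ Metric.ball (0 : Fin (b i).d → ℂ) (b i).r, (b i).φ s = z)
    (PB : Fin m → Par Z) (eB : ∀ i, (((Fin (b i).d → ℂ) × (Fin (b i).d → ℂ)) × ℂ) ≃L[ℂ] (Fin (PB i).N → ℂ))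
    (hB : ∀ i, ∀ s ω ε, s ∈ Metric.ball (0 : Fin (b i).d → ℂ) (b i).r →
        s + ε • ω ∈ Metric.ball (0 : Fin (b i).d → ℂ) (b i).r → eB i ((s, ω), ε) ∈ (PB i).Ω)
    (hB' : ∀ i, ∀ q, (PB i).Φ (eB i q) = divDiff (b i).φ q)
    (w : ℕ → V) (w₀ : V) (hw : Tendsto w atTop (𝓝 w₀)) (z : ℕ → V) (hz : ∀ k, z k ∈ Z)
    (hzw : ∀ k, IsTangent Z (z k) (w k)) : ∃ i, Lifts (PB i) w := by
  have hne : ∀ k, ((‖z k‖⁻¹ : ℝ) : ℂ) ≠ 0 := fun k => by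
    have h1 : ‖z k‖ ≠ 0 := norm_ne_zero_iff.2 (hZ.ne_zero _ (hz k))
    exact_mod_cast inv_ne_zero h1
  obtain ⟨κ, hκ, i, s, hs, hlim⟩ := unit_subseq hZ b hb
    (fun k => ((‖z k‖⁻¹ : ℝ) : ℂ) • z k) (fun k => hZ.smul_mem _ (hz k) _ (hne k)) (fun k => by
      have h1 : ‖z k‖ ≠ 0 := norm_ne_zero_iff.2 (hZ.ne_zero _ (hz k))
      rw [norm_smul, Complex.norm_real, norm_inv, norm_norm, inv_mul_cancel₀ h1])
  refine ⟨i, ?_⟩
  obtain ⟨u, hu, hev⟩ := (b i).lift hs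
    (z := (fun k => ((‖z k‖⁻¹ : ℝ) : ℂ) • z k) ∘ κ)
    (fun k => hZ.smul_mem _ (hz _) _ (hne _)) hlim
  have hex : ∀ᶠ k in atTop, ∃ ω : Fin (b i).d → ℂ, fderiv ℂ (b i).φ (u k) ω = w (κ k) ∧
      (b i).c * ‖ω‖ ≤ ‖w (κ k)‖ := by
    filter_upwards [hev] with k hk
    have h1 : IsTangent Z ((b i).φ (u k)) (w (κ k)) := by
      rw [hk.2]
      exact isTangent_smul_point hZ (hzw (κ k)) (hne (κ k))
    obtain ⟨ω, hω⟩ := ((b i).isTangent_iff hk.1 _).1 h1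
    refine ⟨ω, hω, ?_⟩
    rw [← hω]
    exact (b i).fderiv_bound hk.1 ω
  obtain ⟨ω, hω⟩ := hex.choice
  have hwκ : Tendsto (fun k => w (κ k)) atTop (𝓝 w₀) := hw.comp hκ.tendsto_atTop
  obtain ⟨C, hC⟩ := (Metric.isBounded_range_of_tendsto _ hwκ).exists_norm_le
  have hbd : ∀ᶠ k in atTop, ω k ∈ Metric.closedBall (0 : Fin (b i).d → ℂ) (C / (b i).c) := by
    filter_upwards [hω] with k hk
    rw [mem_closedBall_zero_iff, le_div_iff₀ (b i).c_pos, mul_comm]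
    exact hk.2.trans (hC _ ⟨k, rfl⟩)
  obtain ⟨ω₀, -, κ₂, hκ₂, hlim₂⟩ := tendsto_subseq_of_frequently_bounded
    (Metric.isBounded_closedBall (x := (0 : Fin (b i).d → ℂ)) (r := C / (b i).c)) hbd.frequently
  refine Lifts.of_eventually (eB i ((s, ω₀), 0)) (hB i s ω₀ 0 hs (by simpa using hs))
    (κ ∘ κ₂) (hκ.comp hκ₂) (fun k => eB i ((u (κ₂ k), ω (κ₂ k)), 0)) ?_ ?_
  · have h1 : Tendsto (fun k => ((u (κ₂ k), ω (κ₂ k)), (0 : ℂ))) atTop (𝓝 ((s, ω₀), 0)) :=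
      ((hu.comp hκ₂.tendsto_atTop).prodMk_nhds hlim₂).prodMk_nhds tendsto_const_nhds
    exact ((eB i).continuous.tendsto _).comp h1
  · filter_upwards [hκ₂.tendsto_atTop.eventually hω] with k hk
    rw [hB', divDiff, if_pos rfl]
    exact hk.1

end Pool.Agent.SEC
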