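import Pool.Agent.SEC.B3a

/-!
SEC-B3c (MP_d19687_ag, project SEC).
-/

open Filter Topology Pool.Agent.MP_d19687_ag Pool.Agent.RIG

namespace Pool.Agent.SEC

variable {V : Type*} [NormedAddCommGroup V] [NormedSpace ℂ V] [FiniteDimensional ℂ V]

/-- Case 2: differences of bounded sequences.

Proof. `z k = ρ_k a_k`, `ρ_k = ‖z k‖ > 0`, `a_k` of norm `1` in `Z`; the same for `z' k`
(`ρ'_k ≤ M + sup ‖w‖` is bounded).  Pass to subsequences: `ρ_k → ρ`, `ρ'_k → ρ'`, `a_k → φ_i (s)`,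
`a'_k → φ_j (s')`, lift `a_k = φ_i (s_k)`, `a'_k = φ_j (s'_k)`; then
`w k = ρ_k φ_i (s_k) - ρ'_k φ_j (s'_k)`. -/
theorem lifts_bounded {Z : Set V} (hZ : IsSmoothCone Z) {m : ℕ} (b : Fin m → BallChart Z)
    (hb : ∀ z ∈ Z, ‖z‖ = 1 → ∃ i, ∃ s ∈ Metric.ball (0 : Fin (b i).d → ℂ) (b i).r, (b i).φ s = z)
    (PA : Fin m → Fin m → Par Z)
    (eA : ∀ i j, ((ℂ × ℂ) × ((Fin (b i).d → ℂ) × (Fin (b j).d → ℂ))) ≃L[ℂ] (Fin (PA i j).N → ℂ))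
    (hA : ∀ i j, ∀ x y s s', s ∈ Metric.ball (0 : Fin (b i).d → ℂ) (b i).r →
      s' ∈ Metric.ball (0 : Fin (b j).d → ℂ) (b j).r → eA i j ((x, y), (s, s')) ∈ (PA i j).Ω)
    (hA' : ∀ i j, ∀ x y s s', (PA i j).Φ (eA i j ((x, y), (s, s'))) = x • (b i).φ s - y • (b j).φ s')
    (w : ℕ → V) (w₀ : V) (hw : Tendsto w atTop (𝓝 w₀)) (z z' : ℕ → V) (hz : ∀ k, z k ∈ Z)
    (hz' : ∀ k, z' k ∈ Z) (hzw : ∀ k, z k - z' k = w k) (M : ℝ) (hM : ∀ k, ‖z k‖ ≤ M) :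
    ∃ i j, Lifts (PA i j) w := by
  have hne : ∀ y ∈ Z, ((‖y‖⁻¹ : ℝ) : ℂ) ≠ 0 := fun y hy => by
    have h1 : ‖y‖ ≠ 0 := norm_ne_zero_iff.2 (hZ.ne_zero _ hy)
    exact_mod_cast inv_ne_zero h1
  have hnorm : ∀ y ∈ Z, ‖((‖y‖⁻¹ : ℝ) : ℂ) • y‖ = 1 := fun y hy => by
    have h1 : ‖y‖ ≠ 0 := norm_ne_zero_iff.2 (hZ.ne_zero _ hy)
    rw [norm_smul, Complex.norm_real, norm_inv, norm_norm, inv_mul_cancel₀ h1]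
  have hback : ∀ y ∈ Z, ((‖y‖ : ℝ) : ℂ) • (((‖y‖⁻¹ : ℝ) : ℂ) • y) = y := fun y hy => by
    have h1 : ‖y‖ ≠ 0 := norm_ne_zero_iff.2 (hZ.ne_zero _ hy)
    rw [smul_smul, ← Complex.ofReal_mul, mul_inv_cancel₀ h1, Complex.ofReal_one, one_smul]
  obtain ⟨κ₁, hκ₁, i, s, hs, hlim₁⟩ := unit_subseq hZ b hb
    (fun k => ((‖z k‖⁻¹ : ℝ) : ℂ) • z k) (fun k => hZ.smul_mem _ (hz k) _ (hne _ (hz k)))
    (fun k => hnorm _ (hz k))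
  obtain ⟨κ₂, hκ₂, j, s', hs', hlim₂⟩ := unit_subseq hZ b hb
    (fun k => ((‖z' (κ₁ k)‖⁻¹ : ℝ) : ℂ) • z' (κ₁ k))
    (fun k => hZ.smul_mem _ (hz' _) _ (hne _ (hz' _))) (fun k => hnorm _ (hz' _))
  refine ⟨i, j, ?_⟩
  obtain ⟨C, hC⟩ := (Metric.isBounded_range_of_tendsto _ hw).exists_norm_le
  have hz'b : ∀ k, ‖z' k‖ ≤ M + C := fun k => by
    have h1 : z' k = z k - w k := by rw [← hzw k]; abel
    rw [h1]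
    exact (norm_sub_le _ _).trans (add_le_add (hM k) (hC _ ⟨k, rfl⟩))
  obtain ⟨ρ, -, κ₃, hκ₃, hlim₃⟩ := tendsto_subseq_of_bounded
    (x := fun k => (‖z (κ₁ (κ₂ k))‖, ‖z' (κ₁ (κ₂ k))‖))
    (Metric.isBounded_closedBall (x := ((0 : ℝ), (0 : ℝ))) (r := max M (M + C))) (fun k => by
      rw [mem_closedBall_iff_norm, Prod.norm_def]
      simp only [Prod.fst_sub, Prod.snd_sub, sub_zero, norm_norm]
      exact max_le_max (hM _) (hz'b _))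
  have hρ1 : Tendsto (fun k => ‖z (κ₁ (κ₂ (κ₃ k)))‖) atTop (𝓝 ρ.1) :=
    (continuous_fst.tendsto ρ).comp hlim₃
  have hρ2 : Tendsto (fun k => ‖z' (κ₁ (κ₂ (κ₃ k)))‖) atTop (𝓝 ρ.2) :=
    (continuous_snd.tendsto ρ).comp hlim₃
  have hl1 : Tendsto (fun k => ((‖z (κ₁ (κ₂ (κ₃ k)))‖⁻¹ : ℝ) : ℂ) • z (κ₁ (κ₂ (κ₃ k)))) atTop
      (𝓝 ((b i).φ s)) := hlim₁.comp (hκ₂.comp hκ₃).tendsto_atTop
  have hl2 : Tendsto (fun k => ((‖z' (κ₁ (κ₂ (κ₃ k)))‖⁻¹ : ℝ) : ℂ) • z' (κ₁ (κ₂ (κ₃ k)))) atTop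
      (𝓝 ((b j).φ s')) := hlim₂.comp hκ₃.tendsto_atTop
  obtain ⟨u, hu, hue⟩ := (b i).lift hs (fun k => hZ.smul_mem _ (hz _) _ (hne _ (hz _))) hl1
  obtain ⟨u', hu', hue'⟩ := (b j).lift hs' (fun k => hZ.smul_mem _ (hz' _) _ (hne _ (hz' _))) hl2
  refine Lifts.of_eventually (eA i j (((ρ.1 : ℂ), (ρ.2 : ℂ)), (s, s'))) (hA i j _ _ s s' hs hs')
    (fun k => κ₁ (κ₂ (κ₃ k))) (hκ₁.comp (hκ₂.comp hκ₃))
    (fun k => eA i j (((‖z (κ₁ (κ₂ (κ₃ k)))‖ : ℂ), (‖z' (κ₁ (κ₂ (κ₃ k)))‖ : ℂ)), (u k, u' k)))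
    ?_ ?_
  · have h1 : Tendsto (fun k => (((‖z (κ₁ (κ₂ (κ₃ k)))‖ : ℂ), (‖z' (κ₁ (κ₂ (κ₃ k)))‖ : ℂ)),
        (u k, u' k))) atTop (𝓝 (((ρ.1 : ℂ), (ρ.2 : ℂ)), (s, s'))) :=
      (((Complex.continuous_ofReal.tendsto _).comp hρ1).prodMk_nhds
        ((Complex.continuous_ofReal.tendsto _).comp hρ2)).prodMk_nhds (hu.prodMk_nhds hu')
    exact ((eA i j).continuous.tendsto _).comp h1
  · filter_upwards [hue, hue'] with k hk hk'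
    rw [hA', hk.2, hk'.2, hback _ (hz _), hback _ (hz' _), hzw]

end Pool.Agent.SEC
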