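import Pool.Agent.SEC.B3a

/-!
SEC-B3d (MP_d19687_ag, project SEC).
-/

open Filter Topology Pool.Agent.MP_d19687_ag Pool.Agent.RIG

namespace Pool.Agent.SEC

variable {V : Type*} [NormedAddCommGroup V] [NormedSpace ℂ V] [FiniteDimensional ℂ V]

/-- Case 3: differences of unbounded sequences.

Proof. `ρ_k = ‖z k‖ → ∞`, `a_k = ρ_k⁻¹ z k`, `a'_k = ρ_k⁻¹ z' k = a_k - ρ_k⁻¹ w k`.  Subsequence:
`a_k → φ_i (s)`, so also `a'_k → φ_i (s)`; lift `a_k = φ_i (s_k)`, `a'_k = φ_i (s'_k)`,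
`s_k, s'_k → s`.  `ω_k := ρ_k (s_k - s'_k)`, `ε_k := ρ_k⁻¹`: `c ‖ω_k‖ ≤ ρ_k ‖a_k - a'_k‖ = ‖w k‖` is
bounded, subsequence `ω_k → ω`; `s'_k + ε_k ω_k = s_k`, and
`divDiff φ_i ((s'_k, ω_k), ε_k) = ρ_k (a_k - a'_k) = w k`; the limit point is `((s, ω), 0)`. -/
theorem lifts_unbounded {Z : Set V} (hZ : IsSmoothCone Z) {m : ℕ} (b : Fin m → BallChart Z)
    (hb : ∀ z ∈ Z, ‖z‖ = 1 → ∃ i, ∃ s ∈ Metric.ball (0 : Fin (b i).d → ℂ) (b i).r, (b i).φ s = z)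
    (PB : Fin m → Par Z) (eB : ∀ i, (((Fin (b i).d → ℂ) × (Fin (b i).d → ℂ)) × ℂ) ≃L[ℂ] (Fin (PB i).N → ℂ))
    (hB : ∀ i, ∀ s ω ε, s ∈ Metric.ball (0 : Fin (b i).d → ℂ) (b i).r →
        s + ε • ω ∈ Metric.ball (0 : Fin (b i).d → ℂ) (b i).r → eB i ((s, ω), ε) ∈ (PB i).Ω)
    (hB' : ∀ i, ∀ q, (PB i).Φ (eB i q) = divDiff (b i).φ q)
    (w : ℕ → V) (w₀ : V) (hw : Tendsto w atTop (𝓝 w₀)) (z z' : ℕ → V) (hz : ∀ k, z k ∈ Z)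
    (hz' : ∀ k, z' k ∈ Z) (hzw : ∀ k, z k - z' k = w k)
    (hM : Tendsto (fun k => ‖z k‖) atTop atTop) : ∃ i, Lifts (PB i) w := by
  have hpos : ∀ k, 0 < ‖z k‖ := fun k => norm_pos_iff.2 (hZ.ne_zero _ (hz k))
  have hne : ∀ k, ((‖z k‖⁻¹ : ℝ) : ℂ) ≠ 0 := fun k => by
    exact_mod_cast inv_ne_zero (hpos k).ne'
  obtain ⟨κ₁, hκ₁, i, s, hs, hlim₁⟩ := unit_subseq hZ b hb
    (fun k => ((‖z k‖⁻¹ : ℝ) : ℂ) • z k) (fun k => hZ.smul_mem _ (hz k) _ (hne k)) (fun k => by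
      rw [norm_smul, Complex.norm_real, norm_inv, norm_norm, inv_mul_cancel₀ (hpos k).ne'])
  refine ⟨i, ?_⟩
  have hwκ : Tendsto (fun k => w (κ₁ k)) atTop (𝓝 w₀) := hw.comp hκ₁.tendsto_atTop
  obtain ⟨C, hC⟩ := (Metric.isBounded_range_of_tendsto _ hwκ).exists_norm_le
  have hρinf : Tendsto (fun k => ‖z (κ₁ k)‖) atTop atTop := hM.comp hκ₁.tendsto_atTop
  have hε : Tendsto (fun k => ((‖z (κ₁ k)‖⁻¹ : ℝ) : ℂ)) atTop (𝓝 0) := by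
    have h1 : Tendsto (fun k => ‖z (κ₁ k)‖⁻¹) atTop (𝓝 0) := tendsto_inv_atTop_zero.comp hρinf
    have h2 := (Complex.continuous_ofReal.tendsto (0 : ℝ)).comp h1
    rw [Complex.ofReal_zero] at h2
    exact h2
  have hlim₂ : Tendsto (fun k => ((‖z (κ₁ k)‖⁻¹ : ℝ) : ℂ) • z' (κ₁ k)) atTop (𝓝 ((b i).φ s)) := by
    have h1 : Tendsto (fun k => ((‖z (κ₁ k)‖⁻¹ : ℝ) : ℂ) • z (κ₁ k) -
        ((‖z (κ₁ k)‖⁻¹ : ℝ) : ℂ) • w (κ₁ k)) atTop (𝓝 ((b i).φ s - (0 : ℂ) • w₀)) :=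
      hlim₁.sub (hε.smul hwκ)
    rw [zero_smul, sub_zero] at h1
    refine h1.congr fun k => ?_
    rw [← hzw (κ₁ k), smul_sub, sub_sub_cancel]
  obtain ⟨u, hu, hue⟩ := (b i).lift hs
    (z := fun k => ((‖z (κ₁ k)‖⁻¹ : ℝ) : ℂ) • z (κ₁ k))
    (fun k => hZ.smul_mem _ (hz _) _ (hne _)) hlim₁
  obtain ⟨u', hu', hue'⟩ := (b i).lift hs
    (fun k => hZ.smul_mem _ (hz' _) _ (hne _)) hlim₂
  have hw1 : ∀ k, ((‖z (κ₁ k)‖ : ℝ) : ℂ) • (((‖z (κ₁ k)‖⁻¹ : ℝ) : ℂ) • z (κ₁ k) -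
      ((‖z (κ₁ k)‖⁻¹ : ℝ) : ℂ) • z' (κ₁ k)) = w (κ₁ k) := fun k => by
    rw [← smul_sub, smul_smul, ← Complex.ofReal_mul, mul_inv_cancel₀ (hpos _).ne',
      Complex.ofReal_one, one_smul, hzw]
  have hbd : ∀ᶠ k in atTop, ((‖z (κ₁ k)‖ : ℝ) : ℂ) • (u k - u' k) ∈
      Metric.closedBall (0 : Fin (b i).d → ℂ) (C / (b i).c) := by
    filter_upwards [hue, hue'] with k hk hk'
    rw [mem_closedBall_zero_iff, le_div_iff₀ (b i).c_pos, norm_smul, Complex.norm_real, norm_norm]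
    have h1 := (b i).bound _ hk.1 _ hk'.1
    have h2 : ‖z (κ₁ k)‖ * ‖(b i).φ (u k) - (b i).φ (u' k)‖ = ‖w (κ₁ k)‖ := by
      rw [hk.2, hk'.2, ← hw1 k, norm_smul, Complex.norm_real, norm_norm]
    calc ‖z (κ₁ k)‖ * ‖u k - u' k‖ * (b i).c = ‖z (κ₁ k)‖ * ((b i).c * ‖u k - u' k‖) := by ring
      _ ≤ ‖z (κ₁ k)‖ * ‖(b i).φ (u k) - (b i).φ (u' k)‖ :=
          mul_le_mul_of_nonneg_left h1 (norm_nonneg _)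
      _ = ‖w (κ₁ k)‖ := h2
      _ ≤ C := hC _ ⟨k, rfl⟩
  obtain ⟨ω₀, -, κ₂, hκ₂, hlim₃⟩ := tendsto_subseq_of_frequently_bounded
    (Metric.isBounded_closedBall (x := (0 : Fin (b i).d → ℂ)) (r := C / (b i).c)) hbd.frequently
  refine Lifts.of_eventually (eB i ((s, ω₀), 0)) (hB i s ω₀ 0 hs (by simpa using hs))
    (κ₁ ∘ κ₂) (hκ₁.comp hκ₂) (fun k => eB i ((u' (κ₂ k), ((‖z (κ₁ (κ₂ k))‖ : ℝ) : ℂ) •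
      (u (κ₂ k) - u' (κ₂ k))), ((‖z (κ₁ (κ₂ k))‖⁻¹ : ℝ) : ℂ))) ?_ ?_
  · have h1 : Tendsto (fun k => ((u' (κ₂ k), ((‖z (κ₁ (κ₂ k))‖ : ℝ) : ℂ) •
        (u (κ₂ k) - u' (κ₂ k))), ((‖z (κ₁ (κ₂ k))‖⁻¹ : ℝ) : ℂ))) atTop (𝓝 ((s, ω₀), 0)) :=
      ((hu'.comp hκ₂.tendsto_atTop).prodMk_nhds hlim₃).prodMk_nhds
        (hε.comp hκ₂.tendsto_atTop)
    exact ((eB i).continuous.tendsto _).comp h1
  · filter_upwards [hκ₂.tendsto_atTop.eventually hue, hκ₂.tendsto_atTop.eventually hue']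
      with k hk hk'
    have h3 : u' (κ₂ k) + ((‖z (κ₁ (κ₂ k))‖⁻¹ : ℝ) : ℂ) • (((‖z (κ₁ (κ₂ k))‖ : ℝ) : ℂ) •
        (u (κ₂ k) - u' (κ₂ k))) = u (κ₂ k) := by
      rw [smul_smul, ← Complex.ofReal_mul, inv_mul_cancel₀ (hpos _).ne', Complex.ofReal_one,
        one_smul, add_sub_cancel]
    have h4 : ((‖z (κ₁ (κ₂ k))‖⁻¹ : ℝ) : ℂ)⁻¹ = ((‖z (κ₁ (κ₂ k))‖ : ℝ) : ℂ) := by
      rw [Complex.ofReal_inv, inv_inv]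
    rw [hB', divDiff, if_neg (hne _)]
    show ((‖z (κ₁ (κ₂ k))‖⁻¹ : ℝ) : ℂ)⁻¹ • ((b i).φ (u' (κ₂ k) + ((‖z (κ₁ (κ₂ k))‖⁻¹ : ℝ) : ℂ) •
      (((‖z (κ₁ (κ₂ k))‖ : ℝ) : ℂ) • (u (κ₂ k) - u' (κ₂ k)))) - (b i).φ (u' (κ₂ k))) = _
    rw [h3, h4, hk.2, hk'.2]
    exact hw1 (κ₂ k)

end Pool.Agent.SEC
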