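import Pool.Agent.SEC.B2c
import Pool.Agent.SEC.B3b
import Pool.Agent.SEC.B3c
import Pool.Agent.SEC.B3d

/-!
SEC-B3e (MP_d19687_ag, project SEC).
-/

open Filter Topology Pool.Agent.MP_d19687_ag Pool.Agent.RIG

namespace Pool.Agent.SEC

variable {V : Type*} [NormedAddCommGroup V] [NormedSpace ℂ V] [FiniteDimensional ℂ V]

/-- The secant cone is covered by finitely many pieces, with lifting of convergent sequences.

Proof. Atlas `b` (`exists_atlas`), `PA i j` (`exists_parA`), `PB i` (`exists_parB`), all indexed by one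
`Fin M` (e.g. `Fintype.equivFin (Fin m × Fin m ⊕ Fin m)`).  Given `w`, infinitely many `w k` are
differences or infinitely many are tangent vectors; pass to a subsequence; in the first case either the
`‖z k‖` are bounded or a subsequence tends to infinity. -/
theorem exists_par {Z : Set V} (hZ : IsSmoothCone Z) :
    ∃ (m : ℕ) (P : Fin m → Par Z), ∀ (w : ℕ → V) (w₀ : V), (∀ k, w k ∈ SecSet Z) →
      Tendsto w atTop (𝓝 w₀) → ∃ i, Lifts (P i) w := by
  obtain ⟨m, b, hb⟩ := exists_atlas hZ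
  choose PA eA hA hA' using fun i j => exists_parA hZ (b i) (b j)
  choose PB eB hB hB' using fun i => exists_parB hZ (b i)
  have key : ∀ (w : ℕ → V) (w₀ : V), (∀ k, w k ∈ SecSet Z) → Tendsto w atTop (𝓝 w₀) →
      ∃ a : (Fin m × Fin m) ⊕ Fin m, Lifts (Sum.elim (fun p => PA p.1 p.2) PB a) w := by
    intro w w₀ hw hlim
    by_cases h : ∃ᶠ k in atTop, ∃ z ∈ Z, ∃ z' ∈ Z, z - z' = w k
    · obtain ⟨κ, hκ, hk⟩ := extraction_of_frequently_atTop h
      choose z hz z' hz' hzz using hk
      by_cases hM : ∃ M : ℝ, ∃ᶠ k in atTop, ‖z k‖ ≤ M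
      · obtain ⟨M, hM⟩ := hM
        obtain ⟨κ', hκ', hk'⟩ := extraction_of_frequently_atTop hM
        obtain ⟨i, j, hL⟩ := lifts_bounded hZ b hb PA eA hA hA' (w ∘ (κ ∘ κ')) w₀
          (hlim.comp (hκ.comp hκ').tendsto_atTop) (fun k => z (κ' k)) (fun k => z' (κ' k))
          (fun k => hz _) (fun k => hz' _) (fun k => hzz _) M hk'
        exact ⟨Sum.inl (i, j), Lifts.of_subseq (hκ.comp hκ') hL⟩
      · have hT : Tendsto (fun k => ‖z k‖) atTop atTop := by
          refine tendsto_atTop.2 fun M => ?_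
          have h1 : ¬ ∃ᶠ k in atTop, ‖z k‖ ≤ M := fun h2 => hM ⟨M, h2⟩
          filter_upwards [not_frequently.1 h1] with k hk
          exact (not_le.1 hk).le
        obtain ⟨i, hL⟩ := lifts_unbounded hZ b hb PB eB hB hB' (w ∘ κ) w₀
          (hlim.comp hκ.tendsto_atTop) z z' hz hz' hzz hT
        exact ⟨Sum.inr i, Lifts.of_subseq hκ hL⟩
    · obtain ⟨n, hn⟩ := eventually_atTop.1 (not_frequently.1 h)
      have hk : ∀ k, ∃ z ∈ Z, IsTangent Z z (w (k + n)) := fun k => by
        rcases hw (k + n) with h1 | h1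
        · exact absurd h1 (hn (k + n) (by omega))
        · exact h1
      choose z hz hzt using hk
      have hκ : StrictMono fun k : ℕ => k + n := fun a b hab => by
        show a + n < b + n
        omega
      obtain ⟨i, hL⟩ := lifts_tangent hZ b hb PB eB hB hB' (w ∘ fun k => k + n) w₀
        (hlim.comp hκ.tendsto_atTop) z hz hzt
      exact ⟨Sum.inr i, Lifts.of_subseq hκ hL⟩
  refine ⟨Fintype.card ((Fin m × Fin m) ⊕ Fin m), fun i =>
    Sum.elim (fun p => PA p.1 p.2) PB ((Fintype.equivFin ((Fin m × Fin m) ⊕ Fin m)).symm i), ?_⟩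
  intro w w₀ h1 h2
  obtain ⟨a, ha⟩ := key w w₀ h1 h2
  refine ⟨Fintype.equivFin _ a, ?_⟩
  show Lifts (Sum.elim (fun p => PA p.1 p.2) PB ((Fintype.equivFin _).symm (Fintype.equivFin _ a))) w
  rw [Equiv.symm_apply_apply]
  exact ha

end Pool.Agent.SEC
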