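import Pool.Agent.SEC.B3e
import Pool.Agent.SEC.A5c

/-!
SEC-B4a (MP_d19687_ag, project SEC).
-/

open Filter Topology Pool.Agent.MP_d19687_ag Pool.Agent.RIG

namespace Pool.Agent.SEC

variable {V : Type*} [NormedAddCommGroup V] [NormedSpace ℂ V] [FiniteDimensional ℂ V]

theorem zero_mem_secSet {Z : Set V} (hZ : IsSmoothCone Z) : (0 : V) ∈ SecSet Z := by
  obtain ⟨z, hz⟩ := hZ.isConnected.nonempty
  exact Or.inl ⟨z, hz, z, hz, sub_self z⟩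

theorem smul_mem_secSet {Z : Set V} (hZ : IsSmoothCone Z) {w : V} (hw : w ∈ SecSet Z) (c : ℂ) :
    c • w ∈ SecSet Z := by
  by_cases hc : c = 0
  · rw [hc, zero_smul]
    exact zero_mem_secSet hZ
  rcases hw with ⟨z, hz, z', hz', h⟩ | ⟨z, hz, h⟩
  · refine Or.inl ⟨c • z, hZ.smul_mem z hz c hc, c • z', hZ.smul_mem z' hz' c hc, ?_⟩
    rw [← smul_sub, h]
  · exact Or.inr ⟨z, hz, isTangent_smul h c⟩

/-- `exists_par` and `Lifts.limit`. -/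
theorem isClosed_secSet {Z : Set V} (hZ : IsSmoothCone Z) : IsClosed (SecSet Z) := by
  obtain ⟨m, P, hP⟩ := exists_par hZ
  refine IsSeqClosed.isClosed fun w w₀ hw hw₀ => ?_
  obtain ⟨i, hi⟩ := hP w w₀ hw hw₀
  obtain ⟨x₀, hx₀, h⟩ := Lifts.limit hw₀ hi
  rw [← h]
  exact (P i).mem x₀ hx₀

/-- If the secant cone is everything then two tangent spaces span.

Proof. `exists_par` with constant sequences: `V` is the union of the images of the `(P i).Φ`.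
`exists_regular` (with `O = univ`): some `v` is a regular value of all `(P i).Φ`; `v = (P i).Φ x` for some
`i`, `x ∈ (P i).Ω` (`Lifts.limit`); then `(P i).ter`. -/
theorem ter_of_secSet_eq_univ {Z : Set V} (hZ : IsSmoothCone Z) (h : SecSet Z = Set.univ) :
    Ter Z := by
  obtain ⟨m, P, hP⟩ := exists_par hZ
  obtain ⟨v, _, hv⟩ := exists_regular (fun i => (P i).N) (fun i => (P i).Φ) (fun i => (P i).Ω)
    (fun i x hx => (P i).an x hx) Set.univ isOpen_univ Set.univ_nonempty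
  obtain ⟨i, hi⟩ := hP (fun _ => v) v (fun _ => h ▸ Set.mem_univ v) tendsto_const_nhds
  obtain ⟨x₀, hx₀, h0⟩ := Lifts.limit tendsto_const_nhds hi
  exact (P i).ter x₀ hx₀ (hv i x₀ hx₀ h0)

/-- If two tangent spaces span then the secant cone has an interior point.

Proof. Charts `φ`, `ψ` at `α`, `γ`: `(s, s') ↦ φ s - ψ s'` has a surjective strict derivative at `0`
(`isTangent_iff`), so it maps neighbourhoods of `0` to neighbourhoods of `α - γ`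
(`HasStrictFDerivAt.map_nhds_eq_of_surj`), and its values near `0` are in `SecSet Z`. -/
theorem interior_of_ter {Z : Set V} (hZ : IsSmoothCone Z) (h : Ter Z) :
    (interior (SecSet Z)).Nonempty := by
  haveI : CompleteSpace V := FiniteDimensional.complete ℂ V
  obtain ⟨α, hα, γ, hγ, hspan⟩ := h
  obtain ⟨d, φ, hφ⟩ := exists_chartZ hZ hα
  obtain ⟨e, ψ, hψ⟩ := exists_chartZ hZ hγ
  have h1 : HasStrictFDerivAt (fun q : (Fin d → ℂ) × (Fin e → ℂ) => φ q.1)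
      ((fderiv ℂ φ 0).comp (ContinuousLinearMap.fst ℂ (Fin d → ℂ) (Fin e → ℂ))) (0, 0) :=
    HasStrictFDerivAt.comp (g := φ) (f := fun q : (Fin d → ℂ) × (Fin e → ℂ) => q.1) (0, 0)
      hφ.an.hasStrictFDerivAt hasStrictFDerivAt_fst
  have h2 : HasStrictFDerivAt (fun q : (Fin d → ℂ) × (Fin e → ℂ) => ψ q.2)
      ((fderiv ℂ ψ 0).comp (ContinuousLinearMap.snd ℂ (Fin d → ℂ) (Fin e → ℂ))) (0, 0) :=
    HasStrictFDerivAt.comp (g := ψ) (f := fun q : (Fin d → ℂ) × (Fin e → ℂ) => q.2) (0, 0)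
      hψ.an.hasStrictFDerivAt hasStrictFDerivAt_snd
  have h3 := h1.sub h2
  have hsurj : ((fderiv ℂ φ 0).comp (ContinuousLinearMap.fst ℂ (Fin d → ℂ) (Fin e → ℂ)) -
      (fderiv ℂ ψ 0).comp (ContinuousLinearMap.snd ℂ (Fin d → ℂ) (Fin e → ℂ))).range = ⊤ := by
    rw [eq_top_iff]
    intro v _
    obtain ⟨w₁, w₂, hw₁, hw₂, hv⟩ := hspan v
    obtain ⟨a, ha⟩ := (isTangent_iff hφ w₁).mp hw₁
    obtain ⟨b, hb⟩ := (isTangent_iff hψ w₂).mp hw₂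
    refine ⟨(a, -b), ?_⟩
    show (fderiv ℂ φ 0) a - (fderiv ℂ ψ 0) (-b) = v
    rw [map_neg, sub_neg_eq_add, ha, hb, hv]
  have hmap := h3.map_nhds_eq_of_surj hsurj
  refine ⟨φ 0 - ψ 0, mem_interior_iff_mem_nhds.mpr ?_⟩
  have h4 : (fun q : (Fin d → ℂ) × (Fin e → ℂ) => φ q.1 - ψ q.2) (0, 0) = φ 0 - ψ 0 := rfl
  have h5 : SecSet Z ∈ map (fun q : (Fin d → ℂ) × (Fin e → ℂ) => φ q.1 - ψ q.2) (𝓝 (0, 0)) := by
    rw [mem_map]
    have h6 : ∀ᶠ q in 𝓝 ((0 : Fin d → ℂ), (0 : Fin e → ℂ)), φ q.1 ∈ Z :=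
      (continuous_fst.tendsto ((0 : Fin d → ℂ), (0 : Fin e → ℂ))).eventually hφ.mem
    have h7 : ∀ᶠ q in 𝓝 ((0 : Fin d → ℂ), (0 : Fin e → ℂ)), ψ q.2 ∈ Z :=
      (continuous_snd.tendsto ((0 : Fin d → ℂ), (0 : Fin e → ℂ))).eventually hψ.mem
    filter_upwards [h6, h7] with q hq1 hq2
    exact Or.inl ⟨φ q.1, hq1, ψ q.2, hq2, rfl⟩
  have h8 : map (fun q : (Fin d → ℂ) × (Fin e → ℂ) => φ q.1 - ψ q.2) (𝓝 (0, 0)) =
      𝓝 (φ 0 - ψ 0) := hmap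
  rw [h8] at h5
  exact h5

/-- If `p` is not in the secant cone, it is bounded in the direction of `p`.

Proof. Otherwise there are `w k ∈ SecSet Z` with `|ℓ (w k)| > k ‖w k - ℓ (w k) p‖`; `w k ≠ 0`; scale to norm
`1` (`smul_mem_secSet`); a convergent subsequence has a limit `w ∈ SecSet Z` of norm `1` with
`w = ℓ (w) p`, so `ℓ w ≠ 0` and `p = (ℓ w)⁻¹ w ∈ SecSet Z`. -/
theorem secSet_bound {Z : Set V} (hZ : IsSmoothCone Z) {p : V} (hp : p ∉ SecSet Z)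
    (ℓ : V →L[ℂ] ℂ) (hℓ : ℓ p = 1) :
    ∃ K : ℝ, ∀ w ∈ SecSet Z, ‖ℓ w‖ ≤ K * ‖w - ℓ w • p‖ := by
  haveI : ProperSpace V := FiniteDimensional.proper ℂ V
  have hAc : IsCompact (SecSet Z ∩ Metric.sphere (0 : V) 1) :=
    (isCompact_sphere (0 : V) 1).inter_left (isClosed_secSet hZ)
  have hcont : Continuous fun w : V => ‖w - ℓ w • p‖ :=
    (continuous_id.sub (ℓ.continuous.smul continuous_const)).norm
  have hpos : ∀ w ∈ SecSet Z ∩ Metric.sphere (0 : V) 1, 0 < ‖w - ℓ w • p‖ := by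
    intro w hw
    rw [norm_pos_iff]
    intro h0
    have h1 : w = ℓ w • p := sub_eq_zero.mp h0
    have h2 : ℓ w ≠ 0 := by
      intro h3
      rw [h3, zero_smul] at h1
      have h4 : ‖w‖ = 1 := mem_sphere_zero_iff_norm.mp hw.2
      rw [h1, norm_zero] at h4
      exact zero_ne_one h4
    apply hp
    have h5 := smul_mem_secSet hZ hw.1 (ℓ w)⁻¹
    have h6 : (ℓ w)⁻¹ • w = p :=
      (congrArg (fun u => (ℓ w)⁻¹ • u) h1).trans (inv_smul_smul₀ h2 p)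
    rw [h6] at h5
    exact h5
  obtain ⟨m, hm, hmin⟩ : ∃ m : ℝ, 0 < m ∧ ∀ w ∈ SecSet Z ∩ Metric.sphere (0 : V) 1,
      m ≤ ‖w - ℓ w • p‖ := by
    rcases (SecSet Z ∩ Metric.sphere (0 : V) 1).eq_empty_or_nonempty with he | hne
    · refine ⟨1, one_pos, fun w hw => ?_⟩
      rw [he] at hw
      exact absurd hw (Set.notMem_empty w)
    · obtain ⟨w₁, hw₁, hmin⟩ := hAc.exists_isMinOn hne hcont.continuousOn
      exact ⟨_, hpos w₁ hw₁, fun w hw => hmin hw⟩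
  refine ⟨‖ℓ‖ / m, fun w hw => ?_⟩
  by_cases hw0 : w = 0
  · rw [hw0, map_zero, norm_zero]
    positivity
  have hn : 0 < ‖w‖ := norm_pos_iff.mpr hw0
  have h1 : ((‖w‖⁻¹ : ℝ) : ℂ) • w ∈ SecSet Z ∩ Metric.sphere (0 : V) 1 := by
    refine ⟨smul_mem_secSet hZ hw _, ?_⟩
    rw [mem_sphere_zero_iff_norm, norm_smul, Complex.norm_real, norm_inv, norm_norm,
      inv_mul_cancel₀ hn.ne']
  have h2 := hmin _ h1
  have h3 : ((‖w‖⁻¹ : ℝ) : ℂ) • w - ℓ (((‖w‖⁻¹ : ℝ) : ℂ) • w) • p =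
      ((‖w‖⁻¹ : ℝ) : ℂ) • (w - ℓ w • p) := by
    rw [map_smul, smul_sub, smul_eq_mul, mul_smul]
  rw [h3, norm_smul, Complex.norm_real, norm_inv, norm_norm] at h2
  have h4 : m * ‖w‖ ≤ ‖w - ℓ w • p‖ := by
    have h5 := mul_le_mul_of_nonneg_right h2 hn.le
    have h6 : ‖w‖⁻¹ * ‖w - ℓ w • p‖ * ‖w‖ = ‖w - ℓ w • p‖ := by
      field_simp
    rw [h6] at h5
    exact h5
  calc ‖ℓ w‖ ≤ ‖ℓ‖ * ‖w‖ := ℓ.le_opNorm w
    _ = ‖ℓ‖ / m * (m * ‖w‖) := by field_simp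
    _ ≤ ‖ℓ‖ / m * ‖w - ℓ w • p‖ := mul_le_mul_of_nonneg_left h4 (by positivity)

end Pool.Agent.SEC
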