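import Pool.Agent.SEC.A1

/-!
SEC-B4b (MP_d19687_ag, project SEC).
-/

open Filter Topology Pool.Agent.MP_d19687_ag Pool.Agent.RIG

namespace Pool.Agent.SEC

/-- A point of a regular fibre is an interior point of the slice or the slice is locally constant.

Proof. `straighten g x₀` gives `Ψ, κ`.  `f t := h (Ψ (g x₀, t))` is analytic at `0`.  By
`AnalyticAt.eventually_constant_or_nhds_le_map_nhds` either `f` is constant near `0`: for `x` near `x₀` with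
`g x = g x₀`, `x = Ψ (g x₀, κ x)` and `h x = f (κ x) = f 0 = h x₀`; or
`𝓝 (h x₀) ≤ map f (𝓝 0)`: for `S ∈ 𝓝 x₀` and `t` near `0`, `x = Ψ (g x₀, t) ∈ S`, `g x = g x₀`,
`h x = f t`. -/
theorem fibre_dichotomy {E F : Type*} [NormedAddCommGroup E] [NormedSpace ℂ E]
    [FiniteDimensional ℂ E] [NormedAddCommGroup F] [NormedSpace ℂ F] [FiniteDimensional ℂ F]
    (g : E → F) (h : E → ℂ) (x₀ : E) (hg : AnalyticAt ℂ g x₀) (hh : AnalyticAt ℂ h x₀)
    (hs : Function.Surjective (fderiv ℂ g x₀)) :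
    (∀ᶠ x in 𝓝 x₀, g x = g x₀ → h x = h x₀) ∨
      ∀ S ∈ 𝓝 x₀, ∀ᶠ c in 𝓝 (h x₀), ∃ x ∈ S, g x = g x₀ ∧ h x = c := by
  obtain ⟨d, Ψ, κ, -, hΨ, hΨ0, hκ, hκ0, hl, hr⟩ := straighten g x₀ hg hs
  set f : (Fin d → ℂ) → ℂ := fun t => h (Ψ (g x₀, t)) with hf
  have hpair : AnalyticAt ℂ (fun t : Fin d → ℂ => (g x₀, t)) 0 := by fun_prop
  have hfan : AnalyticAt ℂ f 0 := by
    have h1 : AnalyticAt ℂ (fun t : Fin d → ℂ => Ψ (g x₀, t)) 0 :=
      AnalyticAt.fun_comp (g := Ψ) (f := fun t : Fin d → ℂ => (g x₀, t)) hΨ hpair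
    have h2 : AnalyticAt ℂ h ((fun t : Fin d → ℂ => Ψ (g x₀, t)) 0) := by
      simp only [hΨ0]
      exact hh
    exact AnalyticAt.fun_comp h2 h1
  have hf0 : f 0 = h x₀ := by simp only [hf, hΨ0]
  rcases hfan.eventually_constant_or_nhds_le_map_nhds with hc | ho
  · left
    have hκt : Tendsto κ (𝓝 x₀) (𝓝 0) := by
      have := hκ.continuousAt.tendsto
      rwa [hκ0] at this
    filter_upwards [hl, hκt.eventually hc] with x h1 h2 hgx
    rw [← hf0, ← h2]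
    simp only [hf]
    rw [← hgx, h1]
  · right
    intro S hS
    rw [← hf0]
    have htt : Tendsto (fun t : Fin d → ℂ => (g x₀, t)) (𝓝 0) (𝓝 (g x₀, 0)) :=
      hpair.continuousAt.tendsto
    have hΨt : Tendsto (fun t : Fin d → ℂ => Ψ (g x₀, t)) (𝓝 0) (𝓝 x₀) := by
      have h1 := hΨ.continuousAt.tendsto
      rw [hΨ0] at h1
      exact h1.comp htt
    have he : ∀ᶠ t in 𝓝 (0 : Fin d → ℂ), Ψ (g x₀, t) ∈ S ∧ g (Ψ (g x₀, t)) = g x₀ := by
      filter_upwards [hΨt hS, htt.eventually hr] with t h1 h2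
      exact ⟨h1, h2.1⟩
    have hm : f '' {t | Ψ (g x₀, t) ∈ S ∧ g (Ψ (g x₀, t)) = g x₀} ∈ 𝓝 (f 0) :=
      ho (image_mem_map he)
    filter_upwards [hm] with c hc
    obtain ⟨t, ⟨h1, h2⟩, h3⟩ := hc
    exact ⟨Ψ (g x₀, t), h1, h2, h3⟩

end Pool.Agent.SEC
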