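import Pool.Agent.SEC.B4a
import Pool.Agent.SEC.B4b

/-!
SEC-B4c (MP_d19687_ag, project SEC).
-/

open Filter Topology Pool.Agent.MP_d19687_ag Pool.Agent.RIG

namespace Pool.Agent.SEC

variable {V : Type*} [NormedAddCommGroup V] [NormedSpace ℂ V] [FiniteDimensional ℂ V]

/-- If the secant cone has an interior point then it is everything.

Proof. Suppose `p ∉ SecSet Z`; `p ≠ 0` (`zero_mem_secSet`); choose `ℓ` with `ℓ p = 1`
(`exists_dual_vector`-type), `H := ker ℓ`, `π : V →L H`, `π v = v - ℓ v • p`.  `K` from `secSet_bound`,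
`P i` from `exists_par`, `g_i := π ∘ (P i).Φ`.  Let `O` be the (open, nonempty) image under `π` of
`interior (SecSet Z)` (`π` is an open map: surjective, `ContinuousLinearMap.isOpenMap`).  `exists_regular`
gives `v' ∈ O`, a regular value of all `g_i`.  `Σ := {σ : ℂ | v' + σ p ∈ SecSet Z}` is closed, it is bounded
(`‖σ‖ ≤ K ‖v'‖`, since `ℓ (v' + σ p) = σ`), and it contains a nonempty open set as `v' ∈ O`.  Claim: if
`σ₀` is a limit of points `σ_k ∈ Σ`, `σ_k ≠ σ₀`, then `σ₀ ∈ interior Σ`.  Indeed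
`w k := v' + σ_k p → v' + σ₀ p` lifts: `(P i).Φ (x k) = w (κ k)`, `x k → x₀ ∈ (P i).Ω`,
`g_i (x k) = v' = g_i x₀`, so `x₀` is a regular point of `g_i`; `fibre_dichotomy` with `h := ℓ ∘ (P i).Φ`
(`h (x k) = σ_{κ k} ≠ σ₀ = h x₀`) excludes the first case, and the second one (with `S = (P i).Ω`) gives
`Σ ∈ 𝓝 σ₀`, as `g_i x = v'`, `h x = c` mean `(P i).Φ x = v' + c p`.  So `interior Σ` is open, nonempty and
closed (a limit of points of `interior Σ` is in `interior Σ` or a limit of points of `Σ` different from it),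
so it is `ℂ` (`isClopen_iff`), contradicting boundedness. -/
theorem secSet_eq_univ_of_interior {Z : Set V} (hZ : IsSmoothCone Z)
    (h : (interior (SecSet Z)).Nonempty) : SecSet Z = Set.univ := by
  by_contra hne
  obtain ⟨p, hp⟩ := (Set.ne_univ_iff_exists_notMem _).1 hne
  have hp0 : p ≠ 0 := fun h0 => hp (h0 ▸ zero_mem_secSet hZ)
  -- a linear form with value `1` at `p`
  obtain ⟨ℓ, hℓ⟩ : ∃ ℓ : V →L[ℂ] ℂ, ℓ p = 1 := by
    obtain ⟨f, hf⟩ := SeparatingDual.exists_ne_zero (R := ℂ) hp0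
    exact ⟨(f p)⁻¹ • f, by simp [inv_mul_cancel₀ hf]⟩
  obtain ⟨K, hK⟩ := secSet_bound hZ hp ℓ hℓ
  obtain ⟨m, P, hP⟩ := exists_par hZ
  -- the projection onto `H = ker ℓ`
  set H := LinearMap.ker (ℓ : V →ₗ[ℂ] ℂ) with hH
  have hproj : ∀ v, (ContinuousLinearMap.id ℂ V - ℓ.smulRight p) v ∈ H := by
    intro v
    rw [hH, LinearMap.mem_ker]
    change ℓ (v - ℓ v • p) = 0
    rw [map_sub, map_smul, hℓ, smul_eq_mul, mul_one, sub_self]
  set π : V →L[ℂ] H := (ContinuousLinearMap.id ℂ V - ℓ.smulRight p).codRestrict H hproj with hπ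
  have hπv : ∀ v, ((π v : H) : V) = v - ℓ v • p := fun v => rfl
  have hπsurj : Function.Surjective π := by
    intro h
    refine ⟨(h : V), ?_⟩
    apply Subtype.ext
    rw [hπv]
    have : ℓ (h : V) = 0 := LinearMap.mem_ker.1 h.2
    rw [this, zero_smul, sub_zero]
  have : CompleteSpace V := FiniteDimensional.complete ℂ V
  have : CompleteSpace H := FiniteDimensional.complete ℂ H
  have hopen : IsOpenMap π := π.isOpenMap hπsurj
  -- a common regular value
  obtain ⟨v', hv'O, hreg⟩ := exists_regular (fun i => (P i).N) (fun i x => π ((P i).Φ x))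
    (fun i => (P i).Ω) (fun i x hx => (π.analyticAt _).comp ((P i).an x hx))
    (π '' interior (SecSet Z)) (hopen _ isOpen_interior) (h.image _)
  obtain ⟨w₀, hw₀, hw₀v⟩ := hv'O
  set S : Set ℂ := {σ | (v' : V) + σ • p ∈ SecSet Z} with hS
  have hcont : Continuous fun σ : ℂ => (v' : V) + σ • p := by fun_prop
  have hScl : IsClosed S := (isClosed_secSet hZ).preimage hcont
  have hv'0 : ℓ (v' : V) = 0 := LinearMap.mem_ker.1 v'.2
  -- `S` is bounded
  have hSb : ∀ σ ∈ S, ‖σ‖ ≤ K * ‖(v' : V)‖ := by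
    intro σ hσ
    have h1 := hK _ hσ
    have h2 : ℓ ((v' : V) + σ • p) = σ := by
      rw [map_add, hv'0, map_smul, hℓ, smul_eq_mul, mul_one, zero_add]
    rw [h2, add_sub_cancel_right] at h1
    exact h1
  -- `S` has an interior point
  have hw₀' : w₀ = (v' : V) + ℓ w₀ • p := by
    rw [← hw₀v, hπv, sub_add_cancel]
  have hSi : (interior S).Nonempty := by
    refine ⟨ℓ w₀, mem_interior_iff_mem_nhds.2 ?_⟩
    have h1 : SecSet Z ∈ 𝓝 ((v' : V) + ℓ w₀ • p) := by
      rw [← hw₀']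
      exact mem_interior_iff_mem_nhds.1 hw₀
    exact hcont.continuousAt.preimage_mem_nhds h1
  -- limits of other points of `S` are interior
  have hclaim : ∀ (σ₀ : ℂ) (σ : ℕ → ℂ), (∀ k, σ k ∈ S) → (∀ k, σ k ≠ σ₀) →
      Tendsto σ atTop (𝓝 σ₀) → σ₀ ∈ interior S := by
    intro σ₀ σ hσS hσne hσt
    obtain ⟨i, x₀, hx₀, κ, hκ, x, hx, hxw⟩ := hP (fun k => (v' : V) + σ k • p)
      ((v' : V) + σ₀ • p) hσS (hcont.continuousAt.tendsto.comp hσt)
    -- the limit
    have hlim : (P i).Φ x₀ = (v' : V) + σ₀ • p := by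
      have h1 : Tendsto (fun k => (P i).Φ (x k)) atTop (𝓝 ((P i).Φ x₀)) :=
        ((P i).an x₀ hx₀).continuousAt.tendsto.comp hx
      have h2 : Tendsto (fun k => (P i).Φ (x k)) atTop (𝓝 ((v' : V) + σ₀ • p)) := by
        simp only [hxw]
        exact (hcont.continuousAt.tendsto.comp hσt).comp hκ.tendsto_atTop
      exact tendsto_nhds_unique h1 h2
    have hg : ∀ (y : Fin (P i).N → ℂ) (c : ℂ), (P i).Φ y = (v' : V) + c • p →
        π ((P i).Φ y) = v' ∧ ℓ ((P i).Φ y) = c := by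
      intro y c hy
      have h2 : ℓ ((P i).Φ y) = c := by
        rw [hy, map_add, hv'0, map_smul, hℓ, smul_eq_mul, mul_one, zero_add]
      refine ⟨?_, h2⟩
      apply Subtype.ext
      rw [hπv, h2, hy, add_sub_cancel_right]
    obtain ⟨hgx₀, hℓx₀⟩ := hg x₀ σ₀ hlim
    have hsurj := hreg i x₀ hx₀ hgx₀
    rcases fibre_dichotomy (fun y => π ((P i).Φ y)) (fun y => ℓ ((P i).Φ y)) x₀
      ((π.analyticAt _).comp ((P i).an x₀ hx₀)) ((ℓ.analyticAt _).comp ((P i).an x₀ hx₀)) hsurj with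
      h1 | h1
    · exfalso
      obtain ⟨k, hk⟩ := (hx.eventually h1).exists
      obtain ⟨ha, hb⟩ := hg (x k) (σ (κ k)) (hxw k)
      have h3 : ℓ ((P i).Φ (x k)) = ℓ ((P i).Φ x₀) := hk (ha.trans hgx₀.symm)
      rw [hb, hℓx₀] at h3
      exact hσne (κ k) h3
    · have h2 : ∀ᶠ c in 𝓝 (ℓ ((P i).Φ x₀)), ∃ y ∈ (P i).Ω,
          π ((P i).Φ y) = π ((P i).Φ x₀) ∧ ℓ ((P i).Φ y) = c := h1 _ ((P i).isOpen.mem_nhds hx₀)
      rw [hℓx₀] at h2
      rw [mem_interior_iff_mem_nhds]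
      filter_upwards [h2] with c hc
      obtain ⟨y, hy, hy1, hy2⟩ := hc
      have h3 := (P i).mem y hy
      have h4 : (P i).Φ y = (v' : V) + c • p := by
        have h5 : ((π ((P i).Φ y) : H) : V) = (v' : V) := by
          rw [hy1, hgx₀]
        rw [hπv, hy2] at h5
        rw [← h5, sub_add_cancel]
      change (v' : V) + c • p ∈ SecSet Z
      rw [← h4]
      exact h3
  -- so the interior of `S` is closed
  have hclosed : IsClosed (interior S) := by
    refine isClosed_of_closure_subset fun σ₀ hσ₀ => ?_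
    by_contra hno
    obtain ⟨σ, hσ, hσt⟩ := mem_closure_iff_seq_limit.1 hσ₀
    exact hno (hclaim σ₀ σ (fun k => interior_subset (hσ k))
      (fun k hk => hno (hk ▸ hσ k)) hσt)
  have huniv : interior S = Set.univ :=
    IsClopen.eq_univ ⟨hclosed, isOpen_interior⟩ hSi
  -- contradiction with boundedness
  have hall : ∀ σ : ℂ, σ ∈ S := fun σ => interior_subset (huniv ▸ Set.mem_univ σ)
  have h1 := hSb (((K * ‖(v' : V)‖ + 1 : ℝ)) : ℂ) (hall _)
  rw [Complex.norm_real, Real.norm_eq_abs] at h1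
  have h2 := le_abs_self (K * ‖(v' : V)‖ + 1)
  linarith

end Pool.Agent.SEC
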