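import Pool.Agent.SEC.B1b

/-!
SEC-C1a (MP_d19687_ag, project SEC).
-/

open Filter Topology Pool.Agent.MP_d19687_ag Pool.Agent.RIG

namespace Pool.Agent.SEC

variable {T : Type*} [NormedAddCommGroup T] [NormedSpace ℂ T] [FiniteDimensional ℂ T]
  {U : Set T} {C : Set (T × T)}

/-- The fibre at `u`. -/
def fib (C : Set (T × T)) (u : T) : Set T := {v : T | (u, v) ∈ C}

omit [NormedSpace ℂ T] [FiniteDimensional ℂ T] in
theorem tendsto_pair_zero (x : T) {d : ℕ} :
    Tendsto (fun s : Fin d → ℂ => (x, s)) (𝓝 0) (𝓝 (x, 0)) :=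
  (continuous_const.prodMk continuous_id).tendsto 0

omit [FiniteDimensional ℂ T] in
/-- A chart of the cone structure at `(u, v)` gives a chart of the fibre at `v`: `s ↦ φ (u, s)`. -/
theorem chartZ_of_chart {x v : T} {d : ℕ} {φ : T × (Fin d → ℂ) → T} (h : IsChart C x v d φ) :
    IsChartZ (fib C x) v d (fun s => φ (x, s)) where
  an := by
    have h2 : AnalyticAt ℂ (fun s : Fin d → ℂ => (x, s)) 0 := analyticAt_const.prod analyticAt_id
    exact AnalyticAt.comp (g := φ) (f := fun s : Fin d → ℂ => (x, s)) h.an h2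
  map0 := h.map0
  inj := h.inj
  mem := (tendsto_pair_zero x).eventually h.mem
  onto := by
    intro S hS
    have hS' : {q : T × (Fin d → ℂ) | q.2 ∈ S} ∈ 𝓝 (x, (0 : Fin d → ℂ)) :=
      (continuous_snd.tendsto (x, (0 : Fin d → ℂ))) hS
    have h2 : Tendsto (fun w : T => (x, w)) (𝓝[fib C x] v) (𝓝[C] (x, v)) := by
      refine tendsto_nhdsWithin_iff.2 ⟨?_, ?_⟩
      · exact ((continuous_const.prodMk continuous_id).tendsto v).mono_left nhdsWithin_le_nhds
      · filter_upwards [self_mem_nhdsWithin] with w hw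
        exact hw
    filter_upwards [h2.eventually (h.onto _ hS')] with w hw
    obtain ⟨a, ha, he⟩ := hw
    refine ⟨a.2, ha, ?_⟩
    have h3 : x = a.1 := (Prod.ext_iff.1 he).1
    have h4 : w = φ a := (Prod.ext_iff.1 he).2
    rw [h4, h3]

/-- The fibres are smooth cones.  (`isClosed`: if `v k → v`, `(u, v k) ∈ C`, `v ≠ 0` then `(u, v) ∈ C` by
`hC.closed`.) -/
theorem isSmoothCone_fib (hC : IsConeStructure U C) {u : T} (hu : u ∈ U) :
    IsSmoothCone (fib C u) where
  ne_zero := fun v hv => hC.ne_zero (u, v) hv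
  smul_mem := fun v hv c hc => hC.smul_mem (u, v) hv c hc
  isClosed := by
    refine isClosed_of_closure_subset fun v hv => ?_
    rw [closure_union, closure_singleton] at hv
    rcases hv with hv | hv
    · by_cases h0 : v = 0
      · exact Or.inr h0
      · refine Or.inl (hC.closed (u, v) ?_ hu h0)
        have hc : Continuous (fun w : T => (u, w)) := continuous_const.prodMk continuous_id
        exact map_mem_closure hc hv fun w hw => hw
    · exact Or.inr hv
  isConnected := hC.fibre_connected u hu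
  chart := by
    intro v hv
    obtain ⟨d, φ, h⟩ := exists_chart hC hv
    have h' := chartZ_of_chart h
    exact ⟨d, fun s => φ (u, s), h'.an, h'.map0, h'.inj, h'.mem, h'.onto⟩

omit [FiniteDimensional ℂ T] in
/-- A lower bound for difference quotients gives a lower bound for the derivative. -/
theorem le_norm_fderiv_of_bound {d : ℕ} {f : (Fin d → ℂ) → T} {s : Fin d → ℂ}
    (hf : DifferentiableAt ℂ f s) {c : ℝ} (hb : ∀ᶠ s' in 𝓝 s, c * ‖s' - s‖ ≤ ‖f s' - f s‖)
    (a : Fin d → ℂ) : c * ‖a‖ ≤ ‖fderiv ℂ f s a‖ := by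
  have h1 : HasDerivAt (fun t : ℂ => s + t • a) a 0 := by
    simpa using ((hasDerivAt_id (0 : ℂ)).smul_const a).const_add s
  have hf' : HasFDerivAt f (fderiv ℂ f s) (s + (0 : ℂ) • a) := by
    simpa using hf.hasFDerivAt
  have h2 : HasDerivAt (fun t : ℂ => f (s + t • a)) (fderiv ℂ f s a) 0 :=
    HasFDerivAt.comp_hasDerivAt (l := f) (f := fun t : ℂ => s + t • a) (0 : ℂ) hf' h1
  have h3 := (hasDerivAt_iff_tendsto_slope.mp h2).norm
  have h4 : Tendsto (fun t : ℂ => s + t • a) (𝓝[≠] 0) (𝓝 s) := by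
    have := h1.continuousAt.tendsto
    simp only [zero_smul, add_zero] at this
    exact this.mono_left nhdsWithin_le_nhds
  refine ge_of_tendsto h3 ?_
  filter_upwards [h4.eventually hb, self_mem_nhdsWithin] with t ht ht0
  have ht0' : t ≠ 0 := ht0
  have hn : 0 < ‖t‖ := norm_pos_iff.2 ht0'
  rw [slope_def_module, sub_zero, norm_smul, norm_inv, zero_smul, add_zero]
  rw [add_sub_cancel_left, norm_smul] at ht
  rw [← div_eq_inv_mul, le_div_iff₀ hn]
  linarith [ht]

/-- Charts at nearby points: for `(y, s)` near `(x, 0)` the fibre at `y` has the chart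
`s' ↦ φ (y, s + s')` at `φ (y, s)`. -/
theorem chart_near {x v : T} {d : ℕ} {φ : T × (Fin d → ℂ) → T} (h : IsChart C x v d φ) :
    ∀ᶠ q in 𝓝 (x, (0 : Fin d → ℂ)),
      IsChartZ (fib C q.1) (φ q) d (fun s' => φ (q.1, q.2 + s')) := by
  have : CompleteSpace T := FiniteDimensional.complete ℂ T
  obtain ⟨c, hc, S, hS, himm⟩ := h.immersion_bound
  have hcy : Tendsto (fun q : T × (Fin d → ℂ) => (q.1, φ q)) (𝓝 (x, 0)) (𝓝 (x, v)) := by
    have h0 := h.an.continuousAt.tendsto
    rw [h.map0] at h0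
    exact (continuous_fst.tendsto (x, (0 : Fin d → ℂ))).prodMk_nhds h0
  have e1 : ∀ᶠ q in 𝓝 (x, (0 : Fin d → ℂ)), ∀ᶠ p in 𝓝 (q.1, φ q), p ∈ C →
      ∃ a ∈ S, p = (a.1, φ a) :=
    hcy.eventually (eventually_eventually_nhds.2 (eventually_nhdsWithin_iff.1 (h.onto S hS)))
  have e2 : ∀ᶠ q in 𝓝 (x, (0 : Fin d → ℂ)), ∀ᶠ q' in 𝓝 q, q' ∈ S :=
    eventually_eventually_nhds.2 hS
  filter_upwards [e1, e2, h.an.eventually_analyticAt, h.mem.eventually_nhds] with q h1 h2 h3 h4
  have hlin : Continuous (fun s' : Fin d → ℂ => (q.1, q.2 + s')) :=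
    continuous_const.prodMk (continuous_const.add continuous_id)
  have ht : Tendsto (fun s' : Fin d → ℂ => (q.1, q.2 + s')) (𝓝 0) (𝓝 q) := by
    have := hlin.tendsto 0
    rwa [add_zero] at this
  have han : AnalyticAt ℂ (fun s' : Fin d → ℂ => φ (q.1, q.2 + s')) 0 := by
    have h5 : AnalyticAt ℂ (fun s' : Fin d → ℂ => (q.1, q.2 + s')) 0 :=
      analyticAt_const.prod (analyticAt_const.add analyticAt_id)
    refine AnalyticAt.comp (g := φ) (f := fun s' : Fin d → ℂ => (q.1, q.2 + s')) ?_ h5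
    simpa using h3
  have hq : q ∈ S := h2.self_of_nhds
  refine ⟨han, by simp, ?_, ?_, ?_⟩
  · refine (injective_iff_map_eq_zero _).2 fun a ha => ?_
    have h6 : ∀ᶠ s' in 𝓝 (0 : Fin d → ℂ), c * ‖s' - 0‖ ≤
        ‖(fun s' : Fin d → ℂ => φ (q.1, q.2 + s')) s' -
          (fun s' : Fin d → ℂ => φ (q.1, q.2 + s')) 0‖ := by
      filter_upwards [ht.eventually h2] with s' hs'
      have h7 := himm q.1 (q.2 + s') (q.2 + 0) hs' (by simpa using hq)
      simpa using h7
    have h8 := le_norm_fderiv_of_bound han.differentiableAt h6 a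
    rw [ha, norm_zero] at h8
    have h9 : ‖a‖ ≤ 0 := by
      by_contra hne
      push Not at hne
      have := mul_pos hc hne
      linarith
    exact norm_le_zero_iff.1 h9
  · exact ht.eventually h4
  · intro S' hS'
    obtain ⟨ε, hε, hball⟩ := Metric.mem_nhds_iff.1 hS'
    have hp : Tendsto (fun w : T => (q.1, w)) (𝓝[fib C q.1] (φ q)) (𝓝 (q.1, φ q)) :=
      ((continuous_const.prodMk continuous_id).tendsto (φ q)).mono_left nhdsWithin_le_nhds
    have hd : ∀ᶠ w in 𝓝[fib C q.1] (φ q), ‖w - φ q‖ < c * ε := by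
      have h10 : Metric.ball (φ q) (c * ε) ∈ 𝓝 (φ q) := Metric.ball_mem_nhds _ (mul_pos hc hε)
      filter_upwards [nhdsWithin_le_nhds h10] with w hw
      rwa [Metric.mem_ball, dist_eq_norm] at hw
    filter_upwards [hp.eventually h1, self_mem_nhdsWithin, hd] with w hw1 hw2 hw3
    obtain ⟨a, haS, ha⟩ := hw1 hw2
    have ha1 : q.1 = a.1 := (Prod.ext_iff.1 ha).1
    have ha2 : w = φ a := (Prod.ext_iff.1 ha).2
    have haq : a = (q.1, a.2) := by rw [ha1]
    have h11 := himm q.1 a.2 q.2 (by rw [← haq]; exact haS) hq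
    rw [← haq] at h11
    refine ⟨a.2 - q.2, ?_, ?_⟩
    · apply hball
      rw [mem_ball_zero_iff]
      have h12 : c * ‖a.2 - q.2‖ < c * ε := by
        rw [ha2] at hw3
        exact lt_of_le_of_lt h11 hw3
      exact lt_of_mul_lt_mul_left h12 hc.le
    · show φ (q.1, q.2 + (a.2 - q.2)) = w
      rw [add_sub_cancel, ← haq, ha2]

/-- Sequences of points of `C` converging to the centre of a chart lift to the chart. -/
theorem lift_near {x v : T} {d : ℕ} {φ : T × (Fin d → ℂ) → T} (h : IsChart C x v d φ)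
    {u z : ℕ → T} (hz : ∀ k, (u k, z k) ∈ C) (hu : Tendsto u atTop (𝓝 x))
    (hzt : Tendsto z atTop (𝓝 v)) :
    ∃ s : ℕ → (Fin d → ℂ), Tendsto s atTop (𝓝 0) ∧ ∀ᶠ k in atTop, φ (u k, s k) = z k := by
  obtain ⟨c, hc, S, hS, himm⟩ := h.immersion_bound
  have h1 : Tendsto (fun k => (u k, z k)) atTop (𝓝[C] (x, v)) :=
    tendsto_nhdsWithin_iff.2 ⟨hu.prodMk_nhds hzt, Eventually.of_forall hz⟩
  have h2 : ∀ᶠ k in atTop, ∃ s : Fin d → ℂ, (u k, s) ∈ S ∧ φ (u k, s) = z k := by
    filter_upwards [h1.eventually (h.onto S hS)] with k hk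
    obtain ⟨a, haS, ha⟩ := hk
    have ha1 : u k = a.1 := (Prod.ext_iff.1 ha).1
    have ha2 : z k = φ a := (Prod.ext_iff.1 ha).2
    have haq : a = (u k, a.2) := by rw [ha1]
    exact ⟨a.2, by rw [← haq]; exact haS, by rw [← haq, ha2]⟩
  obtain ⟨s, hs⟩ := h2.choice
  refine ⟨s, ?_, hs.mono fun k hk => hk.2⟩
  have h3 : Tendsto (fun k => (u k, (0 : Fin d → ℂ))) atTop (𝓝 (x, 0)) :=
    hu.prodMk_nhds tendsto_const_nhds
  have h4 : Tendsto (fun k => φ (u k, 0)) atTop (𝓝 v) := by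
    have h5 := h.an.continuousAt.tendsto
    rw [h.map0] at h5
    exact h5.comp h3
  have h6 : Tendsto (fun k => c⁻¹ * ‖z k - φ (u k, 0)‖) atTop (𝓝 0) := by
    have h7 := ((hzt.sub h4).norm).const_mul c⁻¹
    simpa using h7
  rw [tendsto_zero_iff_norm_tendsto_zero]
  refine squeeze_zero' (Eventually.of_forall fun k => norm_nonneg _) ?_ h6
  filter_upwards [hs, h3.eventually hS] with k hk hk0
  have h8 := himm (u k) (s k) 0 hk.1 hk0
  rw [sub_zero, hk.2] at h8
  rw [inv_mul_eq_div, le_div_iff₀ hc, mul_comm]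
  exact h8

/-- Tangent vectors to the fibres at the points of a chart. -/
theorem isTangent_iff_near {x v : T} {d : ℕ} {φ : T × (Fin d → ℂ) → T} (h : IsChart C x v d φ) :
    ∀ᶠ q in 𝓝 (x, (0 : Fin d → ℂ)), ∀ w : T,
      IsTangent (fib C q.1) (φ q) w ↔ ∃ a, fderiv ℂ φ q (0, a) = w := by
  filter_upwards [chart_near h, h.an.eventually_analyticAt] with q h1 h2 w
  rw [isTangent_iff h1 w]
  have h3 : HasFDerivAt (fun s' : Fin d → ℂ => (q.1, q.2 + s'))
      (ContinuousLinearMap.inr ℂ T (Fin d → ℂ)) 0 := by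
    have h4 : HasFDerivAt (fun s' : Fin d → ℂ => q.2 + s')
        (ContinuousLinearMap.id ℂ (Fin d → ℂ)) 0 := (hasFDerivAt_id _).const_add _
    exact (hasFDerivAt_const q.1 (0 : Fin d → ℂ)).prodMk h4
  have h5 : HasFDerivAt φ (fderiv ℂ φ q) ((fun s' : Fin d → ℂ => (q.1, q.2 + s')) 0) := by
    simp only [add_zero]
    exact h2.differentiableAt.hasFDerivAt
  have h6 : HasFDerivAt (fun s' : Fin d → ℂ => φ (q.1, q.2 + s'))
      ((fderiv ℂ φ q).comp (ContinuousLinearMap.inr ℂ T (Fin d → ℂ))) 0 :=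
    HasFDerivAt.comp (g := φ) (f := fun s' : Fin d → ℂ => (q.1, q.2 + s')) _ h5 h3
  rw [h6.fderiv]
  rfl

theorem tendsto_clm_apply {ι E F : Type*} [NormedAddCommGroup E] [NormedSpace ℂ E]
    [NormedAddCommGroup F] [NormedSpace ℂ F] {l : Filter ι} {f : ι → E →L[ℂ] F} {g : ι → E}
    {f₀ : E →L[ℂ] F} {g₀ : E} (hf : Tendsto f l (𝓝 f₀)) (hg : Tendsto g l (𝓝 g₀)) :
    Tendsto (fun i => f i (g i)) l (𝓝 (f₀ g₀)) :=
  (isBoundedBilinearMap_apply.continuous.tendsto (f₀, g₀)).comp (hf.prodMk_nhds hg)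

/-- An analytic left inverse of the vertical derivative of a chart. -/
theorem exists_vert_left_inverse {x v : T} {d : ℕ} {φ : T × (Fin d → ℂ) → T}
    (h : IsChart C x v d φ) :
    ∃ L : T × (Fin d → ℂ) → T →L[ℂ] (Fin d → ℂ), AnalyticAt ℂ L (x, 0) ∧
      ∀ᶠ q in 𝓝 (x, (0 : Fin d → ℂ)), ∀ a, L q (fderiv ℂ φ q (0, a)) = a := by
  have : CompleteSpace T := FiniteDimensional.complete ℂ T
  let R : ((T × (Fin d → ℂ)) →L[ℂ] T) →L[ℂ] ((Fin d → ℂ) →L[ℂ] T) :=
    (ContinuousLinearMap.compL ℂ (Fin d → ℂ) (T × (Fin d → ℂ)) T).flip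
      (ContinuousLinearMap.inr ℂ T (Fin d → ℂ))
  have h1 : AnalyticAt ℂ (fun q => R (fderiv ℂ φ q)) (x, (0 : Fin d → ℂ)) :=
    (R.analyticAt _).comp h.an.fderiv
  exact exists_left_inverse (fun q => R (fderiv ℂ φ q)) (x, (0 : Fin d → ℂ)) h1 h.vert_inj

/-- Surjectivity is an open condition. -/
theorem surj_open {X F W : Type*} [TopologicalSpace X]
    [NormedAddCommGroup F] [NormedSpace ℂ F] [FiniteDimensional ℂ F]
    [NormedAddCommGroup W] [NormedSpace ℂ W] [FiniteDimensional ℂ W]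
    (M : X → F →L[ℂ] W) (x : X) (hM : ContinuousAt M x) (hs : Function.Surjective (M x)) :
    ∀ᶠ y in 𝓝 x, Function.Surjective (M y) := by
  have : CompleteSpace W := FiniteDimensional.complete ℂ W
  obtain ⟨g, hg⟩ := LinearMap.exists_rightInverse_of_surjective (M x : F →ₗ[ℂ] W)
    (LinearMap.range_eq_top.2 hs)
  set R : W →L[ℂ] F := LinearMap.toContinuousLinearMap g with hR
  have hR1 : (M x).comp R = 1 := by
    ext c
    exact congrArg (fun f : W →ₗ[ℂ] W => f c) hg
  have hc : ContinuousAt (fun y => (M y).comp R) x := by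
    have h1 : Continuous ((ContinuousLinearMap.compL ℂ W F W).flip R) :=
      ((ContinuousLinearMap.compL ℂ W F W).flip R).continuous
    exact h1.continuousAt.comp hM
  have hun : ∀ᶠ y in 𝓝 x, IsUnit ((M y).comp R) := by
    refine hc.eventually (Units.isOpen.mem_nhds ?_)
    change IsUnit ((M x).comp R)
    rw [hR1]
    exact isUnit_one
  filter_upwards [hun] with y hy w
  refine ⟨R (Ring.inverse ((M y).comp R) w), ?_⟩
  exact congrArg (fun f : W →L[ℂ] W => f w) (Ring.mul_inverse_cancel ((M y).comp R) hy)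

/-- The tangent vectors at the centre of a chart of the cone structure. -/
theorem isTangent_iff_vert {x v : T} {d : ℕ} {φ : T × (Fin d → ℂ) → T} (h : IsChart C x v d φ)
    (w : T) : IsTangent (fib C x) v w ↔ ∃ a, vert φ x a = w := by
  have h1 := (isTangent_iff_near h).self_of_nhds w
  simp only [h.map0] at h1
  exact h1

theorem isTangent_iff_vert_near {x v : T} {d : ℕ} {φ : T × (Fin d → ℂ) → T}
    (h : IsChart C x v d φ) :
    ∀ᶠ y in 𝓝 x, ∀ w : T, IsTangent (fib C y) (φ (y, 0)) w ↔ ∃ a, vert φ y a = w := by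
  have h1 : Tendsto (fun y : T => (y, (0 : Fin d → ℂ))) (𝓝 x) (𝓝 (x, 0)) :=
    tendsto_id.prodMk_nhds tendsto_const_nhds
  exact h1.eventually (isTangent_iff_near h)

end Pool.Agent.SEC
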