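import Pool.Agent.SEC.C1a

/-!
SEC-C1b (MP_d19687_ag, project SEC).
-/

open Filter Topology Pool.Agent.MP_d19687_ag Pool.Agent.RIG

namespace Pool.Agent.SEC

variable {T : Type*} [NormedAddCommGroup T] [NormedSpace ℂ T] [FiniteDimensional ℂ T]
  {U : Set T} {C : Set (T × T)}

/-- Limits of vectors tangent to the fibres are tangent to the fibre. -/
theorem isTangent_fib_of_tendsto (hC : IsConeStructure U C) {u z w : ℕ → T} {u₀ z₀ w₀ : T}
    (hu₀ : u₀ ∈ U) (hz₀ : (u₀, z₀) ∈ C) (hu : Tendsto u atTop (𝓝 u₀)) (hzt : Tendsto z atTop (𝓝 z₀))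
    (hwt : Tendsto w atTop (𝓝 w₀)) (hz : ∀ k, (u k, z k) ∈ C)
    (h : ∀ k, IsTangent (fib C (u k)) (z k) (w k)) : IsTangent (fib C u₀) z₀ w₀ := by
  have : CompleteSpace T := FiniteDimensional.complete ℂ T
  obtain ⟨d, φ, hφ⟩ := exists_chart hC hz₀
  obtain ⟨s, hs0, hs⟩ := lift_near hφ hz hu hzt
  obtain ⟨L, hLan, hL⟩ := exists_vert_left_inverse hφ
  have hq : Tendsto (fun k => (u k, s k)) atTop (𝓝 (u₀, 0)) := hu.prodMk_nhds hs0
  have h1 : ∀ᶠ k in atTop, fderiv ℂ φ (u k, s k) (0, L (u k, s k) (w k)) = w k := by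
    filter_upwards [hs, hq.eventually (isTangent_iff_near hφ), hq.eventually hL] with k h2 h3 h4
    obtain ⟨a, ha⟩ := (h3 (w k)).1 (by
      rw [h2]
      exact h k)
    rw [← ha, h4 a]
  have h5 : Tendsto (fun k => L (u k, s k) (w k)) atTop (𝓝 (L (u₀, 0) w₀)) :=
    tendsto_clm_apply (hLan.continuousAt.tendsto.comp hq) hwt
  have h6 : Tendsto (fun k => fderiv ℂ φ (u k, s k) (0, L (u k, s k) (w k))) atTop
      (𝓝 (fderiv ℂ φ (u₀, 0) (0, L (u₀, 0) w₀))) :=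
    tendsto_clm_apply (hφ.an.fderiv.continuousAt.tendsto.comp hq)
      (tendsto_const_nhds.prodMk_nhds h5)
  have h7 : fderiv ℂ φ (u₀, 0) (0, L (u₀, 0) w₀) = w₀ :=
    tendsto_nhds_unique (h6.congr' h1) hwt
  have h8 := hφ.isTangent_fibre (L (u₀, 0) w₀)
  rw [vert_apply, h7] at h8
  exact h8

omit [FiniteDimensional ℂ T] in
theorem mem_fib_of_tendsto (hC : IsConeStructure U C) {u z : ℕ → T} {u₀ z₀ : T}
    (hu₀ : u₀ ∈ U) (h0 : z₀ ≠ 0) (hu : Tendsto u atTop (𝓝 u₀)) (hzt : Tendsto z atTop (𝓝 z₀))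
    (hz : ∀ k, z k ∈ fib C (u k)) : z₀ ∈ fib C u₀ :=
  hC.closed (u₀, z₀) (mem_closure_of_tendsto (hu.prodMk_nhds hzt) (Eventually.of_forall hz)) hu₀ h0

theorem secSet_fib_closed_tan (hC : IsConeStructure U C) {u : ℕ → T} {u₀ : T} (hu₀ : u₀ ∈ U)
    (hu : Tendsto u atTop (𝓝 u₀)) (w : ℕ → T) (w₀ : T) (hwt : Tendsto w atTop (𝓝 w₀))
    (hw : ∀ k, ∃ z ∈ fib C (u k), IsTangent (fib C (u k)) z (w k)) :
    w₀ ∈ SecSet (fib C u₀) := by
  have : ProperSpace T := FiniteDimensional.proper ℂ T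
  choose z hz ht using hw
  have hn : ∀ k, (‖z k‖ : ℂ) ≠ 0 := fun k => by
    have := hC.ne_zero _ (hz k)
    simpa using this
  have hsph : ∀ k, ((‖z k‖ : ℂ))⁻¹ • z k ∈ Metric.sphere (0 : T) 1 := by
    intro k
    rw [mem_sphere_zero_iff_norm, norm_smul, norm_inv, Complex.norm_real, norm_norm]
    exact inv_mul_cancel₀ (by
      have := hC.ne_zero _ (hz k)
      simpa using this)
  obtain ⟨a, ha, ψ, hψ, hψt⟩ := (isCompact_sphere (0 : T) 1).tendsto_subseq hsph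
  have ha0 : a ≠ 0 := by
    intro h0
    rw [h0, mem_sphere_zero_iff_norm, norm_zero] at ha
    exact zero_ne_one ha
  have hzm : ∀ k, ((‖z k‖ : ℂ))⁻¹ • z k ∈ fib C (u k) := fun k =>
    hC.smul_mem (u k, z k) (hz k) _ (inv_ne_zero (hn k))
  have huψ := hu.comp hψ.tendsto_atTop
  have hwψ := hwt.comp hψ.tendsto_atTop
  have haf : a ∈ fib C u₀ := mem_fib_of_tendsto hC hu₀ ha0 huψ hψt fun k => hzm (ψ k)
  refine Or.inr ⟨a, haf, ?_⟩
  refine isTangent_fib_of_tendsto hC hu₀ haf huψ hψt hwψ (fun k => hzm (ψ k)) fun k => ?_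
  exact isTangent_smul_point (isSmoothCone_fib hC (hC.base _ (hz (ψ k)))) (ht (ψ k))
    (inv_ne_zero (hn (ψ k)))

theorem secSet_fib_closed_bdd (hC : IsConeStructure U C) {u : ℕ → T} {u₀ : T} (hu₀ : u₀ ∈ U)
    (hu : Tendsto u atTop (𝓝 u₀)) (w : ℕ → T) (w₀ : T) (hwt : Tendsto w atTop (𝓝 w₀))
    (z z' : ℕ → T) (hz : ∀ k, z k ∈ fib C (u k)) (hz' : ∀ k, z' k ∈ fib C (u k))
    (hzz : ∀ k, z k - z' k = w k) (R : ℝ) (hR : ∀ k, ‖z k‖ ≤ R) :
    w₀ ∈ SecSet (fib C u₀) := by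
  have : ProperSpace T := FiniteDimensional.proper ℂ T
  obtain ⟨a, -, ψ, hψ, hψt⟩ := (isCompact_closedBall (0 : T) R).tendsto_subseq
    (x := z) (fun k => by simpa using hR k)
  have huψ := hu.comp hψ.tendsto_atTop
  have hwψ := hwt.comp hψ.tendsto_atTop
  have hψt' : Tendsto (z' ∘ ψ) atTop (𝓝 (a - w₀)) := by
    refine (hψt.sub hwψ).congr fun k => ?_
    simp only [Function.comp_apply]
    rw [← hzz (ψ k), sub_sub_cancel]
  have hsm := isSmoothCone_fib hC hu₀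
  by_cases ha : a = 0
  · by_cases ha' : a - w₀ = 0
    · have hw0 : w₀ = 0 := by
        rw [ha, zero_sub, neg_eq_zero] at ha'
        exact ha'
      obtain ⟨y, hy⟩ := (hC.fibre_connected u₀ hu₀).nonempty
      exact Or.inl ⟨y, hy, y, hy, by rw [sub_self, hw0]⟩
    · have hm := mem_fib_of_tendsto hC hu₀ ha' huψ hψt' fun k => hz' (ψ k)
      refine Or.inr ⟨a - w₀, hm, ?_⟩
      have h1 := isTangent_smul (isTangent_self hsm hm) (-1)
      have h2 : (-1 : ℂ) • (a - w₀) = w₀ := by rw [ha]; simp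
      rw [h2] at h1
      exact h1
  · have hm := mem_fib_of_tendsto hC hu₀ ha huψ hψt fun k => hz (ψ k)
    by_cases ha' : a - w₀ = 0
    · refine Or.inr ⟨a, hm, ?_⟩
      have h1 := isTangent_self hsm hm
      rwa [sub_eq_zero.1 ha'] at h1 ⊢
    · have hm' := mem_fib_of_tendsto hC hu₀ ha' huψ hψt' fun k => hz' (ψ k)
      exact Or.inl ⟨a, hm, a - w₀, hm', by rw [sub_sub_cancel]⟩

theorem secSet_fib_closed_unbdd (hC : IsConeStructure U C) {u : ℕ → T} {u₀ : T} (hu₀ : u₀ ∈ U)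
    (hu : Tendsto u atTop (𝓝 u₀)) (w : ℕ → T) (w₀ : T) (hwt : Tendsto w atTop (𝓝 w₀))
    (z z' : ℕ → T) (hz : ∀ k, z k ∈ fib C (u k)) (hz' : ∀ k, z' k ∈ fib C (u k))
    (hzz : ∀ k, z k - z' k = w k) (hR : Tendsto (fun k => ‖z k‖) atTop atTop) :
    w₀ ∈ SecSet (fib C u₀) := by
  have : ProperSpace T := FiniteDimensional.proper ℂ T
  have : CompleteSpace T := FiniteDimensional.complete ℂ T
  have hnr : ∀ k, ‖z k‖ ≠ 0 := fun k => by
    have := hC.ne_zero _ (hz k)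
    simpa using this
  have hn : ∀ k, (‖z k‖ : ℂ) ≠ 0 := fun k => by exact_mod_cast hnr k
  have hsph : ∀ k, ((‖z k‖ : ℂ))⁻¹ • z k ∈ Metric.sphere (0 : T) 1 := by
    intro k
    rw [mem_sphere_zero_iff_norm, norm_smul, norm_inv, Complex.norm_real, norm_norm]
    exact inv_mul_cancel₀ (hnr k)
  obtain ⟨a, ha, ψ, hψ, hψt⟩ := (isCompact_sphere (0 : T) 1).tendsto_subseq hsph
  have ha0 : a ≠ 0 := by
    intro h0
    rw [h0, mem_sphere_zero_iff_norm, norm_zero] at ha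
    exact zero_ne_one ha
  have hzm : ∀ k, ((‖z k‖ : ℂ))⁻¹ • z k ∈ fib C (u k) := fun k =>
    hC.smul_mem (u k, z k) (hz k) _ (inv_ne_zero (hn k))
  have hzm' : ∀ k, ((‖z k‖ : ℂ))⁻¹ • z' k ∈ fib C (u k) := fun k =>
    hC.smul_mem (u k, z' k) (hz' k) _ (inv_ne_zero (hn k))
  have huψ := hu.comp hψ.tendsto_atTop
  have hwψ := hwt.comp hψ.tendsto_atTop
  have hRψ := hR.comp hψ.tendsto_atTop
  have haf : a ∈ fib C u₀ := mem_fib_of_tendsto hC hu₀ ha0 huψ hψt fun k => hzm (ψ k)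
  have hinv : Tendsto (fun k => ((‖z (ψ k)‖ : ℂ))⁻¹) atTop (𝓝 0) := by
    rw [tendsto_zero_iff_norm_tendsto_zero]
    have h1 := hRψ.inv_tendsto_atTop
    refine h1.congr fun k => ?_
    simp
  have hψt' : Tendsto (fun k => ((‖z (ψ k)‖ : ℂ))⁻¹ • z' (ψ k)) atTop (𝓝 a) := by
    have h1 := hψt.sub (hinv.smul hwψ)
    rw [zero_smul, sub_zero] at h1
    refine h1.congr fun k => ?_
    simp only [Function.comp_apply]
    rw [← smul_sub, ← hzz (ψ k), sub_sub_cancel]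
  obtain ⟨d, φ, hφ⟩ := exists_chart hC (show (u₀, a) ∈ C from haf)
  obtain ⟨s, hs0, hs⟩ := lift_near hφ (fun k => hzm (ψ k)) huψ hψt
  obtain ⟨s', hs0', hs'⟩ := lift_near hφ (fun k => hzm' (ψ k)) huψ hψt'
  obtain ⟨c, hc, S, hS, himm⟩ := hφ.immersion_bound
  have hq : Tendsto (fun k => (u (ψ k), s k)) atTop (𝓝 (u₀, 0)) := huψ.prodMk_nhds hs0
  have hq' : Tendsto (fun k => (u (ψ k), s' k)) atTop (𝓝 (u₀, 0)) := huψ.prodMk_nhds hs0'
  have hst := hφ.an.hasStrictFDerivAt.isLittleO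
  have h2 := hst.comp_tendsto (hq.prodMk_nhds hq')
  have h3 := (Asymptotics.isBigO_refl (fun k => (‖z (ψ k)‖ : ℂ)) atTop).smul_isLittleO h2
  have hdiff : ∀ k, ((u (ψ k), s k) : T × (Fin d → ℂ)) - (u (ψ k), s' k) = (0, s k - s' k) :=
    fun k => by simp
  have hzw : ∀ k, ((‖z (ψ k)‖ : ℂ))⁻¹ • z (ψ k) - ((‖z (ψ k)‖ : ℂ))⁻¹ • z' (ψ k) =
      ((‖z (ψ k)‖ : ℂ))⁻¹ • w (ψ k) := fun k => by rw [← smul_sub, hzz]
  -- the displacement times the norm is bounded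
  have h4 : (fun k => (‖z (ψ k)‖ : ℂ) • (((u (ψ k), s k) : T × (Fin d → ℂ)) - (u (ψ k), s' k)))
      =O[atTop] (fun _ => (1 : ℝ)) := by
    have h5 : (fun k => w (ψ k)) =O[atTop] (fun _ => (1 : ℝ)) := hwψ.isBigO_one ℝ
    refine Asymptotics.IsBigO.trans (Asymptotics.IsBigO.of_bound c⁻¹ ?_) h5
    filter_upwards [hs, hs', hq.eventually hS, hq'.eventually hS] with k h6 h7 h8 h9
    have h10 := himm _ _ _ h8 h9
    rw [h6, h7, hzw, norm_smul, norm_inv, Complex.norm_real, norm_norm] at h10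
    rw [hdiff, norm_smul, Complex.norm_real, norm_norm]
    have h11 : ‖((0 : T), s k - s' k)‖ = ‖s k - s' k‖ := by simp [Prod.norm_def]
    rw [h11]
    have hp : 0 < ‖z (ψ k)‖ := lt_of_le_of_ne (norm_nonneg _) (Ne.symm (hnr (ψ k)))
    rw [← div_eq_inv_mul, le_div_iff₀ hp] at h10
    rw [inv_mul_eq_div, le_div_iff₀ hc]
    linarith [h10]
  have h12 := h3.trans_isBigO h4
  rw [Asymptotics.isLittleO_one_iff] at h12
  have h13 : Tendsto (fun k => w (ψ k) - vert φ u₀ ((‖z (ψ k)‖ : ℂ) • (s k - s' k))) atTop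
      (𝓝 0) := by
    refine h12.congr' ?_
    filter_upwards [hs, hs'] with k h6 h7
    simp only [Function.comp_apply]
    rw [h6, h7, hzw, hdiff, smul_sub, smul_smul, mul_inv_cancel₀ (hn (ψ k)), one_smul, map_smul,
      vert_apply]
  have h14 : Tendsto (fun k => vert φ u₀ ((‖z (ψ k)‖ : ℂ) • (s k - s' k))) atTop (𝓝 w₀) := by
    have h15 := (hwψ.sub h13)
    rw [sub_zero] at h15
    refine h15.congr fun k => ?_
    simp only [Function.comp_apply, sub_sub_cancel]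
  have hcl : IsClosed ((LinearMap.range (vert φ u₀).toLinearMap : Submodule ℂ T) : Set T) :=
    Submodule.closed_of_finiteDimensional _
  have hmem : w₀ ∈ LinearMap.range (vert φ u₀).toLinearMap :=
    hcl.mem_of_tendsto h14 (Eventually.of_forall fun k => ⟨_, rfl⟩)
  obtain ⟨ω, hω⟩ := hmem
  refine Or.inr ⟨a, haf, ?_⟩
  have h16 := hφ.isTangent_fibre ω
  have h17 : vert φ u₀ ω = w₀ := hω
  rw [h17] at h16
  exact h16

/-- The secant cones vary in a closed way. -/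
theorem secSet_fib_closed (hC : IsConeStructure U C) {u : ℕ → T} {u₀ : T} (hu₀ : u₀ ∈ U)
    (hu : Tendsto u atTop (𝓝 u₀)) (w : ℕ → T) (w₀ : T) (hwt : Tendsto w atTop (𝓝 w₀))
    (hw : ∀ k, w k ∈ SecSet (fib C (u k))) : w₀ ∈ SecSet (fib C u₀) := by
  by_cases hT : ∃ᶠ k in atTop, ∃ z ∈ fib C (u k), IsTangent (fib C (u k)) z (w k)
  · obtain ⟨ψ, hψ, hψT⟩ := extraction_of_frequently_atTop hT
    exact secSet_fib_closed_tan hC hu₀ (hu.comp hψ.tendsto_atTop) (w ∘ ψ) w₀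
      (hwt.comp hψ.tendsto_atTop) hψT
  · have hD : ∀ᶠ k in atTop, ∃ z ∈ fib C (u k), ∃ z' ∈ fib C (u k), z - z' = w k := by
      rw [not_frequently] at hT
      filter_upwards [hT] with k hk
      exact (hw k).resolve_right hk
    obtain ⟨ψ, hψ, hψD⟩ := extraction_of_frequently_atTop hD.frequently
    choose z hz z' hz' hzz using hψD
    by_cases hb : ∃ R : ℝ, ∃ᶠ k in atTop, ‖z k‖ ≤ R
    · obtain ⟨R, hR⟩ := hb
      obtain ⟨χ, hχ, hχR⟩ := extraction_of_frequently_atTop hR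
      have hψχ := hψ.tendsto_atTop.comp hχ.tendsto_atTop
      exact secSet_fib_closed_bdd hC hu₀ (hu.comp hψχ) (w ∘ (ψ ∘ χ)) w₀ (hwt.comp hψχ)
        (z ∘ χ) (z' ∘ χ) (fun k => hz (χ k)) (fun k => hz' (χ k)) (fun k => hzz (χ k)) R hχR
    · push Not at hb
      have hR : Tendsto (fun k => ‖z k‖) atTop atTop := by
        refine tendsto_atTop.2 fun R => ?_
        filter_upwards [hb R] with k hk
        exact hk.le
      exact secSet_fib_closed_unbdd hC hu₀ (hu.comp hψ.tendsto_atTop) (w ∘ ψ) w₀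
        (hwt.comp hψ.tendsto_atTop) z z' hz hz' hzz hR

end Pool.Agent.SEC
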