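import Pool.Agent.SEC.C1a

/-!
SEC-C1c (MP_d19687_ag, project SEC).
-/

open Filter Topology Pool.Agent.MP_d19687_ag Pool.Agent.RIG

namespace Pool.Agent.SEC

variable {T : Type*} [NormedAddCommGroup T] [NormedSpace ℂ T] [FiniteDimensional ℂ T]
  {U : Set T} {C : Set (T × T)}

/-- `Ter` is an open condition. -/
theorem ter_fib_open (hC : IsConeStructure U C) {u₀ : T} (hu₀ : u₀ ∈ U) (h : Ter (fib C u₀)) :
    ∀ᶠ u in 𝓝 u₀, Ter (fib C u) := by
  obtain ⟨α, hα, γ, hγ, hs⟩ := h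
  obtain ⟨d, φ, hφ⟩ := exists_chart hC (show (u₀, α) ∈ C from hα)
  obtain ⟨e, ψ, hψ⟩ := exists_chart hC (show (u₀, γ) ∈ C from hγ)
  have hM : ContinuousAt (fun u => (vert φ u).coprod (vert ψ u)) u₀ := by
    have h1 : ContinuousAt (vert φ) u₀ := hφ.vert_an.continuousAt
    have h2 : ContinuousAt (vert ψ) u₀ := hψ.vert_an.continuousAt
    have h3 : (fun u => (vert φ u).coprod (vert ψ u)) =
        fun u => (vert φ u).comp (ContinuousLinearMap.fst ℂ (Fin d → ℂ) (Fin e → ℂ)) +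
          (vert ψ u).comp (ContinuousLinearMap.snd ℂ (Fin d → ℂ) (Fin e → ℂ)) := by
      funext u
      ext q <;> simp
    rw [h3]
    exact (h1.clm_comp continuousAt_const).add (h2.clm_comp continuousAt_const)
  have hsur : Function.Surjective ((vert φ u₀).coprod (vert ψ u₀)) := by
    intro v
    obtain ⟨w₁, w₂, h1, h2, h3⟩ := hs v
    obtain ⟨a, ha⟩ := (isTangent_iff_vert hφ w₁).1 h1
    obtain ⟨b, hb⟩ := (isTangent_iff_vert hψ w₂).1 h2
    exact ⟨(a, b), by simp [ha, hb, h3]⟩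
  filter_upwards [surj_open _ u₀ hM hsur, isTangent_iff_vert_near hφ, isTangent_iff_vert_near hψ,
    hφ.g3_sec_mem_cone, hψ.g3_sec_mem_cone] with u h1 h2 h3 h4 h5
  refine ⟨φ (u, 0), h4, ψ (u, 0), h5, fun v => ?_⟩
  obtain ⟨⟨a, b⟩, hab⟩ := h1 v
  refine ⟨vert φ u a, vert ψ u b, (h2 _).2 ⟨a, rfl⟩, (h3 _).2 ⟨b, rfl⟩, ?_⟩
  simpa using hab

end Pool.Agent.SEC
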