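import Pool.Agent.SEC.C1a
import Pool.Agent.SEC.B1d

/-!
SEC-C1d (MP_d19687_ag, project SEC).
-/

open Filter Topology Pool.Agent.MP_d19687_ag Pool.Agent.RIG

namespace Pool.Agent.SEC

variable {T : Type*} [NormedAddCommGroup T] [NormedSpace ℂ T] [FiniteDimensional ℂ T]
  {U : Set T} {C : Set (T × T)}

theorem isTangent_compl_zero {V : Type*} [NormedAddCommGroup V] [NormedSpace ℂ V] {v : V}
    (hv : v ≠ 0) (w : V) : IsTangent {v : V | v ≠ 0} v w := by
  have hd : HasDerivAt (fun t : ℂ => v + t • w) w 0 := by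
    simpa using ((hasDerivAt_id (0 : ℂ)).smul_const w).const_add v
  refine ⟨fun t => v + t • w, ?_, by simp, hd.deriv, ?_⟩
  · exact analyticAt_const.add (analyticAt_id.smul analyticAt_const)
  · have h1 := hd.continuousAt.tendsto
    simp only [zero_smul, add_zero] at h1
    exact h1.eventually_ne hv

/-- If one fibre is everything then all fibres are. -/
theorem fib_full_all (hC : IsConeStructure U C) {y : T} (hy : y ∈ U)
    (h : fib C y = {v | v ≠ 0}) : ∀ x ∈ U, fib C x = {v | v ≠ 0} := by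
  set G : Set T := {u | u ∈ U ∧ fib C u = {v | v ≠ 0}} with hG
  have hopen : IsOpen G := by
    rw [isOpen_iff_mem_nhds]
    rintro u₀ ⟨hu₀, hf⟩
    obtain ⟨v, hv⟩ := (hC.fibre_connected u₀ hu₀).nonempty
    obtain ⟨d, φ, hφ⟩ := exists_chart hC hv
    have hv0 : v ≠ 0 := hC.ne_zero _ hv
    have hsur : Function.Surjective (vert φ u₀) := by
      intro w
      refine (isTangent_iff_vert hφ w).1 ?_
      rw [hf]
      exact isTangent_compl_zero hv0 w
    filter_upwards [surj_open _ u₀ hφ.vert_an.continuousAt hsur, isTangent_iff_vert_near hφ,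
      hφ.g3_sec_mem_cone, hC.isOpen.mem_nhds hu₀] with u h1 h2 h3 h4
    exact ⟨h4, eq_of_tangent_top (isSmoothCone_fib hC h4) (show φ (u, 0) ∈ fib C u from h3)
      fun w => (h2 w).2 (h1 w)⟩
  have hclosed : closure G ∩ U ⊆ G := by
    rintro u₀ ⟨hcl, hu₀⟩
    refine ⟨hu₀, Set.Subset.antisymm (fun v hv => hC.ne_zero _ hv) fun v hv => ?_⟩
    refine hC.closed (u₀, v) ?_ hu₀ hv
    have hc : Continuous (fun u : T => (u, v)) := continuous_id.prodMk continuous_const
    refine map_mem_closure (f := fun u : T => (u, v)) hc hcl fun u hu => ?_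
    have h1 : v ∈ fib C u := by rw [hu.2]; exact hv
    exact h1
  have hsub : U ⊆ G := hC.isConnected.isPreconnected.subset_of_closure_inter_subset hopen
    ⟨y, hy, hy, h⟩ hclosed
  exact fun x hx => (hsub hx).2

end Pool.Agent.SEC
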