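import Pool.Agent.SEC.C1b
import Pool.Agent.SEC.C1c
import Pool.Agent.SEC.B4c

/-!
SEC-C1e (MP_d19687_ag, project SEC).
-/

open Filter Topology Pool.Agent.MP_d19687_ag Pool.Agent.RIG

namespace Pool.Agent.SEC

variable {T : Type*} [NormedAddCommGroup T] [NormedSpace ℂ T] [FiniteDimensional ℂ T]
  {U : Set T} {C : Set (T × T)}

/-- If one fibre is secant-full then all fibres are.

Proof. `G = {u ∈ U | SecSet (fib C u) = univ}` is open: `ter_of_secSet_eq_univ`, `ter_fib_open`,
`interior_of_ter`, `secSet_eq_univ_of_interior`; closed in `U`: `secSet_fib_closed`; `U` is connected. -/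
theorem secSet_univ_all (hC : IsConeStructure U C) {y : T} (hy : y ∈ U)
    (h : SecSet (fib C y) = Set.univ) : ∀ x ∈ U, SecSet (fib C x) = Set.univ := by
  have hopen : IsOpen {u : T | u ∈ U ∧ SecSet (fib C u) = Set.univ} := by
    rw [isOpen_iff_mem_nhds]
    rintro u₀ ⟨hu₀, h₀⟩
    have h1 := ter_fib_open hC hu₀ (ter_of_secSet_eq_univ (isSmoothCone_fib hC hu₀) h₀)
    filter_upwards [h1, hC.isOpen.mem_nhds hu₀] with u hu1 hu2
    have h2 := isSmoothCone_fib hC hu2
    exact ⟨hu2, secSet_eq_univ_of_interior h2 (interior_of_ter h2 hu1)⟩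
  have hclosed : closure {u : T | u ∈ U ∧ SecSet (fib C u) = Set.univ} ∩ U ⊆
      {u : T | u ∈ U ∧ SecSet (fib C u) = Set.univ} := by
    rintro u₀ ⟨hcl, hu₀⟩
    obtain ⟨u, hu, hut⟩ := mem_closure_iff_seq_limit.mp hcl
    refine ⟨hu₀, Set.eq_univ_of_forall fun w₀ => ?_⟩
    exact secSet_fib_closed hC hu₀ hut (fun _ => w₀) w₀ tendsto_const_nhds
      fun k => (hu k).2 ▸ Set.mem_univ w₀
  have hsub := hC.isConnected.isPreconnected.subset_of_closure_inter_subset hopen
    ⟨y, hy, hy, h⟩ hclosed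
  exact fun x hx => (hsub hx).2

end Pool.Agent.SEC
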