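import Pool.Agent.SEC.B1c

/-!
SEC-D1a (MP_d19687_ag, project SEC).
-/

open Filter Topology Pool.Agent.MP_d19687_ag Pool.Agent.RIG

namespace Pool.Agent.SEC

variable {V : Type*} [NormedAddCommGroup V] [NormedSpace ℂ V] [FiniteDimensional ℂ V]

/-- The derivative of `r ↦ exp (r A) z`. -/
private theorem hasDerivAt_flow (A : V →L[ℂ] V) (z : V) (r : ℝ) :
    HasDerivAt (fun r : ℝ => NormedSpace.exp ((r : ℂ) • A) z)
      (A (NormedSpace.exp ((r : ℂ) • A) z)) r := by
  have : CompleteSpace V := FiniteDimensional.complete ℂ V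
  have h1 : HasDerivAt (fun t : ℂ => NormedSpace.exp (t • A))
      (A * NormedSpace.exp ((r : ℂ) • A)) (r : ℂ) := hasDerivAt_exp_smul_const' (𝕂 := ℂ) A (r : ℂ)
  have h2 : HasDerivAt (fun t : ℂ => NormedSpace.exp (t • A) z)
      ((A * NormedSpace.exp ((r : ℂ) • A)) z) (r : ℂ) := by
    have := ((ContinuousLinearMap.apply ℂ V z).hasFDerivAt
      (x := NormedSpace.exp ((r : ℂ) • A))).comp_hasDerivAt (r : ℂ) h1
    exact this
  have h3 : HasDerivAt (fun r : ℝ => (r : ℂ)) 1 r := by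
    have h5 := Complex.ofRealCLM.hasDerivAt (x := r)
    rw [Complex.ofRealCLM_apply, Complex.ofReal_one] at h5
    exact h5
  have h4 := HasDerivAt.scomp r h2 h3
  rw [one_smul] at h4
  exact h4

/-- Real-time flow near a point.

Proof. Chart `φ` at `z`.  `L s` an analytic left inverse of `fderiv ℂ φ s` for `s` near `0`
(`Pool.Agent.RIG.exists_left_inverse`, RIG/G0).  `ξ s := L s (A (φ s))` is analytic, so `C¹`, near `0` and
`fderiv ℂ φ s (ξ s) = A (φ s)` there (`A (φ s)` is tangent at `φ s`, `chart_shift`, `isTangent_iff`).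
Picard–Lindelöf (real time; e.g. `ContDiffAt.exists_forall_mem_closedBall_exists_eq_forall_mem_Ioo_hasDerivAt`
or the variant in Mathlib.Analysis.ODE) gives `s : ℝ → (Fin d → ℂ)`, `s 0 = 0`, `s' = ξ (s)` on `(-ε, ε)`.
Then `x (r) = φ (s r)` satisfies `x' = A x`, so `exp (-r A) x (r)` has derivative zero and
`x (r) = exp (r A) z`, in `Z` for `r` small. -/
theorem exp_mem_local {Z : Set V} (hZ : IsSmoothCone Z) (A : V →L[ℂ] V)
    (hA : ∀ z ∈ Z, IsTangent Z z (A z)) {z : V} (hz : z ∈ Z) :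
    ∀ᶠ r : ℝ in 𝓝 0, NormedSpace.exp ((r : ℂ) • A) z ∈ Z := by
  have : CompleteSpace V := FiniteDimensional.complete ℂ V
  obtain ⟨d, φ, hφ⟩ := exists_chartZ hZ hz
  obtain ⟨L, hL, hLφ⟩ := exists_left_inverse (fun s => fderiv ℂ φ s) 0 hφ.an.fderiv hφ.inj
  set ξ : (Fin d → ℂ) → (Fin d → ℂ) := fun s => L s (A (φ s)) with hξ
  have hAφ : AnalyticAt ℂ (fun s => A (φ s)) 0 := (A.analyticAt _).comp hφ.an
  have hξan : AnalyticAt ℂ ξ 0 :=
    AnalyticAt.comp₂ (h := fun p : (V →L[ℂ] (Fin d → ℂ)) × V =>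
        (ContinuousLinearMap.apply ℂ (Fin d → ℂ)).flip p.1 p.2)
        ((ContinuousLinearMap.apply ℂ (Fin d → ℂ)).flip.analyticAt_bilinear (L 0, A (φ 0))) hL hAφ
  have hξC : ContDiffAt ℝ 1 ξ 0 := (hξan.contDiffAt (n := 1)).restrict_scalars ℝ
  have hkey : ∀ᶠ s in 𝓝 (0 : Fin d → ℂ), fderiv ℂ φ s (ξ s) = A (φ s) := by
    filter_upwards [chart_shift hφ, hφ.mem, hLφ] with s h1 h2 h3
    obtain ⟨a, ha⟩ := (isTangent_iff h1 _).1 (hA _ h2)
    have h5 : fderiv ℂ (fun s' => φ (s + s')) 0 = fderiv ℂ φ s := by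
      rw [fderiv_comp_add_left, add_zero]
    rw [h5] at ha
    show fderiv ℂ φ s (L s (A (φ s))) = A (φ s)
    rw [← ha, h3]
  obtain ⟨σ, hσ0, ε, hε, hσ⟩ :=
    ContDiffAt.exists_forall_mem_closedBall_exists_eq_forall_mem_Ioo_hasDerivAt₀ hξC 0
  have hIoo : ∀ᶠ r : ℝ in 𝓝 0, HasDerivAt σ (ξ (σ r)) r := by
    filter_upwards [Ioo_mem_nhds (show (0 : ℝ) - ε < 0 by linarith)
      (show (0 : ℝ) < 0 + ε by linarith)] with r hr
    exact hσ r hr
  have hσt : Tendsto σ (𝓝 0) (𝓝 0) := by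
    have := hIoo.self_of_nhds.continuousAt.tendsto
    rwa [hσ0] at this
  have hx : ∀ᶠ r : ℝ in 𝓝 0, HasDerivAt (fun r => φ (σ r)) (A (φ (σ r))) r := by
    filter_upwards [hIoo, hσt.eventually hkey, hσt.eventually hφ.an.eventually_analyticAt]
      with r h1 h2 h3
    have h4 : HasFDerivAt φ (fderiv ℂ φ (σ r)) (σ r) := h3.differentiableAt.hasFDerivAt
    have h5 := (h4.restrictScalars ℝ).comp_hasDerivAt r h1
    rw [← h2]
    exact h5
  have heq : (fun r => φ (σ r)) =ᶠ[𝓝 (0 : ℝ)] fun r => NormedSpace.exp ((r : ℂ) • A) z := by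
    refine ODE_solution_unique_of_eventually (v := fun _ x => A x) (K := ‖A‖₊)
      (s := fun _ => Set.univ) (Eventually.of_forall fun _ => A.lipschitz.lipschitzOnWith)
      (hx.mono fun r hr => ⟨hr, trivial⟩)
      (Eventually.of_forall fun r => ⟨hasDerivAt_flow A z r, trivial⟩) ?_
    simp [hσ0, hφ.map0]
  filter_upwards [heq, hσt.eventually hφ.mem] with r h1 h2
  rw [← h1]
  exact h2

/-- The flow of a linear vector field tangent to a smooth cone preserves it.

Proof. Replace `A` by `t • A` (`isTangent_smul`) and show `exp (r A) z ∈ Z` for all real `r`: the set of such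
`r` is open (`exp_mem_local` at `exp (r A) z`, `exp ((r + r') A) = exp (r' A) exp (r A)`), closed
(`hZ.isClosed`, `exp (r A) z ≠ 0`) and contains `0`. -/
theorem exp_mem {Z : Set V} (hZ : IsSmoothCone Z) (A : V →L[ℂ] V)
    (hA : ∀ z ∈ Z, IsTangent Z z (A z)) {z : V} (hz : z ∈ Z) (t : ℂ) :
    NormedSpace.exp (t • A) z ∈ Z := by
  have : CompleteSpace V := FiniteDimensional.complete ℂ V
  set B : V →L[ℂ] V := t • A with hB
  have hBt : ∀ z ∈ Z, IsTangent Z z (B z) := fun z hz => isTangent_smul (hA z hz) t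
  -- one parameter group
  have hadd : ∀ a b : ℂ, ∀ y : V, NormedSpace.exp ((a + b) • B) y =
      NormedSpace.exp (b • B) (NormedSpace.exp (a • B) y) := by
    intro a b y
    have hc : Commute (b • B) (a • B) := ((Commute.refl B).smul_left b).smul_right a
    let _ : NormedAlgebra ℚ (V →L[ℂ] V) := NormedAlgebra.restrictScalars ℚ ℂ (V →L[ℂ] V)
    rw [add_comm, add_smul, NormedSpace.exp_add_of_commute hc]
    rfl
  have hcont : Continuous fun r : ℝ => NormedSpace.exp ((r : ℂ) • B) z :=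
    continuous_iff_continuousAt.2 fun r => (hasDerivAt_flow B z r).continuousAt
  have hne : ∀ r : ℝ, NormedSpace.exp ((r : ℂ) • B) z ≠ 0 := by
    intro r h0
    have h1 := hadd (r : ℂ) (-(r : ℂ)) z
    rw [h0, map_zero, add_neg_cancel, zero_smul, NormedSpace.exp_zero] at h1
    exact hZ.ne_zero z hz h1
  set R : Set ℝ := {r : ℝ | NormedSpace.exp ((r : ℂ) • B) z ∈ Z} with hR
  have hopen : IsOpen R := by
    rw [isOpen_iff_mem_nhds]
    intro r hr
    have h1 := exp_mem_local hZ B hBt hr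
    have h2 : Tendsto (fun r' : ℝ => r' - r) (𝓝 r) (𝓝 0) := by
      have : ContinuousAt (fun r' : ℝ => r' - r) r := by fun_prop
      simpa [ContinuousAt] using this
    filter_upwards [h2.eventually h1] with r' hr'
    show NormedSpace.exp ((r' : ℂ) • B) z ∈ Z
    have h3 := hadd (r : ℂ) ((r' - r : ℝ) : ℂ) z
    have h4 : (r : ℂ) + ((r' - r : ℝ) : ℂ) = (r' : ℂ) := by push_cast; ring
    rw [h4] at h3
    rw [h3]
    exact hr'
  have hclosed : IsClosed R := by
    have h1 : R = (fun r : ℝ => NormedSpace.exp ((r : ℂ) • B) z) ⁻¹' (Z ∪ {0}) := by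
      ext r
      constructor
      · intro h; exact Or.inl h
      · rintro (h | h)
        · exact h
        · exact absurd h (hne r)
    rw [h1]
    exact hZ.isClosed.preimage hcont
  have hzero : (0 : ℝ) ∈ R := by
    show NormedSpace.exp (((0 : ℝ) : ℂ) • B) z ∈ Z
    simpa using hz
  have huniv : R = Set.univ := IsClopen.eq_univ ⟨hclosed, hopen⟩ ⟨0, hzero⟩
  have h1 : (1 : ℝ) ∈ R := by rw [huniv]; trivial
  have h2 : NormedSpace.exp (((1 : ℝ) : ℂ) • B) z ∈ Z := h1
  simpa using h2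

end Pool.Agent.SEC
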