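import Pool.Agent.SEC.B1b

/-!
SEC-D1b (MP_d19687_ag, project SEC).
-/

open Filter Topology Pool.Agent.MP_d19687_ag Pool.Agent.RIG

namespace Pool.Agent.SEC

variable {V : Type*} [NormedAddCommGroup V] [NormedSpace ℂ V] [FiniteDimensional ℂ V]

/-- Second order expansion of an analytic function with a critical point. -/
private theorem second_order {g : ℂ → ℂ} (hg : AnalyticAt ℂ g 0) (h0 : deriv g 0 = 0) :
    ∃ k : ℂ → ℂ, AnalyticAt ℂ k 0 ∧ (∀ t, g t - g 0 = t * (t * k t)) ∧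
      iteratedDeriv 2 g 0 = 2 * k 0 := by
  obtain ⟨p, hp⟩ := hg
  have hg1 : AnalyticAt ℂ (dslope g 0) 0 := ⟨_, hp.has_fpower_series_dslope_fslope⟩
  obtain ⟨p1, hp1⟩ := hg1
  have hk : AnalyticAt ℂ (dslope (dslope g 0) 0) 0 := ⟨_, hp1.has_fpower_series_dslope_fslope⟩
  have e1 : ∀ t, g t - g 0 = t * (t * dslope (dslope g 0) 0 t) := by
    intro t
    have a1 := sub_smul_dslope g 0 t
    have a2 := sub_smul_dslope (dslope g 0) 0 t
    rw [dslope_same, h0] at a2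
    simp only [sub_zero, smul_eq_mul] at a1 a2
    rw [a2, a1]
  refine ⟨dslope (dslope g 0) 0, hk, e1, ?_⟩
  have hge : g = fun t => g 0 + t * (t * dslope (dslope g 0) 0 t) := by
    funext t
    rw [← e1 t]
    ring
  have hd : ∀ᶠ t in 𝓝 (0 : ℂ), deriv g t =
      t * (2 * dslope (dslope g 0) 0 t + t * deriv (dslope (dslope g 0) 0) t) := by
    filter_upwards [hk.eventually_analyticAt] with t ht
    have b1 : HasDerivAt (dslope (dslope g 0) 0) (deriv (dslope (dslope g 0) 0) t) t :=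
      ht.differentiableAt.hasDerivAt
    have b2 : HasDerivAt (fun t => g 0 + t * (t * dslope (dslope g 0) 0 t))
        (1 * (t * dslope (dslope g 0) 0 t) + t * (1 * dslope (dslope g 0) 0 t +
          t * deriv (dslope (dslope g 0) 0) t)) t :=
      ((hasDerivAt_id' t).mul ((hasDerivAt_id' t).mul b1)).const_add (g 0)
    have b3 : HasDerivAt g (1 * (t * dslope (dslope g 0) 0 t) + t *
        (1 * dslope (dslope g 0) 0 t + t * deriv (dslope (dslope g 0) 0) t)) t := by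
      have hh : g = fun t => g 0 + t * (t * dslope (dslope g 0) 0 t) := hge
      exact b2.congr_of_eventuallyEq (Eventually.of_forall fun x => congrFun hh x)
    rw [b3.deriv]
    ring
  rw [iteratedDeriv_succ, iteratedDeriv_one]
  rw [Filter.EventuallyEq.deriv_eq hd]
  have hk' : AnalyticAt ℂ (deriv (dslope (dslope g 0) 0)) 0 := hk.deriv
  have c1 : HasDerivAt (fun t : ℂ => t * (2 * dslope (dslope g 0) 0 t +
      t * deriv (dslope (dslope g 0) 0) t)) (1 * (2 * dslope (dslope g 0) 0 0 +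
        0 * deriv (dslope (dslope g 0) 0) 0) + 0 * deriv (fun t : ℂ =>
          (2 * dslope (dslope g 0) 0 t + t * deriv (dslope (dslope g 0) 0) t)) 0) 0 := by
    have c2 : DifferentiableAt ℂ (fun t : ℂ =>
        (2 * dslope (dslope g 0) 0 t + t * deriv (dslope (dslope g 0) 0) t)) 0 :=
      (hk.differentiableAt.const_mul 2).add (differentiableAt_id.mul hk'.differentiableAt)
    exact (hasDerivAt_id' (0 : ℂ)).mul c2.hasDerivAt
  rw [c1.deriv]
  ring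

/-- From the quadratic bound along a curve to the bound for the second derivative. -/
private theorem bound_of_curve (m : V →L[ℂ] ℂ) (C : ℝ) {γ : ℂ → V}
    (hγ : AnalyticAt ℂ γ 0) (hm : m (deriv γ 0) = 0)
    (hb : ∀ᶠ t in 𝓝 (0 : ℂ), ‖m (γ t) - m (γ 0)‖ ≤ C * ‖γ t - γ 0‖ ^ 2) :
    ‖iteratedDeriv 2 (fun t => m (γ t)) 0‖ ≤ 2 * C * ‖deriv γ 0‖ ^ 2 := by
  have hg : AnalyticAt ℂ (fun t => m (γ t)) 0 :=
    AnalyticAt.comp (g := m) (f := γ) (m.analyticAt _) hγ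
  have hγd : HasDerivAt γ (deriv γ 0) 0 := hγ.differentiableAt.hasDerivAt
  have hgd : HasDerivAt (fun t => m (γ t)) (m (deriv γ 0)) 0 :=
    (m.hasFDerivAt (x := γ 0)).comp_hasDerivAt 0 hγd
  obtain ⟨k, hk, hk1, hk2⟩ := second_order hg (by rw [hgd.deriv, hm])
  rw [hk2, norm_mul]
  have hn : ‖(2 : ℂ)‖ = 2 := by simp
  rw [hn, mul_assoc]
  refine mul_le_mul_of_nonneg_left ?_ (by norm_num)
  have h1 : Tendsto (fun t => ‖k t‖) (𝓝[≠] (0 : ℂ)) (𝓝 ‖k 0‖) :=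
    (hk.continuousAt.norm).tendsto.mono_left nhdsWithin_le_nhds
  have h2 : Tendsto (fun t => C * ‖slope γ 0 t‖ ^ 2) (𝓝[≠] (0 : ℂ)) (𝓝 (C * ‖deriv γ 0‖ ^ 2)) :=
    (((hasDerivAt_iff_tendsto_slope.1 hγd).norm).pow 2).const_mul C
  refine le_of_tendsto_of_tendsto h1 h2 ?_
  have hne : ∀ᶠ t : ℂ in 𝓝[≠] 0, t ≠ 0 := self_mem_nhdsWithin
  filter_upwards [hb.filter_mono nhdsWithin_le_nhds, hne] with t ht ht0
  have e1 : m (γ t) - m (γ 0) = t * (t * k t) := hk1 t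
  rw [e1, norm_mul, norm_mul] at ht
  have htp : 0 < ‖t‖ := norm_pos_iff.2 ht0
  have e2 : ‖slope γ 0 t‖ = ‖t‖⁻¹ * ‖γ t - γ 0‖ := by
    rw [slope_def_module, norm_smul, norm_inv, sub_zero]
  rw [e2, mul_pow]
  have e3 : ‖k t‖ = ‖t‖⁻¹ * (‖t‖⁻¹ * (‖t‖ * (‖t‖ * ‖k t‖))) := by
    field_simp
  rw [e3]
  have e4 : C * (‖t‖⁻¹ ^ 2 * ‖γ t - γ 0‖ ^ 2) = ‖t‖⁻¹ * (‖t‖⁻¹ * (C * ‖γ t - γ 0‖ ^ 2)) := by
    ring
  rw [e4]
  have hi : 0 ≤ ‖t‖⁻¹ := inv_nonneg.2 htp.le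
  exact mul_le_mul_of_nonneg_left (mul_le_mul_of_nonneg_left ht hi) hi

/-- A quadratic bound for `m ∘ φ` near its critical points. -/
private theorem local_lip {d : ℕ} {f : (Fin d → ℂ) → ℂ} (hf : AnalyticAt ℂ f 0) :
    ∃ (K : ℝ) (r : ℝ), 0 ≤ K ∧ 0 < r ∧ ∀ s ∈ Metric.ball (0 : Fin d → ℂ) r,
      ∀ s' ∈ Metric.ball (0 : Fin d → ℂ) r, fderiv ℂ f s = 0 →
        ‖f s' - f s‖ ≤ K * ‖s' - s‖ ^ 2 := by
  have h1 : HasStrictFDerivAt (fderiv ℂ f) (fderiv ℂ (fderiv ℂ f) 0) 0 :=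
    hf.fderiv.hasStrictFDerivAt
  obtain ⟨K, T, hT, hK⟩ := h1.exists_lipschitzOnWith
  obtain ⟨r, hr, hball⟩ := Metric.mem_nhds_iff.1
    (inter_mem hT hf.eventually_analyticAt)
  refine ⟨K, r, K.2, hr, ?_⟩
  intro s hs s' hs' h0
  have hsub : segment ℝ s s' ⊆ Metric.ball (0 : Fin d → ℂ) r :=
    (convex_ball (0 : Fin d → ℂ) r).segment_subset hs hs'
  have hbd : ∀ x ∈ segment ℝ s s', ‖fderiv ℂ f x‖ ≤ K * ‖s' - s‖ := by
    intro x hx
    have a1 := hK.dist_le_mul x (hball (hsub hx)).1 s (hball hs).1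
    rw [dist_eq_norm, dist_eq_norm, h0, sub_zero] at a1
    refine a1.trans (mul_le_mul_of_nonneg_left ?_ K.2)
    obtain ⟨a, b, ha, hb, hab, rfl⟩ := hx
    have a2 : a • s + b • s' - s = b • (s' - s) := by
      have : a = 1 - b := by linarith
      rw [this]
      module
    rw [a2, norm_smul, Real.norm_eq_abs, abs_of_nonneg hb]
    have : b ≤ 1 := by linarith
    nlinarith [norm_nonneg (s' - s)]
  have := Convex.norm_image_sub_le_of_norm_fderiv_le (𝕜 := ℂ) (f := f) (C := K * ‖s' - s‖)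
    (s := segment ℝ s s') (x := s) (y := s')
    (fun x hx => ((hball (hsub hx)).2).differentiableAt) hbd (convex_segment s s')
    (left_mem_segment ℝ s s') (right_mem_segment ℝ s s')
  refine this.trans (le_of_eq ?_)
  ring

/-- Uniform second order bound for a linear form at its critical points on the unit sphere of `Z`.

Proof. By compactness of `{z ∈ Z | ‖z‖ = 1}` it is enough to show that each `v ∈ Z` has a neighbourhood on
which such a bound holds.  Chart `φ` at `v`; `c, S` from `chart_bound`, `S` a ball on which `φ` is analytic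
and `‖D²(m ∘ φ)‖ ≤ K₁`.  Let `β = φ s`, `s ∈ S`, be critical: `D(m ∘ φ)_s = 0` (`chart_shift`,
`isTangent_iff`).  For `s' ∈ S`, `|m (φ s') - m (φ s)| ≤ K₁ ‖s' - s‖² ≤ K₁ c⁻² ‖φ s' - φ s‖²`
(Taylor or mean value inequality twice).  Every point of `Z` near `β` is `φ s'` with `s' ∈ S`.  So for a
curve `γ` at `β`: `|m (γ t) - m β| ≤ K₁ c⁻² ‖γ t - β‖²`; `(m ∘ γ)' 0 = m (γ' 0) = 0`, and dividing by
`|t|²` and letting `t → 0`: `|(m ∘ γ)'' 0| / 2 ≤ K₁ c⁻² ‖γ' 0‖²`. -/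
theorem quad_bound {Z : Set V} (hZ : IsSmoothCone Z) (m : V →L[ℂ] ℂ) :
    ∃ K : ℝ, ∀ β ∈ Z, ‖β‖ = 1 → (∀ w, IsTangent Z β w → m w = 0) →
      ∀ γ : ℂ → V, AnalyticAt ℂ γ 0 → γ 0 = β → (∀ᶠ t in 𝓝 (0 : ℂ), γ t ∈ Z) →
        ‖iteratedDeriv 2 (fun t => m (γ t)) 0‖ ≤ K * ‖deriv γ 0‖ ^ 2 := by
  have : CompleteSpace V := FiniteDimensional.complete ℂ V
  have : ProperSpace V := FiniteDimensional.proper ℂ V
  -- the compact set
  have hcomp : IsCompact ((Z ∪ {0}) ∩ Metric.sphere (0 : V) 1) :=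
    (isCompact_sphere (0 : V) 1).inter_left hZ.isClosed
  -- local statement
  have hloc : ∀ v ∈ Z, ∃ O ∈ 𝓝[Z] v, ∃ K : ℝ, 0 ≤ K ∧ ∀ β ∈ O, (∀ w, IsTangent Z β w → m w = 0) →
      ∀ γ : ℂ → V, AnalyticAt ℂ γ 0 → γ 0 = β → (∀ᶠ t in 𝓝 (0 : ℂ), γ t ∈ Z) →
        ‖iteratedDeriv 2 (fun t => m (γ t)) 0‖ ≤ K * ‖deriv γ 0‖ ^ 2 := by
    intro v hv
    obtain ⟨d, φ, h⟩ := exists_chartZ hZ hv
    obtain ⟨c, hc, S, hS, hcS⟩ := chart_bound h
    have hf : AnalyticAt ℂ (fun s => m (φ s)) 0 :=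
      AnalyticAt.comp (g := m) (f := φ) (m.analyticAt _) h.an
    obtain ⟨K, r, hK, hr, hKr⟩ := local_lip hf
    obtain ⟨r', hr', hball⟩ := Metric.mem_nhds_iff.1
      (inter_mem (inter_mem hS (Metric.ball_mem_nhds (0 : Fin d → ℂ) hr))
        (inter_mem h.an.eventually_analyticAt (chart_shift h)))
    refine ⟨φ '' Metric.ball (0 : Fin d → ℂ) r', h.onto _ (Metric.ball_mem_nhds _ hr'),
      2 * (K * (c⁻¹) ^ 2), by positivity, ?_⟩
    rintro β ⟨s, hs, rfl⟩ hcrit γ hγ hγ0 hγZ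
    obtain ⟨⟨hsS, hsr⟩, hsan, hch⟩ := hball hs
    have hsh : IsChartZ Z (φ s) d (fun s' => φ (s + s')) := hch
    -- criticality
    have hd0 : fderiv ℂ (fun s => m (φ s)) s = 0 := by
      have hφ : HasFDerivAt φ (fderiv ℂ φ s) s := AnalyticAt.differentiableAt hsan |>.hasFDerivAt
      have hcmp : HasFDerivAt (fun s => m (φ s)) (m.comp (fderiv ℂ φ s)) s :=
        m.hasFDerivAt.comp s hφ
      rw [hcmp.fderiv]
      ext1 a
      have hsft : fderiv ℂ (fun s' => φ (s + s')) 0 a = fderiv ℂ φ s a := by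
        rw [fderiv_comp_add_left]
        simp
      have := hcrit (fderiv ℂ φ s a) ((isTangent_iff hsh _).2 ⟨a, hsft⟩)
      simpa using this
    -- the tangent of the curve
    have hmt : m (deriv γ 0) = 0 := hcrit _ ⟨γ, hγ, hγ0, rfl, hγZ⟩
    refine bound_of_curve m (K * (c⁻¹) ^ 2) hγ hmt ?_
    -- nearby points
    have hnb : {s' : Fin d → ℂ | s + s' ∈ Metric.ball (0 : Fin d → ℂ) r'} ∈ 𝓝 (0 : Fin d → ℂ) := by
      have hct : ContinuousAt (fun s' : Fin d → ℂ => s + s') 0 := by fun_prop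
      apply hct.preimage_mem_nhds
      rw [add_zero]
      exact Metric.isOpen_ball.mem_nhds hs
    have hon := hsh.onto _ hnb
    have hγt : Tendsto γ (𝓝 0) (𝓝[Z] (φ s)) := by
      rw [tendsto_nhdsWithin_iff]
      refine ⟨?_, hγZ⟩
      have := hγ.continuousAt.tendsto
      rwa [hγ0] at this
    filter_upwards [hγt.eventually hon] with t ht
    obtain ⟨s', hs', hts⟩ := ht
    have hs' : s + s' ∈ Metric.ball (0 : Fin d → ℂ) r' := hs'
    have hts : φ (s + s') = γ t := hts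
    rw [← hts, hγ0]
    have h1 := hKr s hsr (s + s') (hball hs').1.2 hd0
    have h2 := hcS (s + s') (hball hs').1.1 s hsS
    have h3 : ‖s + s' - s‖ ≤ c⁻¹ * ‖φ (s + s') - φ s‖ := by
      rw [inv_mul_eq_div, le_div_iff₀ hc, mul_comm]
      exact h2
    calc ‖m (φ (s + s')) - m (φ s)‖ ≤ K * ‖s + s' - s‖ ^ 2 := h1
      _ ≤ K * (c⁻¹ * ‖φ (s + s') - φ s‖) ^ 2 := by
          refine mul_le_mul_of_nonneg_left ?_ hK
          exact pow_le_pow_left₀ (norm_nonneg _) h3 2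
      _ = K * c⁻¹ ^ 2 * ‖φ (s + s') - φ s‖ ^ 2 := by ring
  -- compactness
  obtain ⟨K, hK0, hK⟩ := hcomp.induction_on
    (p := fun s => ∃ K : ℝ, 0 ≤ K ∧ ∀ β ∈ s, β ∈ Z → (∀ w, IsTangent Z β w → m w = 0) →
      ∀ γ : ℂ → V, AnalyticAt ℂ γ 0 → γ 0 = β → (∀ᶠ t in 𝓝 (0 : ℂ), γ t ∈ Z) →
        ‖iteratedDeriv 2 (fun t => m (γ t)) 0‖ ≤ K * ‖deriv γ 0‖ ^ 2)
    ⟨0, le_rfl, fun β hβ => absurd hβ (Set.notMem_empty β)⟩
    (by
      rintro s t hst ⟨K, hK0, hK⟩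
      exact ⟨K, hK0, fun β hβ => hK β (hst hβ)⟩)
    (by
      rintro s t ⟨K, hK0, hK⟩ ⟨K', hK0', hK'⟩
      refine ⟨K + K', add_nonneg hK0 hK0', ?_⟩
      rintro β (hβ | hβ) hZβ h1 γ h2 h3 h4
      · refine (hK β hβ hZβ h1 γ h2 h3 h4).trans ?_
        exact mul_le_mul_of_nonneg_right (by linarith) (by positivity)
      · refine (hK' β hβ hZβ h1 γ h2 h3 h4).trans ?_
        exact mul_le_mul_of_nonneg_right (by linarith) (by positivity))
    (by
      rintro v ⟨hv, hv1⟩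
      have hvZ : v ∈ Z := by
        rcases hv with hv | hv
        · exact hv
        · exfalso
          rw [Set.mem_singleton_iff] at hv
          rw [hv] at hv1
          simp at hv1
      obtain ⟨O, hO, K, hK0, hK⟩ := hloc v hvZ
      obtain ⟨U, hU, hUO⟩ := mem_nhdsWithin_iff_exists_mem_nhds_inter.1 hO
      refine ⟨U, mem_nhdsWithin_of_mem_nhds hU, K, hK0, ?_⟩
      intro β hβ hβZ
      exact hK β (hUO ⟨hβ, hβZ⟩))
  refine ⟨K, fun β hβ hβ1 => ?_⟩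
  exact hK β ⟨Or.inl hβ, by simpa using hβ1⟩ hβ

end Pool.Agent.SEC
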