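import Pool.Agent.SEC.D1a
import Pool.Agent.SEC.D1b

/-!
SEC-D1c (MP_d19687_ag, project SEC).
-/

open Filter Topology Pool.Agent.MP_d19687_ag Pool.Agent.RIG

namespace Pool.Agent.SEC

variable {V : Type*} [NormedAddCommGroup V] [NormedSpace ℂ V] [FiniteDimensional ℂ V]

section aux

variable (A : V →L[ℂ] V)

private theorem d1c_complete : CompleteSpace V := FiniteDimensional.complete ℂ V

private noncomputable def ex (t : ℂ) : V →L[ℂ] V := NormedSpace.exp (t • A)

omit [FiniteDimensional ℂ V] in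
private theorem ex_def (t : ℂ) : ex A t = NormedSpace.exp (t • A) := rfl

private theorem ex_zero : ex A 0 = 1 := by
  have := d1c_complete (V := V)
  rw [ex_def, zero_smul, NormedSpace.exp_zero]

private theorem ex_hasDeriv (t : ℂ) : HasDerivAt (ex A) (A * ex A t) t := by
  have := d1c_complete (V := V)
  exact hasDerivAt_exp_smul_const' (𝕂 := ℂ) A t

private theorem ex_hasDeriv_apply (v : V) (t : ℂ) :
    HasDerivAt (fun t => ex A t v) (A (ex A t v)) t := by
  have h := (ex_hasDeriv A t).clm_apply (hasDerivAt_const t v)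
  simpa using h

private theorem ex_neg (t : ℂ) (v : V) : ex A t (ex A (-t) v) = v := by
  have := d1c_complete (V := V)
  have h : ex A t * ex A (-t) = 1 := by
    rw [ex_def, ex_def, ← NormedSpace.exp_add_of_commute_of_mem_ball (𝕂 := ℂ)]
    · rw [neg_smul, add_neg_cancel, NormedSpace.exp_zero]
    · rw [neg_smul]
      exact (Commute.refl _).neg_right
    · rw [NormedSpace.expSeries_radius_eq_top]
      exact edist_lt_top _ _
    · rw [NormedSpace.expSeries_radius_eq_top]
      exact edist_lt_top _ _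
  calc ex A t (ex A (-t) v) = (ex A t * ex A (-t)) v := rfl
    _ = v := by rw [h]; rfl

private theorem ex_neg' (t : ℂ) (v : V) : ex A (-t) (ex A t v) = v := by
  have h := ex_neg A (-t) v
  rwa [neg_neg] at h

/-- Linear forms vanishing on the image of `A` are invariant under the flow. -/
private theorem inv_form (m : V →L[ℂ] ℂ) (hm : ∀ v, m (A v) = 0) (t : ℂ) (v : V) :
    m (ex A t v) = m v := by
  have h : ∀ t, HasDerivAt (fun t => m (ex A t v)) 0 t := by
    intro t
    have := m.hasFDerivAt.comp_hasDerivAt t (ex_hasDeriv_apply A v t)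
    rw [hm] at this
    exact this
  have hc := is_const_of_deriv_eq_zero (f := fun t => m (ex A t v))
    (fun t => (h t).differentiableAt) (fun t => (h t).deriv) t 0
  have hc' : m (ex A t v) = m (ex A 0 v) := hc
  rw [hc', ex_zero]
  rfl

end aux

/-- The second derivative along lines. -/
private theorem second_eq {d : ℕ} {h : (Fin d → ℂ) → ℂ} (hh : AnalyticAt ℂ h 0) (b : Fin d → ℂ) :
    iteratedDeriv 2 (fun t : ℂ => h (t • b)) 0 = fderiv ℂ (fderiv ℂ h) 0 b b := by
  have e1 : ∀ᶠ s in 𝓝 (0 : Fin d → ℂ), AnalyticAt ℂ h s := hh.eventually_analyticAt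
  have ht : Tendsto (fun t : ℂ => t • b) (𝓝 0) (𝓝 0) := by
    have : Continuous (fun t : ℂ => t • b) := by fun_prop
    simpa using this.tendsto 0
  have e2 : ∀ᶠ t in 𝓝 (0 : ℂ), deriv (fun t : ℂ => h (t • b)) t = fderiv ℂ h (t • b) b := by
    filter_upwards [ht.eventually e1] with t h1
    have hl : HasDerivAt (fun t : ℂ => t • b) b t := by
      simpa using (hasDerivAt_id t).smul_const b
    exact (h1.differentiableAt.hasFDerivAt.comp_hasDerivAt t hl).deriv
  rw [iteratedDeriv_succ, iteratedDeriv_one]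
  have e3 : deriv (fun t : ℂ => h (t • b)) =ᶠ[𝓝 0] fun t => fderiv ℂ h (t • b) b := e2
  rw [e3.deriv_eq]
  have hf : HasFDerivAt (fderiv ℂ h) (fderiv ℂ (fderiv ℂ h) 0) ((0 : ℂ) • b) := by
    rw [zero_smul]
    exact hh.fderiv.differentiableAt.hasFDerivAt
  have hl : HasDerivAt (fun t : ℂ => t • b) b 0 := by
    simpa using (hasDerivAt_id (0 : ℂ)).smul_const b
  have h2 := hf.comp_hasDerivAt (0 : ℂ) hl
  have h3 := h2.clm_apply (hasDerivAt_const (0 : ℂ) b)
  simpa using h3.deriv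

/-- Transport of tangent vectors by linear maps preserving `Z`. -/
private theorem isTangent_map {Z : Set V} (g : V →L[ℂ] V) (hg : ∀ z ∈ Z, g z ∈ Z) {z w : V}
    (h : IsTangent Z z w) : IsTangent Z (g z) (g w) := by
  obtain ⟨γ, h1, h2, h3, h4⟩ := h
  refine ⟨fun t => g (γ t), (g.analyticAt _).comp h1, by simp only [h2], ?_, ?_⟩
  · have := g.hasFDerivAt.comp_hasDerivAt (0 : ℂ) h1.differentiableAt.hasDerivAt
    rw [h3] at this
    exact this.deriv
  · filter_upwards [h4] with t ht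
    exact hg _ ht

/-- The main step (Liouville).

Proof. `g_t := exp (t A)`; `g_t Z ⊆ Z` for all `t` (`exp_mem`).  `m (A v) = 0` for all `v` (`A v` is
tangent at `α`), so `m (g_t v) = m v`.
(1) If `w` is tangent to `Z` at `β := ‖g_t α‖⁻¹ g_t α` then `g_{-t} w` is tangent at `g_{-t} β`, a multiple
of `α`, so at `α` (`isTangent_smul_point`; transport of curves by `g_{-t}`), so
`m w = m (g_{-t} w) = 0`.
(2) Put `q b := iteratedDeriv 2 (fun ε => m (φ (ε • b))) 0` (a quadratic form in `b`: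
`q b = D²(m ∘ φ)_0 (b, b)`).  The curve `ε ↦ ‖g_t α‖⁻¹ g_t (φ (ε • b))` lies in `Z`, starts at `β`, has velocity
`‖g_t α‖⁻¹ g_t (dφ_0 b)`, and `m` of it is `‖g_t α‖⁻¹ m (φ (ε • b))`.  So `quad_bound` gives
`‖g_t α‖ |q b| ≤ K ‖g_t (dφ_0 b)‖²` for all `t`, `b`.
(3) Let `J : V →L (Fin d → ℂ)` be a left inverse of `dφ_0`, `w := dφ_0 a`, `b_t := J (g_{-t} w)`.  As
`A` has values in the tangent space `range dφ_0 ∋ w`, `g_{-t} w ∈ range dφ_0` (closed subspace), so
`dφ_0 b_t = g_{-t} w` and (2) gives `‖g_t α‖ |q (b_t)| ≤ K ‖w‖²`.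
(4) `F t := q (b_t) • g_t α` is entire (`q` is a continuous quadratic form) and bounded, so constant
(`Differentiable.apply_eq_apply_of_bounded`): `q (b_t) • g_t α = q a • α` for all `t` (`b_0 = a`).
(5) Differentiate at `t = 0`: `(q (b_t))'(0) • α + q a • A α = 0`, and `q a ≠ 0`. -/
theorem liouville_step {Z : Set V} (hZ : IsSmoothCone Z) {α : V} (hα : α ∈ Z) (A : V →L[ℂ] V)
    (hA : ∀ z ∈ Z, IsTangent Z z (A z)) (hAα : ∀ v, IsTangent Z α (A v)) (m : V →L[ℂ] ℂ)
    (hm : ∀ w, IsTangent Z α w → m w = 0) {d : ℕ} {φ : (Fin d → ℂ) → V} (hφ : IsChartZ Z α d φ)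
    (a : Fin d → ℂ) (ha : iteratedDeriv 2 (fun t : ℂ => m (φ (t • a))) 0 ≠ 0) :
    ∃ c : ℂ, A α = c • α := by
  have hcs := d1c_complete (V := V)
  -- the image of `A` is killed by forms vanishing on the tangent space
  have hmA : ∀ v, m (A v) = 0 := fun v => hm _ (hAα v)
  have hgZ : ∀ t, ∀ z ∈ Z, ex A t z ∈ Z := fun t z hz => exp_mem hZ A hA hz t
  obtain ⟨K, hK⟩ := quad_bound hZ m
  set L := fderiv ℂ φ 0 with hL
  have hh : AnalyticAt ℂ (fun s => m (φ s)) 0 := (m.analyticAt _).comp hφ.an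
  set Q := fderiv ℂ (fderiv ℂ (fun s => m (φ s))) 0 with hQ
  have hq : ∀ b, iteratedDeriv 2 (fun t : ℂ => m (φ (t • b))) 0 = Q b b := fun b =>
    second_eq hh b
  have hα0 : α ≠ 0 := hZ.ne_zero α hα
  have hgα : ∀ t, ex A t α ≠ 0 := fun t => hZ.ne_zero _ (hgZ t α hα)
  -- (2)
  have key : ∀ (t : ℂ) (b : Fin d → ℂ), ‖ex A t α‖ * ‖Q b b‖ ≤ K * ‖ex A t (L b)‖ ^ 2 := by
    intro t b
    set c : ℂ := ((‖ex A t α‖⁻¹ : ℝ) : ℂ) with hc
    have hn : 0 < ‖ex A t α‖ := norm_pos_iff.2 (hgα t)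
    have hcn : ‖c‖ = ‖ex A t α‖⁻¹ := by
      rw [hc, Complex.norm_real, Real.norm_of_nonneg (inv_nonneg.2 hn.le)]
    have hc0 : c ≠ 0 := by
      rw [← norm_pos_iff, hcn]
      exact inv_pos.2 hn
    have hβ : c • ex A t α ∈ Z := hZ.smul_mem _ (hgZ t α hα) c hc0
    have hβ1 : ‖c • ex A t α‖ = 1 := by
      rw [norm_smul, hcn, inv_mul_cancel₀ hn.ne']
    have hcrit : ∀ w, IsTangent Z (c • ex A t α) w → m w = 0 := by
      intro w hw
      have h1 := isTangent_map (ex A (-t)) (hgZ (-t)) hw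
      rw [map_smul, ex_neg'] at h1
      have h2 := isTangent_smul_point hZ h1 (inv_ne_zero hc0)
      rw [inv_smul_smul₀ hc0] at h2
      have h3 := hm _ h2
      rwa [inv_form A m hmA] at h3
    have hl : HasDerivAt (fun t : ℂ => t • b) b 0 := by
      simpa using (hasDerivAt_id (0 : ℂ)).smul_const b
    have hlt : Tendsto (fun t : ℂ => t • b) (𝓝 0) (𝓝 0) := by
      have : Continuous (fun t : ℂ => t • b) := by fun_prop
      simpa using this.tendsto 0
    have hφa : AnalyticAt ℂ (fun s : ℂ => φ (s • b)) 0 := by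
      have h1 : AnalyticAt ℂ φ ((fun s : ℂ => s • b) 0) := by
        simpa using hφ.an
      have h2 : AnalyticAt ℂ (fun s : ℂ => s • b) 0 := by fun_prop
      exact AnalyticAt.fun_comp h1 h2
    have hφd : HasDerivAt (fun s : ℂ => φ (s • b)) (L b) 0 := by
      have h1 : HasFDerivAt φ L ((0 : ℂ) • b) := by
        rw [zero_smul]
        exact hφ.an.differentiableAt.hasFDerivAt
      exact h1.comp_hasDerivAt (0 : ℂ) hl
    have hγd : HasDerivAt (fun s : ℂ => c • ex A t (φ (s • b))) (c • ex A t (L b)) 0 :=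
      ((ex A t).hasFDerivAt.comp_hasDerivAt (0 : ℂ) hφd).const_smul c
    have hb := hK (c • ex A t α) hβ hβ1 hcrit (fun s : ℂ => c • ex A t (φ (s • b)))
      (analyticAt_const.smul (((ex A t).analyticAt _).comp hφa))
      (by simp only [zero_smul, hφ.map0])
      (by
        filter_upwards [hlt.eventually hφ.mem] with s hs
        exact hZ.smul_mem _ (hgZ t _ hs) c hc0)
    have hfun : (fun s : ℂ => m (c • ex A t (φ (s • b)))) = fun s => c * m (φ (s • b)) := by
      funext s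
      rw [map_smul, inv_form A m hmA, smul_eq_mul]
    have hit : iteratedDeriv 2 (fun s : ℂ => m (c • ex A t (φ (s • b)))) 0 = c * Q b b := by
      rw [hfun, ← hq b, iteratedDeriv_succ, iteratedDeriv_one, iteratedDeriv_succ, iteratedDeriv_one]
      have e : deriv (fun s : ℂ => c * m (φ (s • b))) =
          fun s => c * deriv (fun s : ℂ => m (φ (s • b))) s := by
        funext s
        exact deriv_const_mul_field c
      rw [e, deriv_const_mul_field]
    rw [hit, hγd.deriv, norm_mul, norm_smul, hcn] at hb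
    have h5 : ‖ex A t α‖ * ‖Q b b‖ = ‖ex A t α‖ ^ 2 * (‖ex A t α‖⁻¹ * ‖Q b b‖) := by
      field_simp
    rw [h5]
    calc ‖ex A t α‖ ^ 2 * (‖ex A t α‖⁻¹ * ‖Q b b‖)
        ≤ ‖ex A t α‖ ^ 2 * (K * (‖ex A t α‖⁻¹ * ‖ex A t (L b)‖) ^ 2) :=
          mul_le_mul_of_nonneg_left hb (by positivity)
      _ = K * ‖ex A t (L b)‖ ^ 2 := by field_simp
  -- (3) the left inverse
  obtain ⟨J₀, hJ₀⟩ := LinearMap.exists_leftInverse_of_injective (L : (Fin d → ℂ) →ₗ[ℂ] V)
    (LinearMap.ker_eq_bot.2 hφ.inj)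
  set J : V →L[ℂ] (Fin d → ℂ) := LinearMap.toContinuousLinearMap J₀ with hJ
  have hJL : ∀ b, J (L b) = b := fun b => LinearMap.congr_fun hJ₀ b
  have hrange : ∀ t, ∃ b, L b = ex A t (L a) := by
    intro t
    by_contra hno
    have hnot : ex A t (L a) ∉ LinearMap.range (L : (Fin d → ℂ) →ₗ[ℂ] V) := by
      rintro ⟨b, hb⟩
      exact hno ⟨b, hb⟩
    obtain ⟨f, hf1, hf2⟩ := Submodule.exists_le_ker_of_notMem hnot
    set m' : V →L[ℂ] ℂ := LinearMap.toContinuousLinearMap f with hm'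
    have hm'A : ∀ v, m' (A v) = 0 := by
      intro v
      obtain ⟨b, hb⟩ := (isTangent_iff hφ (A v)).1 (hAα v)
      rw [← hb]
      exact hf2 ⟨b, rfl⟩
    have h1 := inv_form A m' hm'A t (L a)
    have h2 : m' (L a) = 0 := hf2 ⟨a, rfl⟩
    rw [h2] at h1
    exact hf1 h1
  have hLJ : ∀ t, L (J (ex A t (L a))) = ex A t (L a) := by
    intro t
    obtain ⟨b, hb⟩ := hrange t
    rw [← hb, hJL]
  -- (4)
  set f : ℂ → ℂ := fun t => Q (J (ex A (-t) (L a))) (J (ex A (-t) (L a))) with hf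
  have hexd : ∀ v t, DifferentiableAt ℂ (fun t => ex A t v) t := fun v t =>
    (ex_hasDeriv_apply A v t).differentiableAt
  have hbd : Differentiable ℂ (fun t : ℂ => J (ex A (-t) (L a))) := by
    intro t
    have h1 : DifferentiableAt ℂ (fun t : ℂ => ex A (-t) (L a)) t := by
      have := (ex_hasDeriv_apply A (L a) (-t)).scomp t (hasDerivAt_neg t)
      exact this.differentiableAt
    exact J.differentiableAt.comp t h1
  have hfd : Differentiable ℂ f := by
    intro t
    exact (Q.differentiableAt.comp t (hbd t)).clm_apply (hbd t)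
  have hFd : Differentiable ℂ (fun t => f t • ex A t α) := fun t =>
    (hfd t).smul (hexd α t)
  have hbdd : Bornology.IsBounded (Set.range fun t => f t • ex A t α) := by
    refine isBounded_iff_forall_norm_le.2 ⟨K * ‖L a‖ ^ 2, ?_⟩
    rintro _ ⟨t, rfl⟩
    have h1 := key t (J (ex A (-t) (L a)))
    rw [hLJ, ex_neg] at h1
    simp only [norm_smul]
    rw [mul_comm]
    exact h1
  have hconst := hFd.apply_eq_apply_of_bounded hbdd
  -- (5)
  have hf0 : f 0 ≠ 0 := by
    have : f 0 = Q a a := by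
      simp only [hf, neg_zero, ex_zero]
      have h1 : (1 : V →L[ℂ] V) (L a) = L a := rfl
      rw [h1, hJL]
    rw [this, ← hq a]
    exact ha
  have hd1 : HasDerivAt (fun t => f t • ex A t α) (f 0 • A (ex A 0 α) + deriv f 0 • ex A 0 α) 0 :=
    (hfd 0).hasDerivAt.smul (ex_hasDeriv_apply A α 0)
  have hd2 : HasDerivAt (fun t => f t • ex A t α) 0 0 := by
    have : (fun t => f t • ex A t α) = fun _ => f 0 • ex A 0 α := by
      funext t
      exact hconst t 0
    rw [this]
    exact hasDerivAt_const _ _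
  have h6 := hd1.unique hd2
  rw [ex_zero] at h6
  have h7 : f 0 • A α + deriv f 0 • α = 0 := h6
  refine ⟨-(f 0)⁻¹ * deriv f 0, ?_⟩
  have h8 : f 0 • A α = -(deriv f 0 • α) := eq_neg_of_add_eq_zero_left h7
  calc A α = (f 0)⁻¹ • (f 0 • A α) := by rw [inv_smul_smul₀ hf0]
    _ = (-(f 0)⁻¹ * deriv f 0) • α := by
      rw [h8, smul_neg, smul_smul, neg_mul, neg_smul]

end Pool.Agent.SEC
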