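import Pool.Agent.SEC.Defs

/-!
SEC-D2a (MP_d19687_ag, project SEC).
-/

open Filter Topology Pool.Agent.MP_d19687_ag Pool.Agent.RIG

namespace Pool.Agent.SEC

variable {V : Type*} [NormedAddCommGroup V] [NormedSpace ℂ V] [FiniteDimensional ℂ V]

private theorem mem_of_dual (W : Submodule ℂ V) (w : V)
    (h : ∀ m : V →L[ℂ] ℂ, (∀ x ∈ W, m x = 0) → m w = 0) : w ∈ W := by
  by_contra hw
  obtain ⟨f, hf1, hf2⟩ := Submodule.exists_le_ker_of_notMem hw
  exact hf1 (h (LinearMap.toContinuousLinearMap f) fun x hx => hf2 hx)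

private theorem iter_two {d : ℕ} {φ : (Fin d → ℂ) → V} {s : Fin d → ℂ} (hφ : AnalyticAt ℂ φ s)
    (m : V →L[ℂ] ℂ) (a : Fin d → ℂ) :
    iteratedDeriv 2 (fun t : ℂ => m (φ (s + t • a))) 0 = m (fderiv ℂ (fderiv ℂ φ) s a a) := by
  have : CompleteSpace V := FiniteDimensional.complete ℂ V
  have hcur : ∀ t : ℂ, HasDerivAt (fun t : ℂ => s + t • a) a t := fun t => by
    simpa using ((hasDerivAt_id t).smul_const a).const_add s
  have h0 : s + (0 : ℂ) • a = s := by simp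
  have ht : Tendsto (fun t : ℂ => s + t • a) (𝓝 0) (𝓝 s) := by
    have h1 := (hcur 0).continuousAt.tendsto
    rwa [h0] at h1
  have h1 : (deriv fun t : ℂ => m (φ (s + t • a))) =ᶠ[𝓝 0]
      fun t : ℂ => m (fderiv ℂ φ (s + t • a) a) := by
    filter_upwards [ht.eventually hφ.eventually_analyticAt] with t hta
    have h2 : HasDerivAt (fun t : ℂ => φ (s + t • a)) (fderiv ℂ φ (s + t • a) a) t :=
      hta.differentiableAt.hasFDerivAt.comp_hasDerivAt t (hcur t)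
    exact ((m.hasFDerivAt (x := φ (s + t • a))).comp_hasDerivAt t h2).deriv
  rw [iteratedDeriv_succ, iteratedDeriv_one, h1.deriv_eq]
  have h3 : HasFDerivAt (fderiv ℂ φ) (fderiv ℂ (fderiv ℂ φ) s) (s + (0 : ℂ) • a) := by
    rw [h0]
    exact hφ.fderiv.differentiableAt.hasFDerivAt
  have h4 : HasDerivAt (fun t : ℂ => fderiv ℂ φ (s + t • a)) (fderiv ℂ (fderiv ℂ φ) s a) 0 :=
    h3.comp_hasDerivAt (0 : ℂ) (hcur 0)
  have h5 : HasDerivAt (fun t : ℂ => fderiv ℂ φ (s + t • a) a)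
      (fderiv ℂ (fderiv ℂ φ) s a a) 0 := by
    have h6 := h4.clm_apply (hasDerivAt_const (0 : ℂ) a)
    rwa [map_zero, add_zero] at h6
  exact ((m.hasFDerivAt (x := fderiv ℂ φ (s + (0 : ℂ) • a) a)).comp_hasDerivAt (0 : ℂ) h5).deriv

/-- If the second fundamental form of an immersion `φ` vanishes identically then `φ` is contained in a
linear space.

Proof. By `h` and polarisation `D²φ_s (a, b) ∈ range (fderiv ℂ φ s)` for `s` near `0`.  Let `L s` be an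
analytic left inverse of `fderiv ℂ φ s` (`exists_left_inverse`), so
`D²φ_s (b, a) = fderiv ℂ φ s (L s (D²φ_s (b, a)))`.  Let `m` be a linear form vanishing on
`range (fderiv ℂ φ 0)` and `g τ := m ∘ fderiv ℂ φ (τ • s₁)`: `‖g' τ‖ ≤ K ‖g τ‖`, `g 0 = 0`, so
`g = 0`.  So `m (fderiv ℂ φ s) = 0` for `s` near `0` and `m (φ s - φ 0) = 0`. -/
theorem flat_of_second {d : ℕ} (φ : (Fin d → ℂ) → V) (hφ : AnalyticAt ℂ φ 0)
    (hinj : Function.Injective (fderiv ℂ φ 0))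
    (h : ∀ᶠ s in 𝓝 (0 : Fin d → ℂ), ∀ m : V →L[ℂ] ℂ, (∀ a, m (fderiv ℂ φ s a) = 0) →
      ∀ a, iteratedDeriv 2 (fun t : ℂ => m (φ (s + t • a))) 0 = 0) :
    ∀ᶠ s in 𝓝 (0 : Fin d → ℂ), ∃ a, φ s - φ 0 = fderiv ℂ φ 0 a := by
  have : CompleteSpace V := FiniteDimensional.complete ℂ V
  obtain ⟨L, hL, hLD⟩ := exists_left_inverse (fderiv ℂ φ) 0 hφ.fderiv hinj
  -- bound for the coefficients
  have hcont : ContinuousAt (fun s => ‖L s‖ * ‖fderiv ℂ (fderiv ℂ φ) s‖) 0 :=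
    hL.continuousAt.norm.mul hφ.fderiv.fderiv.continuousAt.norm
  set K₀ : ℝ := ‖L 0‖ * ‖fderiv ℂ (fderiv ℂ φ) 0‖ + 1 with hK₀
  have hbd : ∀ᶠ s in 𝓝 (0 : Fin d → ℂ), ‖L s‖ * ‖fderiv ℂ (fderiv ℂ φ) s‖ < K₀ :=
    hcont.eventually_lt_const (by rw [hK₀]; linarith)
  have hK₀0 : 0 ≤ K₀ := by positivity
  obtain ⟨ε, hε, hball⟩ := Metric.eventually_nhds_iff_ball.1
    (h.and (hφ.eventually_analyticAt.and (hLD.and hbd)))
  -- second derivatives are tangent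
  have hrange : ∀ s ∈ Metric.ball (0 : Fin d → ℂ) ε, ∀ a b,
      fderiv ℂ φ s (L s (fderiv ℂ (fderiv ℂ φ) s a b)) = fderiv ℂ (fderiv ℂ φ) s a b := by
    intro s hs
    obtain ⟨h1, h2, h3, -⟩ := hball s hs
    have hdiag : ∀ a, fderiv ℂ (fderiv ℂ φ) s a a ∈
        LinearMap.range (fderiv ℂ φ s : (Fin d → ℂ) →ₗ[ℂ] V) := by
      intro a
      refine mem_of_dual _ _ fun m hm => ?_
      rw [← iter_two h2 m a]
      exact h1 m (fun b => hm _ ⟨b, rfl⟩) a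
    have hsymm : ∀ a b, fderiv ℂ (fderiv ℂ φ) s a b = fderiv ℂ (fderiv ℂ φ) s b a := fun a b =>
      (ContDiffAt.isSymmSndFDerivAt_of_omega h2.contDiffAt) a b
    intro a b
    have hmem : fderiv ℂ (fderiv ℂ φ) s a b ∈
        LinearMap.range (fderiv ℂ φ s : (Fin d → ℂ) →ₗ[ℂ] V) := by
      have e1 := hdiag (a + b)
      have e2 := Submodule.sub_mem _ (Submodule.sub_mem _ e1 (hdiag a)) (hdiag b)
      have e3 : fderiv ℂ (fderiv ℂ φ) s (a + b) (a + b) - fderiv ℂ (fderiv ℂ φ) s a a -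
          fderiv ℂ (fderiv ℂ φ) s b b = (2 : ℂ) • fderiv ℂ (fderiv ℂ φ) s a b := by
        have e4 := hsymm a b
        simp only [map_add, add_apply]
        rw [← e4, two_smul]
        abel
      rw [e3] at e2
      have e5 := Submodule.smul_mem _ ((2 : ℂ)⁻¹) e2
      rwa [smul_smul, inv_mul_cancel₀ two_ne_zero, one_smul] at e5
    obtain ⟨c, hc⟩ := hmem
    have hc' : fderiv ℂ φ s c = fderiv ℂ (fderiv ℂ φ) s a b := hc
    rw [← hc', h3 c]
  -- linear forms vanishing on the tangent space at the centre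
  have hform : ∀ m : V →L[ℂ] ℂ, (∀ a, m (fderiv ℂ φ 0 a) = 0) →
      ∀ s ∈ Metric.ball (0 : Fin d → ℂ) ε, m (φ s - φ 0) = 0 := by
    intro m hm
    have hD : ∀ s ∈ Metric.ball (0 : Fin d → ℂ) ε, m.comp (fderiv ℂ φ s) = 0 := by
      intro s₁ hs₁
      have hs₁' : ‖s₁‖ < ε := by rwa [mem_ball_zero_iff] at hs₁
      have hin : ∀ τ ∈ Set.Icc (0 : ℝ) 1, τ • s₁ ∈ Metric.ball (0 : Fin d → ℂ) ε := by
        intro τ hτ
        rw [mem_ball_zero_iff, norm_smul, Real.norm_of_nonneg hτ.1]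
        calc τ * ‖s₁‖ ≤ 1 * ‖s₁‖ := mul_le_mul_of_nonneg_right hτ.2 (norm_nonneg _)
          _ = ‖s₁‖ := one_mul _
          _ < ε := hs₁'
      let g : ℝ → ((Fin d → ℂ) →L[ℂ] ℂ) := fun τ => m.comp (fderiv ℂ φ (τ • s₁))
      let g' : ℝ → ((Fin d → ℂ) →L[ℂ] ℂ) := fun τ => m.comp (fderiv ℂ (fderiv ℂ φ) (τ • s₁) s₁)
      have hg : ∀ τ ∈ Set.Icc (0 : ℝ) 1, HasDerivAt g (g' τ) τ := by
        intro τ hτ
        have e1 : HasFDerivAt (fderiv ℂ φ) (fderiv ℂ (fderiv ℂ φ) (τ • s₁)) (τ • s₁) :=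
          (hball _ (hin τ hτ)).2.1.fderiv.differentiableAt.hasFDerivAt
        have e2 : HasDerivAt (fun τ : ℝ => τ • s₁) s₁ τ := by
          simpa using (hasDerivAt_id τ).smul_const s₁
        have e3 : HasDerivAt (fun τ : ℝ => fderiv ℂ φ (τ • s₁))
            (fderiv ℂ (fderiv ℂ φ) (τ • s₁) s₁) τ :=
          HasFDerivAt.comp_hasDerivAt (𝕜 := ℝ) (l := fderiv ℂ φ)
            (l' := (fderiv ℂ (fderiv ℂ φ) (τ • s₁)).restrictScalars ℝ) τ (e1.restrictScalars ℝ) e2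
        have e4 : HasFDerivAt (ContinuousLinearMap.compL ℂ (Fin d → ℂ) V ℂ m)
            (ContinuousLinearMap.compL ℂ (Fin d → ℂ) V ℂ m) (fderiv ℂ φ (τ • s₁)) :=
          (ContinuousLinearMap.compL ℂ (Fin d → ℂ) V ℂ m).hasFDerivAt
        exact (e4.restrictScalars ℝ).comp_hasDerivAt τ e3
      have hbound : ∀ τ ∈ Set.Ico (0 : ℝ) 1, ‖g' τ‖ ≤ (K₀ * ‖s₁‖) * ‖g τ‖ := by
        intro τ hτ
        have hτ' : τ ∈ Set.Icc (0 : ℝ) 1 := ⟨hτ.1, hτ.2.le⟩
        have e1 : g' τ = (g τ).comp ((L (τ • s₁)).comp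
            (fderiv ℂ (fderiv ℂ φ) (τ • s₁) s₁)) := by
          refine ContinuousLinearMap.ext fun a => ?_
          show m (fderiv ℂ (fderiv ℂ φ) (τ • s₁) s₁ a) =
            m (fderiv ℂ φ (τ • s₁) (L (τ • s₁) (fderiv ℂ (fderiv ℂ φ) (τ • s₁) s₁ a)))
          rw [hrange _ (hin τ hτ')]
        have e2 := (hball _ (hin τ hτ')).2.2.2
        calc ‖g' τ‖ ≤ ‖g τ‖ * ‖(L (τ • s₁)).comp (fderiv ℂ (fderiv ℂ φ) (τ • s₁) s₁)‖ := by
              rw [e1]
              exact ContinuousLinearMap.opNorm_comp_le _ _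
          _ ≤ ‖g τ‖ * (‖L (τ • s₁)‖ * (‖fderiv ℂ (fderiv ℂ φ) (τ • s₁)‖ * ‖s₁‖)) := by
              refine mul_le_mul_of_nonneg_left ?_ (norm_nonneg _)
              refine (ContinuousLinearMap.opNorm_comp_le _ _).trans ?_
              exact mul_le_mul_of_nonneg_left (ContinuousLinearMap.le_opNorm _ _) (norm_nonneg _)
          _ = (‖L (τ • s₁)‖ * ‖fderiv ℂ (fderiv ℂ φ) (τ • s₁)‖) * (‖g τ‖ * ‖s₁‖) := by ring
          _ ≤ K₀ * (‖g τ‖ * ‖s₁‖) :=
              mul_le_mul_of_nonneg_right e2.le (mul_nonneg (norm_nonneg _) (norm_nonneg _))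
          _ = (K₀ * ‖s₁‖) * ‖g τ‖ := by ring
      have hg0 : g 0 = 0 := by
        refine ContinuousLinearMap.ext fun a => ?_
        show m (fderiv ℂ φ ((0 : ℝ) • s₁) a) = 0
        rw [zero_smul]
        exact hm a
      have hz := eq_zero_of_abs_deriv_le_mul_abs_self_of_eq_zero_right (f := g) (f' := g')
        (K := K₀ * ‖s₁‖) (a := 0) (b := 1)
        (fun τ hτ => (hg τ hτ).continuousAt.continuousWithinAt)
        (fun τ hτ => (hg τ ⟨hτ.1, hτ.2.le⟩).hasDerivWithinAt) hg0 hbound 1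
        (Set.right_mem_Icc.2 zero_le_one)
      have hz' : m.comp (fderiv ℂ φ ((1 : ℝ) • s₁)) = 0 := hz
      rwa [one_smul] at hz'
    intro s hs
    have hconst := IsOpen.is_const_of_fderiv_eq_zero (𝕜 := ℂ) (f := fun s => m (φ s))
      Metric.isOpen_ball (convex_ball (0 : Fin d → ℂ) ε).isPreconnected
      (fun y hy => ((m.differentiableAt (x := φ y)).comp y
        (hball y hy).2.1.differentiableAt).differentiableWithinAt)
      (fun y hy => by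
        have e1 : HasFDerivAt (fun s => m (φ s)) (m.comp (fderiv ℂ φ y)) y :=
          (m.hasFDerivAt (x := φ y)).comp y (hball y hy).2.1.differentiableAt.hasFDerivAt
        rw [e1.fderiv, hD y hy]
        rfl) hs (Metric.mem_ball_self hε)
    rw [map_sub, sub_eq_zero]
    exact hconst
  filter_upwards [Metric.ball_mem_nhds (0 : Fin d → ℂ) hε] with s hs
  have hmem : φ s - φ 0 ∈ LinearMap.range (fderiv ℂ φ 0 : (Fin d → ℂ) →ₗ[ℂ] V) :=
    mem_of_dual _ _ fun m hm => hform m (fun a => hm _ ⟨a, rfl⟩) s hs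
  obtain ⟨a, ha⟩ := hmem
  exact ⟨a, ha.symm⟩

end Pool.Agent.SEC
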