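import Pool.Agent.SEC.D2a
import Pool.Agent.SEC.B1d

/-!
SEC-D2b (MP_d19687_ag, project SEC).
-/

open Filter Topology Pool.Agent.MP_d19687_ag Pool.Agent.RIG

namespace Pool.Agent.SEC

variable {V : Type*} [NormedAddCommGroup V] [NormedSpace ℂ V] [FiniteDimensional ℂ V]

/-- Points with nonzero second fundamental form are dense.

Proof. Chart `φ` at `α₀`.  If there is no such point then the hypothesis of `flat_of_second` holds
(`chart_shift`, `isTangent_iff`), so points of `Z` near `α₀` are in `α₀ + range (fderiv ℂ φ 0)`, which is the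
tangent space `E` at `α₀` (`exists_tanSp`; `α₀ ∈ E` by `isTangent_self`).  By `mem_of_locally` `Z ⊆ E`, so
`E = ⊤` and `eq_of_tangent_top` contradicts `hne`. -/
theorem exists_second_ne {Z : Set V} (hZ : IsSmoothCone Z) (hspan : Submodule.span ℂ Z = ⊤)
    (hne : Z ≠ {v | v ≠ 0}) {α₀ : V} (hα₀ : α₀ ∈ Z) {W : Set V} (hW : W ∈ 𝓝 α₀) :
    ∃ α ∈ Z, α ∈ W ∧ ∃ (d : ℕ) (φ : (Fin d → ℂ) → V), IsChartZ Z α d φ ∧
      ∃ m : V →L[ℂ] ℂ, (∀ w, IsTangent Z α w → m w = 0) ∧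
        ∃ a, iteratedDeriv 2 (fun t : ℂ => m (φ (t • a))) 0 ≠ 0 := by
  by_contra hcon
  push Not at hcon
  obtain ⟨d, φ, hφ⟩ := exists_chartZ hZ hα₀
  have hφt : Tendsto φ (𝓝 0) (𝓝 α₀) := by
    have h1 := hφ.an.continuousAt.tendsto
    rwa [hφ.map0] at h1
  have h2 : ∀ᶠ s in 𝓝 (0 : Fin d → ℂ), ∀ m : V →L[ℂ] ℂ, (∀ a, m (fderiv ℂ φ s a) = 0) →
      ∀ a, iteratedDeriv 2 (fun t : ℂ => m (φ (s + t • a))) 0 = 0 := by
    filter_upwards [chart_shift hφ, hφ.mem, hφt.eventually hW] with s hs hsZ hsW m hm a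
    refine hcon (φ s) hsZ hsW d (fun s' => φ (s + s')) hs m (fun w hw => ?_) a
    obtain ⟨b, hb⟩ := (isTangent_iff hs w).1 hw
    rw [fderiv_comp_add_left, add_zero] at hb
    rw [← hb]
    exact hm b
  have h3 := flat_of_second φ hφ.an hφ.inj h2
  let E : Submodule ℂ V := LinearMap.range (fderiv ℂ φ 0 : (Fin d → ℂ) →ₗ[ℂ] V)
  have hE : ∀ w, w ∈ E ↔ IsTangent Z α₀ w := fun w => (isTangent_iff hφ w).symm
  have hα₀E : α₀ ∈ E := (hE α₀).2 (isTangent_self hZ hα₀)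
  have h4 : ∀ᶠ s in 𝓝 (0 : Fin d → ℂ), φ s ∈ E := by
    filter_upwards [h3] with s hs
    obtain ⟨a, ha⟩ := hs
    have h5 : φ s = fderiv ℂ φ 0 a + α₀ := by
      rw [← ha, hφ.map0, sub_add_cancel]
    rw [h5]
    exact Submodule.add_mem _ ⟨a, rfl⟩ hα₀E
  have h5 : ∀ᶠ z in 𝓝[Z] α₀, z ∈ E := by
    filter_upwards [hφ.onto _ h4] with z hz
    obtain ⟨s, hs, rfl⟩ := hz
    exact hs
  have h6 := mem_of_locally hZ E hα₀ h5
  have h7 : E = ⊤ := by
    rw [eq_top_iff, ← hspan, Submodule.span_le]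
    exact h6
  refine hne (eq_of_tangent_top hZ hα₀ fun w => ?_)
  rw [← hE, h7]
  trivial

end Pool.Agent.SEC
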