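import Pool.Agent.SEC.D1c
import Pool.Agent.SEC.D2b

/-!
SEC-D2c (MP_d19687_ag, project SEC).
-/

open Filter Topology Pool.Agent.MP_d19687_ag Pool.Agent.RIG

namespace Pool.Agent.SEC

variable {V : Type*} [NormedAddCommGroup V] [NormedSpace ℂ V] [FiniteDimensional ℂ V]

/-- Symmetric trilinear maps. -/
structure SymTri (B : V →L[ℂ] V →L[ℂ] V →L[ℂ] V) : Prop where
  s12 : ∀ u v w, B u v w = B v u w
  s23 : ∀ u v w, B u v w = B u w v

/-- `B α α v` is a multiple of `α`.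

Proof. For `α` as in `exists_second_ne`: `A := B.flip α |>.flip v`, i.e. `A z = B z α v`, is tangent to `Z`
at every `z ∈ Z`, and `A z = B α z v` is tangent at `α` for all `z ∈ V`; `liouville_step` gives
`B α α v = c α`.  For arbitrary `α₀ ∈ Z` there is a sequence of such `α_k → α₀`; with a linear form `ξ`,
`ξ α₀ = 1`: `c_k = ξ (B α_k α_k v) / ξ (α_k)` converges. -/
theorem diag_mem {Z : Set V} (hZ : IsSmoothCone Z) (hspan : Submodule.span ℂ Z = ⊤)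
    (hne : Z ≠ {v | v ≠ 0}) {B : V →L[ℂ] V →L[ℂ] V →L[ℂ] V} (hB : SymTri B)
    (htan : ∀ z ∈ Z, ∀ u v, IsTangent Z z (B z u v)) : ∀ α ∈ Z, ∀ v, ∃ c : ℂ, B α α v = c • α := by
  intro α₀ hα₀ v
  set S : Set V := {α | α ∈ Z ∧ ∃ c : ℂ, B α α v = c • α} with hS
  have hcl : α₀ ∈ closure S := by
    rw [mem_closure_iff_nhds]
    intro W hW
    obtain ⟨α, hα, hαW, d, φ, hφ, m, hm, a, ha⟩ := exists_second_ne hZ hspan hne hα₀ hW
    refine ⟨α, hαW, hα, ?_⟩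
    set A : V →L[ℂ] V := (B.flip α).flip v with hA
    have hAz : ∀ z, A z = B z α v := fun z => rfl
    obtain ⟨c, hc⟩ := liouville_step hZ hα A
      (fun z hz => by rw [hAz]; exact htan z hz α v)
      (fun z => by rw [hAz, hB.s12]; exact htan α hα z v) m hm hφ a ha
    exact ⟨c, by rw [← hAz, hc]⟩
  obtain ⟨u, hu, hut⟩ := mem_closure_iff_seq_limit.1 hcl
  have hα0 : α₀ ≠ 0 := hZ.ne_zero α₀ hα₀
  obtain ⟨ξ, hξ⟩ : ∃ ξ : V →L[ℂ] ℂ, ξ α₀ = 1 := by
    obtain ⟨f, hf⟩ := SeparatingDual.exists_ne_zero (R := ℂ) hα0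
    exact ⟨(f α₀)⁻¹ • f, by simp [inv_mul_cancel₀ hf]⟩
  have hc1 : Continuous fun α : V => B α α v := by fun_prop
  have hc2 : Continuous fun α : V => ξ α • B α α v - ξ (B α α v) • α := by fun_prop
  have h0 : ∀ k, ξ (u k) • B (u k) (u k) v - ξ (B (u k) (u k) v) • u k = 0 := by
    intro k
    obtain ⟨-, c, hc⟩ := hu k
    rw [hc, map_smul, smul_eq_mul, smul_smul, mul_comm, sub_self]
  have hlim : Tendsto (fun k => ξ (u k) • B (u k) (u k) v - ξ (B (u k) (u k) v) • u k) atTop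
      (𝓝 (ξ α₀ • B α₀ α₀ v - ξ (B α₀ α₀ v) • α₀)) := (hc2.tendsto α₀).comp hut
  simp only [h0] at hlim
  have h1 := tendsto_nhds_unique hlim tendsto_const_nhds
  refine ⟨ξ (B α₀ α₀ v), ?_⟩
  rw [hξ, one_smul] at h1
  exact sub_eq_zero.1 h1

end Pool.Agent.SEC
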