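import Pool.Agent.SEC.D2c

/-!
SEC-D2d (MP_d19687_ag, project SEC).
-/

open Filter Topology Pool.Agent.MP_d19687_ag Pool.Agent.RIG

namespace Pool.Agent.SEC

variable {V : Type*} [NormedAddCommGroup V] [NormedSpace ℂ V] [FiniteDimensional ℂ V]

/-- If a point `α` of `Z` is tangent to `Z` at all points of `Z` then `Z` is everything.

Proof. For every linear form `ξ`, `N z = ξ z • α` is tangent to `Z` at each `z ∈ Z` (`isTangent_smul`), so
`exp (t N)` preserves `Z` (`exp_mem`).  Let `z ∈ Z` not be a multiple of `α`; choose `ξ` with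
`ξ α = 0`, `ξ z = 1`; `N² = 0`, so `exp (t N) z = z + t α ∈ Z` for all `t`.  So
`α + ε z = ε (z + ε⁻¹ α) ∈ Z` for `ε ≠ 0`, and `α ∈ Z`, hence `z` is tangent at `α`.  Multiples of `α` are
tangent at `α`.  So the tangent space at `α` contains `Z`, hence everything; `eq_of_tangent_top`. -/
theorem eq_of_vertex {Z : Set V} (hZ : IsSmoothCone Z) (hspan : Submodule.span ℂ Z = ⊤)
    {α : V} (hα : α ∈ Z) (h : ∀ z ∈ Z, IsTangent Z z α) : Z = {v | v ≠ 0} := by
  -- every vector of `Z` is tangent at `α`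
  have hα0 : α ≠ 0 := hZ.ne_zero α hα
  have hmem : ∀ z ∈ Z, IsTangent Z α z := by
    intro z hz
    by_cases hzα : ∃ c : ℂ, z = c • α
    · obtain ⟨c, rfl⟩ := hzα
      exact isTangent_smul (isTangent_self hZ hα) c
    · -- a linear form vanishing on `α` with value `1` at `z`
      have hnot : z ∉ Submodule.span ℂ {α} := by
        intro h'
        obtain ⟨c, hc⟩ := Submodule.mem_span_singleton.1 h'
        exact hzα ⟨c, hc.symm⟩
      obtain ⟨f, hf1, hf2⟩ := Submodule.exists_le_ker_of_notMem hnot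
      have hfα : f α = 0 := hf2 (Submodule.mem_span_singleton_self α)
      set ξ : V →L[ℂ] ℂ := LinearMap.toContinuousLinearMap ((f z)⁻¹ • f) with hξ
      have hξv : ∀ v, ξ v = (f z)⁻¹ * f v := fun v => rfl
      have hξα : ξ α = 0 := by rw [hξv, hfα, mul_zero]
      have hξz : ξ z = 1 := by rw [hξv, inv_mul_cancel₀ hf1]
      set N : V →L[ℂ] V := ξ.smulRight α with hN
      have hNv : ∀ v, N v = ξ v • α := fun v => rfl
      have hNN : N * N = 0 := by
        ext v
        change N (N v) = 0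
        rw [hNv v, map_smul, hNv α, hξα, zero_smul, smul_zero]
      have hexp : ∀ t : ℂ, NormedSpace.exp (t • N) z = z + t • α := by
        intro t
        have hE : NormedSpace.exp (t • N) = 1 + t • N := by
          have h1 := congrFun (NormedSpace.exp_eq_tsum (𝕂 := ℂ) (𝔸 := V →L[ℂ] V)) (t • N)
          rw [h1, tsum_eq_sum (s := Finset.range 2)]
          · simp [Finset.sum_range_succ]
          · intro n hn
            obtain ⟨k, rfl⟩ : ∃ k, n = k + 2 := ⟨n - 2, by
              have := Finset.mem_range.not.1 hn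
              omega⟩
            have h2 : (t • N) ^ 2 = 0 := by
              rw [pow_two, smul_mul_smul_comm, hNN, smul_zero]
            rw [pow_add, h2, mul_zero, smul_zero]
        rw [hE]
        change z + t • N z = z + t • α
        rw [hNv, hξz, one_smul]
      have hline : ∀ t : ℂ, z + t • α ∈ Z := by
        intro t
        rw [← hexp t]
        exact exp_mem hZ N (fun z' hz' => by rw [hNv]; exact isTangent_smul (h z' hz') _) hz t
      refine ⟨fun ε => α + ε • z, ?_, by simp, ?_, ?_⟩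
      · fun_prop
      · have h1 : HasDerivAt (fun ε : ℂ => α + ε • z) ((1 : ℂ) • z) 0 :=
          ((hasDerivAt_id (0 : ℂ)).smul_const z).const_add α
        rw [h1.deriv, one_smul]
      · refine Filter.Eventually.of_forall fun ε => ?_
        by_cases hε : ε = 0
        · simpa [hε] using hα
        · have h1 : α + ε • z = ε • (z + ε⁻¹ • α) := by
            rw [smul_add, smul_inv_smul₀ hε, add_comm]
          change α + ε • z ∈ Z
          rw [h1]
          exact hZ.smul_mem _ (hline _) ε hε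
  obtain ⟨E, hE⟩ := exists_tanSp hZ hα
  have hEtop : E = ⊤ := by
    rw [eq_top_iff, ← hspan, Submodule.span_le]
    exact fun z hz => (hE z).2 (hmem z hz)
  exact eq_of_tangent_top hZ hα fun w => (hE w).1 (hEtop ▸ Submodule.mem_top)

/-- `B α α v = 0` for `α ∈ Z`.

Proof. Suppose `B α α v₀ ≠ 0`.  With a linear form `ξ`, `ξ α = 1`, put `lam v := ξ (B α α v)`; by `diag_mem`
`B α α v = lam v • α`, `lam v₀ ≠ 0`.  For `γ ∈ Z`, `B γ α α = B α α γ = lam γ • α` is tangent at `γ`, so `α` is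
tangent at `γ` if `lam γ ≠ 0`.  Such `γ` are dense in `Z` (otherwise `mem_of_locally` with `E = ker lam`
gives `Z ⊆ ker lam`, contradicting `hspan`), so `α` is tangent at every point of `Z`
(`isTangent_of_tendsto`), and `eq_of_vertex` contradicts `hne`. -/
theorem diag_zero {Z : Set V} (hZ : IsSmoothCone Z) (hspan : Submodule.span ℂ Z = ⊤)
    (hne : Z ≠ {v | v ≠ 0}) {B : V →L[ℂ] V →L[ℂ] V →L[ℂ] V} (hB : SymTri B)
    (htan : ∀ z ∈ Z, ∀ u v, IsTangent Z z (B z u v)) : ∀ α ∈ Z, ∀ v, B α α v = 0 := by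
  intro α hα v₀
  by_contra hv₀
  have hα0 : α ≠ 0 := hZ.ne_zero α hα
  obtain ⟨ξ, hξ⟩ : ∃ ξ : V →L[ℂ] ℂ, ξ α = 1 := by
    obtain ⟨f, hf⟩ := SeparatingDual.exists_ne_zero (R := ℂ) hα0
    exact ⟨(f α)⁻¹ • f, by simp [inv_mul_cancel₀ hf]⟩
  have hlam : ∀ v, B α α v = ξ (B α α v) • α := by
    intro v
    obtain ⟨c, hc⟩ := diag_mem hZ hspan hne hB htan α hα v
    rw [hc, map_smul, hξ, smul_eq_mul, mul_one]
  set lam : V →L[ℂ] ℂ := ξ.comp (B α α) with hlamdef
  have hlam' : ∀ v, B α α v = lam v • α := hlam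
  have hlam0 : lam v₀ ≠ 0 := by
    intro h0
    apply hv₀
    rw [hlam', h0, zero_smul]
  -- `α` is tangent at the points with `lam ≠ 0`
  have h1 : ∀ γ ∈ Z, lam γ ≠ 0 → IsTangent Z γ α := by
    intro γ hγ hl
    have h2 := htan γ hγ α α
    rw [hB.s12, hB.s23, hlam'] at h2
    have h3 := isTangent_smul h2 (lam γ)⁻¹
    rwa [inv_smul_smul₀ hl] at h3
  -- these are dense
  have h2 : ∀ γ ∈ Z, IsTangent Z γ α := by
    intro γ hγ
    have hcl : γ ∈ closure {γ' | γ' ∈ Z ∧ lam γ' ≠ 0} := by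
      by_contra hno
      have h3 : ∀ᶠ z in 𝓝[Z] γ, z ∈ LinearMap.ker (lam : V →ₗ[ℂ] ℂ) := by
        have h4 : (closure {γ' | γ' ∈ Z ∧ lam γ' ≠ 0})ᶜ ∈ 𝓝 γ :=
          isClosed_closure.isOpen_compl.mem_nhds hno
        filter_upwards [nhdsWithin_le_nhds h4, self_mem_nhdsWithin] with z hz hzZ
        by_contra hz0
        exact hz (subset_closure ⟨hzZ, fun h0 => hz0 (LinearMap.mem_ker.2 h0)⟩)
      have h5 := mem_of_locally hZ _ hγ h3
      have h6 : Submodule.span ℂ Z ≤ LinearMap.ker (lam : V →ₗ[ℂ] ℂ) := Submodule.span_le.2 h5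
      rw [hspan] at h6
      exact hlam0 (LinearMap.mem_ker.1 (h6 (Submodule.mem_top : v₀ ∈ ⊤)))
    obtain ⟨u, hu, hut⟩ := mem_closure_iff_seq_limit.1 hcl
    exact isTangent_of_tendsto hZ (fun k => (hu k).1) hγ hut tendsto_const_nhds
      (fun k => h1 _ (hu k).1 (hu k).2)
  exact hne (eq_of_vertex hZ hspan hα h2)

end Pool.Agent.SEC
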