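import Pool.Agent.SEC.D2d

/-!
SEC-D2e (MP_d19687_ag, project SEC).
-/

open Filter Topology Pool.Agent.MP_d19687_ag Pool.Agent.RIG

namespace Pool.Agent.SEC

variable {V : Type*} [NormedAddCommGroup V] [NormedSpace ℂ V] [FiniteDimensional ℂ V]

/-- Surjectivity is an open condition in finite dimension. -/
private theorem eventually_surj {X E F : Type*} [TopologicalSpace X] [NormedAddCommGroup E]
    [NormedSpace ℂ E] [NormedAddCommGroup F] [NormedSpace ℂ F] [FiniteDimensional ℂ F]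
    {M : X → E →L[ℂ] F} {x : X} (hM : ContinuousAt M x) (hs : Function.Surjective (M x)) :
    ∀ᶠ y in 𝓝 x, Function.Surjective (M y) := by
  have : CompleteSpace F := FiniteDimensional.complete ℂ F
  obtain ⟨R₀, hR₀⟩ := LinearMap.exists_rightInverse_of_surjective (M x : E →ₗ[ℂ] F)
    (LinearMap.range_eq_top.2 hs)
  set R : F →L[ℂ] E := LinearMap.toContinuousLinearMap R₀ with hR
  have h1 : ContinuousAt (fun y => ((M y).comp R).det) x :=
    ContinuousLinearMap.continuous_det.continuousAt.comp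
      (hM.clm_comp continuousAt_const)
  have h2 : ((M x).comp R).det ≠ 0 := by
    have h3 : ((M x).comp R : F →L[ℂ] F) = ContinuousLinearMap.id ℂ F := by
      ext v
      exact LinearMap.congr_fun hR₀ v
    rw [h3]
    change LinearMap.det ((ContinuousLinearMap.id ℂ F : F →L[ℂ] F) : F →ₗ[ℂ] F) ≠ 0
    rw [ContinuousLinearMap.coe_id, LinearMap.det_id]
    exact one_ne_zero
  filter_upwards [h1.eventually_ne h2] with y hy v
  have hu : IsUnit (LinearMap.det (((M y).comp R : F →L[ℂ] F) : F →ₗ[ℂ] F)) :=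
    isUnit_iff_ne_zero.2 hy
  obtain ⟨w, hw⟩ := ((Module.End.isUnit_iff _).1
    ((LinearMap.isUnit_iff_isUnit_det _).2 hu)).surjective v
  exact ⟨R w, hw⟩

/-- Terracini's condition persists for nearby pairs of points.  (Charts; surjectivity of
`(s, s') ↦ dφ_{s₀} s + dψ_{s₁} s'` is open; `chart_shift`, `isTangent_iff`.) -/
theorem ter_nhds {Z : Set V} (hZ : IsSmoothCone Z) (h : Ter Z) :
    ∃ α ∈ Z, ∃ γ ∈ Z, ∀ᶠ α' in 𝓝[Z] α, ∀ᶠ γ' in 𝓝[Z] γ, ∀ v : V, ∃ w₁ w₂ : V,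
      IsTangent Z α' w₁ ∧ IsTangent Z γ' w₂ ∧ w₁ + w₂ = v := by
  obtain ⟨α, hα, γ, hγ, hT⟩ := h
  obtain ⟨d, φ, hφ⟩ := exists_chartZ hZ hα
  obtain ⟨e, ψ, hψ⟩ := exists_chartZ hZ hγ
  -- the sum map at nearby parameters
  set M : ((Fin d → ℂ) × (Fin e → ℂ)) → (((Fin d → ℂ) × (Fin e → ℂ)) →L[ℂ] V) := fun q =>
    (fderiv ℂ φ q.1).comp (ContinuousLinearMap.fst ℂ _ _) +
      (fderiv ℂ ψ q.2).comp (ContinuousLinearMap.snd ℂ _ _) with hM
  have hMv : ∀ q p, M q p = fderiv ℂ φ q.1 p.1 + fderiv ℂ ψ q.2 p.2 := fun q p => rfl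
  have hsurj0 : Function.Surjective (M 0) := by
    intro v
    obtain ⟨w₁, w₂, h1, h2, h3⟩ := hT v
    obtain ⟨a, ha⟩ := (isTangent_iff hφ w₁).1 h1
    obtain ⟨b, hb⟩ := (isTangent_iff hψ w₂).1 h2
    exact ⟨(a, b), by rw [hMv]; exact (by rw [← h3, ← ha, ← hb]; rfl)⟩
  have : CompleteSpace V := FiniteDimensional.complete ℂ V
  have hcont : ContinuousAt M 0 := by
    have c1 : ContinuousAt (fun q : (Fin d → ℂ) × (Fin e → ℂ) => fderiv ℂ φ q.1) 0 :=
      ContinuousAt.comp (f := Prod.fst) (g := fderiv ℂ φ) hφ.an.fderiv.continuousAt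
        continuousAt_fst
    have c2 : ContinuousAt (fun q : (Fin d → ℂ) × (Fin e → ℂ) => fderiv ℂ ψ q.2) 0 :=
      ContinuousAt.comp (f := Prod.snd) (g := fderiv ℂ ψ) hψ.an.fderiv.continuousAt
        continuousAt_snd
    exact (c1.clm_comp continuousAt_const).add (c2.clm_comp continuousAt_const)
  have hopen : ∀ᶠ q in 𝓝 (0 : (Fin d → ℂ) × (Fin e → ℂ)), Function.Surjective (M q) :=
    eventually_surj hcont hsurj0
  refine ⟨α, hα, γ, hγ, ?_⟩
  have hall : ∀ᶠ q in 𝓝 ((0 : Fin d → ℂ), (0 : Fin e → ℂ)), ∀ v : V, ∃ w₁ w₂ : V,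
      IsTangent Z (φ q.1) w₁ ∧ IsTangent Z (ψ q.2) w₂ ∧ w₁ + w₂ = v := by
    have h1 : ∀ᶠ q in 𝓝 ((0 : Fin d → ℂ), (0 : Fin e → ℂ)),
        IsChartZ Z (φ q.1) d (fun s' => φ (q.1 + s')) :=
      (continuous_fst.tendsto ((0 : Fin d → ℂ), (0 : Fin e → ℂ))).eventually (chart_shift hφ)
    have h2 : ∀ᶠ q in 𝓝 ((0 : Fin d → ℂ), (0 : Fin e → ℂ)),
        IsChartZ Z (ψ q.2) e (fun s' => ψ (q.2 + s')) :=
      (continuous_snd.tendsto ((0 : Fin d → ℂ), (0 : Fin e → ℂ))).eventually (chart_shift hψ)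
    filter_upwards [hopen, h1, h2] with q hq hq1 hq2 v
    obtain ⟨p, hp⟩ := hq v
    rw [hMv] at hp
    refine ⟨_, _, (isTangent_iff hq1 _).2 ⟨p.1, rfl⟩, (isTangent_iff hq2 _).2 ⟨p.2, rfl⟩, ?_⟩
    rw [fderiv_comp_add_left, fderiv_comp_add_left, add_zero, add_zero]
    exact hp
  obtain ⟨S, hS, S', hS', hSS⟩ := mem_nhds_prod_iff.1 hall
  filter_upwards [hφ.onto S hS] with α' hα'
  obtain ⟨s, hs, rfl⟩ := hα'
  filter_upwards [hψ.onto S' hS'] with γ' hγ'
  obtain ⟨s', hs', rfl⟩ := hγ'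
  exact hSS (Set.mk_mem_prod hs hs')

/-- A symmetric trilinear map tangent to `Z` in each slot vanishes.

Proof. `hspan` by `span_eq_top_of_ter`.  `diag_zero`, differentiated along a curve in `Z` with velocity
`w` at `α`: `B α w v + B w α v = 0`, so `B α w v = 0` for `w` tangent at `α ∈ Z`.  For a pair `(α', γ')` as in
`ter_nhds` and `v = w₁ + w₂`: `B α' γ' w₁ = B α' w₁ γ' = 0`, `B α' γ' w₂ = B γ' w₂ α' = 0`, so
`B α' γ' v = 0`.  Fix `α'` near `α` (in `Z`): the subspace `{γ | ∀ v, B α' γ v = 0}` contains the points of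
`Z` near `γ`, so all of `Z` (`mem_of_locally`), so it is `⊤`.  Then the subspace
`{α | ∀ γ v, B α γ v = 0}` contains the points of `Z` near `α`, so it is `⊤`. -/
theorem trilinear_zero {Z : Set V} (hZ : IsSmoothCone Z) (hT : Ter Z) (hne : Z ≠ {v | v ≠ 0})
    {B : V →L[ℂ] V →L[ℂ] V →L[ℂ] V} (hB : SymTri B)
    (htan : ∀ z ∈ Z, ∀ u v, IsTangent Z z (B z u v)) : ∀ u v w, B u v w = 0 := by
  have hspan := span_eq_top_of_ter hT
  have hd0 := diag_zero hZ hspan hne hB htan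
  -- differentiate
  have h1 : ∀ α ∈ Z, ∀ w, IsTangent Z α w → ∀ v, B α w v = 0 := by
    intro α hα w hw v
    obtain ⟨γ, hγ, hγ0, hγd, hγZ⟩ := hw
    have hγ' : HasDerivAt γ w 0 := by
      rw [← hγd]
      exact hγ.differentiableAt.hasDerivAt
    -- the bilinear map `(u, w) ↦ B u w v`
    let C₀ : V →ₗ[ℂ] (V →L[ℂ] V) :=
      { toFun := fun u => (B u).flip v
        map_add' := fun u u' => by
          rw [map_add]
          rfl
        map_smul' := fun c u => by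
          rw [map_smul]
          rfl }
    let C : V →L[ℂ] (V →L[ℂ] V) := LinearMap.toContinuousLinearMap C₀
    have hC : ∀ u w, C u w = B u w v := fun u w => rfl
    have hF : HasDerivAt (fun t => B (γ t) (γ t) v) (B w (γ 0) v + B (γ 0) w v) 0 := by
      have e0 : HasDerivAt (fun t => C (γ t)) (C w) 0 := C.hasFDerivAt.comp_hasDerivAt (0 : ℂ) hγ'
      exact e0.clm_apply hγ'
    have hF0 : HasDerivAt (fun t => B (γ t) (γ t) v) 0 0 := by
      have he : (fun t => B (γ t) (γ t) v) =ᶠ[𝓝 0] fun _ => (0 : V) := by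
        filter_upwards [hγZ] with t ht
        exact hd0 _ ht v
      exact (hasDerivAt_const (0 : ℂ) (0 : V)).congr_of_eventuallyEq he
    have h2 := hF.unique hF0
    rw [hγ0, hB.s12 w α v] at h2
    have h3 : (2 : ℂ) • B α w v = 0 := by
      rw [two_smul]
      exact h2
    exact (smul_eq_zero.1 h3).resolve_left two_ne_zero
  obtain ⟨α, hα, γ, hγ, hev⟩ := ter_nhds hZ hT
  -- for α' near α
  have h2 : ∀ᶠ α' in 𝓝[Z] α, ∀ u v, B α' u v = 0 := by
    filter_upwards [hev, self_mem_nhdsWithin] with α' hα' hα'Z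
    set E : Submodule ℂ V := LinearMap.ker (B α' : V →ₗ[ℂ] V →L[ℂ] V) with hE
    have h3 : ∀ᶠ γ' in 𝓝[Z] γ, γ' ∈ E := by
      filter_upwards [hα', self_mem_nhdsWithin] with γ' hγ' hγ'Z
      rw [hE, LinearMap.mem_ker]
      ext v
      obtain ⟨w₁, w₂, e1, e2, e3⟩ := hγ' v
      change B α' γ' v = 0
      rw [← e3, map_add, hB.s23 α' γ' w₁, h1 α' hα'Z w₁ e1, hB.s12 α' γ' w₂, hB.s23 γ' α' w₂,
        h1 γ' hγ'Z w₂ e2, add_zero]
    have h4 := mem_of_locally hZ E hγ h3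
    have h5 : E = ⊤ := by
      rw [eq_top_iff, ← hspan]
      exact Submodule.span_le.2 h4
    intro u v
    have h6 : u ∈ E := h5 ▸ Submodule.mem_top
    have h7 : B α' u = 0 := LinearMap.mem_ker.1 h6
    rw [h7]
    rfl
  set E : Submodule ℂ V := LinearMap.ker (B : V →ₗ[ℂ] V →L[ℂ] V →L[ℂ] V) with hE
  have h3 : ∀ᶠ α' in 𝓝[Z] α, α' ∈ E := by
    filter_upwards [h2] with α' hα'
    rw [hE, LinearMap.mem_ker]
    ext u v
    exact hα' u v
  have h4 := mem_of_locally hZ E hα h3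
  have h5 : E = ⊤ := by
    rw [eq_top_iff, ← hspan]
    exact Submodule.span_le.2 h4
  intro u v w
  have h6 : u ∈ E := h5 ▸ Submodule.mem_top
  have h7 : B u = 0 := LinearMap.mem_ker.1 h6
  rw [h7]
  rfl

end Pool.Agent.SEC
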