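import Pool.Agent.RIG.K4

/-!
SEC (MP_d19687_ag): classification of the nondegenerate fibres.  Definitions.
-/

open Filter Topology Pool.Agent.MP_d19687_ag Pool.Agent.RIG

namespace Pool.Agent.SEC

section

variable {V : Type*} [NormedAddCommGroup V] [NormedSpace ℂ V]

/-- The affine cone over the secant variety of `Z` (given by its punctured affine cone): the
differences of two points of the cone and the vectors tangent to it. -/
def SecSet (Z : Set V) : Set V :=
  {w | (∃ z ∈ Z, ∃ z' ∈ Z, z - z' = w) ∨ ∃ z ∈ Z, IsTangent Z z w}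

/-- Two tangent spaces of `Z` span `V` (Terracini). -/
def Ter (Z : Set V) : Prop :=
  ∃ α ∈ Z, ∃ γ ∈ Z, ∀ v : V, ∃ w₁ w₂ : V, IsTangent Z α w₁ ∧ IsTangent Z γ w₂ ∧ w₁ + w₂ = v

/-- A parametrised piece of `SecSet Z`: an analytic map `Φ` on an open set of `ℂ ^ N` with values in
`SecSet Z`, which can have a point of maximal rank only if two tangent spaces of `Z` span `V`. -/
structure Par (Z : Set V) where
  N : ℕ
  Ω : Set (Fin N → ℂ)
  Φ : (Fin N → ℂ) → V
  isOpen : IsOpen Ω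
  an : AnalyticOnNhd ℂ Φ Ω
  mem : ∀ x ∈ Ω, Φ x ∈ SecSet Z
  ter : ∀ x ∈ Ω, Function.Surjective (fderiv ℂ Φ x) → Ter Z

theorem notMem_secSet {Z : Set V} {p : V} :
    p ∉ SecSet Z ↔ (∀ z ∈ Z, ∀ z' ∈ Z, z - z' ≠ p) ∧ ∀ z ∈ Z, ¬ IsTangent Z z p := by
  simp [SecSet]

end

end Pool.Agent.SEC
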