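import Pool.Agent.SEC.Defs

/-!
SEC-E1a (MP_d19687_ag, project SEC).
-/

open Filter Topology Pool.Agent.MP_d19687_ag Pool.Agent.RIG

namespace Pool.Agent.SEC

/-- Leibniz for the leading jet: if the derivatives of `g` of order `< n` vanish at `x` then
`D^n (M · g) (x) = M x ∘ D^n g (x)`.

Proof. `M · g = M x · g + (M - M x) · g`; the second term is bilinear in `M - M x` (zero at `x`) and `g`
(all derivatives of order `< n` zero at `x`), so its `n`-th derivative at `x` is zero by
`ContinuousLinearMap.norm_iteratedFDeriv_le_of_bilinear` (apply it with `iteratedFDerivWithin ... univ` or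
the `ContDiffAt` version; every term of the sum vanishes).  First term:
`ContinuousLinearMap.iteratedFDeriv_comp_left`. -/
theorem iteratedFDeriv_clm_apply_of_vanish {E G H : Type*} [NormedAddCommGroup E] [NormedSpace ℂ E]
    [FiniteDimensional ℂ E] [NormedAddCommGroup G] [NormedSpace ℂ G] [FiniteDimensional ℂ G]
    [NormedAddCommGroup H] [NormedSpace ℂ H] [FiniteDimensional ℂ H]
    (M : E → G →L[ℂ] H) (g : E → G) (x : E) (hM : AnalyticAt ℂ M x) (hg : AnalyticAt ℂ g x) (n : ℕ)
    (h0 : ∀ j < n, iteratedFDeriv ℂ j g x = 0) (v : Fin n → E) :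
    iteratedFDeriv ℂ n (fun y => M y (g y)) x v = M x (iteratedFDeriv ℂ n g x v) := by
  have hev : ∀ᶠ y in 𝓝 x, AnalyticAt ℂ M y ∧ AnalyticAt ℂ g y :=
    hM.eventually_analyticAt.and hg.eventually_analyticAt
  obtain ⟨s, hs, hso, hxs⟩ := eventually_nhds_iff.1 hev
  set N : E → G →L[ℂ] H := fun y => M y - M x with hN
  have hNa : AnalyticAt ℂ N x := hM.sub analyticAt_const
  have hNs : ContDiffOn ℂ n N s := fun y hy =>
    (((hs y hy).1.sub analyticAt_const).contDiffAt (n := n)).contDiffWithinAt
  have hgs : ContDiffOn ℂ n g s := fun y hy => ((hs y hy).2.contDiffAt (n := n)).contDiffWithinAt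
  -- the second term
  have h2 : iteratedFDeriv ℂ n (fun y => N y (g y)) x = 0 := by
    have h3 := ContinuousLinearMap.norm_iteratedFDerivWithin_le_of_bilinear
      (ContinuousLinearMap.id ℂ (G →L[ℂ] H)) hNs hgs hso.uniqueDiffOn hxs (n := n) le_rfl
    have h4 : ∑ i ∈ Finset.range (n + 1), (n.choose i : ℝ) * ‖iteratedFDerivWithin ℂ i N s x‖ *
        ‖iteratedFDerivWithin ℂ (n - i) g s x‖ = 0 := by
      refine Finset.sum_eq_zero fun i hi => ?_
      rcases Nat.eq_zero_or_pos i with h | h
      · subst h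
        have h5 : ‖iteratedFDerivWithin ℂ 0 N s x‖ = 0 := by
          rw [norm_iteratedFDerivWithin_zero]
          simp [hN]
        rw [h5, mul_zero, zero_mul]
      · have h5 : iteratedFDerivWithin ℂ (n - i) g s x = 0 := by
          rw [iteratedFDerivWithin_of_isOpen (n - i) hso hxs]
          have hi' : i < n + 1 := Finset.mem_range.1 hi
          exact h0 _ (by omega)
        rw [h5, norm_zero, mul_zero]
    rw [h4, mul_zero] at h3
    have h6 : iteratedFDerivWithin ℂ n (fun y => N y (g y)) s x = 0 :=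
      norm_le_zero_iff.1 h3
    rwa [iteratedFDerivWithin_of_isOpen n hso hxs] at h6
  have h7 : (fun y => M y (g y)) = fun y => M x (g y) + N y (g y) := by
    funext y
    simp [hN]
  have h8 : AnalyticAt ℂ (fun y => M x (g y)) x := (M x).analyticAt _ |>.comp hg
  have h9 : AnalyticAt ℂ (fun y => N y (g y)) x := by
    have h10 : AnalyticAt ℂ (fun p : (G →L[ℂ] H) × G => p.1 p.2) (N x, g x) :=
      (ContinuousLinearMap.id ℂ (G →L[ℂ] H)).analyticAt_bilinear (N x, g x)
    exact AnalyticAt.comp (g := fun p : (G →L[ℂ] H) × G => p.1 p.2) (f := fun y => (N y, g y))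
      h10 (hNa.prod hg)
  rw [h7]
  have h11 : iteratedFDeriv ℂ n (fun y => M x (g y) + N y (g y)) x =
      iteratedFDeriv ℂ n (fun y => M x (g y)) x + iteratedFDeriv ℂ n (fun y => N y (g y)) x := by
    have := iteratedFDeriv_add_apply (i := n) (h8.contDiffAt (n := n)) (h9.contDiffAt (n := n))
    exact this
  rw [h11, h2, add_zero]
  have h12 : iteratedFDeriv ℂ n (fun y => M x (g y)) x =
      (M x).compContinuousMultilinearMap (iteratedFDeriv ℂ n g x) :=
    (M x).iteratedFDeriv_comp_left (hg.contDiffAt (n := n)) le_rfl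
  rw [h12]
  rfl

end Pool.Agent.SEC
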