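import Pool.Agent.SEC.E1a
import Pool.Agent.SEC.C1a

/-!
SEC-E1b (MP_d19687_ag, project SEC).
-/

open Filter Topology Pool.Agent.MP_d19687_ag Pool.Agent.RIG

namespace Pool.Agent.SEC

variable {T : Type*} [NormedAddCommGroup T] [NormedSpace ℂ T] [FiniteDimensional ℂ T]
  {U : Set T} {C : Set (T × T)}

/-- The leading jet of a symmetry is tangent to the fibre.

Proof. Chart `φ` at `(x, z)` (`exists_chart`).  By `IsChart.lieBracket_mem` (RIG/G3), for `y` near `x`,
`fderiv ℂ (fun y => φ (y, 0)) y (σ y) - fderiv ℂ σ y (φ (y, 0))` is in the range of `vert φ y` (up to sign;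
unfold `VectorField.lieBracket`).  `N` from `exists_annihilator (vert φ)` (RIG/G0): `N y (vert φ y s) = 0`
for `y` near `x`, and `N x w = 0` implies `w = vert φ x s`.  So near `x`
`N y (fderiv ℂ σ y (φ (y, 0))) = N y (fderiv ℂ (fun y => φ (y, 0)) y (σ y))`.  Take `D^(K-1)` at `x`: on the
right, `σ` has vanishing derivatives of order `≤ K - 1`, so the result is zero
(`iteratedFDeriv_clm_apply_of_vanish`); on the left, `fderiv ℂ σ` has vanishing derivatives of order
`< K - 1` (`norm_iteratedFDeriv_fderiv` or `iteratedFDeriv_succ_apply_right`), so the result is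
`N x ((D^(K-1) (fderiv σ) x v) (φ (x, 0)))
  = N x (iteratedFDeriv ℂ K σ x (Fin.snoc v z))` (`iteratedFDeriv_succ_apply_right`).  So this vector is in
`range (vert φ x)`, hence tangent to the fibre at `z` (`IsChart.isTangent_fibre`). -/
theorem leading_tangent (hC : IsConeStructure U C) {x : T} {σ : T → T} (hσ : Preserves C x σ)
    (K : ℕ) (h0 : ∀ j < K + 1, iteratedFDeriv ℂ j σ x = 0) {z : T} (hz : z ∈ fib C x)
    (v : Fin K → T) :
    IsTangent (fib C x) z (iteratedFDeriv ℂ (K + 1) σ x (Fin.snoc v z : Fin (K + 1) → T)) := by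
  have : CompleteSpace T := FiniteDimensional.complete ℂ T
  obtain ⟨d, φ, h⟩ := exists_chart hC (hz : (x, z) ∈ C)
  obtain ⟨N, hN, hN0, hNx⟩ := exists_annihilator (vert φ) x h.vert_an h.vert_inj
  set X : T → T := fun y => φ (y, 0) with hX
  have hXan : AnalyticAt ℂ X x := h.sec_an
  have hXx : X x = z := h.map0
  -- the two analytic families of linear maps
  let ev : T →L[ℂ] (T →L[ℂ] T) →L[ℂ] T := (ContinuousLinearMap.id ℂ (T →L[ℂ] T)).flip
  have hev : AnalyticAt ℂ (fun y => ev (X y)) x := by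
    have h1 : AnalyticAt ℂ (fun u => ev u) (X x) := ContinuousLinearMap.analyticAt (𝕜 := ℂ)
      (E := T) (F := (T →L[ℂ] T) →L[ℂ] T) ev (X x)
    exact AnalyticAt.comp (g := fun u => ev u) (f := X) h1 hXan
  have hM1 : AnalyticAt ℂ (fun y => (N y).comp (ev (X y))) x := g6_comp hN hev
  have hM2 : AnalyticAt ℂ (fun y => (N y).comp (fderiv ℂ X y)) x := g6_comp hN hXan.fderiv
  have hσan : AnalyticAt ℂ σ x := hσ.1
  have heq : (fun y => ((N y).comp (ev (X y))) (fderiv ℂ σ y)) =ᶠ[𝓝 x]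
      fun y => ((N y).comp (fderiv ℂ X y)) (σ y) := by
    filter_upwards [h.lieBracket_mem hσ, hN0] with y ⟨s, hs⟩ hy
    rw [VectorField.lieBracket_eq] at hs
    have h1 := hy s
    rw [← hs] at h1
    simp only [] at h1
    rw [map_sub, sub_eq_zero] at h1
    exact h1.symm
  have h1 : iteratedFDeriv ℂ K (fun y => ((N y).comp (ev (X y))) (fderiv ℂ σ y)) x =
      iteratedFDeriv ℂ K (fun y => ((N y).comp (fderiv ℂ X y)) (σ y)) x :=
    (Filter.EventuallyEq.iteratedFDeriv ℂ heq K).eq_of_nhds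
  have h2 := iteratedFDeriv_clm_apply_of_vanish (fun y => (N y).comp (ev (X y))) (fderiv ℂ σ) x hM1
    hσan.fderiv K (fun j hj => by
      rw [← norm_eq_zero, norm_iteratedFDeriv_fderiv, h0 (j + 1) (by omega), norm_zero]) v
  have h3 := iteratedFDeriv_clm_apply_of_vanish (fun y => (N y).comp (fderiv ℂ X y)) σ x hM2
    hσan K (fun j hj => h0 j (by omega)) v
  rw [h1, h3, h0 K (by omega)] at h2
  have h4 : N x (iteratedFDeriv ℂ (K + 1) σ x (Fin.snoc v z : Fin (K + 1) → T)) = 0 := by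
    rw [iteratedFDeriv_succ_apply_right, Fin.init_snoc, Fin.snoc_last, ← hXx]
    have h5 : ((N x).comp (ev (X x))) (iteratedFDeriv ℂ K (fderiv ℂ σ) x v) = 0 := by
      rw [← h2]
      simp
    exact h5
  obtain ⟨s, hs⟩ := hNx _ h4
  rw [hs]
  exact h.isTangent_fibre s

end Pool.Agent.SEC
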