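import Pool.Agent.SEC.Defs

/-!
SEC-E1c (MP_d19687_ag, project SEC).
-/

open Filter Topology Pool.Agent.MP_d19687_ag Pool.Agent.RIG

namespace Pool.Agent.SEC

/-- If the term of order `n` of a power series vanishes on the diagonal, then the `n`-th iterated
derivative vanishes. -/
theorem iteratedFDeriv_eq_zero_of_diag {E F : Type*} [NormedAddCommGroup E] [NormedSpace ℂ E]
    [NormedAddCommGroup F] [NormedSpace ℂ F] [CompleteSpace F] {f : E → F}
    {p : FormalMultilinearSeries ℂ E F} {x : E} {r : ENNReal} (h : HasFPowerSeriesOnBall f p x r)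
    (n : ℕ) (h0 : ∀ y, p n (fun _ => y) = 0) : iteratedFDeriv ℂ n f x = 0 := by
  classical
  let q : FormalMultilinearSeries ℂ E F := fun m => if m = n then 0 else p m
  have hq : HasFPowerSeriesOnBall f q x r := by
    refine ⟨h.r_le.trans (FormalMultilinearSeries.radius_le_of_le fun m => ?_), h.r_pos,
      fun {y} hy => ?_⟩
    · by_cases hm : m = n
      · simp [q, hm]
      · simp [q, hm]
    · have e : (fun m => q m fun _ => y) = fun m => p m fun _ => y := by
        funext m
        by_cases hm : m = n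
        · subst hm
          simp [q, h0]
        · simp [q, hm]
      rw [e]
      exact h.hasSum hy
  ext v
  rw [hq.iteratedFDeriv_eq_sum_of_completeSpace]
  simp [q]

variable {T : Type*} [NormedAddCommGroup T] [NormedSpace ℂ T] [FiniteDimensional ℂ T]

/-- An analytic germ all of whose derivatives vanish is zero. -/
theorem eventually_zero_of_iteratedFDeriv {σ : T → T} {x : T} (hσ : AnalyticAt ℂ σ x)
    (h : ∀ n, iteratedFDeriv ℂ n σ x = 0) : ∀ᶠ y in 𝓝 x, σ y = 0 := by
  have : CompleteSpace T := FiniteDimensional.complete ℂ T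
  obtain ⟨p, r, hp⟩ := hσ
  filter_upwards [Metric.eball_mem_nhds x hp.r_pos] with y hy
  have h1 := hp.hasSum_iteratedFDeriv (y := y - x) (by
    rw [Metric.mem_eball, edist_zero_right]
    rwa [Metric.mem_eball, edist_eq_enorm_sub] at hy)
  simp only [h, _root_.zero_apply, smul_zero] at h1
  rw [add_sub_cancel] at h1
  exact h1.unique hasSum_zero

/-- The leading jet of a germ vanishing to order at least `3` exists.

Proof. If all `iteratedFDeriv ℂ n σ x` vanish then `σ = 0` near `x` (Taylor series,
`HasFPowerSeriesOnBall.hasSum_iteratedFDeriv`).  Take the least `n` (`Nat.find`) with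
`iteratedFDeriv ℂ n σ x ≠ 0`; `n ≥ 3` as `σ = O(‖y - x‖^3)` (if `n ≤ 2`: on a line `y = x + t v`,
`σ = t^n / n! • D^n σ (v, …, v) + O(t^(n+1))`, so `D^n σ (v, …, v) = 0` for all `v` and `D^n σ = 0` by symmetry
(polarisation); or use the power series and `HasFPowerSeriesAt` uniqueness / `AnalyticAt` isBigO lemmas). -/
theorem exists_order {σ : T → T} {x : T} (hσ : AnalyticAt ℂ σ x) (hne : ¬ ∀ᶠ y in 𝓝 x, σ y = 0)
    (hO : σ =O[𝓝 x] fun y => ‖y - x‖ ^ 3) :
    ∃ k : ℕ, (∀ j < k + 3, iteratedFDeriv ℂ j σ x = 0) ∧ iteratedFDeriv ℂ (k + 3) σ x ≠ 0 := by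
  classical
  have : CompleteSpace T := FiniteDimensional.complete ℂ T
  have hex : ∃ n, iteratedFDeriv ℂ n σ x ≠ 0 := by
    by_contra hcon
    push Not at hcon
    exact hne (eventually_zero_of_iteratedFDeriv hσ hcon)
  have hn := Nat.find_spec hex
  have hmin : ∀ j < Nat.find hex, iteratedFDeriv ℂ j σ x = 0 :=
    fun j hj => by_contra fun h => Nat.find_min hex hj h
  generalize Nat.find hex = n at hn hmin
  have h3 : 3 ≤ n := by
    by_contra hlt
    apply hn
    obtain ⟨p, r, hp⟩ := hσ
    refine iteratedFDeriv_eq_zero_of_diag hp n fun y => ?_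
    refine Asymptotics.IsBigO.continuousMultilinearMap_apply_eq_zero (n := n) ?_ y
    have h1 := hp.hasFPowerSeriesAt.isBigO_sub_partialSum_pow (n + 1)
    have hlow : ∀ j < n, ∀ y : T, p j (fun _ => y) = 0 := by
      intro j hj y
      have h4 := hp.factorial_smul y j
      rw [hmin j hj, _root_.zero_apply, ← Nat.cast_smul_eq_nsmul ℂ,
        smul_eq_zero] at h4
      exact h4.resolve_left (Nat.cast_ne_zero.2 (Nat.factorial_ne_zero j))
    have ht : Tendsto (fun y : T => x + y) (𝓝 0) (𝓝 x) := by
      have : ContinuousAt (fun y : T => x + y) 0 := by fun_prop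
      simpa [ContinuousAt] using this
    have h2 : (fun y : T => σ (x + y)) =O[𝓝 0] fun y => ‖y‖ ^ (n + 1) := by
      have h5 : (fun y : T => σ (x + y)) =O[𝓝 0] fun y => ‖y‖ ^ 3 := by
        simpa [Function.comp_def] using hO.comp_tendsto ht
      refine h5.trans (Asymptotics.IsBigO.of_bound 1 ?_)
      filter_upwards [Metric.ball_mem_nhds (0 : T) one_pos] with y hy
      rw [mem_ball_zero_iff] at hy
      rw [one_mul, norm_pow, norm_norm, norm_pow, norm_norm]
      exact pow_le_pow_of_le_one (norm_nonneg y) hy.le (by omega)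
    have e : (fun y : T => p n fun _ => y) =
        fun y => σ (x + y) - (σ (x + y) - p.partialSum (n + 1) y) := by
      funext y
      rw [sub_sub_cancel, FormalMultilinearSeries.partialSum, Finset.sum_range_succ,
        Finset.sum_eq_zero fun j hj => hlow j (Finset.mem_range.1 hj) y, zero_add]
    rw [e]
    exact h2.sub h1
  obtain ⟨k, rfl⟩ := Nat.exists_eq_add_of_le' h3
  exact ⟨k, hmin, hn⟩

end Pool.Agent.SEC
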