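import Pool.Agent.SEC.E1b
import Pool.Agent.SEC.E1c
import Pool.Agent.SEC.D2c

/-!
SEC-E1d (MP_d19687_ag, project SEC).
-/

open Filter Topology Pool.Agent.MP_d19687_ag Pool.Agent.RIG

namespace Pool.Agent.SEC

theorem snoc_swap_last {E : Type*} {n : ℕ} (a : Fin n → E) (u v : E) :
    (Fin.snoc (Fin.snoc a u : Fin (n + 1) → E) v : Fin (n + 2) → E) ∘
      Equiv.swap (Fin.last n).castSucc (Fin.last (n + 1)) =
    (Fin.snoc (Fin.snoc a v : Fin (n + 1) → E) u : Fin (n + 2) → E) := by
  funext i
  refine Fin.lastCases ?_ (fun i => ?_) i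
  · simp
  · refine Fin.lastCases ?_ (fun i => ?_) i
    · simp
    · rw [Function.comp_apply, Equiv.swap_apply_of_ne_of_ne]
      · simp
      · simp [Fin.ext_iff, i.2.ne]
      · simp [Fin.ext_iff]
        omega

theorem snoc_comp_snoc {E : Type*} {n : ℕ} (a : Fin (n + 2) → E) (w : E) (i j : Fin (n + 2)) :
    (Fin.snoc a w : Fin (n + 3) → E) ∘ Equiv.swap i.castSucc j.castSucc =
      (Fin.snoc (a ∘ Equiv.swap i j) w : Fin (n + 3) → E) := by
  funext l
  refine Fin.lastCases ?_ (fun l => ?_) l
  · rw [Function.comp_apply, Equiv.swap_apply_of_ne_of_ne]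
    · simp
    · exact (Fin.castSucc_ne_last i).symm
    · exact (Fin.castSucc_ne_last j).symm
  · rw [Function.comp_apply]
    have h : Equiv.swap i.castSucc j.castSucc l.castSucc = (Equiv.swap i j l).castSucc := by
      rw [Equiv.swap_apply_def, Equiv.swap_apply_def]
      simp only [Fin.castSucc_inj]
      split_ifs <;> rfl
    rw [h]
    simp

variable {T : Type*} [NormedAddCommGroup T] [NormedSpace ℂ T] [FiniteDimensional ℂ T]
  {U : Set T} {C : Set (T × T)}

/-- A nonzero symmetry of order `≥ 3` gives a nonzero symmetric trilinear map tangent to the fibre.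

Proof. `k` from `exists_order`; `M := iteratedFDeriv ℂ (k + 3) σ x` is symmetric
(`ContDiffAt.iteratedFDeriv_comp_perm` or the like) and nonzero: `M m ≠ 0` for some `m`.  Fix the first `k`
entries `m'` of `m` and put `B u v w := M (m', w, v, u)` (build it with
`ContinuousMultilinearMap.curryLeft/curryRight`, or with `LinearMap.mk₂`-style constructions and
`LinearMap.toContinuousLinearMap`, everything is finite-dimensional).  `leading_tangent` with `K = k + 2`
and symmetry give the tangency. -/
theorem exists_trilinear (hC : IsConeStructure U C) {x : T} (h : HasNonzeroF2 C x) :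
    ∃ B : T →L[ℂ] T →L[ℂ] T →L[ℂ] T, SymTri B ∧ (∃ u v w, B u v w ≠ 0) ∧
      ∀ z ∈ fib C x, ∀ u v, IsTangent (fib C x) z (B z u v) := by
  obtain ⟨σ, hσ, hne, hO⟩ := h
  obtain ⟨k, h0, hk⟩ := exists_order hσ.1 hne hO
  have hperm : ∀ (v : Fin (k + 3) → T) (e : Equiv.Perm (Fin (k + 3))),
      iteratedFDeriv ℂ (k + 3) σ x (v ∘ e) = iteratedFDeriv ℂ (k + 3) σ x v :=
    fun v e => hσ.1.contDiffAt.iteratedFDeriv_comp_perm v e
  obtain ⟨m, hm⟩ : ∃ m, iteratedFDeriv ℂ (k + 3) σ x m ≠ 0 := by
    by_contra hcon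
    push Not at hcon
    exact hk (ContinuousMultilinearMap.ext hcon)
  have ht : ∀ z ∈ fib C x, ∀ v : Fin (k + 2) → T, IsTangent (fib C x) z
      (iteratedFDeriv ℂ (k + 3) σ x (Fin.snoc v z : Fin (k + 3) → T)) := fun z hz v =>
    leading_tangent hC hσ (k + 2) h0 hz v
  generalize iteratedFDeriv ℂ (k + 3) σ x = M at *
  let a : Fin k → T := fun i => m i.castSucc.castSucc.castSucc
  have hB : ∀ u v w, M.curryRight.curryRight.curryRight a u v w =
      M (Fin.snoc (Fin.snoc (Fin.snoc a u : Fin (k + 1) → T) v : Fin (k + 2) → T) w :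
        Fin (k + 3) → T) := fun u v w => rfl
  have h23 : ∀ u v w, M.curryRight.curryRight.curryRight a u v w =
      M.curryRight.curryRight.curryRight a u w v := by
    intro u v w
    rw [hB, hB, ← snoc_swap_last _ w v, hperm]
  have h12 : ∀ u v w, M.curryRight.curryRight.curryRight a u v w =
      M.curryRight.curryRight.curryRight a v u w := by
    intro u v w
    rw [hB, hB, ← snoc_swap_last a v u, ← snoc_comp_snoc, hperm]
  refine ⟨M.curryRight.curryRight.curryRight a, ⟨h12, h23⟩,
    ⟨m (Fin.last k).castSucc.castSucc, m (Fin.last (k + 1)).castSucc, m (Fin.last (k + 2)), ?_⟩,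
    fun z hz u v => ?_⟩
  · rw [hB]
    have e : (Fin.snoc (Fin.snoc (Fin.snoc a (m (Fin.last k).castSucc.castSucc) :
        Fin (k + 1) → T) (m (Fin.last (k + 1)).castSucc) : Fin (k + 2) → T)
        (m (Fin.last (k + 2))) : Fin (k + 3) → T) = m := by
      funext i
      refine Fin.lastCases ?_ (fun i => ?_) i
      · simp
      · refine Fin.lastCases ?_ (fun i => ?_) i
        · simp
        · refine Fin.lastCases ?_ (fun i => ?_) i
          · simp
          · simp [a]
    rw [e]
    exact hm
  · rw [h12, h23, hB]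
    exact ht z hz _

end Pool.Agent.SEC
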