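import Pool.Agent.SEC.L1a

/-!
SEC-L1b (MP_d19687_ag, project SEC).
-/

open Filter Topology Pool.Agent.MP_d19687_ag Pool.Agent.RIG

set_option linter.unusedSectionVars false

namespace Pool.Agent.SEC

/-- The manifold of the model. -/
private abbrev TL (m k : ℕ) := ℂ × (Fin (m + 2) → ℂ) × (Fin k → ℂ)

/-- Coordinates on the distribution. -/
private abbrev EL (k : ℕ) := ℂ × ℂ × (Fin k → ℂ)

section model

variable {m k : ℕ}

private theorem finrank_EL (k : ℕ) : Module.finrank ℂ (EL k) = k + 2 := by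
  simp [EL]; ring

private theorem finrank_TL (m k : ℕ) : Module.finrank ℂ (TL m k) = m + k + 3 := by
  simp [TL]; ring

/-- The constant part of the frame. -/
private noncomputable def PL (m k : ℕ) : EL k →L[ℂ] TL m k :=
  (ContinuousLinearMap.fst ℂ ℂ (ℂ × (Fin k → ℂ))).prod
    ((0 : EL k →L[ℂ] (Fin (m + 2) → ℂ)).prod
      ((ContinuousLinearMap.snd ℂ ℂ (Fin k → ℂ)).comp
        (ContinuousLinearMap.snd ℂ ℂ (ℂ × (Fin k → ℂ)))))

/-- The coordinate `β`. -/
private noncomputable def BL (k : ℕ) : EL k →L[ℂ] ℂ :=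
  (ContinuousLinearMap.fst ℂ ℂ (Fin k → ℂ)).comp
    (ContinuousLinearMap.snd ℂ ℂ (ℂ × (Fin k → ℂ)))

/-- The frame of the model. -/
private noncomputable def FL (y : TL m k) : EL k →L[ℂ] TL m k :=
  PL m k + ContinuousLinearMap.smulRightL ℂ (EL k) (TL m k) (BL k)
    ((0, gam (m + 2) 0 y.1, 0) : TL m k)

private theorem FL_apply (y : TL m k) (w : EL k) :
    FL y w = (w.1, w.2.1 • gam (m + 2) 0 y.1, w.2.2) := by
  simp [FL, PL, BL]

/-- The fields `(0, γ^{(j)}(x), 0)`. -/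
private noncomputable def gfL (m k j : ℕ) (y : TL m k) : TL m k := (0, gam (m + 2) j y.1, 0)

private theorem analyticAt_gfL (j : ℕ) (y : TL m k) : AnalyticAt ℂ (gfL m k j) y := by
  have h0 : AnalyticAt ℂ (fun _ : TL m k => (0 : ℂ)) y := analyticAt_const
  have h1 : AnalyticAt ℂ (fun y : TL m k => gam (m + 2) j y.1) y :=
    (analyticAt_gam (m + 2) j y.1).comp (f := fun y : TL m k => y.1) analyticAt_fst
  have h2 : AnalyticAt ℂ (fun _ : TL m k => (0 : Fin k → ℂ)) y := analyticAt_const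
  exact h0.prod (h1.prod h2)

private theorem analyticAt_FL (y : TL m k) : AnalyticAt ℂ (FL (m := m) (k := k)) y := by
  have h1 : AnalyticAt ℂ (fun _ : TL m k => PL m k) y := analyticAt_const
  have h3 : AnalyticAt ℂ (fun y : TL m k => ContinuousLinearMap.smulRightL ℂ (EL k) (TL m k)
      (BL k) (gfL m k 0 y)) y :=
    ((ContinuousLinearMap.smulRightL ℂ (EL k) (TL m k) (BL k)).analyticAt _).comp
      (analyticAt_gfL 0 y)
  exact h1.add h3

private theorem lieBracket_gfL (j : ℕ) :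
    VectorField.lieBracket ℂ (fun _ : TL m k => ((1, 0, 0) : TL m k)) (gfL m k j)
      = gfL m k (j + 1) := by
  funext y
  have h1 : HasFDerivAt (fun y : TL m k => gam (m + 2) j y.1)
      ((ContinuousLinearMap.toSpanSingleton ℂ (gam (m + 2) (j + 1) y.1)).comp
        (ContinuousLinearMap.fst ℂ ℂ ((Fin (m + 2) → ℂ) × (Fin k → ℂ)))) y :=
    HasFDerivAt.comp y (hasDerivAt_gam (m + 2) j y.1).hasFDerivAt hasFDerivAt_fst
  have h2 : HasFDerivAt (gfL m k j)
      ((0 : TL m k →L[ℂ] ℂ).prod (((ContinuousLinearMap.toSpanSingleton ℂ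
        (gam (m + 2) (j + 1) y.1)).comp
        (ContinuousLinearMap.fst ℂ ℂ ((Fin (m + 2) → ℂ) × (Fin k → ℂ)))).prod
        (0 : TL m k →L[ℂ] (Fin k → ℂ)))) y :=
    (hasFDerivAt_const (0 : ℂ) y).prodMk (h1.prodMk
      (hasFDerivAt_const (0 : Fin k → ℂ) y))
  rw [VectorField.lieBracket_eq]
  simp only [h2.fderiv, fderiv_fun_const]
  simp [gfL]

/-- The vertical primitive of `x² γ(x)`. -/
private noncomputable def gL (m : ℕ) (x : ℂ) : Fin (m + 2) → ℂ :=
  fun i => x ^ ((i : ℕ) + 3) / ((i : ℕ) + 3)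

private theorem hasDerivAt_gL (m : ℕ) (x : ℂ) :
    HasDerivAt (gL m) (x ^ 2 • gam (m + 2) 0 x) x := by
  rw [hasDerivAt_pi]
  intro i
  have h1 : HasDerivAt (fun x : ℂ => x ^ ((i : ℕ) + 3) / ((i : ℕ) + 3))
      ((((i : ℕ) + 3 : ℕ) : ℂ) * x ^ ((i : ℕ) + 3 - 1) / ((i : ℕ) + 3)) x :=
    (hasDerivAt_pow ((i : ℕ) + 3) x).div_const _
  have hne : ((i : ℕ) : ℂ) + 3 ≠ 0 := by exact_mod_cast (by omega : (i : ℕ) + 3 ≠ 0)
  refine h1.congr_deriv ?_
  rw [Pi.smul_apply, gam_zero, smul_eq_mul, ← pow_add]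
  have h3 : (i : ℕ) + 3 - 1 = 2 + (i : ℕ) := by omega
  rw [h3]
  push_cast
  field_simp

private theorem analyticAt_gL (m : ℕ) (x : ℂ) : AnalyticAt ℂ (gL m) x := by
  rw [analyticAt_pi_iff]
  intro i
  exact (analyticAt_id.pow _).div_const

/-- The symmetry. -/
private noncomputable def sL (m k : ℕ) (y : TL m k) : TL m k := (0, gL m y.1, 0)

private theorem analyticAt_sL (y : TL m k) : AnalyticAt ℂ (sL m k) y := by
  have h0 : AnalyticAt ℂ (fun _ : TL m k => (0 : ℂ)) y := analyticAt_const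
  have h1 : AnalyticAt ℂ (fun y : TL m k => gL m y.1) y :=
    (analyticAt_gL m y.1).comp (f := fun y : TL m k => y.1) analyticAt_fst
  have h2 : AnalyticAt ℂ (fun _ : TL m k => (0 : Fin k → ℂ)) y := analyticAt_const
  exact h0.prod (h1.prod h2)

private theorem fderiv_sL (y w : TL m k) :
    fderiv ℂ (sL m k) y w = (w.1 * y.1 ^ 2) • gfL m k 0 y := by
  have h1 : HasFDerivAt (fun y : TL m k => gL m y.1)
      ((ContinuousLinearMap.toSpanSingleton ℂ (y.1 ^ 2 • gam (m + 2) 0 y.1)).comp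
        (ContinuousLinearMap.fst ℂ ℂ ((Fin (m + 2) → ℂ) × (Fin k → ℂ)))) y :=
    HasFDerivAt.comp y (hasDerivAt_gL m y.1).hasFDerivAt hasFDerivAt_fst
  have h2 : HasFDerivAt (sL m k)
      ((0 : TL m k →L[ℂ] ℂ).prod (((ContinuousLinearMap.toSpanSingleton ℂ
        (y.1 ^ 2 • gam (m + 2) 0 y.1)).comp
        (ContinuousLinearMap.fst ℂ ℂ ((Fin (m + 2) → ℂ) × (Fin k → ℂ)))).prod
        (0 : TL m k →L[ℂ] (Fin k → ℂ)))) y :=
    (hasFDerivAt_const (0 : ℂ) y).prodMk (h1.prodMk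
      (hasFDerivAt_const (0 : Fin k → ℂ) y))
  rw [h2.fderiv]
  simp [gfL, smul_smul]

end model

section cone

variable {V : Type*} [NormedAddCommGroup V] [NormedSpace ℂ V] [FiniteDimensional ℂ V]

/-- A punctured linear subspace of dimension at least two is a smooth cone. -/
private theorem isSmoothCone_linear (W : Submodule ℂ V) (hW : 2 ≤ Module.finrank ℂ W) :
    IsSmoothCone {v : V | v ∈ W ∧ v ≠ 0} := by
  have hcl : IsClosed (W : Set V) := Submodule.closed_of_finiteDimensional W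
  refine ⟨fun v hv => hv.2, fun v hv c hc => ⟨W.smul_mem c hv.1, smul_ne_zero hc hv.2⟩, ?_, ?_, ?_⟩
  · have h1 : {v : V | v ∈ W ∧ v ≠ 0} ∪ {0} = (W : Set V) := by
      ext v
      by_cases hv : v = 0
      · simp [hv]
      · simp [hv]
    rw [h1]
    exact hcl
  · have h1 : {v : V | v ∈ W ∧ v ≠ 0} = ((↑) : W → V) '' ({0}ᶜ : Set W) := by
      ext v
      constructor
      · rintro ⟨hv, hv0⟩
        exact ⟨⟨v, hv⟩, fun h => hv0 (congrArg Subtype.val h), rfl⟩
      · rintro ⟨w, hw, rfl⟩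
        exact ⟨w.2, fun h => hw (Subtype.ext h)⟩
    rw [h1]
    refine IsConnected.image ?_ _ continuous_subtype_val.continuousOn
    have hr : (1 : Cardinal) < Module.rank ℝ W := by
      have h2 : Module.finrank ℝ W = 2 * Module.finrank ℂ W := by
        rw [← Module.finrank_mul_finrank ℝ ℂ W, Complex.finrank_real_complex]
      have : FiniteDimensional ℝ W := FiniteDimensional.trans ℝ ℂ W
      rw [← Module.finrank_eq_rank ℝ W, h2]
      exact_mod_cast (by omega : 1 < 2 * Module.finrank ℂ W)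
    exact isConnected_compl_singleton_of_one_lt_rank hr 0
  · rintro v ⟨hv, hv0⟩
    let e : (Fin (Module.finrank ℂ W) → ℂ) ≃L[ℂ] W :=
      ContinuousLinearEquiv.ofFinrankEq (by simp)
    let ψ : (Fin (Module.finrank ℂ W) → ℂ) →L[ℂ] V := W.subtypeL.comp (e : _ →L[ℂ] W)
    have hψ : HasFDerivAt (fun s => v + ψ s) ψ 0 := ψ.hasFDerivAt.const_add v
    refine ⟨Module.finrank ℂ W, fun s => v + ψ s, ?_, ?_, ?_, ?_, ?_⟩
    · exact analyticAt_const.add (ψ.analyticAt 0)
    · simp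
    · rw [hψ.fderiv]
      intro a b hab
      exact e.injective (Subtype.ext hab)
    · have hc : Tendsto (fun s => v + ψ s) (𝓝 0) (𝓝 (v + ψ 0)) :=
        (continuous_const.add ψ.continuous).tendsto 0
      rw [map_zero, add_zero] at hc
      filter_upwards [hc.eventually_ne hv0] with s hs
      exact ⟨W.add_mem hv (e s).2, hs⟩
    · intro S hS
      let g : W → (Fin (Module.finrank ℂ W) → ℂ) := fun w => e.symm (w - ⟨v, hv⟩)
      have hg : Tendsto g (𝓝 ⟨v, hv⟩) (𝓝 0) := by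
        have h1 : Continuous g := e.symm.continuous.comp (continuous_id.sub continuous_const)
        have h2 := h1.tendsto ⟨v, hv⟩
        simpa [g] using h2
      have h1 : ∀ᶠ w in 𝓝 (⟨v, hv⟩ : W), g w ∈ S := hg.eventually hS
      rw [nhds_subtype_eq_comap, eventually_comap] at h1
      rw [eventually_nhdsWithin_iff]
      filter_upwards [h1] with w hw hwZ
      refine ⟨g ⟨w, hwZ.1⟩, hw ⟨w, hwZ.1⟩ rfl, ?_⟩
      show v + ((e (e.symm (⟨w, hwZ.1⟩ - ⟨v, hv⟩)) : W) : V) = w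
      rw [ContinuousLinearEquiv.apply_symm_apply]
      simp

end cone

section main

variable {V : Type*} [NormedAddCommGroup V] [NormedSpace ℂ V] [FiniteDimensional ℂ V]

variable {m k : ℕ} (ι : V →L[ℂ] EL k) (W : Submodule ℂ V)

/-- The family of linear maps of the model. -/
private noncomputable def AL (m : ℕ) (ι : V →L[ℂ] EL k) (y : TL m k) : V →L[ℂ] TL m k :=
  (FL y).comp ι

private theorem AL_apply (y : TL m k) (w : V) :
    AL m ι y w = ((ι w).1, (ι w).2.1 • gam (m + 2) 0 y.1, (ι w).2.2) := by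
  simp [AL, FL_apply]

private theorem AL_eq_zero {y : TL m k} {w : V} (h : AL m ι y w = 0) : ι w = 0 := by
  rw [AL_apply] at h
  simp only [Prod.mk_eq_zero] at h
  obtain ⟨h1, h2, h3⟩ := h
  have h2' : (ι w).2.1 = 0 := (smul_eq_zero.1 h2).resolve_right (gam_ne_zero _ _)
  exact Prod.ext h1 (Prod.ext h2' h3)

private theorem analyticAt_AL (y : TL m k) : AnalyticAt ℂ (AL m ι) y := by
  have h : AnalyticAt ℂ (fun y : TL m k => (FL y).comp ι) y :=
    (((ContinuousLinearMap.compL ℂ V (EL k) (TL m k)).flip ι).analyticAt _).comp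
      (analyticAt_FL y)
  exact h

/-- `ι` restricts to a bijection from `W`. -/
private structure GoodL (W : Submodule ℂ V) (ι : V →L[ℂ] EL k) : Prop where
  inj : ∀ w ∈ W, ι w = 0 → w = 0
  surj : ∀ e : EL k, ∃ w ∈ W, ι w = e

private theorem exists_goodL (hk : Module.finrank ℂ W = k + 2) :
    ∃ ι : V →L[ℂ] EL k, GoodL W ι := by
  let e0 : W ≃L[ℂ] EL k := ContinuousLinearEquiv.ofFinrankEq (hk.trans (finrank_EL k).symm)
  obtain ⟨g, hg⟩ := LinearMap.exists_extend (e0.toLinearEquiv : W →ₗ[ℂ] EL k)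
  have hg' : ∀ w : W, g w = e0 w := fun w => by
    have := congrArg (fun f => f w) hg
    simpa using this
  refine ⟨LinearMap.toContinuousLinearMap g, ?_, ?_⟩
  · intro w hw h
    have h2 : e0 ⟨w, hw⟩ = 0 := by rw [← hg']; exact h
    rw [e0.map_eq_zero_iff] at h2
    exact congrArg Subtype.val h2
  · intro e
    refine ⟨(e0.symm e : W), Subtype.mem _, ?_⟩
    show g _ = e
    rw [hg']
    simp

/-- The cone of the model. -/
private noncomputable def CL (m : ℕ) (ι : V →L[ℂ] EL k) (W : Submodule ℂ V) :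
    Set (TL m k × TL m k) :=
  coneOf Set.univ (AL m ι) {v : V | v ∈ W ∧ v ≠ 0}

variable {ι W}

private theorem FL_mem (hι : GoodL W ι) (y : TL m k) (e : EL k) :
    FL y e ∈ fibreSpan (CL m ι W) y := by
  obtain ⟨w, hw, he⟩ := hι.surj e
  by_cases hw0 : w = 0
  · rw [← he, hw0, map_zero, map_zero]
    exact Submodule.zero_mem _
  · refine Submodule.subset_span ⟨Set.mem_univ _, w, ⟨hw, hw0⟩, ?_⟩
    show FL y e = FL y (ι w)
    rw [he]

private theorem iterBracket_gfL (hι : GoodL W ι) (y : TL m k) (j : ℕ) :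
    IterBracket (CL m ι W) y (gfL m k j) := by
  induction j with
  | zero =>
    refine IterBracket.base _ (analyticAt_gfL 0 y) (Eventually.of_forall fun y' => ?_)
    have := FL_mem hι y' (0, 1, 0)
    rw [FL_apply] at this
    simpa [gfL] using this
  | succ j ih =>
    rw [← lieBracket_gfL]
    refine IterBracket.bracket _ _ ?_ ih
    refine IterBracket.base _ analyticAt_const (Eventually.of_forall fun y' => ?_)
    have := FL_mem hι y' (1, 0, 0)
    rw [FL_apply] at this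
    simpa using this

private theorem isBracketGenerating_L (hι : GoodL W ι) :
    IsBracketGenerating Set.univ (CL m ι W) := by
  intro y _
  set S := Submodule.span ℂ
    {v : TL m k | ∃ X, IterBracket (CL m ι W) y X ∧ X y = v} with hS
  have m1 : ((1, 0, 0) : TL m k) ∈ S := by
    refine Submodule.subset_span ⟨fun _ => (1, 0, 0), ?_, rfl⟩
    refine IterBracket.base _ analyticAt_const (Eventually.of_forall fun y' => ?_)
    have := FL_mem hι y' (1, 0, 0)
    rw [FL_apply] at this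
    simpa using this
  have m3 : ∀ κ : Fin k → ℂ, ((0, 0, κ) : TL m k) ∈ S := by
    intro κ
    refine Submodule.subset_span ⟨fun _ => (0, 0, κ), ?_, rfl⟩
    refine IterBracket.base _ analyticAt_const (Eventually.of_forall fun y' => ?_)
    have := FL_mem hι y' (0, 0, κ)
    rw [FL_apply] at this
    simpa using this
  have m2 : ∀ u : Fin (m + 2) → ℂ, ((0, u, 0) : TL m k) ∈ S := by
    have hle : (⊤ : Submodule ℂ (Fin (m + 2) → ℂ)) ≤ S.comap
        ((LinearMap.inr ℂ ℂ ((Fin (m + 2) → ℂ) × (Fin k → ℂ))).comp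
          (LinearMap.inl ℂ (Fin (m + 2) → ℂ) (Fin k → ℂ))) := by
      rw [← span_gam (m + 2) y.1, Submodule.span_le]
      rintro _ ⟨j, rfl⟩
      exact Submodule.subset_span ⟨gfL m k j, iterBracket_gfL hι y j, rfl⟩
    intro u
    exact hle (Submodule.mem_top (x := u))
  rw [eq_top_iff]
  rintro ⟨a, u, κ⟩ -
  have hdec : ((a, u, κ) : TL m k) = a • (1, 0, 0) + ((0, u, 0) + (0, 0, κ)) := by
    ext <;> simp
  rw [hdec]
  exact S.add_mem (S.smul_mem _ m1) (S.add_mem (m2 u) (m3 κ))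

private theorem preserves_sL (hι : GoodL W ι) (x : TL m k) :
    Preserves (CL m ι W) x (sL m k) := by
  refine ⟨analyticAt_sL x, Eventually.of_forall fun y v hv => ?_⟩
  obtain ⟨_, z, ⟨hzW, hz0⟩, hvz⟩ := hv
  simp only at hvz
  obtain ⟨e, heW, he⟩ := hι.surj (0, 1, 0)
  have hAe : AL m ι y e = gfL m k 0 y := by
    rw [AL_apply, he]
    simp [gfL]
  have hA : ∀ (t : ℂ) (w : V), AL m ι (y + t • sL m k y) w = AL m ι y w := by
    intro t w
    rw [AL_apply, AL_apply]
    simp [sL]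
  have hv1 : v.1 = (ι z).1 := by rw [hvz, AL_apply]
  refine ⟨fun t => (y + t • sL m k y, v + t • ((v.1 * y.1 ^ 2) • gfL m k 0 y)), ?_, ?_, ?_, ?_⟩
  · exact (analyticAt_const.add (analyticAt_id.smul analyticAt_const)).prod
      (analyticAt_const.add (analyticAt_id.smul analyticAt_const))
  · simp
  · have h1 : HasDerivAt (fun t : ℂ => y + t • sL m k y) (sL m k y) 0 := by
      simpa using ((hasDerivAt_id (0 : ℂ)).smul_const (sL m k y)).const_add y
    have h2 : HasDerivAt (fun t : ℂ => v + t • ((v.1 * y.1 ^ 2) • gfL m k 0 y))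
        ((v.1 * y.1 ^ 2) • gfL m k 0 y) 0 := by
      simpa using ((hasDerivAt_id (0 : ℂ)).smul_const
        ((v.1 * y.1 ^ 2) • gfL m k 0 y)).const_add v
    rw [(h1.prodMk h2).deriv, fderiv_sL]
  · refine Eventually.of_forall fun t => ⟨Set.mem_univ _, z + (t * (v.1 * y.1 ^ 2)) • e,
      ⟨W.add_mem hzW (W.smul_mem _ heW), ?_⟩, ?_⟩
    · intro h0
      apply hz0
      apply hι.inj z hzW
      have h1 : ι z + (t * (v.1 * y.1 ^ 2)) • ι e = 0 := by
        rw [← map_smul, ← map_add, h0, map_zero]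
      rw [he] at h1
      have h2 : (ι z).1 = 0 := by
        have := congrArg (fun e : EL k => e.1) h1
        simpa using this
      rw [hv1, h2] at h1
      simpa using h1
    · show v + t • ((v.1 * y.1 ^ 2) • gfL m k 0 y) = AL m ι (y + t • sL m k y) _
      rw [hA, map_add, map_smul, hAe, smul_smul, ← hvz]

private theorem hasNonzeroF2_L (hι : GoodL W ι) : HasNonzeroF2 (CL m ι W) (0 : TL m k) := by
  refine ⟨sL m k, preserves_sL hι 0, ?_, ?_⟩
  · intro h
    have hlim : Tendsto (fun t : ℂ => t • ((1, 0, 0) : TL m k)) (𝓝[≠] 0) (𝓝 0) := by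
      have : Continuous fun t : ℂ => t • ((1, 0, 0) : TL m k) := by fun_prop
      have h := this.tendsto 0
      rw [zero_smul] at h
      exact h.mono_left nhdsWithin_le_nhds
    obtain ⟨t, ht, hne⟩ := ((hlim.eventually h).and self_mem_nhdsWithin).exists
    have h1 := congrArg (fun y : TL m k => y.2.1 0) ht
    simp only [sL, gL] at h1
    have h2 : t ^ 3 = 0 := by simpa using h1
    exact hne (pow_eq_zero_iff (three_ne_zero) |>.1 h2)
  · refine Asymptotics.IsBigO.of_bound 1 ?_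
    have hb : ∀ᶠ y : TL m k in 𝓝 0, ‖y.1‖ < 1 := by
      have hc : Tendsto (fun y : TL m k => ‖y.1‖) (𝓝 0) (𝓝 ‖(0 : TL m k).1‖) :=
        (continuous_fst.norm).tendsto 0
      rw [Prod.fst_zero, norm_zero] at hc
      exact hc.eventually_lt_const one_pos
    filter_upwards [hb] with y hy
    rw [sub_zero, one_mul, norm_pow, norm_norm]
    have h1 : ‖sL m k y‖ = ‖gL m y.1‖ := by
      simp [sL, Prod.norm_def]
    have h2 : ‖gL m y.1‖ ≤ ‖y.1‖ ^ 3 := by
      rw [pi_norm_le_iff_of_nonneg (by positivity)]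
      intro i
      show ‖y.1 ^ ((i : ℕ) + 3) / (((i : ℕ) : ℂ) + 3)‖ ≤ _
      rw [norm_div, norm_pow, pow_add]
      have h3 : (1 : ℝ) ≤ ‖((i : ℕ) : ℂ) + 3‖ := by
        have h4 : (((i : ℕ) : ℂ) + 3) = (((i : ℕ) + 3 : ℕ) : ℂ) := by push_cast; ring
        rw [h4, Complex.norm_natCast]
        exact_mod_cast (by omega : 1 ≤ (i : ℕ) + 3)
      have h5 : ‖y.1‖ ^ (i : ℕ) ≤ 1 := pow_le_one₀ (norm_nonneg _) hy.le
      calc ‖y.1‖ ^ (i : ℕ) * ‖y.1‖ ^ 3 / ‖((i : ℕ) : ℂ) + 3‖
          ≤ ‖y.1‖ ^ (i : ℕ) * ‖y.1‖ ^ 3 := div_le_self (by positivity) h3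
        _ ≤ 1 * ‖y.1‖ ^ 3 := by gcongr
        _ = ‖y.1‖ ^ 3 := one_mul _
    rw [h1]
    exact h2.trans (pow_le_pow_left₀ (norm_nonneg _) (norm_fst_le y) 3)

end main

/-- Linear spaces `ℙ(W)` of positive dimension occur in every larger `ℙ(V)`. -/
theorem occurs_linear {V : Type} [NormedAddCommGroup V] [NormedSpace ℂ V] [FiniteDimensional ℂ V]
    (W : Submodule ℂ V) (hW : 2 ≤ Module.finrank ℂ W) (hne : W ≠ ⊤) :
    Occurs {v : V | v ∈ W ∧ v ≠ 0} := by
  have hlt : Module.finrank ℂ W < Module.finrank ℂ V := Submodule.finrank_lt hne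
  obtain ⟨k, hk⟩ : ∃ k, Module.finrank ℂ W = k + 2 := ⟨Module.finrank ℂ W - 2, by omega⟩
  obtain ⟨m, hm⟩ : ∃ m, Module.finrank ℂ V = m + k + 3 :=
    ⟨Module.finrank ℂ V - (k + 3), by omega⟩
  obtain ⟨ι, hι⟩ := exists_goodL W hk
  have hZ := isSmoothCone_linear W hW
  have hspan : ∀ {z w : V}, z ∈ {v : V | v ∈ W ∧ v ≠ 0} →
      IsTangent {v : V | v ∈ W ∧ v ≠ 0} z w → w ∈ W := by
    intro z w hz hw
    have h1 := isTangent_mem_span hw hz
    have h2 : Submodule.span ℂ {v : V | v ∈ W ∧ v ≠ 0} ≤ W :=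
      Submodule.span_le.2 fun v hv => hv.1
    exact h2 h1
  refine ⟨TL m k, inferInstance, inferInstance, inferInstance, Set.univ, CL m ι W, ?_,
    isBracketGenerating_L hι, ⟨0, Set.mem_univ _, hasNonzeroF2_L hι⟩, ?_⟩
  · refine isConeStructure_coneOf isOpen_univ isConnected_univ hZ
      (fun y _ => analyticAt_AL ι y) ?_ ?_
    · intro y _ z hz z' hz' h
      have h1 : AL m ι y (z - z') = 0 := by rw [map_sub, h, sub_self]
      exact sub_eq_zero.1 (hι.inj _ (W.sub_mem hz.1 hz'.1) (AL_eq_zero ι h1))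
    · intro y _ z hz w hw h
      exact hι.inj w (hspan hz hw) (AL_eq_zero ι h)
  · obtain ⟨L, hL⟩ := exists_equiv_extend W (AL m ι (0 : TL m k) : V →ₗ[ℂ] TL m k)
      (fun w hw h => hι.inj w hw (AL_eq_zero ι h)) (hm.trans (finrank_TL m k).symm)
    refine ⟨0, Set.mem_univ _, L, ?_⟩
    rw [CL, fibre_coneOf (Set.mem_univ _)]
    exact Set.image_congr fun z hz => (hL z hz.1).symm

end Pool.Agent.SEC
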