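import Pool.Agent.SEC.C1a

/-!
SEC-L1c (MP_d19687_ag, project SEC).
-/

open Filter Topology Pool.Agent.MP_d19687_ag Pool.Agent.RIG

set_option linter.unusedSectionVars false

namespace Pool.Agent.SEC

section

variable {T : Type*} [NormedAddCommGroup T] [NormedSpace ℂ T] [FiniteDimensional ℂ T]
  {U : Set T} {C : Set (T × T)}

/-- Uniform injectivity of an analytic map which is immersive in the second variable. -/
private theorem inj_near {W : Type*} [NormedAddCommGroup W] [NormedSpace ℂ W] {d : ℕ} {x : T}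
    {f : T × (Fin d → ℂ) → W} (hf : AnalyticAt ℂ f (x, 0)) [CompleteSpace W]
    (hinj : ∀ s : Fin d → ℂ, fderiv ℂ f (x, 0) (0, s) = 0 → s = 0) :
    ∃ S ∈ 𝓝 (x, (0 : Fin d → ℂ)), ∀ (y : T) (s s' : Fin d → ℂ), (y, s) ∈ S → (y, s') ∈ S →
      f (y, s) = f (y, s') → s = s' := by
  have hs : HasStrictFDerivAt f (fderiv ℂ f (x, (0 : Fin d → ℂ))) (x, (0 : Fin d → ℂ)) :=
    hf.hasStrictFDerivAt
  let M : (Fin d → ℂ) →L[ℂ] W := (fderiv ℂ f (x, 0)).comp (ContinuousLinearMap.inr ℂ T (Fin d → ℂ))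
  have hM : ∀ s, M s = fderiv ℂ f (x, 0) (0, s) := fun s => rfl
  have hker : LinearMap.ker (M : (Fin d → ℂ) →ₗ[ℂ] W) = ⊥ := by
    rw [LinearMap.ker_eq_bot']
    intro s hs
    exact hinj s hs
  obtain ⟨K, hK, hanti⟩ := LinearMap.exists_antilipschitzWith (M : (Fin d → ℂ) →ₗ[ℂ] W) hker
  have hKr : (0 : ℝ) < K := by exact_mod_cast hK
  obtain ⟨S, hS, hap⟩ := hs.approximates_deriv_on_nhds
    (c := K⁻¹ / 2) (Or.inr (by positivity))
  refine ⟨S, hS, ?_⟩
  intro y s s' h1 h2 h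
  have h3 := hap _ h1 _ h2
  have h4 : ((y, s) : T × (Fin d → ℂ)) - (y, s') = (0, s - s') := by simp
  rw [h4, h, sub_self, zero_sub, norm_neg] at h3
  have h5 : ‖((0 : T), s - s')‖ = ‖s - s'‖ := by simp [Prod.norm_def]
  rw [h5, ← hM] at h3
  have h6 : ‖s - s'‖ ≤ K * ‖M (s - s')‖ := by
    have := hanti.le_mul_dist (s - s') 0
    simpa [dist_eq_norm] using this
  have h7 : (K : ℝ) * ‖M (s - s')‖ ≤ K * (((K⁻¹ / 2 : NNReal) : ℝ) * ‖s - s'‖) :=
    mul_le_mul_of_nonneg_left h3 hKr.le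
  have h8 : (K : ℝ) * (((K⁻¹ / 2 : NNReal) : ℝ) * ‖s - s'‖) = ‖s - s'‖ / 2 := by
    push_cast
    field_simp
  have h9 : ‖s - s'‖ = 0 := by
    have := norm_nonneg (s - s')
    linarith
  rw [norm_eq_zero, sub_eq_zero] at h9
  exact h9

/-- Near a point whose fibre is a point of the projective space, a chart is proportional to its
central section. -/
private theorem chart_prop (hC : IsConeStructure U C) {y q : T} {d : ℕ}
    {φ : T × (Fin d → ℂ) → T} (h : IsChart C y q d φ) (hfib : fibreSpan C y ≤ Submodule.span ℂ {q})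
    (ξ : T →L[ℂ] ℂ) (hξ : ξ q ≠ 0) :
    ∀ᶠ a in 𝓝 (y, (0 : Fin d → ℂ)),
      φ a = (ξ (φ a) / ξ (φ (a.1, 0))) • φ (a.1, 0) := by
  have : CompleteSpace T := FiniteDimensional.complete ℂ T
  have hξφ : AnalyticAt ℂ (fun a => ξ (φ a)) (y, (0 : Fin d → ℂ)) :=
    AnalyticAt.comp (g := ξ) (f := φ) (ξ.analyticAt _) h.an
  have hder : ∀ s : Fin d → ℂ, fderiv ℂ (fun a => ξ (φ a)) (y, 0) (0, s) = ξ (vert φ y s) := by
    intro s
    have h1 : HasFDerivAt (fun a => ξ (φ a)) (ξ.comp (fderiv ℂ φ (y, 0)))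
        (y, (0 : Fin d → ℂ)) :=
      ξ.hasFDerivAt.comp _ h.an.differentiableAt.hasFDerivAt
    rw [h1.fderiv]
    rfl
  obtain ⟨S, hS, hinj⟩ := inj_near hξφ (fun s hs => by
    rw [hder] at hs
    have h1 : vert φ y s ∈ Submodule.span ℂ {q} := hfib (h.range_vert_le.self_of_nhds s)
    obtain ⟨c, hc⟩ := Submodule.mem_span_singleton.1 h1
    rw [← hc, map_smul, smul_eq_mul] at hs
    have hc0 : c = 0 := (mul_eq_zero.1 hs).resolve_right hξ
    rw [hc0, zero_smul] at hc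
    apply h.vert_inj
    rw [← hc, map_zero])
  have hon := h.onto S hS
  rw [eventually_nhdsWithin_iff] at hon
  have hc1 : ContinuousAt φ (y, (0 : Fin d → ℂ)) := h.an.continuousAt
  have hc0 : ContinuousAt (fun a : T × (Fin d → ℂ) => ((a.1, (0 : Fin d → ℂ)) : T × (Fin d → ℂ)))
      (y, 0) := by fun_prop
  have hc2 : ContinuousAt (fun a : T × (Fin d → ℂ) => φ (a.1, 0)) (y, 0) :=
    ContinuousAt.comp (g := φ)
      (f := fun a : T × (Fin d → ℂ) => ((a.1, (0 : Fin d → ℂ)) : T × (Fin d → ℂ))) hc1 hc0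
  have hx1 : ContinuousAt (fun a : T × (Fin d → ℂ) => ξ (φ a)) (y, 0) :=
    ξ.continuous.continuousAt.comp hc1
  have hx2 : ContinuousAt (fun a : T × (Fin d → ℂ) => ξ (φ (a.1, 0))) (y, 0) :=
    ContinuousAt.comp (g := ξ) (f := fun a : T × (Fin d → ℂ) => φ (a.1, 0))
      ξ.continuous.continuousAt hc2
  have hv1 : ξ (φ (y, (0 : Fin d → ℂ))) ≠ 0 := by rw [h.map0]; exact hξ
  have hF : Tendsto (fun a : T × (Fin d → ℂ) =>
      ((a.1, (ξ (φ a) / ξ (φ (a.1, 0))) • φ (a.1, 0)) : T × T)) (𝓝 (y, 0)) (𝓝 (y, q)) := by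
    have h1 : ContinuousAt (fun a : T × (Fin d → ℂ) =>
      ((a.1, (ξ (φ a) / ξ (φ (a.1, 0))) • φ (a.1, 0)) : T × T)) (y, 0) :=
      continuous_fst.continuousAt.prodMk ((hx1.div hx2 hv1).smul hc2)
    have h2 := h1.tendsto
    simp only [h.map0, div_self hξ, one_smul] at h2
    exact h2
  have hmem0 : ∀ᶠ a : T × (Fin d → ℂ) in 𝓝 (y, 0), (a.1, φ (a.1, 0)) ∈ C := by
    have h1 := hc0.eventually (h.mem : ∀ᶠ q in 𝓝 (y, (0 : Fin d → ℂ)), (q.1, φ q) ∈ C)
    exact h1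
  filter_upwards [hF.eventually hon, hx1.eventually_ne hv1, hx2.eventually_ne hv1, hmem0, hS]
    with a h1 h2 h3 h4 h5
  obtain ⟨b, hb, hab⟩ := h1 (hC.smul_mem _ h4 _ (div_ne_zero h2 h3))
  have hb1 : a.1 = b.1 := (Prod.mk.inj hab).1
  have hb2 : (ξ (φ a) / ξ (φ (a.1, 0))) • φ (a.1, 0) = φ b := (Prod.mk.inj hab).2
  have hb3 : ξ (φ b) = ξ (φ a) := by
    rw [← hb2, map_smul, smul_eq_mul, div_mul_cancel₀ _ h3]
  have hbe : b = (a.1, b.2) := by rw [hb1]
  have hb4 : b.2 = a.2 := by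
    refine hinj a.1 b.2 a.2 ?_ h5 ?_
    · rw [← hbe]; exact hb
    · rw [← hbe]; exact hb3
  have hb5 : b = a := Prod.ext hb1.symm hb4
  rw [hb2, hb5]

/-- The fibres near a point of the projective space are points. -/
private theorem fibres_near (hC : IsConeStructure U C) {y q : T} (hy : y ∈ U) {d : ℕ}
    {φ : T × (Fin d → ℂ) → T} (h : IsChart C y q d φ) (hq : q ≠ 0)
    (hfib : fibreSpan C y ≤ Submodule.span ℂ {q}) :
    ∀ᶠ u in 𝓝 y, ∀ v, (u, v) ∈ C → v ∈ Submodule.span ℂ {φ (u, 0)} := by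
  have : ProperSpace T := FiniteDimensional.proper ℂ T
  obtain ⟨ξ, hξ⟩ := SeparatingDual.exists_ne_zero (R := ℂ) hq
  have hP := chart_prop hC h hfib ξ hξ
  by_contra hcon
  have hcon' : ∃ᶠ u in 𝓝 y, ∃ v, (u, v) ∈ C ∧ v ∉ Submodule.span ℂ {φ (u, 0)} := by
    refine (not_eventually.1 hcon).mono ?_
    intro u hu
    push Not at hu
    exact hu
  obtain ⟨u, hlim, hu⟩ := exists_seq_forall_of_frequently hcon'
  choose v hv hvn using hu
  have hvne : ∀ n, v n ≠ 0 := fun n => hC.ne_zero _ (hv n)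
  have hqn : (‖q‖ : ℂ) ≠ 0 := by exact_mod_cast norm_ne_zero_iff.2 hq
  have hvc : ∀ n, (‖v n‖ : ℂ) ≠ 0 := fun n => by exact_mod_cast norm_ne_zero_iff.2 (hvne n)
  have hcn : ∀ n, ((‖q‖ : ℂ) / (‖v n‖ : ℂ)) ≠ 0 := fun n => div_ne_zero hqn (hvc n)
  have hw : ∀ n, ((‖q‖ : ℂ) / (‖v n‖ : ℂ)) • v n ∈ Metric.sphere (0 : T) ‖q‖ := by
    intro n
    rw [mem_sphere_iff_norm, sub_zero, norm_smul, norm_div, Complex.norm_real, Complex.norm_real,
      norm_norm, norm_norm, div_mul_cancel₀ _ (norm_ne_zero_iff.2 (hvne n))]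
  obtain ⟨w₀, hw₀, θ, hθ, hwlim⟩ := (isCompact_sphere (0 : T) ‖q‖).tendsto_subseq hw
  have hw₀n : w₀ ≠ 0 := by
    rintro rfl
    rw [mem_sphere_iff_norm, sub_zero, norm_zero] at hw₀
    exact hq (norm_eq_zero.1 hw₀.symm)
  have hpair : Tendsto (fun n => (u (θ n), ((‖q‖ : ℂ) / (‖v (θ n)‖ : ℂ)) • v (θ n))) atTop
      (𝓝 (y, w₀)) := (hlim.comp hθ.tendsto_atTop).prodMk_nhds hwlim
  have hcl : (y, w₀) ∈ closure C :=
    mem_closure_of_tendsto hpair (Eventually.of_forall fun n => hC.smul_mem _ (hv _) _ (hcn _))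
  have hyw : (y, w₀) ∈ C := hC.closed _ hcl hy hw₀n
  obtain ⟨c, hc⟩ := Submodule.mem_span_singleton.1 (hfib (Submodule.subset_span hyw))
  have hc0 : c ≠ 0 := by
    rintro rfl
    rw [zero_smul] at hc
    exact hw₀n hc.symm
  have hon := h.onto _ hP
  have hlim2 : Tendsto (fun n => ((u (θ n),
      c⁻¹ • (((‖q‖ : ℂ) / (‖v (θ n)‖ : ℂ)) • v (θ n))) : T × T)) atTop (𝓝[C] (y, q)) := by
    refine tendsto_nhdsWithin_iff.2 ⟨?_, Eventually.of_forall fun n => ?_⟩
    · have h1 : Tendsto (fun n => c⁻¹ • (((‖q‖ : ℂ) / (‖v (θ n)‖ : ℂ)) • v (θ n))) atTop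
          (𝓝 (c⁻¹ • w₀)) := hwlim.const_smul c⁻¹
      rw [← hc, smul_smul, inv_mul_cancel₀ hc0, one_smul] at h1
      exact (hlim.comp hθ.tendsto_atTop).prodMk_nhds h1
    · exact hC.smul_mem _ (hC.smul_mem _ (hv _) _ (hcn _)) _ (inv_ne_zero hc0)
  obtain ⟨n, a, ha, han⟩ := (hlim2.eventually hon).exists
  have ha1 : u (θ n) = a.1 := (Prod.mk.inj han).1
  have ha2 : c⁻¹ • (((‖q‖ : ℂ) / (‖v (θ n)‖ : ℂ)) • v (θ n)) = φ a := (Prod.mk.inj han).2
  have ha3 : φ a ∈ Submodule.span ℂ {φ (u (θ n), 0)} := by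
    have h1 : φ a = (ξ (φ a) / ξ (φ (a.1, 0))) • φ (a.1, 0) := ha
    rw [h1, ha1]
    exact Submodule.smul_mem _ _ (Submodule.mem_span_singleton_self _)
  apply hvn (θ n)
  rw [← ha2, smul_smul] at ha3
  exact (Submodule.smul_mem_iff _ (mul_ne_zero (inv_ne_zero hc0) (hcn _))).1 ha3

/-- Iterated brackets of sections of a line field are sections of it. -/
private theorem iter_mem {y : T} {s : T → T} (hs : AnalyticAt ℂ s y) (hs0 : s y ≠ 0)
    (hsp : ∀ᶠ u in 𝓝 y, fibreSpan C u ≤ Submodule.span ℂ {s u}) {X : T → T}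
    (hX : IterBracket C y X) : ∀ᶠ u in 𝓝 y, X u ∈ Submodule.span ℂ {s u} := by
  have : CompleteSpace T := FiniteDimensional.complete ℂ T
  obtain ⟨ξ, hξ⟩ := SeparatingDual.exists_ne_zero (R := ℂ) hs0
  have hξs : AnalyticAt ℂ (fun u => ξ (s u)) y :=
    AnalyticAt.comp (g := ξ) (f := s) (ξ.analyticAt _) hs
  have hne : ∀ᶠ u in 𝓝 y, ξ (s u) ≠ 0 := hξs.continuousAt.eventually_ne hξ
  -- the coefficient of a section
  have key : ∀ Z : T → T, AnalyticAt ℂ Z y → (∀ᶠ u in 𝓝 y, Z u ∈ Submodule.span ℂ {s u}) →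
      ∃ f : T → ℂ, AnalyticAt ℂ f y ∧ ∀ᶠ u in 𝓝 y, Z u = f u • s u := by
    intro Z hZ hZs
    have hξZ : AnalyticAt ℂ (fun u => ξ (Z u)) y :=
      AnalyticAt.comp (g := ξ) (f := Z) (ξ.analyticAt _) hZ
    refine ⟨fun u => ξ (Z u) / ξ (s u), hξZ.div hξs hξ, ?_⟩
    filter_upwards [hZs, hne] with u h1 h2
    obtain ⟨c, hc⟩ := Submodule.mem_span_singleton.1 h1
    rw [← hc, map_smul, smul_eq_mul, mul_div_assoc, div_self h2, mul_one]
  induction hX with
  | base X hX hD =>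
    filter_upwards [hD, hsp] with u h1 h2
    exact h2 h1
  | bracket X Y hX hY ihX ihY =>
    obtain ⟨f, hf, hfX⟩ := key X (IterBracket.an hX) ihX
    obtain ⟨g, hg, hgY⟩ := key Y (IterBracket.an hY) ihY
    filter_upwards [hfX.eventually_nhds, hgY.eventually_nhds, hf.eventually_analyticAt,
      hg.eventually_analyticAt, hs.eventually_analyticAt] with u h1 h2 h3 h4 h5
    have d1 : HasFDerivAt X (f u • fderiv ℂ s u + (fderiv ℂ f u).smulRight (s u)) u :=
      (h3.differentiableAt.hasFDerivAt.smul h5.differentiableAt.hasFDerivAt).congr_of_eventuallyEq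
        h1
    have d2 : HasFDerivAt Y (g u • fderiv ℂ s u + (fderiv ℂ g u).smulRight (s u)) u :=
      (h4.differentiableAt.hasFDerivAt.smul h5.differentiableAt.hasFDerivAt).congr_of_eventuallyEq
        h2
    have e1 : X u = f u • s u := h1.self_of_nhds
    have e2 : Y u = g u • s u := h2.self_of_nhds
    rw [g7_lb, d1.fderiv, d2.fderiv]
    have e3 : (g u • fderiv ℂ s u + (fderiv ℂ g u).smulRight (s u)) (X u) -
        (f u • fderiv ℂ s u + (fderiv ℂ f u).smulRight (s u)) (Y u) =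
        (fderiv ℂ g u (X u) - fderiv ℂ f u (Y u)) • s u := by
      rw [add_apply, add_apply,
        smul_apply, smul_apply,
        ContinuousLinearMap.smulRight_apply, ContinuousLinearMap.smulRight_apply]
      conv_lhs =>
        rw [show (fderiv ℂ s u) (X u) = f u • fderiv ℂ s u (s u) by rw [e1, map_smul],
          show (fderiv ℂ s u) (Y u) = g u • fderiv ℂ s u (s u) by rw [e2, map_smul]]
      rw [smul_comm (g u) (f u), sub_smul]
      abel
    rw [e3]
    exact Submodule.smul_mem _ _ (Submodule.mem_span_singleton_self _)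

end

/-- A point does not occur in a projective space of positive dimension.

Proof. Let `C` be a cone structure on `U ⊆ T`, `dim T ≥ 2`, whose fibre at `y` is `{c • q | c ≠ 0}`.
By compactness the fibres near `y` are also points, so `y ∈ regularLocus` and the distribution is
spanned near `y` by one analytic vector field `s`; iterated brackets of multiples of `s` are
multiples of `s`, contradicting `IsBracketGenerating` and `dim T ≥ 2`. -/
theorem not_occurs_point {V : Type} [NormedAddCommGroup V] [NormedSpace ℂ V]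
    [FiniteDimensional ℂ V] (hV : 2 ≤ Module.finrank ℂ V) (p : V) (hp : p ≠ 0) :
    ¬ Occurs {v : V | v ∈ Submodule.span ℂ {p} ∧ v ≠ 0} := by
  rintro ⟨T, _, _, _, U, C, hC, hB, -, y, hy, L, hL⟩
  have hq : L p ≠ 0 := by
    intro h
    exact hp (L.map_eq_zero_iff.1 h)
  have hqC : (y, L p) ∈ C := by
    have h1 : L p ∈ {v : T | (y, v) ∈ C} := by
      rw [hL]
      exact ⟨p, ⟨Submodule.mem_span_singleton_self p, hp⟩, rfl⟩
    exact h1
  have hfib : fibreSpan C y ≤ Submodule.span ℂ {L p} := by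
    rw [fibreSpan, Submodule.span_le, hL]
    rintro _ ⟨v, ⟨hv, -⟩, rfl⟩
    obtain ⟨c, rfl⟩ := Submodule.mem_span_singleton.1 hv
    rw [map_smul]
    exact Submodule.smul_mem _ _ (Submodule.mem_span_singleton_self _)
  obtain ⟨d, φ, h⟩ := exists_chart hC hqC
  have hnear := fibres_near hC hy h hq hfib
  have hle : ∀ᶠ u in 𝓝 y, fibreSpan C u ≤ Submodule.span ℂ {φ (u, 0)} := by
    filter_upwards [hnear] with u hu
    exact Submodule.span_le.2 fun v hv => hu v hv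
  have hfin : ∀ᶠ u in 𝓝 y, Module.finrank ℂ (fibreSpan C u) = 1 := by
    filter_upwards [hle, h.g3_sec_mem_cone] with u h1 h2
    have h3 : fibreSpan C u = Submodule.span ℂ {φ (u, 0)} := by
      refine le_antisymm h1 ?_
      rw [Submodule.span_singleton_le_iff_mem]
      exact Submodule.subset_span h2
    rw [h3]
    exact finrank_span_singleton (hC.ne_zero _ h2)
  have hreg : y ∈ regularLocus U C := by
    refine ⟨hy, ?_⟩
    filter_upwards [hfin] with u hu
    rw [hu, hfin.self_of_nhds]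
  have hspan := hB y hreg
  have hs0 : φ (y, 0) ≠ 0 := by rw [h.map0]; exact hq
  have hle2 : Submodule.span ℂ {v : T | ∃ X, IterBracket C y X ∧ X y = v} ≤
      Submodule.span ℂ {φ (y, 0)} := by
    rw [Submodule.span_le]
    rintro _ ⟨X, hX, rfl⟩
    exact (iter_mem (s := fun u => φ (u, 0)) h.sec_an hs0 hle hX).self_of_nhds
  rw [hspan] at hle2
  have h1 : Module.finrank ℂ T ≤ 1 := by
    have h2 := Submodule.finrank_mono hle2
    rw [finrank_top, finrank_span_singleton hs0] at h2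
    exact h2
  have h3 := L.finrank_eq
  omega

end Pool.Agent.SEC
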