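import Pool.Agent.SEC.C1d
import Pool.Agent.SEC.C1e
import Pool.Agent.SEC.D2e
import Pool.Agent.SEC.E1d
import Pool.Agent.SEC.L1b
import Pool.Agent.SEC.L1c

/-!
SEC-F1 (MP_d19687_ag, project SEC).
-/

open Filter Topology Pool.Agent.MP_d19687_ag Pool.Agent.RIG

namespace Pool.Agent.SEC

/-- The secant cone of a linear image. -/
theorem secSet_image {V V' : Type*} [NormedAddCommGroup V] [NormedSpace ℂ V] [FiniteDimensional ℂ V]
    [NormedAddCommGroup V'] [NormedSpace ℂ V'] [FiniteDimensional ℂ V'] (L : V ≃ₗ[ℂ] V')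
    (Z : Set V) : SecSet (L '' Z) = L '' SecSet Z := by
  have h1 : ∀ (z w : V), IsTangent Z z w → IsTangent (L '' Z) (L z) (L w) := by
    intro z w h
    have h2 : IsTangent (L.symm '' (L '' Z)) (L.symm (L z)) w := by
      rw [L.symm_apply_apply, ← Set.image_comp]
      have h3 : (L.symm ∘ L) = id := by
        funext v
        simp
      rw [h3, Set.image_id]
      exact h
    have h4 := isTangent_image L.symm h2
    simpa using h4
  ext w
  constructor
  · rintro (⟨z, ⟨a, ha, rfl⟩, z', ⟨b, hb, rfl⟩, h⟩ | ⟨z, ⟨a, ha, rfl⟩, h⟩)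
    · exact ⟨a - b, Or.inl ⟨a, ha, b, hb, rfl⟩, by rw [map_sub, h]⟩
    · exact ⟨L.symm w, Or.inr ⟨a, ha, isTangent_image L h⟩, L.apply_symm_apply w⟩
  · rintro ⟨v, (⟨a, ha, b, hb, h⟩ | ⟨a, ha, h⟩), rfl⟩
    · exact Or.inl ⟨L a, ⟨a, ha, rfl⟩, L b, ⟨b, hb, rfl⟩, by rw [← h, map_sub]⟩
    · exact Or.inr ⟨L a, ⟨a, ha, rfl⟩, h1 a v h⟩

/-- If one fibre is secant-full and not everything, no symmetry has order `≥ 3` anywhere. -/
theorem no_f2 {T : Type*} [NormedAddCommGroup T] [NormedSpace ℂ T] [FiniteDimensional ℂ T]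
    {U : Set T} {C : Set (T × T)} (hC : IsConeStructure U C) {y : T} (hy : y ∈ U)
    (h : SecSet (fib C y) = Set.univ) (hne : fib C y ≠ {v | v ≠ 0}) :
    ∀ x ∈ U, ¬ HasNonzeroF2 C x := by
  intro x hx hf
  have hfull := secSet_univ_all hC hy h x hx
  have hZ := isSmoothCone_fib hC hx
  have hnex : fib C x ≠ {v | v ≠ 0} := fun h0 => hne (fib_full_all hC hx h0 y hy)
  obtain ⟨B, hB, ⟨u, v, w, huvw⟩, htan⟩ := exists_trilinear hC hf
  exact huvw (trilinear_zero hZ (ter_of_secSet_eq_univ hZ hfull) hnex hB htan u v w)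

theorem not_occurs_of_secSet {V : Type} [NormedAddCommGroup V] [NormedSpace ℂ V]
    [FiniteDimensional ℂ V] {Z : Set V} (h : SecSet Z = Set.univ) (hne : Z ≠ {v | v ≠ 0}) :
    ¬ Occurs Z := by
  rintro ⟨T, i1, i2, i3, U, C, hC, -, ⟨x, hx, hf⟩, y, hy, L, hL⟩
  have hfd : FiniteDimensional ℂ V := inferInstance
  have h1 : SecSet (fib C y) = Set.univ := by
    change SecSet {v : T | (y, v) ∈ C} = Set.univ
    rw [hL, secSet_image, h, Set.image_univ]
    exact Set.range_eq_univ.2 L.surjective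
  have h2 : fib C y ≠ {v | v ≠ 0} := by
    intro h0
    apply hne
    have h3 : L '' Z = {v : T | v ≠ 0} := by
      rw [← hL]
      exact h0
    ext v
    constructor
    · intro hv
      have h4 : L v ∈ {v : T | v ≠ 0} := h3 ▸ Set.mem_image_of_mem L hv
      intro hv0
      exact h4 (by rw [hv0, map_zero])
    · intro hv
      have h4 : L v ∈ L '' Z := by
        rw [h3]
        intro h5
        exact hv (L.map_eq_zero_iff.1 h5)
      obtain ⟨a, ha, hav⟩ := h4
      rwa [← L.injective hav]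
  exact no_f2 hC hy h1 h2 x hx hf

/-- The classification of the nondegenerate fibres, and all degenerate ones except the linearly
normal ones whose secant variety is their span. -/
theorem classification {V : Type} [NormedAddCommGroup V] [NormedSpace ℂ V] [FiniteDimensional ℂ V]
    (Z : Set V) (hZ : IsSmoothCone Z) :
    (Submodule.span ℂ Z = ⊤ → (Occurs Z ↔ Z = {v | v ≠ 0} ∨ ∃ p, p ∉ SecSet Z)) ∧
    (Submodule.span ℂ Z ≠ ⊤ → ((∃ p ∈ Submodule.span ℂ Z, p ∉ SecSet Z) ∨ ¬ LinearlyNormal Z) →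
      Occurs Z) ∧
    (Submodule.span ℂ Z ≠ ⊤ → Z = {v | v ∈ Submodule.span ℂ Z ∧ v ≠ 0} →
      (Occurs Z ↔ 2 ≤ Module.finrank ℂ (Submodule.span ℂ Z))) := by
  have hjump : ∀ p ∈ Submodule.span ℂ Z, p ∉ SecSet Z → Occurs Z := by
    intro p hp hpn
    obtain ⟨h1, h2⟩ := notMem_secSet.1 hpn
    have h3 := occurs_of_jump Z hZ p hp h1 h2 (Submodule.finrank_le _) (LinearMap.id)
      (fun w _ hw => ⟨0, by rw [zero_smul]; exact hw⟩)
    have h4 : (LinearMap.id : V →ₗ[ℂ] V) '' Z = Z := Set.image_id Z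
    rwa [h4] at h3
  refine ⟨fun hspan => ⟨fun hocc => ?_, ?_⟩, fun hspan => ?_, fun hspan hlin => ?_⟩
  · by_contra hno
    obtain ⟨h1, h2⟩ := not_or.1 hno
    have h3 : SecSet Z = Set.univ := by
      by_contra h4
      exact h2 ((Set.ne_univ_iff_exists_notMem _).1 h4)
    exact not_occurs_of_secSet h3 h1 hocc
  · rintro (h | ⟨p, hp⟩)
    · have hnt : Nontrivial V := by
        obtain ⟨z, hz⟩ := hZ.isConnected.nonempty
        exact ⟨z, 0, hZ.ne_zero z hz⟩
      rw [h]
      exact occurs_top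
    · exact hjump p (hspan ▸ Submodule.mem_top) hp
  · rintro (⟨p, hp, hpn⟩ | hLN)
    · exact hjump p hp hpn
    · obtain ⟨T, i1, i2, i3, U, C, h1, h2, x, hx, h3, L, h4⟩ :=
        occursAt_of_not_linearlyNormal hZ hspan hLN
      exact ⟨T, i1, i2, i3, U, C, h1, h2, ⟨x, hx, h3⟩, x, hx, L, h4⟩
  · constructor
    · intro hocc
      by_contra hlt
      rw [not_le] at hlt
      obtain ⟨z, hz⟩ := hZ.isConnected.nonempty
      have hz0 : z ≠ 0 := hZ.ne_zero z hz
      have hzs : z ∈ Submodule.span ℂ Z := Submodule.subset_span hz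
      -- the span is a line
      have hle : Submodule.span ℂ {z} ≤ Submodule.span ℂ Z :=
        Submodule.span_mono (Set.singleton_subset_iff.2 hz)
      have h1 : Module.finrank ℂ (Submodule.span ℂ ({z} : Set V)) = 1 := finrank_span_singleton hz0
      have h2 : Submodule.span ℂ ({z} : Set V) = Submodule.span ℂ Z :=
        Submodule.eq_of_le_of_finrank_le hle (by omega)
      have h3 : 2 ≤ Module.finrank ℂ V := by
        have h4 := Submodule.finrank_lt hspan
        rw [← h2] at h4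
        omega
      apply not_occurs_point h3 z hz0
      rw [h2, ← hlin]
      exact hocc
    · intro h2
      rw [hlin]
      exact occurs_linear _ h2 hspan

end Pool.Agent.SEC
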