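import Pool.Agent.SEC.Defs

/-!
SEC-L1a (MP_d19687_ag, project SEC).
-/

open Filter Topology Pool.Agent.MP_d19687_ag Pool.Agent.RIG

namespace Pool.Agent.SEC

/-- `Occurs` is invariant under linear isomorphisms. -/
theorem occurs_image {V V' : Type} [NormedAddCommGroup V] [NormedSpace ℂ V]
    [NormedAddCommGroup V'] [NormedSpace ℂ V'] (L : V ≃ₗ[ℂ] V') {Z : Set V} (h : Occurs Z) :
    Occurs (L '' Z) := by
  obtain ⟨T, i1, i2, i3, U, C, h1, h2, h3, y, hy, L₀, hL⟩ := h
  refine ⟨T, i1, i2, i3, U, C, h1, h2, h3, y, hy, L.symm.trans L₀, ?_⟩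
  rw [hL, Set.image_image]
  refine Set.image_congr fun v _ => ?_
  simp

/-- The full projective space occurs.

Proof. By `occurs_image` for `V = Fin n → ℂ`, `n = m + 1` (or do it directly on `V` with a linear form
`ξ ≠ 0` and a vector `e`, `ξ e = 1`).  `U = univ`, `C = {p | p.2 ≠ 0}`; the chart at `p` is
`φ (y, s) = p.2 + (s in coordinates)`; `fibreSpan = ⊤` (a nontrivial space is spanned by its nonzero vectors),
so constant vector fields are sections and `IsBracketGenerating` holds;
`σ y = (ξ y)^3 • e` at `x = 0` is nonzero, `O(‖y‖^3)`, and preserves `C`: the curve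
`t ↦ (y + t σ y, v + t dσ_y v)` has nonzero second component for `t` near `0`.
The fibres are connected: `isConnected_compl_singleton_of_one_lt_rank`. -/
theorem occurs_top {V : Type} [NormedAddCommGroup V] [NormedSpace ℂ V] [FiniteDimensional ℂ V]
    [Nontrivial V] : Occurs {v : V | v ≠ 0} := by
  have hrk : 1 < Module.rank ℝ V := by
    rw [rank_real_of_complex]
    have h1 : (1 : Cardinal) ≤ Module.rank ℂ V := Cardinal.one_le_iff_pos.2 rank_pos
    calc (1 : Cardinal) < 2 := by exact_mod_cast Nat.one_lt_two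
      _ = 2 * 1 := (mul_one 2).symm
      _ ≤ 2 * Module.rank ℂ V := by gcongr
  have hconn : IsConnected ({v : V | v ≠ 0}) :=
    isConnected_compl_singleton_of_one_lt_rank hrk 0
  obtain ⟨e, he⟩ := exists_ne (0 : V)
  obtain ⟨ξ, hξ⟩ := SeparatingDual.exists_ne_zero (R := ℂ) he
  have hspan : ∀ y : V, fibreSpan {p : V × V | p.2 ≠ 0} y = ⊤ := by
    intro y
    refine (Submodule.eq_top_iff').2 fun v => ?_
    by_cases hv : v = 0
    · rw [hv]
      exact Submodule.zero_mem _
    · exact Submodule.subset_span hv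
  have hnear : ∀ v w : V, v ≠ 0 → ∀ᶠ t : ℂ in 𝓝 0, v + t • w ≠ 0 := by
    intro v w hv
    have h4 : Tendsto (fun t : ℂ => v + t • w) (𝓝 0) (𝓝 v) := by
      have : ContinuousAt (fun t : ℂ => v + t • w) 0 := by fun_prop
      simpa [ContinuousAt] using this
    exact h4.eventually_ne hv
  refine ⟨V, inferInstance, inferInstance, inferInstance, Set.univ, {p : V × V | p.2 ≠ 0},
    ?_, ?_, ?_, 0, Set.mem_univ _, LinearEquiv.refl ℂ V, ?_⟩
  · refine ⟨isOpen_univ, ⟨Set.univ_nonempty,
      (convex_univ : Convex ℝ (Set.univ : Set V)).isPreconnected⟩, fun p _ => Set.mem_univ _,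
      fun p hp => hp, fun p hp c hc => smul_ne_zero hc hp, fun p _ _ hp => hp, fun y _ => hconn,
      ?_⟩
    intro p hp
    let f : (Fin (Module.finrank ℂ V) → ℂ) ≃L[ℂ] V :=
      ContinuousLinearEquiv.ofFinrankEq (by simp)
    have hφ : Continuous fun q : V × (Fin (Module.finrank ℂ V) → ℂ) => p.2 + f q.2 :=
      continuous_const.add (f.continuous.comp continuous_snd)
    refine ⟨Module.finrank ℂ V, fun q => p.2 + f q.2, ?_, by simp, ?_, ?_, ?_⟩
    · exact analyticAt_const.add
        (((f : (Fin (Module.finrank ℂ V) → ℂ) →L[ℂ] V).analyticAt _).comp analyticAt_snd)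
    · have h1 : fderiv ℂ (fun s : Fin (Module.finrank ℂ V) → ℂ => p.2 + f s) 0 =
          (f : (Fin (Module.finrank ℂ V) → ℂ) →L[ℂ] V) := by
        rw [fderiv_const_add]
        exact f.fderiv
      show Function.Injective (fderiv ℂ (fun s : Fin (Module.finrank ℂ V) → ℂ => p.2 + f s) 0)
      rw [h1]
      exact f.injective
    · have h2 : Tendsto (fun q : V × (Fin (Module.finrank ℂ V) → ℂ) => p.2 + f q.2)
          (𝓝 (p.1, 0)) (𝓝 p.2) := by
        have := hφ.tendsto (p.1, 0)
        simpa using this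
      exact h2.eventually_ne hp
    · intro S hS
      have h3 : Tendsto (fun q : V × V => (q.1, f.symm (q.2 - p.2))) (𝓝 p)
          (𝓝 (p.1, (0 : Fin (Module.finrank ℂ V) → ℂ))) := by
        have hc : Continuous fun q : V × V => (q.1, f.symm (q.2 - p.2)) :=
          continuous_fst.prodMk (f.symm.continuous.comp (continuous_snd.sub continuous_const))
        have := hc.tendsto p
        simpa using this
      refine Filter.Eventually.filter_mono nhdsWithin_le_nhds ?_
      filter_upwards [h3 hS] with q hq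
      refine ⟨_, hq, ?_⟩
      simp
  · intro y _
    refine (Submodule.eq_top_iff').2 fun v => Submodule.subset_span ?_
    refine ⟨fun _ => v, IterBracket.base _ analyticAt_const (Eventually.of_forall fun y' => ?_),
      rfl⟩
    rw [hspan]
    exact Submodule.mem_top
  · refine ⟨0, Set.mem_univ _, fun y => (ξ y) ^ 3 • e, ⟨?_, ?_⟩, ?_, ?_⟩
    · exact ((ξ.analyticAt 0).pow 3).smul analyticAt_const
    · refine Eventually.of_forall fun y v hv => ?_
      have hv' : v ≠ 0 := hv
      set w : V := fderiv ℂ (fun y => (ξ y) ^ 3 • e) y v with hw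
      refine ⟨fun t => (y + t • ((ξ y) ^ 3 • e), v + t • w), ?_, by simp, ?_, ?_⟩
      · exact (analyticAt_const.add (analyticAt_id.smul analyticAt_const)).prod
          (analyticAt_const.add (analyticAt_id.smul analyticAt_const))
      · have g1 : HasDerivAt (fun t : ℂ => y + t • ((ξ y) ^ 3 • e)) ((1 : ℂ) • ((ξ y) ^ 3 • e)) 0 :=
          ((hasDerivAt_id (0 : ℂ)).smul_const _).const_add y
        have g2 : HasDerivAt (fun t : ℂ => v + t • w) ((1 : ℂ) • w) 0 :=
          ((hasDerivAt_id (0 : ℂ)).smul_const _).const_add v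
        have g3 := (g1.prodMk g2).deriv
        rw [one_smul, one_smul] at g3
        exact g3
      · exact hnear v w hv'
    · intro hev
      have h5 : Tendsto (fun t : ℂ => t • e) (𝓝 0) (𝓝 0) := by
        have : ContinuousAt (fun t : ℂ => t • e) 0 := by fun_prop
        simpa [ContinuousAt] using this
      have h6 : ∀ᶠ t : ℂ in 𝓝[≠] 0, (ξ (t • e)) ^ 3 • e = 0 :=
        (h5.eventually hev).filter_mono nhdsWithin_le_nhds
      obtain ⟨t, ht, ht0⟩ := (h6.and self_mem_nhdsWithin).exists
      rw [map_smul, smul_eq_mul] at ht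
      rcases smul_eq_zero.1 ht with h7 | h7
      · exact (mul_ne_zero ht0 hξ) (pow_eq_zero_iff (three_ne_zero)|>.1 h7)
      · exact he h7
    · refine Asymptotics.IsBigO.of_bound (‖ξ‖ ^ 3 * ‖e‖) (Eventually.of_forall fun y => ?_)
      rw [norm_smul, norm_pow, sub_zero, norm_pow, norm_norm]
      have h8 : ‖ξ y‖ ^ 3 ≤ (‖ξ‖ * ‖y‖) ^ 3 :=
        pow_le_pow_left₀ (norm_nonneg _) (ξ.le_opNorm y) 3
      calc ‖ξ y‖ ^ 3 * ‖e‖ ≤ (‖ξ‖ * ‖y‖) ^ 3 * ‖e‖ :=
            mul_le_mul_of_nonneg_right h8 (norm_nonneg _)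
        _ = ‖ξ‖ ^ 3 * ‖e‖ * ‖y‖ ^ 3 := by ring
  · ext v
    simp

end Pool.Agent.SEC
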