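import Pool.Agent.SEC.B4c
import Pool.Agent.SEC.C1b

/-!
SEC-R1 (MP_d19687_ag, project SEC): degenerate cones, seen in their linear span.
-/

open Filter Topology Pool.Agent.MP_d19687_ag Pool.Agent.RIG

namespace Pool.Agent.SEC

variable {V : Type*} [NormedAddCommGroup V] [NormedSpace ℂ V] [FiniteDimensional ℂ V]

/-- The secant variety is the whole span. -/
def SecRel (Z : Set V) : Prop := ∀ w ∈ Submodule.span ℂ Z, w ∈ SecSet Z

/-- Two tangent spaces span the span. -/
def TerRel (Z : Set V) : Prop :=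
  ∃ α ∈ Z, ∃ γ ∈ Z, ∀ v ∈ Submodule.span ℂ Z,
    ∃ w₁ w₂ : V, IsTangent Z α w₁ ∧ IsTangent Z γ w₂ ∧ w₁ + w₂ = v

/-- `Z` as a subset of its span. -/
def inSpan (Z : Set V) : Set (Submodule.span ℂ Z) := {w | (w : V) ∈ Z}

private theorem exists_proj_span (Z : Set V) :
    ∃ π : V →L[ℂ] Submodule.span ℂ Z, ∀ w (hw : w ∈ Submodule.span ℂ Z), π w = ⟨w, hw⟩ := by
  obtain ⟨π, hπ⟩ : (Submodule.span ℂ Z).ClosedComplemented :=
    Submodule.ClosedComplemented.of_finiteDimensional _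
  exact ⟨π, fun w hw => hπ ⟨w, hw⟩⟩

/-- Compose curves with the inclusion, respectively with a projection `π : V →L span Z`. -/
theorem isTangent_inSpan {Z : Set V} (z w : Submodule.span ℂ Z) :
    IsTangent (inSpan Z) z w ↔ IsTangent Z (z : V) (w : V) := by
  obtain ⟨π, hπ⟩ := exists_proj_span Z
  constructor
  · rintro ⟨γ, h1, h2, h3, h4⟩
    refine ⟨fun t => (Submodule.span ℂ Z).subtypeL (γ t), ?_, ?_, ?_, ?_⟩
    · exact AnalyticAt.comp (g := (Submodule.span ℂ Z).subtypeL) (f := γ)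
        ((Submodule.span ℂ Z).subtypeL.analyticAt _) h1
    · show (Submodule.span ℂ Z).subtypeL (γ 0) = (z : V)
      rw [h2]
      rfl
    · have h5 : HasDerivAt γ (deriv γ 0) 0 := h1.differentiableAt.hasDerivAt
      have h6 := ((Submodule.span ℂ Z).subtypeL.hasFDerivAt (x := γ 0)).comp_hasDerivAt (0 : ℂ) h5
      rw [show deriv (fun t => (Submodule.span ℂ Z).subtypeL (γ t)) 0 =
        (Submodule.span ℂ Z).subtypeL (deriv γ 0) from h6.deriv, h3]
      rfl
    · filter_upwards [h4] with t ht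
      exact ht
  · rintro ⟨γ, h1, h2, h3, h4⟩
    refine ⟨fun t => π (γ t), ?_, ?_, ?_, ?_⟩
    · exact AnalyticAt.comp (g := π) (f := γ) (π.analyticAt _) h1
    · show π (γ 0) = z
      rw [h2]
      exact hπ z z.2
    · have h5 : HasDerivAt γ (deriv γ 0) 0 := h1.differentiableAt.hasDerivAt
      have h6 := (π.hasFDerivAt (x := γ 0)).comp_hasDerivAt (0 : ℂ) h5
      rw [show deriv (fun t => π (γ t)) 0 = π (deriv γ 0) from h6.deriv, h3]
      exact hπ w w.2
    · filter_upwards [h4] with t ht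
      show ((π (γ t) : Submodule.span ℂ Z) : V) ∈ Z
      rw [hπ _ (Submodule.subset_span ht)]
      exact ht

/-- Proof. Let `π : V →L span Z` be a continuous linear map with `π w = w` for `w ∈ span Z`
(finite-dimensional).  Charts `s ↦ π (φ s)`.  The map `w ↦ (w : V)` restricts to a homeomorphism from
`inSpan Z` to `Z`. -/
theorem isSmoothCone_inSpan {Z : Set V} (hZ : IsSmoothCone Z) : IsSmoothCone (inSpan Z) := by
  obtain ⟨π, hπ⟩ := exists_proj_span Z
  refine ⟨?_, ?_, ?_, ?_, ?_⟩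
  · rintro v hv rfl
    exact hZ.ne_zero _ hv rfl
  · intro v hv c hc
    exact hZ.smul_mem _ hv c hc
  · have h1 : inSpan Z ∪ {0} = (Subtype.val : Submodule.span ℂ Z → V) ⁻¹' (Z ∪ {0}) := by
      ext w
      constructor
      · rintro (h | h)
        · exact Or.inl h
        · refine Or.inr ?_
          rw [Set.mem_singleton_iff] at h ⊢
          rw [h]
          rfl
      · rintro (h | h)
        · exact Or.inl h
        · refine Or.inr ?_
          rw [Set.mem_singleton_iff] at h ⊢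
          exact Subtype.ext h
    rw [h1]
    exact hZ.isClosed.preimage continuous_subtype_val
  · have h1 : inSpan Z = π '' Z := by
      ext w
      constructor
      · intro h
        exact ⟨(w : V), h, hπ _ w.2⟩
      · rintro ⟨v, hv, rfl⟩
        show ((π v : Submodule.span ℂ Z) : V) ∈ Z
        rw [hπ _ (Submodule.subset_span hv)]
        exact hv
    rw [h1]
    exact hZ.isConnected.image _ π.continuous.continuousOn
  · intro v hv
    obtain ⟨d, φ, h1, h2, h3, h4, h5⟩ := hZ.chart (v : V) hv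
    have htan : ∀ a, fderiv ℂ φ 0 a ∈ Submodule.span ℂ Z := fun a =>
      isTangent_mem_span ((isTangent_iff (⟨h1, h2, h3, h4, h5⟩ : IsChartZ Z (v : V) d φ) _).2
        ⟨a, rfl⟩) hv
    refine ⟨d, fun s => π (φ s), ?_, ?_, ?_, ?_, ?_⟩
    · exact AnalyticAt.comp (g := π) (f := φ) (π.analyticAt _) h1
    · show π (φ 0) = v
      rw [h2]
      exact hπ _ v.2
    · have h6 : HasFDerivAt (fun s => π (φ s)) (π.comp (fderiv ℂ φ 0)) 0 :=
        (π.hasFDerivAt (x := φ 0)).comp (0 : Fin d → ℂ) h1.differentiableAt.hasFDerivAt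
      rw [h6.fderiv]
      intro a b hab
      refine h3 ?_
      have h7 : π (fderiv ℂ φ 0 a) = π (fderiv ℂ φ 0 b) := hab
      rw [hπ _ (htan a), hπ _ (htan b)] at h7
      exact congrArg Subtype.val h7
    · filter_upwards [h4] with s hs
      show ((π (φ s) : Submodule.span ℂ Z) : V) ∈ Z
      rw [hπ _ (Submodule.subset_span hs)]
      exact hs
    · intro S hS
      have h6 : Tendsto (Subtype.val : Submodule.span ℂ Z → V) (𝓝[inSpan Z] v) (𝓝[Z] (v : V)) := by
        refine tendsto_nhdsWithin_of_tendsto_nhds_of_eventually_within _ ?_ ?_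
        · exact (continuous_subtype_val.tendsto v).mono_left nhdsWithin_le_nhds
        · exact eventually_mem_nhdsWithin
      filter_upwards [h6.eventually (h5 S hS)] with w hw
      obtain ⟨s, hs, hsw⟩ := hw
      refine ⟨s, hs, ?_⟩
      show π (φ s) = w
      rw [hsw]
      exact hπ _ w.2

theorem mem_secSet_inSpan {Z : Set V} (w : Submodule.span ℂ Z) :
    w ∈ SecSet (inSpan Z) ↔ (w : V) ∈ SecSet Z := by
  constructor
  · rintro (⟨z, hz, z', hz', h⟩ | ⟨z, hz, h⟩)
    · exact Or.inl ⟨z, hz, z', hz', by rw [← h]; rfl⟩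
    · exact Or.inr ⟨z, hz, (isTangent_inSpan z w).1 h⟩
  · rintro (⟨z, hz, z', hz', h⟩ | ⟨z, hz, h⟩)
    · exact Or.inl ⟨⟨z, Submodule.subset_span hz⟩, hz, ⟨z', Submodule.subset_span hz'⟩, hz',
        Subtype.ext h⟩
    · exact Or.inr ⟨⟨z, Submodule.subset_span hz⟩, hz,
        (isTangent_inSpan ⟨z, Submodule.subset_span hz⟩ w).2 h⟩

/-- `ter_of_secSet_eq_univ` for `inSpan Z`. -/
theorem terRel_of_secRel {Z : Set V} (hZ : IsSmoothCone Z) (h : SecRel Z) : TerRel Z := by
  have h1 : SecSet (inSpan Z) = Set.univ :=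
    Set.eq_univ_of_forall fun w => (mem_secSet_inSpan w).2 (h _ w.2)
  obtain ⟨α, hα, γ, hγ, hαγ⟩ := ter_of_secSet_eq_univ (isSmoothCone_inSpan hZ) h1
  refine ⟨α, hα, γ, hγ, fun v hv => ?_⟩
  obtain ⟨w₁, w₂, h2, h3, h4⟩ := hαγ ⟨v, hv⟩
  exact ⟨w₁, w₂, (isTangent_inSpan _ _).1 h2, (isTangent_inSpan _ _).1 h3,
    congrArg Subtype.val h4⟩

/-- `interior_of_ter`, `secSet_eq_univ_of_interior` for `inSpan Z` (tangent vectors of `Z` are in
`span Z`: `isTangent_mem_span`). -/
theorem secRel_of_terRel {Z : Set V} (hZ : IsSmoothCone Z) (h : TerRel Z) : SecRel Z := by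
  obtain ⟨α, hα, γ, hγ, hαγ⟩ := h
  have h1 : Ter (inSpan Z) := by
    refine ⟨⟨α, Submodule.subset_span hα⟩, hα, ⟨γ, Submodule.subset_span hγ⟩, hγ, fun v => ?_⟩
    obtain ⟨w₁, w₂, h2, h3, h4⟩ := hαγ v v.2
    exact ⟨⟨w₁, isTangent_mem_span h2 hα⟩, ⟨w₂, isTangent_mem_span h3 hγ⟩,
      (isTangent_inSpan _ _).2 h2, (isTangent_inSpan _ _).2 h3, Subtype.ext h4⟩
  have hZ' := isSmoothCone_inSpan hZ
  have h2 := secSet_eq_univ_of_interior hZ' (interior_of_ter hZ' h1)
  intro w hw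
  refine (mem_secSet_inSpan ⟨w, hw⟩).1 ?_
  rw [h2]
  trivial

end Pool.Agent.SEC
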