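import Pool.Agent.SEC.C1a
import Pool.Agent.RIG.J4

/-!
SEC-R2 (MP_d19687_ag, project SEC): the rank of the distribution spanned by a cone structure.
-/

open Filter Topology Pool.Agent.MP_d19687_ag Pool.Agent.RIG

namespace Pool.Agent.SEC

variable {T : Type*} [NormedAddCommGroup T] [NormedSpace ℂ T] [FiniteDimensional ℂ T]
  {U : Set T} {C : Set (T × T)}

/-- Independent vectors in a subspace. -/
private theorem card_le_of_indep {n : ℕ} {w : Fin n → T} {W : Submodule ℂ T} (hw : ∀ j, w j ∈ W)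
    (hi : LinearIndependent ℂ w) : n ≤ Module.finrank ℂ W := by
  have h1 := finrank_span_eq_card hi
  have h2 : Submodule.span ℂ (Set.range w) ≤ W := by
    rw [Submodule.span_le]
    rintro _ ⟨j, rfl⟩
    exact hw j
  have h3 := Submodule.finrank_mono h2
  rw [h1, Fintype.card_fin] at h3
  exact h3

/-- The rank is lower semicontinuous.  (`exists_proj`, RIG/J4: points `φ_i (y, 0)` of the fibres, linearly
independent for `y` near `u₀`, spanning `fibreSpan C u₀` for `y = u₀`.) -/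
theorem finrank_le_near (hC : IsConeStructure U C) {u₀ : T} (hu₀ : u₀ ∈ U) :
    ∀ᶠ u in 𝓝 u₀, Module.finrank ℂ (fibreSpan C u₀) ≤ Module.finrank ℂ (fibreSpan C u) := by
  obtain ⟨r, v, d, φ, P, hφ, -, hr, -, -, -, hind⟩ := exists_proj hC u₀
  have hmem : ∀ᶠ u in 𝓝 u₀, ∀ i, (u, φ i (u, 0)) ∈ C := by
    rw [eventually_all]
    intro i
    have h1 : Tendsto (fun u : T => (u, (0 : Fin (d i) → ℂ))) (𝓝 u₀) (𝓝 (u₀, 0)) :=
      (continuous_id.prodMk continuous_const).tendsto u₀
    exact h1.eventually (hφ i).mem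
  filter_upwards [hind, hmem] with u h1 h2
  rw [hr]
  exact card_le_of_indep (fun i => Submodule.subset_span (h2 i)) h1

/-- A linear map which is the identity matrix on independent vectors. -/
private theorem exists_coord {n : ℕ} {z : Fin n → T} (hz : LinearIndependent ℂ z) :
    ∃ P : T →L[ℂ] (Fin n → ℂ), ∀ j, P (z j) = Pi.single j 1 := by
  have hinj : LinearMap.ker (Fintype.linearCombination ℂ z) = ⊥ := by
    rw [LinearMap.ker_eq_bot]
    exact hz.fintypeLinearCombination_injective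
  obtain ⟨g, hg⟩ := LinearMap.exists_leftInverse_of_injective _ hinj
  refine ⟨LinearMap.toContinuousLinearMap g, fun j => ?_⟩
  have h1 : Fintype.linearCombination ℂ z (Pi.single j 1) = z j := by
    rw [Fintype.linearCombination_apply_single, one_smul]
  have h2 := LinearMap.congr_fun hg (Pi.single j 1)
  rw [LinearMap.comp_apply, h1, LinearMap.id_apply] at h2
  exact h2

omit [FiniteDimensional ℂ T] in
/-- The determinant of the coordinates of dependent vectors is zero. -/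
private theorem det_of_dep {n : ℕ} {w : Fin n → T} (P : T →L[ℂ] (Fin n → ℂ))
    (hw : ¬ LinearIndependent ℂ w) : Matrix.det (Matrix.of fun i j => P (w j) i) = 0 := by
  rw [Fintype.not_linearIndependent_iff] at hw
  obtain ⟨g, hg, i, hi⟩ := hw
  rw [← Matrix.exists_mulVec_eq_zero_iff]
  refine ⟨g, fun h => hi (congrFun h i), ?_⟩
  funext k
  have h1 : P (∑ j, g j • w j) k = 0 := by rw [hg, map_zero]; rfl
  rw [map_sum] at h1
  simp only [Finset.sum_apply, map_smul, Pi.smul_apply, smul_eq_mul] at h1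
  simp only [Matrix.mulVec, dotProduct, Matrix.of_apply, Pi.zero_apply]
  rw [← h1]
  exact Finset.sum_congr rfl fun j _ => mul_comm _ _

/-- Unit vectors of the cone which are independent. -/
private theorem exists_unit (hC : IsConeStructure U C) {u : T} {r : ℕ}
    (h : r + 1 ≤ Module.finrank ℂ (fibreSpan C u)) :
    ∃ z : Fin (r + 1) → T, (∀ j, (u, z j) ∈ C) ∧ (∀ j, ‖z j‖ = 1) ∧ LinearIndependent ℂ z := by
  obtain ⟨v, hv, -, hi⟩ := Submodule.exists_fun_fin_finrank_span_eq ℂ {v : T | (u, v) ∈ C}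
  change r + 1 ≤ Module.finrank ℂ (Submodule.span ℂ {v : T | (u, v) ∈ C}) at h
  have hi' : LinearIndependent ℂ (v ∘ Fin.castLE h) := hi.comp _ (Fin.castLE_injective h)
  have hne : ∀ j, v (Fin.castLE h j) ≠ 0 := fun j => hi'.ne_zero j
  have hn : ∀ j, ((‖v (Fin.castLE h j)‖ : ℂ)⁻¹) ≠ 0 := fun j =>
    inv_ne_zero (by exact_mod_cast norm_ne_zero_iff.2 (hne j))
  refine ⟨fun j => ((‖v (Fin.castLE h j)‖ : ℂ)⁻¹) • v (Fin.castLE h j), fun j => ?_, fun j => ?_, ?_⟩
  · exact hC.smul_mem (u, v (Fin.castLE h j)) (hv _) _ (hn j)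
  · rw [norm_smul, norm_inv, Complex.norm_real, norm_norm]
    exact inv_mul_cancel₀ (norm_ne_zero_iff.2 (hne j))
  · exact hi'.units_smul fun j => Units.mk0 _ (hn j)

/-- If the rank is `≤ r` on open sets accumulating at `u₀`, it is `≤ r` near `u₀`.

Proof. Suppose not: there are `u k → u₀`, `u k ∈ U`, with `finrank (fibreSpan C (u k)) ≥ r + 1`, so
`r + 1` linearly independent vectors `z k j ∈ fib C (u k)` (`j : Fin (r + 1)`), of norm `1` after scaling.
Subsequence: `z k j → z₀ j`, `(u₀, z₀ j) ∈ C` by `hC.closed`.  Charts `φ_j` at `(u₀, z₀ j)`, analytic on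
`B × B'` (balls around `u₀`, `0`) with values in the fibres; `z k j = φ_j (u k, s k j)`, `s k j → 0`
(`lift_near`).  Fix `k` with `u k ∈ B`, `s k j ∈ B'`, and a linear map `P : T →L (Fin (r + 1) → ℂ)` with
`det (P (z k j))_{ij} ≠ 0` (the vectors are independent).  `E (u, (s_j)) := det (P (φ_j (u, s_j)))_{ij}` is
analytic on the connected open set `B × ∏ B'`, nonzero at `(u k, s k)`, and zero for `u` in the nonempty
open set of `h` (there is `u ∈ B` near which the rank is `≤ r`), contradicting the identity theorem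
(`AnalyticOnNhd.eqOn_zero_of_preconnected_of_eventuallyEq_zero`). -/
theorem finrank_le_of_frequently (hC : IsConeStructure U C) {u₀ : T} (hu₀ : u₀ ∈ U) (r : ℕ)
    (h : ∃ᶠ u in 𝓝 u₀, ∀ᶠ u' in 𝓝 u, Module.finrank ℂ (fibreSpan C u') ≤ r) :
    ∀ᶠ u in 𝓝 u₀, Module.finrank ℂ (fibreSpan C u) ≤ r := by
  by_contra hcon
  have hf : ∃ᶠ u in 𝓝 u₀, r + 1 ≤ Module.finrank ℂ (fibreSpan C u) := by
    rw [not_eventually] at hcon
    exact hcon.mono fun u hu => not_le.1 hu
  obtain ⟨u, hu, hur⟩ := exists_seq_forall_of_frequently hf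
  choose z hzC hz1 hzi using fun k => exists_unit hC (hur k)
  -- a convergent subsequence
  have hcomp : IsCompact {w : Fin (r + 1) → T | ∀ j, ‖w j‖ = 1} := by
    refine Metric.isCompact_of_isClosed_isBounded ?_ ?_
    · have h1 : {w : Fin (r + 1) → T | ∀ j, ‖w j‖ = 1} = ⋂ j, {w | ‖w j‖ = 1} := by
        ext w; simp
      rw [h1]
      exact isClosed_iInter fun j => isClosed_eq (continuous_apply j).norm continuous_const
    · refine (Metric.isBounded_closedBall (x := (0 : Fin (r + 1) → T)) (r := 1)).subset ?_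
      intro w hw
      rw [mem_closedBall_zero_iff, pi_norm_le_iff_of_nonneg zero_le_one]
      exact fun j => (hw j).le
  obtain ⟨z₀, hz₀, κ, hκ, hzκ⟩ := hcomp.tendsto_subseq (x := z) hz1
  have hz₀' : ∀ j, ‖z₀ j‖ = 1 := hz₀
  have huκ : Tendsto (fun k => u (κ k)) atTop (𝓝 u₀) := hu.comp hκ.tendsto_atTop
  have hzj : ∀ j, Tendsto (fun k => z (κ k) j) atTop (𝓝 (z₀ j)) := fun j =>
    (tendsto_pi_nhds.1 hzκ) j
  have hzC₀ : ∀ j, (u₀, z₀ j) ∈ C := by
    intro j
    refine hC.closed _ ?_ hu₀ (fun h0 => ?_)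
    · exact mem_closure_of_tendsto (huκ.prodMk_nhds (hzj j)) (Eventually.of_forall fun k => hzC _ _)
    · have h1 := hz₀' j
      have h2 : z₀ j = 0 := h0
      rw [h2, norm_zero] at h1
      exact zero_ne_one h1
  choose d φ hφ using fun j => exists_chart hC (hzC₀ j)
  choose s hs hsφ using fun j => lift_near (hφ j) (u := fun k => u (κ k)) (z := fun k => z (κ k) j)
    (fun k => hzC _ _) huκ (hzj j)
  -- a common neighbourhood
  have hN : ∀ᶠ q in 𝓝 (u₀, (fun _ => 0 : ∀ j, Fin (d j) → ℂ)),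
      ∀ j, AnalyticAt ℂ (φ j) (q.1, q.2 j) ∧ (q.1, φ j (q.1, q.2 j)) ∈ C := by
    rw [eventually_all]
    intro j
    have h1 : Tendsto (fun q : T × (∀ j, Fin (d j) → ℂ) => (q.1, q.2 j))
        (𝓝 (u₀, (fun _ => 0 : ∀ j, Fin (d j) → ℂ))) (𝓝 (u₀, 0)) := by
      have h2 : Continuous fun q : T × (∀ j, Fin (d j) → ℂ) => (q.1, q.2 j) :=
        continuous_fst.prodMk ((continuous_apply j).comp continuous_snd)
      exact h2.tendsto (u₀, (fun _ => 0 : ∀ j, Fin (d j) → ℂ))
    exact h1.eventually ((hφ j).an.eventually_analyticAt.and (hφ j).mem)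
  obtain ⟨ρ, hρ, hρN⟩ := Metric.eventually_nhds_iff_ball.1 hN
  -- the good index
  have hq : Tendsto (fun k => (u (κ k), fun j => s j k)) atTop
      (𝓝 (u₀, (fun _ => 0 : ∀ j, Fin (d j) → ℂ))) :=
    huκ.prodMk_nhds (tendsto_pi_nhds.2 hs)
  obtain ⟨k, hk1, hk2⟩ := ((hq.eventually (Metric.ball_mem_nhds _ hρ)).and
    (eventually_all.2 hsφ)).exists
  obtain ⟨P, hP⟩ := exists_coord (hzi (κ k))
  set E : T × (∀ j, Fin (d j) → ℂ) → ℂ := fun q =>
    Matrix.det (Matrix.of fun i j => P (φ j (q.1, q.2 j)) i) with hE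
  have hEan : AnalyticOnNhd ℂ E (Metric.ball (u₀, (fun _ => 0 : ∀ j, Fin (d j) → ℂ)) ρ) := by
    intro q hq
    rw [hE]
    simp only [Matrix.det_apply', Matrix.of_apply]
    refine Finset.analyticAt_fun_sum _ fun σ _ => ?_
    refine analyticAt_const.mul ?_
    refine Finset.analyticAt_fun_prod _ fun i _ => ?_
    have h1 : AnalyticAt ℂ (fun q : T × (∀ j, Fin (d j) → ℂ) => (q.1, q.2 i)) q :=
      ((ContinuousLinearMap.fst ℂ T (∀ j, Fin (d j) → ℂ)).prod
        ((ContinuousLinearMap.proj i).comp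
          (ContinuousLinearMap.snd ℂ T (∀ j, Fin (d j) → ℂ)))).analyticAt q
    have h2 : AnalyticAt ℂ (fun q : T × (∀ j, Fin (d j) → ℂ) => φ i (q.1, q.2 i)) q :=
      ((hρN q hq i).1).comp_of_eq h1 rfl
    exact (((ContinuousLinearMap.proj (σ i) : (Fin (r + 1) → ℂ) →L[ℂ] ℂ).comp P).analyticAt
      _).comp_of_eq h2 rfl
  have hEne : E (u (κ k), fun j => s j k) ≠ 0 := by
    have h1 : (Matrix.of fun i j => P (φ j (u (κ k), s j k)) i) =
        (1 : Matrix (Fin (r + 1)) (Fin (r + 1)) ℂ) := by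
      ext i j
      rw [Matrix.of_apply, hk2 j, hP j, Matrix.one_apply, Pi.single_apply]
    rw [hE]
    simp only [h1, Matrix.det_one]
    exact one_ne_zero
  -- a point where `E` vanishes identically
  have hU : ∀ᶠ u in 𝓝 u₀, (u, (fun _ => 0 : ∀ j, Fin (d j) → ℂ)) ∈
      Metric.ball (u₀, (fun _ => 0 : ∀ j, Fin (d j) → ℂ)) ρ := by
    have h1 : Tendsto (fun u : T => (u, (fun _ => 0 : ∀ j, Fin (d j) → ℂ))) (𝓝 u₀)
        (𝓝 (u₀, (fun _ => 0 : ∀ j, Fin (d j) → ℂ))) :=
      (continuous_id.prodMk continuous_const).tendsto u₀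
    exact h1.eventually (Metric.ball_mem_nhds _ hρ)
  obtain ⟨u₁, hu₁, hu₁b⟩ := (h.and_eventually hU).exists
  have hE0 : E =ᶠ[𝓝 (u₁, (fun _ => 0 : ∀ j, Fin (d j) → ℂ))] 0 := by
    have h1 : ∀ᶠ q in 𝓝 (u₁, (fun _ => 0 : ∀ j, Fin (d j) → ℂ)),
        Module.finrank ℂ (fibreSpan C q.1) ≤ r :=
      (continuous_fst.tendsto (u₁, (fun _ => 0 : ∀ j, Fin (d j) → ℂ))).eventually hu₁
    have h2 : ∀ᶠ q in 𝓝 (u₁, (fun _ => 0 : ∀ j, Fin (d j) → ℂ)),
        q ∈ Metric.ball (u₀, (fun _ => 0 : ∀ j, Fin (d j) → ℂ)) ρ :=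
      Metric.isOpen_ball.mem_nhds hu₁b
    filter_upwards [h1, h2] with q hq1 hq2
    refine det_of_dep P fun hi => ?_
    have h3 := card_le_of_indep (W := fibreSpan C q.1)
      (fun j => Submodule.subset_span (hρN q hq2 j).2) hi
    omega
  have hpre : IsPreconnected (Metric.ball (u₀, (fun _ => 0 : ∀ j, Fin (d j) → ℂ)) ρ) := by
    let _ : NormedSpace ℝ (T × (∀ j, Fin (d j) → ℂ)) :=
      NormedSpace.restrictScalars ℝ ℂ (T × (∀ j, Fin (d j) → ℂ))
    exact (convex_ball _ _).isPreconnected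
  exact hEne (hEan.eqOn_zero_of_preconnected_of_eventuallyEq_zero hpre hu₁b hE0 hk1)

/-- If the rank is `≤ r` near one point of `U` it is `≤ r` on `U`.  (The set of such points is open, and closed
in `U` by `finrank_le_of_frequently`; `U` is connected.) -/
theorem finrank_le_all (hC : IsConeStructure U C) {y : T} (hy : y ∈ U) (r : ℕ)
    (h : ∀ᶠ u in 𝓝 y, Module.finrank ℂ (fibreSpan C u) ≤ r) :
    ∀ x ∈ U, Module.finrank ℂ (fibreSpan C x) ≤ r := by
  have h1 : U ⊆ {x | ∀ᶠ u in 𝓝 x, Module.finrank ℂ (fibreSpan C u) ≤ r} := by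
    refine hC.isConnected.isPreconnected.subset_of_closure_inter_subset isOpen_setOfPred_eventually_nhds
      ⟨y, hy, h⟩ ?_
    rintro x ⟨hx, hxU⟩
    exact finrank_le_of_frequently hC hxU r (mem_closure_iff_frequently.1 hx)
  intro x hx
  exact (h1 hx).self_of_nhds

end Pool.Agent.SEC
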