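import Pool.Agent.SEC.R1
import Pool.Agent.SEC.R2

/-!
SEC-R3a (MP_d19687_ag, project SEC): if one fibre is linearly normal and secant-full in its span then the
distribution has constant rank and all fibres are secant-full in their spans.
-/

open Filter Topology Pool.Agent.MP_d19687_ag Pool.Agent.RIG

namespace Pool.Agent.SEC

variable {T : Type*} [NormedAddCommGroup T] [NormedSpace ℂ T] [FiniteDimensional ℂ T]
  {U : Set T} {C : Set (T × T)}

/-- At nearby points the vertical derivatives of a chart are tangent to the fibre. -/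
private theorem tangent_near {x v : T} {d : ℕ} {φ : T × (Fin d → ℂ) → T} (h : IsChart C x v d φ) :
    ∀ᶠ y in 𝓝 x, φ (y, 0) ∈ fib C y ∧ ∀ s, IsTangent (fib C y) (φ (y, 0)) (vert φ y s) := by
  have h1 : Tendsto (fun y : T => (y, (0 : Fin d → ℂ))) (𝓝 x) (𝓝 (x, (0 : Fin d → ℂ))) := by
    have h2 : Continuous (fun y : T => (y, (0 : Fin d → ℂ))) := by fun_prop
    exact h2.tendsto x
  filter_upwards [h1.eventually h.an.eventually_analyticAt, h1.eventually h.mem.eventually_nhds]
    with y hy hm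
  refine ⟨hm.self_of_nhds, fun s => ?_⟩
  have hz : (y, (0 : ℂ) • s) = (y, (0 : Fin d → ℂ)) := by simp
  have hcur : HasDerivAt (fun t : ℂ => (y, t • s)) ((0 : T), s) 0 := by
    have := (hasDerivAt_const (0 : ℂ) y).prodMk ((hasDerivAt_id (0 : ℂ)).smul_const s)
    simpa using this
  refine ⟨fun t => φ (y, t • s), ?_, ?_, ?_, ?_⟩
  · have h1 : AnalyticAt ℂ φ ((fun t : ℂ => (y, t • s)) 0) := by
      simp only [hz]; exact hy
    have h2 : AnalyticAt ℂ (fun t : ℂ => (y, t • s)) 0 := by fun_prop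
    exact AnalyticAt.fun_comp h1 h2
  · simp only [hz]
  · have h1 : HasFDerivAt φ (fderiv ℂ φ (y, 0)) ((fun t : ℂ => (y, t • s)) 0) := by
      simp only [hz]; exact hy.differentiableAt.hasFDerivAt
    exact (h1.comp_hasDerivAt 0 hcur).deriv
  · have hc : Tendsto (fun t : ℂ => (y, t • s)) (𝓝 0) (𝓝 (y, 0)) := by
      have := hcur.continuousAt.tendsto
      simp only [hz] at this
      exact this
    exact hc.eventually hm

/-- Tangent vectors at the centre of a chart are vertical derivatives. -/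
private theorem exists_vert {x v w : T} {d : ℕ} {φ : T × (Fin d → ℂ) → T} (h : IsChart C x v d φ)
    (hw : IsTangent (fib C x) v w) : ∃ a, vert φ x a = w := by
  have : CompleteSpace T := FiniteDimensional.complete ℂ T
  obtain ⟨a, ha⟩ := (isTangent_iff (chartZ_of_chart h) w).1 hw
  have h1 : HasFDerivAt φ (fderiv ℂ φ (x, (0 : Fin d → ℂ))) (x, (0 : Fin d → ℂ)) :=
    h.an.differentiableAt.hasFDerivAt
  have h2 : HasFDerivAt (fun s : Fin d → ℂ => (x, s)) (ContinuousLinearMap.inr ℂ T (Fin d → ℂ)) 0 :=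
    hasFDerivAt_prodMk_right x 0
  have h3 : HasFDerivAt (fun s : Fin d → ℂ => φ (x, s)) (vert φ x) 0 :=
    HasFDerivAt.comp (g := φ) (f := fun s : Fin d → ℂ => (x, s)) (0 : Fin d → ℂ) h1 h2
  rw [h3.fderiv] at ha
  exact ⟨a, ha⟩

/-- Openness.

Proof. `terRel_of_secRel` at `u₀` (`isSmoothCone_fib`; `fibreSpan C u₀ = span (fib C u₀)` by definition):
charts `φ`, `ψ` at `(u₀, α)`, `(u₀, γ)`; the linear map `(s, s') ↦ vert φ u s + vert ψ u s'` has rank `r` at
`u = u₀`, so rank `≥ r` for `u` near `u₀` (an `r × r` minor), and its range consists of vectors of `fibreSpan C u`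
(they are sums of tangent vectors, `chart_near`, `isTangent_mem_span`), of dimension `≤ r`.  So every vector of
`fibreSpan C u` is a sum of vectors tangent at `φ (u, 0)` and `ψ (u, 0)`: `TerRel (fib C u)`;
`secRel_of_terRel`. -/
theorem secRel_open (hC : IsConeStructure U C) {r : ℕ}
    (hr : ∀ u ∈ U, Module.finrank ℂ (fibreSpan C u) ≤ r) {u₀ : T} (hu₀ : u₀ ∈ U)
    (h0 : Module.finrank ℂ (fibreSpan C u₀) = r) (h : SecRel (fib C u₀)) :
    ∀ᶠ u in 𝓝 u₀, Module.finrank ℂ (fibreSpan C u) = r ∧ SecRel (fib C u) := by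
  obtain ⟨α, hα, γ, hγ, hαγ⟩ := terRel_of_secRel (isSmoothCone_fib hC hu₀) h
  obtain ⟨d, φ, hφ⟩ := exists_chart hC (x := u₀) (v := α) hα
  obtain ⟨d', ψ, hψ⟩ := exists_chart hC (x := u₀) (v := γ) hγ
  let b : Module.Basis (Fin r) ℂ (fibreSpan C u₀) := Module.finBasisOfFinrankEq ℂ _ h0
  have hb : ∀ i, ∃ a₁ : Fin d → ℂ, ∃ a₂ : Fin d' → ℂ,
      vert φ u₀ a₁ + vert ψ u₀ a₂ = (b i : T) := by
    intro i
    obtain ⟨w₁, w₂, h1, h2, h3⟩ := hαγ (b i : T) (b i).2
    obtain ⟨a₁, ha₁⟩ := exists_vert hφ h1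
    obtain ⟨a₂, ha₂⟩ := exists_vert hψ h2
    exact ⟨a₁, a₂, by rw [ha₁, ha₂, h3]⟩
  choose a₁ a₂ ha using hb
  let X : Fin r → T → T := fun i y => vert φ y (a₁ i) + vert ψ y (a₂ i)
  have hXan : ∀ i, AnalyticAt ℂ (X i) u₀ := fun i => by
    have h1 : AnalyticAt ℂ (fun y => vert φ y (a₁ i)) u₀ :=
      ((ContinuousLinearMap.apply ℂ T (a₁ i)).analyticAt _).comp hφ.vert_an
    have h2 : AnalyticAt ℂ (fun y => vert ψ y (a₂ i)) u₀ :=
      ((ContinuousLinearMap.apply ℂ T (a₂ i)).analyticAt _).comp hψ.vert_an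
    exact h1.add h2
  have hX0 : LinearIndependent ℂ (fun i => X i u₀) := by
    have h1 : (fun i => X i u₀) = fun i => (b i : T) := funext fun i => ha i
    rw [h1]
    exact b.linearIndependent.map' (fibreSpan C u₀).subtype (Submodule.ker_subtype _)
  have hind := frame_indep_eventually X u₀ hXan hX0
  filter_upwards [hind, hC.isOpen.mem_nhds hu₀, tangent_near hφ, tangent_near hψ,
    hφ.range_vert_le, hψ.range_vert_le] with u hu huU hφu hψu hφr hψr
  have hle : Submodule.span ℂ (Set.range fun i => X i u) ≤ fibreSpan C u := by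
    rw [Submodule.span_le]
    rintro _ ⟨i, rfl⟩
    exact Submodule.add_mem _ (hφr _) (hψr _)
  have hfr : Module.finrank ℂ (Submodule.span ℂ (Set.range fun i => X i u)) = r := by
    rw [finrank_span_eq_card hu, Fintype.card_fin]
  have heq : Submodule.span ℂ (Set.range fun i => X i u) = fibreSpan C u :=
    Submodule.eq_of_le_of_finrank_le hle (by rw [hfr]; exact hr u huU)
  refine ⟨by rw [← heq, hfr], ?_⟩
  refine secRel_of_terRel (isSmoothCone_fib hC huU)
    ⟨φ (u, 0), hφu.1, ψ (u, 0), hψu.1, fun v hv => ?_⟩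
  have hv' : v ∈ Submodule.span ℂ (Set.range fun i => X i u) := by
    rw [heq]
    exact hv
  obtain ⟨c, hc⟩ := (Submodule.mem_span_range_iff_exists_fun ℂ).1 hv'
  refine ⟨vert φ u (∑ i, c i • a₁ i), vert ψ u (∑ i, c i • a₂ i), hφu.2 _, hψu.2 _, ?_⟩
  rw [← hc, map_sum, map_sum, ← Finset.sum_add_distrib]
  refine Finset.sum_congr rfl fun i _ => ?_
  rw [map_smul, map_smul, ← smul_add]

end Pool.Agent.SEC
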