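import Pool.Agent.SEC.R1
import Pool.Agent.SEC.R2

/-!
SEC-R3b (MP_d19687_ag, project SEC): if one fibre is linearly normal and secant-full in its span then the
distribution has constant rank and all fibres are secant-full in their spans.
-/

open Filter Topology Pool.Agent.MP_d19687_ag Pool.Agent.RIG

namespace Pool.Agent.SEC

variable {T : Type*} [NormedAddCommGroup T] [NormedSpace ℂ T] [FiniteDimensional ℂ T]
  {U : Set T} {C : Set (T × T)}

private theorem mem_span_of_mem_secSet {Z : Set T} {w : T}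
    (hw : w ∈ SecSet Z) : w ∈ Submodule.span ℂ Z := by
  rcases hw with ⟨z, hz, z', hz', rfl⟩ | ⟨z, hz, h⟩
  · exact Submodule.sub_mem _ (Submodule.subset_span hz) (Submodule.subset_span hz')
  · exact isTangent_mem_span h hz

/-- Closedness.

Proof. (1) `finrank (fibreSpan C u₀) = r`: it is `≤ r`.  If it is `< r`, let `P : T →L T` be a projection onto
`fibreSpan C u₀`; `fibreSpan C (u k) ⊓ ker P ≠ ⊥` by dimension; unit vectors `w k` in it; a subsequence
converges to a unit vector `w₀ ∈ ker P`; `w k ∈ SecSet (fib C (u k))`, so `w₀ ∈ SecSet (fib C u₀)`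
(`secSet_fib_closed`), which is contained in `fibreSpan C u₀` (`isTangent_mem_span`): `w₀ = P w₀ = 0`.
(2) `w ∈ fibreSpan C u₀` is `∑ c_i φ_i (u₀, 0)` for charts `φ_i` of points of the fibre at `u₀` (e.g. `exists_proj`,
RIG/J4); `w k := ∑ c_i φ_i (u k, 0) ∈ fibreSpan C (u k)` for `k` large, so `w k ∈ SecSet (fib C (u k))`, and
`w k → w` (`secSet_fib_closed`, after a shift of the sequence). -/
theorem secRel_closed (hC : IsConeStructure U C) {r : ℕ}
    (hr : ∀ u ∈ U, Module.finrank ℂ (fibreSpan C u) ≤ r) {u₀ : T} (hu₀ : u₀ ∈ U) {u : ℕ → T}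
    (hu : Tendsto u atTop (𝓝 u₀)) (huU : ∀ k, u k ∈ U)
    (h : ∀ k, Module.finrank ℂ (fibreSpan C (u k)) = r ∧ SecRel (fib C (u k))) :
    Module.finrank ℂ (fibreSpan C u₀) = r ∧ SecRel (fib C u₀) := by
  refine ⟨le_antisymm (hr u₀ hu₀) ?_, ?_⟩
  · by_contra hlt
    push Not at hlt
    obtain ⟨π, hπ⟩ : (fibreSpan C u₀).ClosedComplemented :=
      Submodule.ClosedComplemented.of_finiteDimensional _
    have hex : ∀ k, ∃ w : T, ‖w‖ = 1 ∧ w ∈ fibreSpan C (u k) ∧ π w = 0 := by
      intro k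
      let f : fibreSpan C (u k) →ₗ[ℂ] fibreSpan C u₀ :=
        (π : T →ₗ[ℂ] fibreSpan C u₀).comp (fibreSpan C (u k)).subtype
      have hker : LinearMap.ker f ≠ ⊥ := by
        refine LinearMap.ker_ne_bot_of_finrank_lt ?_
        rw [(h k).1]
        exact hlt
      obtain ⟨x, hx, hx0⟩ := (Submodule.ne_bot_iff _).1 hker
      have hx0' : (x : T) ≠ 0 := fun h0 => hx0 (Subtype.ext h0)
      have hn : ‖(x : T)‖ ≠ 0 := norm_ne_zero_iff.2 hx0'
      refine ⟨((‖(x : T)‖ : ℂ))⁻¹ • (x : T), ?_, Submodule.smul_mem _ _ x.2, ?_⟩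
      · rw [norm_smul, norm_inv, Complex.norm_real, norm_norm, inv_mul_cancel₀ hn]
      · have h1 : π (x : T) = 0 := hx
        rw [map_smul, h1, smul_zero]
    choose w hw1 hw2 hw3 using hex
    have : ProperSpace T := FiniteDimensional.proper ℂ T
    obtain ⟨w₀, hw₀, ψ, hψ, hlim⟩ := (isCompact_sphere (0 : T) 1).tendsto_subseq
      (x := w) (fun k => by rw [mem_sphere_zero_iff_norm]; exact hw1 k)
    have hsec : w₀ ∈ SecSet (fib C u₀) :=
      secSet_fib_closed hC hu₀ (hu.comp hψ.tendsto_atTop) (w ∘ ψ) w₀ hlim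
        (fun k => (h (ψ k)).2 _ (hw2 (ψ k)))
    have hmem : w₀ ∈ fibreSpan C u₀ := mem_span_of_mem_secSet hsec
    have h0 : π w₀ = 0 := by
      have h1 : Tendsto (fun k => π (w (ψ k))) atTop (𝓝 (π w₀)) :=
        (π.continuous.tendsto w₀).comp hlim
      have h2 : (fun k => π (w (ψ k))) = fun _ => 0 := funext fun k => hw3 (ψ k)
      rw [h2] at h1
      exact tendsto_nhds_unique h1 tendsto_const_nhds
    have h1 := hπ ⟨w₀, hmem⟩
    have h2 : (⟨w₀, hmem⟩ : fibreSpan C u₀) = 0 := by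
      rw [← h1]
      exact h0
    have h3 : w₀ = 0 := congrArg Subtype.val h2
    rw [mem_sphere_zero_iff_norm, h3, norm_zero] at hw₀
    exact zero_ne_one hw₀
  · intro w hw
    obtain ⟨n, v, d, φ, P, hφ, hspan, -, -, -, -, -⟩ := exists_proj hC u₀
    have hw' : w ∈ Submodule.span ℂ (Set.range v) := by
      rw [hspan]
      exact hw
    obtain ⟨c, hc⟩ := (Submodule.mem_span_range_iff_exists_fun ℂ).1 hw'
    have hcont : ContinuousAt (fun y => ∑ i, c i • φ i (y, 0)) u₀ := by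
      refine tendsto_finsetSum _ fun i _ => ?_
      exact ((hφ i).sec_an.continuousAt).const_smul (c i)
    have hval : (∑ i, c i • φ i (u₀, 0)) = w := by
      rw [← hc]
      exact Finset.sum_congr rfl fun i _ => by rw [(hφ i).map0]
    have hmem : ∀ᶠ y in 𝓝 u₀, (∑ i, c i • φ i (y, 0)) ∈ fibreSpan C y := by
      have h1 : ∀ᶠ y in 𝓝 u₀, ∀ i, φ i (y, 0) ∈ fibreSpan C y :=
        eventually_all.2 fun i => (hφ i).sec_mem
      filter_upwards [h1] with y hy
      exact Submodule.sum_mem _ fun i _ => Submodule.smul_mem _ _ (hy i)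
    obtain ⟨K, hK⟩ := eventually_atTop.1 (hu.eventually hmem)
    have hsh : Tendsto (fun k => u (k + K)) atTop (𝓝 u₀) := hu.comp (tendsto_add_atTop_nat K)
    refine secSet_fib_closed hC hu₀ hsh (fun k => ∑ i, c i • φ i (u (k + K), 0)) w ?_
      (fun k => (h (k + K)).2 _ (hK _ (Nat.le_add_left K k)))
    have h2 : Tendsto (fun k => ∑ i, c i • φ i (u (k + K), 0)) atTop
        (𝓝 (∑ i, c i • φ i (u₀, 0))) := hcont.tendsto.comp hsh
    rwa [hval] at h2

end Pool.Agent.SEC
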