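import Pool.Agent.SEC.R3a
import Pool.Agent.SEC.R3b

/-!
SEC-R3c (MP_d19687_ag, project SEC): if one fibre is linearly normal and secant-full in its span then the
distribution has constant rank and all fibres are secant-full in their spans.
-/

open Filter Topology Pool.Agent.MP_d19687_ag Pool.Agent.RIG

namespace Pool.Agent.SEC

variable {T : Type*} [NormedAddCommGroup T] [NormedSpace ℂ T] [FiniteDimensional ℂ T]
  {U : Set T} {C : Set (T × T)}

private theorem structure_aux (hC : IsConeStructure U C) {y : T} (hy : y ∈ regularLocus U C)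
    (h : SecRel (fib C y)) : ∀ u ∈ U,
      Module.finrank ℂ (fibreSpan C u) = Module.finrank ℂ (fibreSpan C y) ∧ SecRel (fib C u) := by
  have hr : ∀ u ∈ U, Module.finrank ℂ (fibreSpan C u) ≤ Module.finrank ℂ (fibreSpan C y) :=
    finrank_le_all hC hy.1 _ (hy.2.mono fun u hu => hu.le)
  let G : Set T := {u | u ∈ U ∧
    (Module.finrank ℂ (fibreSpan C u) = Module.finrank ℂ (fibreSpan C y) ∧ SecRel (fib C u))}
  have hGo : IsOpen G := by
    rw [isOpen_iff_mem_nhds]
    rintro u ⟨huU, hu1, hu2⟩
    have h1 := secRel_open hC hr huU hu1 hu2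
    filter_upwards [h1, hC.isOpen.mem_nhds huU] with u' h2 h3 using ⟨h3, h2⟩
  have hyG : y ∈ G := ⟨hy.1, rfl, h⟩
  have hcl : closure G ∩ U ⊆ G := by
    rintro u ⟨hu, huU⟩
    obtain ⟨s, hs, hst⟩ := mem_closure_iff_seq_limit.1 hu
    exact ⟨huU, secRel_closed hC hr huU hst (fun k => (hs k).1) (fun k => (hs k).2)⟩
  have hUG : U ⊆ G :=
    hC.isConnected.isPreconnected.subset_of_closure_inter_subset hGo ⟨y, hy.1, hyG⟩ hcl
  exact fun u hu => (hUG hu).2

/-- Proof. `r := finrank (fibreSpan C y)`; `y ∈ regularLocus` gives rank `r` near `y`, so rank `≤ r` on `U`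
(`finrank_le_all`).  The set `{u ∈ U | finrank = r ∧ SecRel}` is open (`secRel_open`), closed in `U`
(`secRel_closed`) and contains `y`, so it is `U`. -/
theorem structure_rel (hC : IsConeStructure U C) {y : T} (hy : y ∈ regularLocus U C)
    (h : SecRel (fib C y)) : regularLocus U C = U ∧ ∀ u ∈ U, SecRel (fib C u) := by
  have haux := structure_aux hC hy h
  refine ⟨Set.Subset.antisymm (fun u hu => hu.1) fun u hu => ⟨hu, ?_⟩, fun u hu => (haux u hu).2⟩
  filter_upwards [hC.isOpen.mem_nhds hu] with u' hu'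
  rw [(haux u' hu').1, (haux u hu).1]

/-- With `mem_regularLocus` (RIG/J5). -/
theorem structure_linearlyNormal (hC : IsConeStructure U C) {y : T} (hy : y ∈ U)
    (hLN : LinearlyNormal (fib C y)) (h : SecRel (fib C y)) :
    regularLocus U C = U ∧ ∀ u ∈ U, SecRel (fib C u) :=
  structure_rel hC (mem_regularLocus hC hy hLN) h

/-- If moreover all fibres are rigid there is no symmetry of order `≥ 2` (`rigid_symmetry`, RIG/F5). -/
theorem no_f2_of_rigid (hC : IsConeStructure U C) (hbr : IsBracketGenerating U C) {y : T}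
    (hy : y ∈ U) (hLN : LinearlyNormal (fib C y)) (h : SecRel (fib C y))
    (h2 : 2 ≤ Module.finrank ℂ (fibreSpan C y)) (hrig : ∀ x ∈ U, RigidFibre C x) :
    ∀ x ∈ U, ¬ HasNonzeroF2 C x := by
  rintro x hx ⟨σ, hσ, hne, hO⟩
  have hyr : y ∈ regularLocus U C := mem_regularLocus hC hy hLN
  have haux := structure_aux hC hyr h
  have hxr : x ∈ regularLocus U C := by
    rw [(structure_rel hC hyr h).1]
    exact hx
  refine hne (rigid_symmetry hC hbr hxr (by rw [(haux x hx).1]; exact h2) (hrig x hx) hσ ?_)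
  refine hO.trans ?_
  refine Asymptotics.IsBigO.of_bound 1 ?_
  have h1 : ∀ᶠ z in 𝓝 x, ‖z - x‖ < 1 := by
    filter_upwards [Metric.ball_mem_nhds x one_pos] with z hz
    rwa [Metric.mem_ball, dist_eq_norm] at hz
  filter_upwards [h1] with z hz
  rw [norm_pow, norm_pow, norm_norm, one_mul]
  exact pow_le_pow_of_le_one (norm_nonneg _) hz.le (by norm_num)

end Pool.Agent.SEC
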